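import Mathlib

set_option autoImplicit false

/-! Steklov problem on quadrilaterals, algebra 1: the data of a normalised quadrilateral.
`a = |P|²`, `b = |S|²`, `c = P·S`, `x = P×γ`, `y = γ×S`, `P×S = 1`,
`s = (|S+γ|+|S-γ|)/2`, `ds = (|S+γ|-|S-γ|)/2`, `p, dp` the same with `P`. -/

namespace Pool.Agent.H32.Q4

/-- `|γ|²` -/
def gg (a b c x y : ℝ) : ℝ := y ^ 2 * a + 2 * x * y * c + x ^ 2 * b

/-- data of a normalised quadrilateral -/
structure Geo (a b c x y s p ds dp : ℝ) : Prop where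
  ha : 0 < a
  hb : 0 < b
  hab : a * b - c ^ 2 = 1
  hs : 0 < s
  hp : 0 < p
  hbs : b ≤ s ^ 2
  hap : a ≤ p ^ 2
  hgs : gg a b c x y ≤ s ^ 2
  hgp : gg a b c x y ≤ p ^ 2
  hs2 : s ^ 2 + ds ^ 2 = b + gg a b c x y
  hs3 : s * ds = y * c + x * b
  hp2 : p ^ 2 + dp ^ 2 = a + gg a b c x y
  hp3 : p * dp = y * a + x * c
  hK : 1 ≤ (s ^ 2 - dp ^ 2) * (p ^ 2 - ds ^ 2)

variable {a b c x y s p ds dp : ℝ}

theorem Geo.swap (h : Geo a b c x y s p ds dp) : Geo b a c y x p s dp ds where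
  ha := h.hb
  hb := h.ha
  hab := by have := h.hab; linarith
  hs := h.hp
  hp := h.hs
  hbs := h.hap
  hap := h.hbs
  hgs := by have := h.hgp; unfold gg at *; linarith
  hgp := by have := h.hgs; unfold gg at *; linarith
  hs2 := by have := h.hp2; unfold gg at *; linarith
  hs3 := by have := h.hp3; linarith
  hp2 := by have := h.hs2; unfold gg at *; linarith
  hp3 := by have := h.hs3; linarith
  hK := by have := h.hK; linarith

theorem Geo.flipx (h : Geo a b c x y s p ds dp) : Geo a b (-c) (-x) y s p (-ds) dp where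
  ha := h.ha
  hb := h.hb
  hab := by have := h.hab; linarith
  hs := h.hs
  hp := h.hp
  hbs := h.hbs
  hap := h.hap
  hgs := by have := h.hgs; unfold gg at *; linarith
  hgp := by have := h.hgp; unfold gg at *; linarith
  hs2 := by have := h.hs2; unfold gg at *; linarith
  hs3 := by have := h.hs3; linarith
  hp2 := by have := h.hp2; unfold gg at *; linarith
  hp3 := by have := h.hp3; linarith
  hK := by have := h.hK; rw [neg_sq]; linarith

theorem Geo.flipy (h : Geo a b c x y s p ds dp) : Geo a b (-c) x (-y) s p ds (-dp) :=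
  h.swap.flipx.swap

/-- `e_s = s² - b = |γ|² - ds²` -/
theorem Geo.es_eq (h : Geo a b c x y s p ds dp) :
    s ^ 2 - b = gg a b c x y - ds ^ 2 := by have := h.hs2; linarith

theorem Geo.ep_eq (h : Geo a b c x y s p ds dp) :
    p ^ 2 - a = gg a b c x y - dp ^ 2 := by have := h.hp2; linarith

theorem Geo.es_nonneg (h : Geo a b c x y s p ds dp) : 0 ≤ s ^ 2 - b := by
  have := h.hbs; linarith

theorem Geo.ep_nonneg (h : Geo a b c x y s p ds dp) : 0 ≤ p ^ 2 - a := by
  have := h.hap; linarith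

theorem Geo.gg_nonneg (h : Geo a b c x y s p ds dp) : 0 ≤ gg a b c x y := by
  have h1 := h.es_nonneg
  have h2 := h.es_eq
  nlinarith [sq_nonneg ds]

theorem Geo.es_le (h : Geo a b c x y s p ds dp) : s ^ 2 - b ≤ gg a b c x y := by
  have h2 := h.es_eq
  nlinarith [sq_nonneg ds]

theorem Geo.ep_le (h : Geo a b c x y s p ds dp) : p ^ 2 - a ≤ gg a b c x y := by
  have h2 := h.ep_eq
  nlinarith [sq_nonneg dp]

/-- `e_s (s² - |γ|²) = y²` -/
theorem Geo.es_mul (h : Geo a b c x y s p ds dp) :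
    (s ^ 2 - b) * (s ^ 2 - gg a b c x y) = y ^ 2 := by
  have h1 : s ^ 2 * ds ^ 2 = (y * c + x * b) ^ 2 := by rw [← h.hs3]; ring
  have h2 := h.hs2
  have h3 := h.hab
  have h4 : ds ^ 2 = b + gg a b c x y - s ^ 2 := by linarith
  rw [h4] at h1
  unfold gg at *
  linear_combination (-1 : ℝ) * h1 + y ^ 2 * h3

theorem Geo.ep_mul (h : Geo a b c x y s p ds dp) :
    (p ^ 2 - a) * (p ^ 2 - gg a b c x y) = x ^ 2 := by
  have := h.swap.es_mul
  unfold gg at *
  linarith

/-- `y² / b ≤ e_s` -/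
theorem Geo.es_ge (h : Geo a b c x y s p ds dp) : y ^ 2 ≤ b * (s ^ 2 - b) := by
  have h1 := h.es_mul
  have h2 := h.es_nonneg
  have h3 := h.es_le
  nlinarith [mul_nonneg h2 (sub_nonneg.mpr h3)]

theorem Geo.ep_ge (h : Geo a b c x y s p ds dp) : x ^ 2 ≤ a * (p ^ 2 - a) := by
  have := h.swap.es_ge
  linarith

end Pool.Agent.H32.Q4
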