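import Mathlib
import Pool.Agent.H32.Q4.A1

set_option autoImplicit false

/-! Steklov problem on quadrilaterals, algebra 2: the two identities. -/

namespace Pool.Agent.H32.Q4

variable {a b c x y s p ds dp : ℝ}

theorem Geo.key (h : Geo a b c x y s p ds dp) :
    c * (y * c + x * b) * (y * a + x * c) + x * y * c =
      s ^ 2 * p ^ 2 * (gg a b c x y - (s ^ 2 - b) - (p ^ 2 - a)) +
        (s ^ 2 - b) * (p ^ 2 - a) * (s ^ 2 + p ^ 2 - gg a b c x y) := by
  have H1 := h.es_mul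
  have H2 := h.ep_mul
  have H3 := h.hab
  unfold gg at *
  linear_combination
    (x * y * c - (y ^ 2 * a + 2 * x * y * c + x ^ 2 * b)) * H3 + a * H1 + b * H2

/-- square of the boundary centroid:
`s p (a ds² + 2 c ds dp + b dp²) = ...` -/
theorem Geo.cen (h : Geo a b c x y s p ds dp) :
    (s * p) * (a * ds ^ 2 + 2 * c * ds * dp + b * dp ^ 2) =
      (s * p) * ((s + p) ^ 2 * (gg a b c x y - (s ^ 2 - b) - (p ^ 2 - a)) +
        (x ^ 2 + y ^ 2)) +
      2 * ((s ^ 2 - b) * (p ^ 2 - a) * ((s + p) ^ 2 - s * p - gg a b c x y) - x * y * c) := by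
  have H1 := h.es_mul
  have H2 := h.ep_mul
  have hk := h.key
  have h1 : ds ^ 2 = gg a b c x y - (s ^ 2 - b) := by have := h.es_eq; linarith
  have h2 : dp ^ 2 = gg a b c x y - (p ^ 2 - a) := by have := h.ep_eq; linarith
  have h3 : (s * p) * (2 * c * ds * dp) = 2 * (c * (y * c + x * b) * (y * a + x * c)) := by
    rw [← h.hs3, ← h.hp3]; ring
  have h4 : (s * p) * (a * ds ^ 2 + 2 * c * ds * dp + b * dp ^ 2) =
      (s * p) * (a * ds ^ 2 + b * dp ^ 2) + (s * p) * (2 * c * ds * dp) := by ring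
  rw [h4, h3, h1, h2]
  linear_combination 2 * hk + (s * p) * H1 + (s * p) * H2

/-- second moment of the boundary -/
theorem Geo.var (h : Geo a b c x y s p ds dp) :
    (s * p) * ((s + p) * (s * a + p * b + (s ^ 3 + p ^ 3) / 3 + s * ds ^ 2 + p * dp ^ 2) -
      (a * ds ^ 2 + 2 * c * ds * dp + b * dp ^ 2)) =
      (s * p) * ((s + p) ^ 4 / 3 - (x ^ 2 + y ^ 2)) -
      2 * ((s ^ 2 - b) * (p ^ 2 - a) * ((s + p) ^ 2 - s * p - gg a b c x y) - x * y * c) := by
  have h1 : ds ^ 2 = gg a b c x y - (s ^ 2 - b) := by have := h.es_eq; linarith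
  have h2 : dp ^ 2 = gg a b c x y - (p ^ 2 - a) := by have := h.ep_eq; linarith
  have h5 : (s * p) * ((s + p) * (s * a + p * b + (s ^ 3 + p ^ 3) / 3 + s * ds ^ 2 +
      p * dp ^ 2) - (a * ds ^ 2 + 2 * c * ds * dp + b * dp ^ 2)) =
      (s * p) * ((s + p) * (s * a + p * b + (s ^ 3 + p ^ 3) / 3 + s * ds ^ 2 + p * dp ^ 2)) -
      (s * p) * (a * ds ^ 2 + 2 * c * ds * dp + b * dp ^ 2) := by ring
  rw [h5, h.cen, h1, h2]
  ring

end Pool.Agent.H32.Q4
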