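import Mathlib
import Pool.Agent.H32.Q4.A2

set_option autoImplicit false

/-! Steklov problem on quadrilaterals, algebra 3: basic inequalities. -/

namespace Pool.Agent.H32.Q4

variable {a b c x y s p ds dp : ℝ}

theorem Geo.u_ge (h : Geo a b c x y s p ds dp) : 2 ≤ a + b := by
  have h1 := h.hab
  have h2 := h.ha
  have h3 := h.hb
  nlinarith [sq_nonneg (a - b), sq_nonneg c]

theorem Geo.m_pos (h : Geo a b c x y s p ds dp) : 0 < s * p := mul_pos h.hs h.hp

/-- `1 + min e_s e_p ≤ s p` -/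
theorem Geo.m_ge (h : Geo a b c x y s p ds dp) {mu : ℝ} (h0 : 0 ≤ mu)
    (h1 : mu ≤ s ^ 2 - b) (h2 : mu ≤ p ^ 2 - a) : 1 + mu ≤ s * p := by
  have hm := h.m_pos
  have hu := h.u_ge
  have hab := h.hab
  have ha := h.ha
  have hb := h.hb
  have h3 : (b + mu) * (a + mu) ≤ (s * p) ^ 2 := by
    have : (s * p) ^ 2 = s ^ 2 * p ^ 2 := by ring
    rw [this]
    apply mul_le_mul (by linarith) (by linarith) (by linarith) (sq_nonneg s)
  have h4 : (1 + mu) ^ 2 ≤ (s * p) ^ 2 := by nlinarith [sq_nonneg c]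
  exact le_of_sq_le_sq h4 hm.le |> fun h => h

theorem Geo.m_ge_one (h : Geo a b c x y s p ds dp) : 1 ≤ s * p := by
  have := h.m_ge (le_refl 0) h.es_nonneg h.ep_nonneg
  linarith

/-- `u + 2 ≤ (s+p)²` -/
theorem Geo.Q_ge (h : Geo a b c x y s p ds dp) : a + b + 2 ≤ (s + p) ^ 2 := by
  have h1 := h.m_ge_one
  have h2 := h.hbs
  have h3 := h.hap
  nlinarith

/-- `(Q - m - g) ≤ (1 + u) m` -/
theorem Geo.fac (h : Geo a b c x y s p ds dp) :
    (s + p) ^ 2 - s * p - gg a b c x y ≤ (1 + (a + b)) * (s * p) := by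
  have hu := h.u_ge
  have e1 := h.es_le
  have e2 := h.ep_le
  have e3 := h.es_nonneg
  have e4 := h.ep_nonneg
  rcases le_total (s ^ 2 - b) (p ^ 2 - a) with hc | hc
  · have h1 := h.m_ge e3 (le_refl _) hc
    nlinarith
  · have h1 := h.m_ge e4 hc (le_refl _)
    nlinarith

theorem Geo.c_le (h : Geo a b c x y s p ds dp) : 2 * |c| ≤ a + b := by
  have h1 := h.hab
  have h2 := h.ha
  have h3 := h.hb
  have h4 : (2 * |c|) ^ 2 ≤ (a + b) ^ 2 := by
    rw [mul_pow, sq_abs]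
    nlinarith [sq_nonneg (a - b)]
  exact le_of_sq_le_sq h4 (by linarith)

/-- for convex quadrilaterals `e_s e_p ≤ (s² - g)(p² - g)` -/
theorem Geo.branch (h : Geo a b c x y s p ds dp) (hx : 0 ≤ x) (hy : 0 ≤ y)
    (hxy : x + y ≤ 4 / 5) :
    (s ^ 2 - b) * (p ^ 2 - a) ≤ (s ^ 2 - gg a b c x y) * (p ^ 2 - gg a b c x y) := by
  have hg1 : gg a b c x y ≤ (x + y) * (x * b + y * a) := by
    have := h.c_le
    have h1 : 2 * c ≤ a + b := by linarith [le_abs_self c]
    have h2 := mul_nonneg hx hy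
    unfold gg
    nlinarith
  have hg0 := h.gg_nonneg
  have ha := h.ha
  have hb := h.hb
  have key : gg a b c x y * (x + y) ≤ x * b + y * a := by
    have h1 : 0 ≤ x * b + y * a := by positivity
    have h2 : gg a b c x y * (x + y) ≤ (x + y) * (x * b + y * a) * (x + y) :=
      mul_le_mul_of_nonneg_right hg1 (by linarith)
    nlinarith [mul_nonneg h1 (by nlinarith : (0:ℝ) ≤ 1 - (x + y) ^ 2)]
  have H1 := h.es_mul
  have H2 := h.ep_mul
  have n1 := h.es_nonneg
  have n2 := h.ep_nonneg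
  have k1 := h.hgs
  have k2 := h.hgp
  set g := gg a b c x y with hg
  clear_value g
  have hU0 : 0 ≤ s ^ 2 - g := by linarith
  have hW0 : 0 ≤ p ^ 2 - g := by linarith
  have hUs : (s ^ 2 - g) - (s ^ 2 - b) = b - g := by ring
  have hWs : (p ^ 2 - g) - (p ^ 2 - a) = a - g := by ring
  have hg8 : g ≤ 4 / 5 * (x * b + y * a) := by
    have h1 : 0 ≤ x * b + y * a := by positivity
    nlinarith
  generalize s ^ 2 - g = U at *
  generalize s ^ 2 - b = es at *
  generalize p ^ 2 - g = W at *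
  generalize p ^ 2 - a = ep at *
  have main : 0 ≤ (b - g) * (W + ep) + (a - g) * (U + es) := by
    have q1 : (W + ep) ^ 2 = (a - g) ^ 2 + 4 * x ^ 2 := by rw [← H2, ← hWs]; ring
    have q2 : (U + es) ^ 2 = (b - g) ^ 2 + 4 * y ^ 2 := by rw [← H1, ← hUs]; ring
    have z1 : 0 ≤ W + ep := by linarith
    have z2 : 0 ≤ U + es := by linarith
    have aux : ∀ A B R S' X Y : ℝ, 0 ≤ A → 0 ≤ B → 0 ≤ R → 0 ≤ S' → R ^ 2 = B ^ 2 + 4 * X ^ 2 →
        S' ^ 2 = A ^ 2 + 4 * Y ^ 2 → 0 ≤ X → 0 ≤ Y → B * Y ≤ A * X → B * S' ≤ A * R := by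
      intro A B R S' X Y hA hB hR hS h1 h2 hX hY h3
      have h4 : (B * Y) ^ 2 ≤ (A * X) ^ 2 := pow_le_pow_left₀ (mul_nonneg hB hY) h3 2
      have h5 : (B * S') ^ 2 ≤ (A * R) ^ 2 := by
        rw [mul_pow, mul_pow, h1, h2]; nlinarith
      exact le_of_sq_le_sq h5 (mul_nonneg hA hR)
    rcases le_total g a with ga | ga
    · rcases le_total g b with gb | gb
      · have := mul_nonneg (sub_nonneg.mpr gb) z1
        have := mul_nonneg (sub_nonneg.mpr ga) z2
        linarith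
      · have := aux (a - g) (g - b) (U + es) (W + ep) y x (by linarith) (by linarith) z2 z1
          (by rw [q2]; ring) (by rw [q1]) hy hx (by nlinarith)
        linarith
    · rcases le_total g b with gb | gb
      · have := aux (b - g) (g - a) (W + ep) (U + es) x y (by linarith) (by linarith) z1 z2
          (by rw [q1]; ring) (by rw [q2]) hx hy (by nlinarith)
        linarith
      · -- both `a ≤ g`, `b ≤ g`: impossible unless degenerate
        exfalso
        nlinarith [mul_nonneg hx hb.le, mul_nonneg hy ha.le, mul_nonneg hx (sub_nonneg.mpr gb), mul_nonneg hy (sub_nonneg.mpr ga)]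
  nlinarith [main, hUs, hWs]

/-- `e (0.95 - v) ≤ x² y²` -/
theorem Geo.e_le (h : Geo a b c x y s p ds dp) (hx : 0 ≤ x) (hy : 0 ≤ y)
    (hxy : x + y ≤ 4 / 5) :
    (s ^ 2 - b) * (p ^ 2 - a) * (19 / 20 - (x ^ 2 + y ^ 2)) ≤ x ^ 2 * y ^ 2 := by
  set g := gg a b c x y with hg
  have hb := h.branch hx hy hxy
  have H1 := h.es_mul
  have H2 := h.ep_mul
  have hK := h.hK
  have E1 := h.es_eq
  have E2 := h.ep_eq
  have n1 := h.es_nonneg
  have n2 := h.ep_nonneg
  rw [← hg] at hb H1 H2 E1 E2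
  set es := s ^ 2 - b with hes
  set ep := p ^ 2 - a with hep
  set U := s ^ 2 - g with hU
  set W := p ^ 2 - g with hW
  have hd1 : s ^ 2 - dp ^ 2 = U + ep := by linarith
  have hd2 : p ^ 2 - ds ^ 2 = W + es := by linarith
  rw [hd1, hd2] at hK
  have hPE : (U * W) * (es * ep) = x ^ 2 * y ^ 2 := by
    rw [← H1, ← H2]; ring
  have hsum : 1 - (x ^ 2 + y ^ 2) ≤ U * W + es * ep := by
    rw [← H1, ← H2]; nlinarith
  have he : 0 ≤ es * ep := mul_nonneg n1 n2
  rw [← hPE]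
  have h4pi : 4 * (x ^ 2 * y ^ 2) ≤ 19 / 100 - (x ^ 2 + y ^ 2) / 5 := by
    have h5 : 2 * (x * y) ≤ x ^ 2 + y ^ 2 := by nlinarith [sq_nonneg (x - y)]
    have h6 : 2 * (x * y) ≤ 16 / 25 - (x ^ 2 + y ^ 2) := by nlinarith
    have h7 : 0 ≤ x * y := mul_nonneg hx hy
    nlinarith [mul_nonneg (sub_nonneg.mpr h5) (sub_nonneg.mpr h6),
      mul_nonneg h7 (sub_nonneg.mpr h5), mul_nonneg h7 (sub_nonneg.mpr h6),
      sq_nonneg (x ^ 2 + y ^ 2 - 21 / 50)]
  by_contra hcon
  push_neg at hcon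
  have hepos : 0 < es * ep := by
    rcases he.lt_or_eq with h1 | h1
    · exact h1
    · exfalso; rw [← h1] at hcon; simp at hcon
  have hP : U * W < 19 / 20 - (x ^ 2 + y ^ 2) := by
    by_contra h1
    push_neg at h1
    have := mul_le_mul_of_nonneg_left h1 he
    linarith
  nlinarith

end Pool.Agent.H32.Q4
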