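import Mathlib
import Pool.Agent.H32.Q4.A3

set_option autoImplicit false

/-! Steklov problem on quadrilaterals, algebra 4: the far region, convex part. -/

namespace Pool.Agent.H32.Q4

variable {a b c x y s p ds dp : ℝ}

theorem Geo.Q1 (h : Geo a b c x y s p ds dp) (hle : a ≤ b) :
    a + b + (x ^ 2 + y ^ 2) / b + x ^ 2 * (1 / a - 1 / b) + 2 * (s * p) ≤ (s + p) ^ 2 := by
  have ha := h.ha
  have hb := h.hb
  have h1 : y ^ 2 / b ≤ s ^ 2 - b := by
    rw [div_le_iff₀ hb]; have := h.es_ge; linarith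
  have h2 : x ^ 2 / a ≤ p ^ 2 - a := by
    rw [div_le_iff₀ ha]; have := h.ep_ge; linarith
  have h3 : (x ^ 2 + y ^ 2) / b + x ^ 2 * (1 / a - 1 / b) = y ^ 2 / b + x ^ 2 / a := by
    field_simp; ring
  nlinarith

theorem Geo.m1 (h : Geo a b c x y s p ds dp) (hle : a ≤ b) :
    a * b + (x ^ 2 + y ^ 2) * (a / b) + x ^ 2 * (b / a - a / b) ≤ (s * p) ^ 2 := by
  have ha := h.ha
  have hb := h.hb
  have h1 : y ^ 2 / b ≤ s ^ 2 - b := by
    rw [div_le_iff₀ hb]; have := h.es_ge; linarith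
  have h2 : x ^ 2 / a ≤ p ^ 2 - a := by
    rw [div_le_iff₀ ha]; have := h.ep_ge; linarith
  have h3 : (b + y ^ 2 / b) * (a + x ^ 2 / a) ≤ s ^ 2 * p ^ 2 := by
    apply mul_le_mul (by linarith) (by linarith) (by positivity) (sq_nonneg s)
  have h4 : (b + y ^ 2 / b) * (a + x ^ 2 / a) =
      a * b + (x ^ 2 + y ^ 2) * (a / b) + x ^ 2 * (b / a - a / b) +
        x ^ 2 * y ^ 2 / (a * b) := by
    field_simp; ring
  have h5 : 0 ≤ x ^ 2 * y ^ 2 / (a * b) := by positivity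
  have h6 : (s * p) ^ 2 = s ^ 2 * p ^ 2 := by ring
  linarith

/-- region `v ≥ 0.55`, `u ≤ 2.5` -/
theorem Geo.Q2 (h : Geo a b c x y s p ds dp) (hle : a ≤ b) (hu : a + b ≤ 5 / 2)
    (hv : 11 / 20 ≤ x ^ 2 + y ^ 2) (hv2 : x ^ 2 + y ^ 2 ≤ 16 / 25) :
    4.7642 + 0.73 * (x ^ 2 + y ^ 2 - 0.55) + 2 * (√(a * b) - 1) ≤ (s + p) ^ 2 ∧
      √(a * b) ≤ s * p := by
  have ha := h.ha
  have hb := h.hb
  have hab := h.hab
  set v := x ^ 2 + y ^ 2 with hvdef
  have hab1 : 1 ≤ a * b := by nlinarith [sq_nonneg c]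
  set w := √(a * b) with hw
  have hw2 : w ^ 2 = a * b := Real.sq_sqrt (by positivity)
  have hw1 : 1 ≤ w := by rw [hw]; exact Real.one_le_sqrt.mpr hab1
  set t := 1 / b with ht
  have htb : t * b = 1 := by rw [ht]; field_simp
  have hb2 : b ≤ 2 := by nlinarith
  have hb1 : 1 ≤ b := by nlinarith
  have ht1 : 1 / 2 ≤ t := by rw [ht, div_le_div_iff₀ (by norm_num) hb]; linarith
  have ht2 : t ≤ 1 := by rw [ht, div_le_one hb]; exact hb1
  have hat : a = w ^ 2 * t := by rw [hw2]; nlinarith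
  have hbt : 1 / t = b := by rw [ht]; field_simp
  have hQ := h.Q1 hle
  have hm := h.m1 hle
  have hinv : 1 / b ≤ 1 / a := one_div_le_one_div_of_le ha hle
  have hr : a / b ≤ b / a := by
    rw [div_le_div_iff₀ hb ha]; nlinarith
  have hx2 := sq_nonneg x
  have hm2 : w ^ 2 * (1 + t ^ 2 * v) ≤ (s * p) ^ 2 := by
    have e1 : a / b = w ^ 2 * t ^ 2 := by rw [hat, ht]; field_simp
    have e2 : 0 ≤ x ^ 2 * (b / a - a / b) := mul_nonneg hx2 (by linarith)
    rw [e1] at hm e2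
    nlinarith
  have hmp := h.m_pos
  have hm3 : w * (0.895544 + 0.33 * t + 0.115 * (v - 0.55)) ≤ s * p := by
    have h1 : (0.895544 + 0.33 * t + 0.115 * (v - 0.55)) ^ 2 ≤ 1 + t ^ 2 * v := by
      nlinarith [sq_nonneg (t - 0.67), mul_nonneg (sub_nonneg.mpr ht1) (sub_nonneg.mpr hv),
        mul_nonneg (sub_nonneg.mpr ht1) (sub_nonneg.mpr ht2),
        mul_nonneg (sub_nonneg.mpr hv2) (sub_nonneg.mpr hv),
        mul_nonneg (mul_nonneg (sub_nonneg.mpr ht1) (sub_nonneg.mpr hv)) (sub_nonneg.mpr ht1)]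
    have h2 : (w * (0.895544 + 0.33 * t + 0.115 * (v - 0.55))) ^ 2 ≤ (s * p) ^ 2 := by
      rw [mul_pow]; nlinarith [sq_nonneg w]
    exact le_of_sq_le_sq h2 hmp.le
  have hmw : w ≤ s * p := by
    have h2 : w ^ 2 ≤ (s * p) ^ 2 := by
      have : 0 ≤ w ^ 2 * (t ^ 2 * v) := by positivity
      nlinarith
    exact le_of_sq_le_sq h2 hmp.le
  refine ⟨?_, hmw⟩
  have hz : 1 ≤ 0.895544 + 0.33 * t + 0.115 * (v - 0.55) := by linarith
  have h7 : 0.895544 + 0.33 * t + 0.115 * (v - 0.55) + (w - 1) ≤ s * p := by nlinarith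
  have h8 : 2.9732 ≤ 2.21 * t + b := by
    have : 2.9732 * t ≤ (2.21 * t + b) * t := by nlinarith [sq_nonneg (t - 0.6726)]
    exact le_of_mul_le_mul_right this (by linarith)
  have h9 : v / b = v * t := by rw [ht]; ring
  have h10 : 0 ≤ x ^ 2 * (1 / a - 1 / b) := mul_nonneg hx2 (by linarith)
  have h11 : t ≤ a := by rw [hat]; nlinarith
  rw [h9] at hQ
  nlinarith

end Pool.Agent.H32.Q4
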