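import Mathlib
import Pool.Agent.H32.Q4.A4

set_option autoImplicit false

/-! Steklov problem on quadrilaterals, algebra 5: the far region, convex part, continued. -/

namespace Pool.Agent.H32.Q4

variable {a b c x y s p ds dp : ℝ}

/-- the quantity `Q² V` times `s p` -/
noncomputable def VQ (a b c x y s p : ℝ) : ℝ :=
  (s * p) * ((s + p) ^ 4 / 3 - (x ^ 2 + y ^ 2)) -
      2 * ((s ^ 2 - b) * (p ^ 2 - a) * ((s + p) ^ 2 - s * p - gg a b c x y) - x * y * c)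

theorem Geo.cw (h : Geo a b c x y s p ds dp) : c ^ 2 = √(a * b) ^ 2 - 1 := by
  have := h.hab
  rw [Real.sq_sqrt (mul_nonneg h.ha.le h.hb.le)]
  linarith

theorem Geo.VQ_ge (h : Geo a b c x y s p ds dp) :
    (s * p) * ((s + p) ^ 4 / 3 - (x ^ 2 + y ^ 2)) -
      2 * ((s ^ 2 - b) * (p ^ 2 - a)) * (s + p) ^ 2 - 2 * (|x * y| * |c|) ≤
      VQ a b c x y s p := by
  have h1 := h.gg_nonneg
  have h2 := h.m_pos
  have h3 : 0 ≤ (s ^ 2 - b) * (p ^ 2 - a) := mul_nonneg h.es_nonneg h.ep_nonneg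
  have h4 : -(|x * y| * |c|) ≤ x * y * c := by rw [← abs_mul]; exact neg_abs_le _
  unfold VQ
  nlinarith [mul_nonneg h3 (add_nonneg h2.le h1)]

theorem Geo.far2 (h : Geo a b c x y s p ds dp) (hx : 0 ≤ x) (hy : 0 ≤ y)
    (hxy : x + y ≤ 4 / 5) (hle : a ≤ b) (hu : a + b ≤ 5 / 2)
    (hv : 11 / 20 ≤ x ^ 2 + y ^ 2) :
    1.453 * (s * p) * (s + p) ^ 2 < VQ a b c x y s p := by
  have hv2 : x ^ 2 + y ^ 2 ≤ 16 / 25 := by nlinarith [mul_nonneg hx hy]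
  obtain ⟨hQ, hm⟩ := h.Q2 hle hu hv hv2
  have he := h.e_le hx hy hxy
  have hV := h.VQ_ge
  have hcw := h.cw
  have hab := h.hab
  have hw1 : 1 ≤ √(a * b) := Real.one_le_sqrt.mpr (by nlinarith [sq_nonneg c])
  have he0 : 0 ≤ (s ^ 2 - b) * (p ^ 2 - a) := mul_nonneg h.es_nonneg h.ep_nonneg
  have hxy0 := mul_nonneg hx hy
  rw [abs_of_nonneg hxy0] at hV
  set w := √(a * b) with hw
  set v := x ^ 2 + y ^ 2 with hvd
  set e := (s ^ 2 - b) * (p ^ 2 - a) with hed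
  set m := s * p with hmd
  set Q := (s + p) ^ 2 with hQd
  have h2xy : 2 * (x * y) ≤ 0.64 - v := by nlinarith
  have hee : e ≤ 0.00654 := by
    have h1 : x ^ 2 * y ^ 2 ≤ ((0.64 - v) / 2) ^ 2 := by
      have : x ^ 2 * y ^ 2 = (x * y) ^ 2 := by ring
      rw [this]; exact pow_le_pow_left₀ hxy0 (by linarith) 2
    by_contra hcon
    push_neg at hcon
    nlinarith
  have hcc : |c| ^ 2 = w ^ 2 - 1 := by rw [sq_abs]; exact hcw
  have hc0 := abs_nonneg c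
  have hxy45 : 2 * (x * y) ≤ 0.09 := by linarith
  -- `2 x y |c| ≤ 0.09 |c| ≤ ...`
  have hcost : 2 * (x * y * |c|) ≤ m * (0.0012 + 3.4 * (w - 1)) := by
    have h1 : 2 * (x * y * |c|) ≤ 0.09 * |c| := by nlinarith
    have h3 : 0 ≤ 0.0012 + 3.4 * (w - 1) := by linarith
    have h2 : 0.09 * |c| ≤ 0.0012 + 3.4 * (w - 1) := by
      have : (0.09 * |c|) ^ 2 ≤ (0.0012 + 3.4 * (w - 1)) ^ 2 := by
        rw [mul_pow, hcc]; nlinarith [sq_nonneg (w - 1 - 0.000348)]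
      exact le_of_sq_le_sq this h3
    nlinarith
  have hQ4 : (s + p) ^ 4 = Q ^ 2 := by rw [hQd]; ring
  rw [hQ4] at hV
  have hmp := h.m_pos
  rw [← hmd] at hmp
  have hm1 : 1 ≤ m := le_trans hw1 hm
  have hmain : 0 < Q ^ 2 / 3 - v - 0.01308 * Q - 1.453 * Q - (0.0012 + 3.4 * (w - 1)) := by
    nlinarith
  have h10 : 2 * e * Q ≤ m * (0.01308 * Q) := by
    have hQ0 : 0 ≤ Q := sq_nonneg _
    have : 2 * e * Q ≤ 0.01308 * Q := by nlinarith
    nlinarith [mul_nonneg (sub_nonneg.mpr hm1) hQ0]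
  nlinarith [mul_pos hmp hmain]

end Pool.Agent.H32.Q4
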