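import Mathlib
import Pool.Agent.H32.Q4.A5

set_option autoImplicit false

/-! Steklov problem on quadrilaterals, algebra 6: the far region `a + b ≥ 5/2`. -/

namespace Pool.Agent.H32.Q4

variable {a b c x y s p ds dp : ℝ}

theorem aux1 {t w v : ℝ} (ht : 0 < t) (ht2 : t ≤ 1 / 2) (hw : 1 ≤ w) (hv : 0 ≤ v)
    (hv2 : v ≤ 16 / 25) :
    0 ≤ w ^ 2 * t ^ 2 + 1 - 5 / 2 * t - (1 / 2 - t) * v * t - w * (1 / 4 - t ^ 2) * v * t := by
  have h1 : 0 ≤ 1 / 2 - t := by linarith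
  have h2 : 0 ≤ 1 / 4 - t ^ 2 := by nlinarith
  have h3 : (1 / 2 - t) * v * t ≤ (1 / 2 - t) * (16 / 25) * t := by
    have := mul_nonneg h1 ht.le
    nlinarith [mul_nonneg this (sub_nonneg.mpr hv2)]
  have h4 : w * (1 / 4 - t ^ 2) * v * t ≤ w * (1 / 4 - t ^ 2) * (16 / 25) * t := by
    have : 0 ≤ w * (1 / 4 - t ^ 2) * t := by positivity
    nlinarith [mul_nonneg this (sub_nonneg.mpr hv2)]
  suffices h : 0 ≤ w ^ 2 * t ^ 2 + 1 - 5 / 2 * t - (1 / 2 - t) * (16 / 25) * t -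
      w * (1 / 4 - t ^ 2) * (16 / 25) * t by linarith
  rcases le_total t (1 / 10) with h5 | h5
  · have h6 : w * (1 / 4 - t ^ 2) * (16 / 25) * t ≤ w * t * (4 / 25) := by
      have := mul_nonneg (mul_nonneg (by linarith : (0:ℝ) ≤ w) ht.le) (sq_nonneg t)
      nlinarith
    nlinarith [sq_nonneg (w * t - 2 / 25), mul_nonneg ht.le h1]
  · have h7 : 0 ≤ (w - 1) * t * ((w + 1) * t - (1 / 4 - t ^ 2) * (16 / 25)) := by
      apply mul_nonneg (mul_nonneg (by linarith) ht.le)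
      nlinarith
    have h8 : 0 ≤ (1 - 2 * t) * ((2 - t) / 2 - 8 / 25 * t - (1 + 2 * t) * (4 / 25) * t) := by
      apply mul_nonneg (by linarith)
      nlinarith
    nlinarith

/-- the data `t = 1/b`, `w = √(ab)` -/
theorem Geo.tw (h : Geo a b c x y s p ds dp) (hle : a ≤ b) :
    0 < 1 / b ∧ 1 ≤ √(a * b) ∧ √(a * b) ^ 2 = a * b ∧ a = √(a * b) ^ 2 * (1 / b) ∧
    √(a * b) ^ 2 * (1 + (1 / b) ^ 2 * (x ^ 2 + y ^ 2)) + x ^ 2 * (b / a - a / b) ≤ (s * p) ^ 2 ∧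
    0 ≤ x ^ 2 * (b / a - a / b) ∧ 0 ≤ x ^ 2 * (1 / a - 1 / b) := by
  have ha := h.ha
  have hb := h.hb
  have hab := h.hab
  have hab1 : 1 ≤ a * b := by nlinarith [sq_nonneg c]
  have hw2 : √(a * b) ^ 2 = a * b := Real.sq_sqrt (by positivity)
  have hm := h.m1 hle
  have hinv : 1 / b ≤ 1 / a := one_div_le_one_div_of_le ha hle
  have hr : a / b ≤ b / a := by rw [div_le_div_iff₀ hb ha]; nlinarith
  refine ⟨by positivity, Real.one_le_sqrt.mpr hab1, hw2, ?_, ?_,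
    mul_nonneg (sq_nonneg x) (by linarith), mul_nonneg (sq_nonneg x) (by linarith)⟩
  · rw [hw2]; field_simp
  · rw [hw2]
    have e1 : a * b * (1 + (1 / b) ^ 2 * (x ^ 2 + y ^ 2)) =
        a * b + (x ^ 2 + y ^ 2) * (a / b) := by field_simp
    rw [e1]; exact hm

/-- lower bound for `Q`, case A -/
theorem Geo.Q3A (h : Geo a b c x y s p ds dp) (hle : a ≤ b) (hu : 5 / 2 ≤ a + b)
    (hv2 : x ^ 2 + y ^ 2 ≤ 16 / 25) :
    5 / 2 + (x ^ 2 + y ^ 2) / 2 + 2 * √(a * b) * (1 + (x ^ 2 + y ^ 2) / 8 -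
      (x ^ 2 + y ^ 2) ^ 2 / 128) ≤ (s + p) ^ 2 ∧ √(a * b) ≤ s * p := by
  obtain ⟨ht, hw1, hw2, hat, hm, hx1, hx2⟩ := h.tw hle
  have hQ := h.Q1 hle
  have hv : 0 ≤ x ^ 2 + y ^ 2 := by positivity
  have hmp := h.m_pos
  have hb := h.hb
  set w := √(a * b) with hw
  set v := x ^ 2 + y ^ 2 with hvd
  have htb : 1 / b * b = 1 := by field_simp
  have h9 : v / b = v * (1 / b) := by ring
  rw [h9] at hQ
  set t := 1 / b with htd
  have hrho0 : 0 ≤ 1 + v / 8 - v ^ 2 / 128 := by nlinarith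
  have hrho : (1 + v / 8 - v ^ 2 / 128) ^ 2 ≤ 1 + v / 4 := by nlinarith [mul_nonneg hv (mul_nonneg hv hv)]
  have hmw : w ≤ s * p := by
    have h2 : w ^ 2 ≤ (s * p) ^ 2 := by
      have : 0 ≤ w ^ 2 * (t ^ 2 * v) := by positivity
      nlinarith
    exact le_of_sq_le_sq h2 hmp.le
  refine ⟨?_, hmw⟩
  rcases le_total t (1 / 2) with ht2 | ht2
  · -- t ≤ 1/2
    have hD0 : 0 ≤ (1 / 4 - t ^ 2) * v := mul_nonneg (by nlinarith) hv
    have hD : (1 / 4 - t ^ 2) * v ≤ v / 4 := by nlinarith [mul_nonneg (sq_nonneg t) hv]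
    have h1 : (1 + v / 8 - v ^ 2 / 128 - (1 / 4 - t ^ 2) * v / 2) ^ 2 ≤ 1 + t ^ 2 * v := by
      nlinarith [mul_nonneg hD0 (sub_nonneg.mpr hD), mul_nonneg hD0 hv, mul_nonneg hD0 (mul_nonneg hv (sub_nonneg.mpr hv2))]
    have h2 : w * (1 + v / 8 - v ^ 2 / 128 - (1 / 4 - t ^ 2) * v / 2) ≤ s * p := by
      have : (w * (1 + v / 8 - v ^ 2 / 128 - (1 / 4 - t ^ 2) * v / 2)) ^ 2 ≤ (s * p) ^ 2 := by
        rw [mul_pow]; nlinarith [mul_le_mul_of_nonneg_left h1 (sq_nonneg w)]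
      exact le_of_sq_le_sq this hmp.le
    have h3 := aux1 ht ht2 hw1 hv hv2
    have h4 : 0 ≤ w ^ 2 * t + b - 5 / 2 - (1 / 2 - t) * v - w * (1 / 4 - t ^ 2) * v := by
      have : (w ^ 2 * t + b - 5 / 2 - (1 / 2 - t) * v - w * (1 / 4 - t ^ 2) * v) * t =
        w ^ 2 * t ^ 2 + t * b - 5 / 2 * t - (1 / 2 - t) * v * t - w * (1 / 4 - t ^ 2) * v * t := by
        ring
      rw [htb] at this
      rw [← this] at h3
      exact nonneg_of_mul_nonneg_left h3 ht |> fun h => h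
    nlinarith
  · have h1 : w * (1 + v / 8 - v ^ 2 / 128) ≤ s * p := by
      have h5 : 1 + v / 4 ≤ 1 + t ^ 2 * v := by nlinarith [mul_nonneg hv (by nlinarith : (0:ℝ) ≤ t ^ 2 - 1 / 4)]
      have : (w * (1 + v / 8 - v ^ 2 / 128)) ^ 2 ≤ (s * p) ^ 2 := by
        rw [mul_pow]; nlinarith [mul_le_mul_of_nonneg_left (hrho.trans h5) (sq_nonneg w)]
      exact le_of_sq_le_sq this hmp.le
    nlinarith [mul_nonneg hv (sub_nonneg.mpr ht2)]

/-- the algebra of `Q3B`: `v = x² + y²`, `z = c² + 1.97 x²`, `t = 1/b`, `m = s p` -/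
theorem Q3B_alg {v z t m : ℝ} (hv : 0 ≤ v) (hv2 : v ≤ 16 / 25) (hz : 0 ≤ z) (hz2 : z ≤ 1.561)
    (hm : 0 < m) (ht0 : 0 < t) (h : 1 + z + t ^ 2 * v ≤ m ^ 2) :
    5 / 2 + v / 2 + 2 * (1 + v / 8 - v ^ 2 / 128) + 0.7272 * z ≤
      max (5 / 2) (t + 1 / t) + v * t + 2 * m := by
  have hv3 : v ^ 2 ≤ 16 / 25 * v := by nlinarith
  have hr1 : 1 ≤ 1 + v / 8 - v ^ 2 / 128 := by nlinarith
  have hr2 : 1 + v / 8 - v ^ 2 / 128 ≤ 1.0768 := by
    nlinarith [mul_nonneg (sub_nonneg.mpr hv2) (by linarith : (0:ℝ) ≤ 16 - 16 / 25 - v)]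
  have hr3 : (1 + v / 8 - v ^ 2 / 128) ^ 2 ≤ 1 + v / 4 := by
    have h1 : 0 ≤ v ^ 3 * (32 - v) := by
      have h1 : 0 ≤ v ^ 3 := by positivity
      exact mul_nonneg h1 (by linarith)
    have e : (1 + v / 8 - v ^ 2 / 128) ^ 2 = 1 + v / 4 - v ^ 3 * (32 - v) / 16384 := by ring
    rw [e]
    linarith
  set r := 1 + v / 8 - v ^ 2 / 128 with hr
  clear_value r
  have h1 : (r + 0.3636 * z) ^ 2 ≤ 1 + v / 4 + z := by
    have e : (r + 0.3636 * z) ^ 2 = r ^ 2 + z * (0.7272 * r + 0.13220496 * z) := by ring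
    rw [e]
    have : z * (0.7272 * r + 0.13220496 * z) ≤ z * 1 :=
      mul_le_mul_of_nonneg_left (by linarith) hz
    linarith
  rcases le_total (1 / 2) t with ht | ht
  · have h2 : (r + 0.3636 * z) ^ 2 ≤ m ^ 2 := by
      have h0 : 1 / 4 ≤ t ^ 2 := by nlinarith
      have : 1 / 4 * v ≤ t ^ 2 * v := mul_le_mul_of_nonneg_right h0 hv
      linarith
    have h3 : r + 0.3636 * z ≤ m := le_of_sq_le_sq h2 hm.le
    have h4 : v * (1 / 2) ≤ v * t := mul_le_mul_of_nonneg_left ht hv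
    have h5 := le_max_left (5 / 2) (t + 1 / t)
    linarith
  · set D := (1 / 4 - t ^ 2) * v with hD
    have hD0 : 0 ≤ D := mul_nonneg (by nlinarith) hv
    have hD1 : D ≤ 4 / 25 := by nlinarith [mul_nonneg (sq_nonneg t) hv]
    have h2 : (r + 0.3636 * z - 0.65 * D) ^ 2 ≤ m ^ 2 := by
      have e : (r + 0.3636 * z - 0.65 * D) ^ 2 = (r + 0.3636 * z) ^ 2 -
        D * (1.3 * (r + 0.3636 * z) - 0.4225 * D) := by ring
      have : D * 1 ≤ D * (1.3 * (r + 0.3636 * z) - 0.4225 * D) :=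
        mul_le_mul_of_nonneg_left (by linarith) hD0
      rw [e]
      have e2 : t ^ 2 * v = v / 4 - D := by rw [hD]; ring
      linarith
    have h3 : r + 0.3636 * z - 0.65 * D ≤ m := le_of_sq_le_sq h2 hm.le
    have h4 : t + 1 / t - 5 / 2 = (1 / 2 - t) * (2 - t) * (1 / t) := by field_simp; ring
    have h5 : 2 ≤ 1 / t := by rw [le_div_iff₀ ht0]; linarith
    have h6 : (1 / 2 - t) * (2 - t) * 2 ≤ t + 1 / t - 5 / 2 := by
      rw [h4]
      exact mul_le_mul_of_nonneg_left h5 (mul_nonneg (by linarith) (by linarith))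
    have h7 : v / 2 - v * t + 1.3 * D ≤ (1 / 2 - t) * 1.472 := by
      have e : v / 2 - v * t + 1.3 * D = (1 / 2 - t) * (v * (1 + 1.3 * (1 / 2 + t))) := by
        rw [hD]; ring
      rw [e]
      apply mul_le_mul_of_nonneg_left _ (by linarith)
      have : v * (1 + 1.3 * (1 / 2 + t)) ≤ 16 / 25 * 2.3 :=
        mul_le_mul hv2 (by linarith) (by linarith) (by norm_num)
      linarith
    have h8 := le_max_right (5 / 2) (t + 1 / t)
    have h9 : (1 / 2 - t) * 1.472 ≤ (1 / 2 - t) * (2 - t) * 2 := by nlinarith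
    linarith

/-- lower bound for `Q`, case B: `c² ≤ 0.3` -/
theorem Geo.Q3B (h : Geo a b c x y s p ds dp) (hle : a ≤ b) (hu : 5 / 2 ≤ a + b)
    (hv2 : x ^ 2 + y ^ 2 ≤ 16 / 25) (hc : c ^ 2 ≤ 3 / 10) :
    9 / 2 + 3 / 4 * (x ^ 2 + y ^ 2) - (x ^ 2 + y ^ 2) ^ 2 / 64 + 2.22 * x ^ 2 + 0.727 * c ^ 2 ≤
      (s + p) ^ 2 := by
  have ha := h.ha
  have hb := h.hb
  have hab := h.hab
  have hQ := h.Q1 hle
  have hm := h.m1 hle
  have hmp := h.m_pos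
  have hx2 := sq_nonneg x
  have hc2 := sq_nonneg c
  have hv : 0 ≤ x ^ 2 + y ^ 2 := by positivity
  have hxv : x ^ 2 ≤ x ^ 2 + y ^ 2 := by nlinarith [sq_nonneg y]
  have hab1 : a * b = 1 + c ^ 2 := by linarith
  have hd : 1.0246 ≤ b - a := by
    have : 1.0246 ^ 2 ≤ (b - a) ^ 2 := by nlinarith
    exact le_of_sq_le_sq this (by linarith)
  have hk1 : 0.788 ≤ 1 / a - 1 / b := by
    rw [div_sub_div _ _ ha.ne' hb.ne', le_div_iff₀ (mul_pos ha hb)]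
    rw [hab1]; linarith
  have hk2 : 1.97 ≤ b / a - a / b := by
    rw [div_sub_div _ _ ha.ne' hb.ne', le_div_iff₀ (mul_pos ha hb)]
    rw [hab1]
    nlinarith
  have e1 : x ^ 2 * 0.788 ≤ x ^ 2 * (1 / a - 1 / b) := mul_le_mul_of_nonneg_left hk1 hx2
  have e2 : x ^ 2 * 1.97 ≤ x ^ 2 * (b / a - a / b) := mul_le_mul_of_nonneg_left hk2 hx2
  have ht0 : 0 < 1 / b := by positivity
  have e3 : (1 / b) ^ 2 ≤ a / b := by
    rw [div_pow, one_pow, div_le_div_iff₀ (by positivity) hb]; nlinarith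
  have e4 : (1 / b) ^ 2 * (x ^ 2 + y ^ 2) ≤ (x ^ 2 + y ^ 2) * (a / b) := by
    rw [mul_comm]; exact mul_le_mul_of_nonneg_left e3 hv
  have e5 : 1 / b + 1 / (1 / b) ≤ a + b := by
    have : 1 / b ≤ a := by rw [div_le_iff₀ hb]; linarith
    rw [one_div_one_div]; linarith
  have key := Q3B_alg (v := x ^ 2 + y ^ 2) (z := c ^ 2 + 1.97 * x ^ 2) (t := 1 / b) (m := s * p)
    hv hv2 (by positivity) (by linarith) hmp ht0 (by linarith)
  have e6 : max (5 / 2) (1 / b + 1 / (1 / b)) ≤ a + b := max_le hu e5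
  have e7 : (x ^ 2 + y ^ 2) / b = (x ^ 2 + y ^ 2) * (1 / b) := by ring
  rw [e7] at hQ
  linarith

end Pool.Agent.H32.Q4
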