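import Mathlib
import Pool.Agent.H32.Q4.A6

set_option autoImplicit false

/-! Steklov problem on quadrilaterals, algebra 7s: the far region, scalar inequalities. -/

namespace Pool.Agent.H32.Q4

variable {a b c x y s p ds dp : ℝ}

theorem A7s_aux1 {v w : ℝ} (hv : 0 ≤ v) (hw : 0 ≤ w) (h1 : v + 2 * w ≤ 16 / 25) (h2 : 2 * w ≤ v) :
    2 * (w ^ 2 / (19 / 20 - v)) / 1.14 ≤ 0.00634 + 0.27918 * v - 0.0035 * v ^ 2 := by
  have hd : 0 < 19 / 20 - v := by linarith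
  rw [div_le_iff₀ (by norm_num), ← mul_div_assoc, div_le_iff₀ hd]
  have h3 : 4 * w ^ 2 ≤ v * (16 / 25 - v) := by nlinarith
  have hv2 : v ≤ 16 / 25 := by linarith
  nlinarith [sq_nonneg (v - 0.0692), mul_nonneg hv (mul_nonneg hv hv)]

/-- A7a. case A: on `x, y ≥ 0`, `x + y ≤ 4/5`, with `Q0 = 5/2 + v/2 + 2.28 (1 + v/8 - v²/128)`;
minimum of the difference is `.0249` at `x = y = .4`. -/
theorem far1A_sc (hx : 0 ≤ x) (hy : 0 ≤ y) (hxy : x + y ≤ 4 / 5) {Q : ℝ}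
    (hQ : 5 / 2 + (x ^ 2 + y ^ 2) / 2 + 2.28 * (1 + (x ^ 2 + y ^ 2) / 8 -
      (x ^ 2 + y ^ 2) ^ 2 / 128) ≤ Q) :
    1.4531 < Q / 3 - (x ^ 2 + y ^ 2) / Q - 2 * (x * y) / Q -
      2 * (x ^ 2 * y ^ 2 / (19 / 20 - (x ^ 2 + y ^ 2))) / 1.14 := by
  have hw : 0 ≤ x * y := mul_nonneg hx hy
  have hv : 0 ≤ x ^ 2 + y ^ 2 := by positivity
  have h1 : (x ^ 2 + y ^ 2) + 2 * (x * y) ≤ 16 / 25 := by nlinarith
  have h2 : 2 * (x * y) ≤ x ^ 2 + y ^ 2 := by nlinarith [sq_nonneg (x - y)]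
  have h3 := A7s_aux1 hv hw h1 h2
  have e : (x * y) ^ 2 = x ^ 2 * y ^ 2 := by ring
  rw [e] at h3
  generalize hvv : x ^ 2 + y ^ 2 = v at *
  generalize x * y = w at *
  generalize x ^ 2 * y ^ 2 = u at *
  have hv2 : v ≤ 16 / 25 := by linarith
  have hQ1 : 4.78 + 0.773 * v ≤ Q := by nlinarith
  have hQ0 : 0 < Q := by linarith
  have h4 : v / Q + 2 * w / Q ≤ 0.133892 - 0.02152 * v + 0.0035 * v ^ 2 := by
    rw [← add_div, div_le_iff₀ hQ0]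
    have h5 : 0 ≤ 0.133892 - 0.02152 * v + 0.0035 * v ^ 2 := by nlinarith
    calc v + 2 * w ≤ (0.133892 - 0.02152 * v + 0.0035 * v ^ 2) * (4.78 + 0.773 * v) := by nlinarith [mul_nonneg hv hv, mul_nonneg hv (mul_nonneg hv hv)]
      _ ≤ _ := mul_le_mul_of_nonneg_left hQ1 h5
  linarith

/-- A7b. case B: the minimum of the difference is `.0368` (near `x = .213, y = .587`). -/
theorem far1B_sc (hx : 0 ≤ x) (hy : 0 ≤ y) (hxy : x + y ≤ 4 / 5) :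
    (x ^ 2 + y ^ 2) / (9 / 2 + 0.74 * (x ^ 2 + y ^ 2)) +
      x ^ 2 * y ^ 2 * (2 / (19 / 20 - (x ^ 2 + y ^ 2)) + 0.2039) <
      0.047 + (x ^ 2 + y ^ 2) / 4 - (x ^ 2 + y ^ 2) ^ 2 / 192 + 0.74 * x ^ 2 := by
  have hw : 0 ≤ x * y := mul_nonneg hx hy
  have hv : 0 ≤ x ^ 2 + y ^ 2 := by positivity
  have h1 : (x ^ 2 + y ^ 2) + 2 * (x * y) ≤ 16 / 25 := by nlinarith
  have hv2 : x ^ 2 + y ^ 2 ≤ 16 / 25 := by linarith
  have hd : 0 < 19 / 20 - (x ^ 2 + y ^ 2) := by linarith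
  have h2 : (x ^ 2 + y ^ 2) / (9 / 2 + 0.74 * (x ^ 2 + y ^ 2)) ≤
      (x ^ 2 + y ^ 2) * (0.2222223 - 0.033 * (x ^ 2 + y ^ 2)) := by
    rw [div_le_iff₀ (by positivity)]
    nlinarith [mul_nonneg hv hv, mul_nonneg hv (mul_nonneg hv hv)]
  have hy1 : y ≤ 4 / 5 - x := by linarith
  have h3 : x ^ 2 * y ^ 2 * (2 / (19 / 20 - (x ^ 2 + y ^ 2))) <
      0.046 + 0.0277 * (x ^ 2 + y ^ 2) + 0.027 * (x ^ 2 + y ^ 2) ^ 2 + 0.74 * x ^ 2 - 0.2039 * (x ^ 2 * y ^ 2) := by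
    rw [mul_div_assoc', div_lt_iff₀ hd]
    have g1 : 0 < (0.31 + 1.6 * x - 2 * x ^ 2) * (0.063728 - 0.04432 * x + 0.7954 * x ^ 2)
        - 2.194 * (x ^ 2 * (4 / 5 - x) ^ 2) := by
      nlinarith [mul_nonneg (mul_nonneg hx (sub_nonneg.2 (show x ≤ 4 / 5 by linarith)))
        (sq_nonneg (x - 0.2)), mul_nonneg (show (0:ℝ) ≤ x + 0.36 by linarith) (sq_nonneg (x - 0.18)), sq_nonneg x]
    have hY : y ^ 2 ≤ (4 / 5 - x) ^ 2 := pow_le_pow_left₀ hy hy1 2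
    have hY0 : 0 ≤ y ^ 2 := sq_nonneg y
    -- the bound at `y`
    have g2 : 0 < (19 / 20 - (x ^ 2 + y ^ 2)) * (0.046 + 0.0277 * (x ^ 2 + y ^ 2) + 0.74 * x ^ 2)
        - 2.194 * (x ^ 2 * y ^ 2) := by
      have hX : 0 ≤ x ^ 2 := sq_nonneg x
      have hXY : x ^ 2 + (4 / 5 - x) ^ 2 ≤ 16 / 25 := by nlinarith
      generalize hz : (4 / 5 - x) ^ 2 = z at *
      have e1 : (0.31 + 1.6 * x - 2 * x ^ 2) = 19 / 20 - (x ^ 2 + z) := by rw [← hz]; ring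
      have e2 : (0.063728 - 0.04432 * x + 0.7954 * x ^ 2) = 0.046 + 0.0277 * (x ^ 2 + z) + 0.74 * x ^ 2 := by
        rw [← hz]; ring
      rw [e1, e2] at g1
      nlinarith [mul_nonneg (sub_nonneg.2 hY) hX, mul_nonneg (sub_nonneg.2 hY) hY0, mul_nonneg (sub_nonneg.2 hY) (sub_nonneg.2 hXY)]
    have hd1 : 19 / 20 - (x ^ 2 + y ^ 2) ≤ 19 / 20 := by linarith
    nlinarith [mul_nonneg hd.le (sq_nonneg (x ^ 2 + y ^ 2)), mul_nonneg (mul_nonneg hw hw) hv]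
  nlinarith

end Pool.Agent.H32.Q4
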