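import Mathlib
import Pool.Agent.H32.Q4.A6
import Pool.Agent.H32.Q4.A7s

set_option autoImplicit false

/-! Steklov problem on quadrilaterals, algebra 7: the far region `a + b ≥ 5/2`, end. -/

namespace Pool.Agent.H32.Q4

variable {a b c x y s p ds dp : ℝ}

theorem far1A_alg {m Q v X C e E : ℝ} (hm : 1.14 ≤ m) (hQ : 0 < Q) (hX : 0 ≤ X)
    (hC : C ≤ m) (he : e ≤ E) (hE : 0 ≤ E)
    (h : 1.4531 < Q / 3 - v / Q - 2 * X / Q - 2 * E / 1.14) :
    1.453 * m * Q < m * (Q ^ 2 / 3 - v) - 2 * e * Q - 2 * (X * C) := by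
  have hm0 : 0 < m := by linarith
  have hmQ : 0 < m * Q := mul_pos hm0 hQ
  have h1 := mul_lt_mul_of_pos_left h hmQ
  have e1 : m * Q * (Q / 3 - v / Q - 2 * X / Q - 2 * E / 1.14) =
      m * (Q ^ 2 / 3 - v) - 2 * (X * m) - 2 * (E * (m / 1.14)) * Q := by
    field_simp
  rw [e1] at h1
  have h2 : X * C ≤ X * m := mul_le_mul_of_nonneg_left hC hX
  have h3 : e ≤ E * (m / 1.14) := by
    have : 1 ≤ m / 1.14 := by rw [le_div_iff₀ (by norm_num)]; linarith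
    have := mul_le_mul_of_nonneg_left this hE
    linarith
  have h4 : e * Q ≤ E * (m / 1.14) * Q := mul_le_mul_of_nonneg_right h3 hQ.le
  nlinarith

theorem far1B_alg {m Q v X C e E B : ℝ} (hm : 1 ≤ m) (hX : 0 ≤ X) (hC : 0 ≤ C) (he0 : 0 ≤ e)
    (he : e ≤ E) (hv : 0 ≤ v) (hv2 : v ≤ 16 / 25) (hB : 0 ≤ B)
    (hQ : 9 / 2 + 3 / 4 * v - v ^ 2 / 64 + 2.22 * B + 0.727 * C ^ 2 ≤ Q)
    (h : v / (9 / 2 + 0.74 * v) + 2 * E + 0.2039 * X ^ 2 <
      0.047 + v / 4 - v ^ 2 / 192 + 0.74 * B) :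
    1.453 * m * Q < m * (Q ^ 2 / 3 - v) - 2 * e * Q - 2 * (X * C) := by
  have hC2 := sq_nonneg C
  have hQ1 : 9 / 2 + 0.74 * v ≤ Q := by nlinarith
  have hQ0 : 0 < Q := by linarith
  have hp : 0 < 9 / 2 + 0.74 * v := by linarith
  have h1 : v / Q ≤ v / (9 / 2 + 0.74 * v) := div_le_div_of_nonneg_left hv hp hQ1
  have h2 : 2 * (X * C) / Q ≤ 0.2423 * C ^ 2 + 0.2039 * X ^ 2 := by
    rw [div_le_iff₀ hQ0]
    have h3 : 4 / 9 * (X * C) ≤ 0.2423 * C ^ 2 + 0.2039 * X ^ 2 := by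
      nlinarith [sq_nonneg (C - 0.9171 * X), mul_nonneg hX hC, sq_nonneg X]
    have h4 : 0 ≤ 0.2423 * C ^ 2 + 0.2039 * X ^ 2 := by positivity
    have h5 : 9 / 2 ≤ Q := by linarith
    nlinarith [mul_le_mul_of_nonneg_left h5 h4]
  have h3 : 1.453 < Q / 3 - v / Q - 2 * e - 2 * (X * C) / Q := by linarith
  have h4 := mul_lt_mul_of_pos_left h3 hQ0
  have e1 : Q * (Q / 3 - v / Q - 2 * e - 2 * (X * C) / Q) =
      Q ^ 2 / 3 - v - 2 * e * Q - 2 * (X * C) := by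
    field_simp
  rw [e1] at h4
  have h5 : 0 ≤ 2 * e * Q + 2 * (X * C) := by positivity
  have h6 := mul_nonneg (sub_nonneg.mpr hm) h5
  have h7 := mul_lt_mul_of_pos_left h4 (by linarith : (0:ℝ) < m)
  nlinarith

/-- A7c. case A: `c² ≥ 3/10`; then `w = √(1+c²) ≥ 1.14`, `|c| ≤ w ≤ m`, use `Geo.Q3A`,
`Geo.VQ_ge`, `Geo.e_le`, A7a. -/
theorem Geo.far1A (h : Geo a b c x y s p ds dp) (hx : 0 ≤ x) (hy : 0 ≤ y)
    (hxy : x + y ≤ 4 / 5) (hle : a ≤ b) (hu : 5 / 2 ≤ a + b) (hc : 3 / 10 ≤ c ^ 2) :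
    1.453 * (s * p) * (s + p) ^ 2 < VQ a b c x y s p := by
  have hxy0 := mul_nonneg hx hy
  have hv : 0 ≤ x ^ 2 + y ^ 2 := by positivity
  have hv2 : x ^ 2 + y ^ 2 ≤ 16 / 25 := by nlinarith
  obtain ⟨hQ, hm⟩ := h.Q3A hle hu hv2
  have he := h.e_le hx hy hxy
  have hV := h.VQ_ge
  have hcw := h.cw
  have hw : 1.14 ≤ √(a * b) := by
    apply Real.le_sqrt_of_sq_le
    have := h.hab
    nlinarith
  have hcm : |c| ≤ s * p := by
    refine le_trans ?_ hm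
    have : |c| ^ 2 ≤ √(a * b) ^ 2 := by rw [sq_abs, hcw]; linarith
    exact le_of_sq_le_sq this (Real.sqrt_nonneg _)
  rw [abs_of_nonneg hxy0] at hV
  have hr : 0 ≤ 1 + (x ^ 2 + y ^ 2) / 8 - (x ^ 2 + y ^ 2) ^ 2 / 128 := by nlinarith
  have hQ2 : 5 / 2 + (x ^ 2 + y ^ 2) / 2 + 2.28 * (1 + (x ^ 2 + y ^ 2) / 8 -
      (x ^ 2 + y ^ 2) ^ 2 / 128) ≤ (s + p) ^ 2 := by
    have := mul_le_mul_of_nonneg_right hw hr
    linarith
  have hsc := far1A_sc hx hy hxy hQ2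
  have hd : 0 < 19 / 20 - (x ^ 2 + y ^ 2) := by linarith
  have he2 : (s ^ 2 - b) * (p ^ 2 - a) ≤ x ^ 2 * y ^ 2 / (19 / 20 - (x ^ 2 + y ^ 2)) := by
    rw [le_div_iff₀ hd]; exact he
  have hQ0 : 0 < (s + p) ^ 2 := by
    have := h.hs; have := h.hp; positivity
  have hQ4 : (s + p) ^ 4 = ((s + p) ^ 2) ^ 2 := by ring
  rw [hQ4] at hV
  have := far1A_alg (le_trans hw hm) hQ0 hxy0 hcm he2 (by positivity) hsc
  linarith

/-- A7d. case B: `c² ≤ 3/10`. With `Q ≥ Q0 := 9/2 + 3v/4 - v²/64 + 2.22 x² + .727 c²`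
(`Geo.Q3B`), `m ≥ 1`: `V ≥ Q/3 - v/Q - 2e - 2xy|c|/Q`,
`2xy|c|/Q ≤ (4/9) xy|c| ≤ .2423 c² + .2039 x²y²`, `v/Q ≤ v/(9/2+.74v)`. -/
theorem Geo.far1B (h : Geo a b c x y s p ds dp) (hx : 0 ≤ x) (hy : 0 ≤ y)
    (hxy : x + y ≤ 4 / 5) (hle : a ≤ b) (hu : 5 / 2 ≤ a + b) (hc : c ^ 2 ≤ 3 / 10) :
    1.453 * (s * p) * (s + p) ^ 2 < VQ a b c x y s p := by
  have hxy0 := mul_nonneg hx hy
  have hv : 0 ≤ x ^ 2 + y ^ 2 := by positivity
  have hv2 : x ^ 2 + y ^ 2 ≤ 16 / 25 := by nlinarith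
  have hQ := h.Q3B hle hu hv2 hc
  have he := h.e_le hx hy hxy
  have hV := h.VQ_ge
  rw [abs_of_nonneg hxy0] at hV
  have hsc := far1B_sc hx hy hxy
  have hd : 0 < 19 / 20 - (x ^ 2 + y ^ 2) := by linarith
  have he2 : (s ^ 2 - b) * (p ^ 2 - a) ≤ x ^ 2 * y ^ 2 / (19 / 20 - (x ^ 2 + y ^ 2)) := by
    rw [le_div_iff₀ hd]; exact he
  have he0 : 0 ≤ (s ^ 2 - b) * (p ^ 2 - a) := mul_nonneg h.es_nonneg h.ep_nonneg
  have hQ4 : (s + p) ^ 4 = ((s + p) ^ 2) ^ 2 := by ring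
  rw [hQ4] at hV
  have e1 : x ^ 2 * y ^ 2 * (2 / (19 / 20 - (x ^ 2 + y ^ 2)) + 0.2039) =
      2 * (x ^ 2 * y ^ 2 / (19 / 20 - (x ^ 2 + y ^ 2))) + 0.2039 * (x * y) ^ 2 := by ring
  rw [e1] at hsc
  have hQ' : 9 / 2 + 3 / 4 * (x ^ 2 + y ^ 2) - (x ^ 2 + y ^ 2) ^ 2 / 64 + 2.22 * x ^ 2 +
      0.727 * |c| ^ 2 ≤ (s + p) ^ 2 := by rw [sq_abs]; exact hQ
  have := far1B_alg h.m_ge_one hxy0 (abs_nonneg c) he0 he2 hv hv2 (sq_nonneg x)
    hQ' (by linarith)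
  linarith

theorem VQ_swap : VQ b a c y x p s = VQ a b c x y s p := by
  unfold VQ gg
  ring

theorem VQ_flipx : VQ a b (-c) (-x) y s p = VQ a b c x y s p := by
  unfold VQ gg
  ring

/-- A7e. all signs -/
theorem Geo.far (h : Geo a b c x y s p ds dp) (hxy : |x| + |y| ≤ 4 / 5)
    (hu : 5 / 2 ≤ a + b ∨ 11 / 20 ≤ x ^ 2 + y ^ 2) :
    1.453 * (s + p) ^ 2 <
      (s + p) * (s * a + p * b + (s ^ 3 + p ^ 3) / 3 + s * ds ^ 2 + p * dp ^ 2) -
      (a * ds ^ 2 + 2 * c * ds * dp + b * dp ^ 2) := by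
  have main : ∀ {a b c x y s p ds dp : ℝ}, Geo a b c x y s p ds dp → 0 ≤ x → 0 ≤ y →
      x + y ≤ 4 / 5 → a ≤ b → (5 / 2 ≤ a + b ∨ 11 / 20 ≤ x ^ 2 + y ^ 2) →
      1.453 * (s * p) * (s + p) ^ 2 < VQ a b c x y s p := by
    intro a b c x y s p ds dp h hx hy hxy hle hu
    rcases le_total (5 / 2) (a + b) with h1 | h1
    · rcases le_total (3 / 10) (c ^ 2) with h2 | h2
      · exact h.far1A hx hy hxy hle h1 h2
      · exact h.far1B hx hy hxy hle h1 h2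
    · rcases hu with h2 | h2
      · have : a + b = 5 / 2 := le_antisymm h1 h2
        rcases le_total (3 / 10) (c ^ 2) with h2 | h2
        · exact h.far1A hx hy hxy hle this.ge h2
        · exact h.far1B hx hy hxy hle this.ge h2
      · exact h.far2 hx hy hxy hle h1 h2
  have main2 : ∀ {a b c x y s p ds dp : ℝ}, Geo a b c x y s p ds dp → 0 ≤ x → 0 ≤ y →
      x + y ≤ 4 / 5 → (5 / 2 ≤ a + b ∨ 11 / 20 ≤ x ^ 2 + y ^ 2) →
      1.453 * (s * p) * (s + p) ^ 2 < VQ a b c x y s p := by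
    intro a b c x y s p ds dp h hx hy hxy hu
    rcases le_total a b with h1 | h1
    · exact main h hx hy hxy h1 hu
    · have := main h.swap hy hx (by linarith) h1 (by rcases hu with h2 | h2
                                                     · left; linarith
                                                     · right; linarith)
      rw [VQ_swap] at this
      have e : 1.453 * (p * s) * (p + s) ^ 2 = 1.453 * (s * p) * (s + p) ^ 2 := by ring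
      rw [e] at this
      exact this
  have main3 : ∀ {a b c x y s p ds dp : ℝ}, Geo a b c x y s p ds dp → 0 ≤ y →
      |x| + y ≤ 4 / 5 → (5 / 2 ≤ a + b ∨ 11 / 20 ≤ x ^ 2 + y ^ 2) →
      1.453 * (s * p) * (s + p) ^ 2 < VQ a b c x y s p := by
    intro a b c x y s p ds dp h hy hxy hu
    rcases le_total 0 x with h1 | h1
    · rw [abs_of_nonneg h1] at hxy
      exact main2 h h1 hy hxy hu
    · rw [abs_of_nonpos h1] at hxy
      have := main2 h.flipx (by linarith) hy hxy (by simpa using hu)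
      rw [VQ_flipx] at this
      exact this
  have main4 : 1.453 * (s * p) * (s + p) ^ 2 < VQ a b c x y s p := by
    rcases le_total 0 y with h1 | h1
    · rw [abs_of_nonneg h1] at hxy
      exact main3 h h1 hxy hu
    · rw [abs_of_nonpos h1] at hxy
      have := main3 h.flipy (by linarith) hxy (by simpa using hu)
      have e : VQ a b (-c) x (-y) s p = VQ a b c x y s p := by unfold VQ gg; ring
      rw [e] at this
      exact this
  have hv := h.var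
  have hm := h.m_pos
  have e : VQ a b c x y s p = (s * p) * ((s + p) * (s * a + p * b + (s ^ 3 + p ^ 3) / 3 +
      s * ds ^ 2 + p * dp ^ 2) - (a * ds ^ 2 + 2 * c * ds * dp + b * dp ^ 2)) := by
    rw [hv]; rfl
  rw [e] at main4
  have : (s * p) * (1.453 * (s + p) ^ 2) < (s * p) * ((s + p) * (s * a + p * b +
      (s ^ 3 + p ^ 3) / 3 + s * ds ^ 2 + p * dp ^ 2) -
      (a * ds ^ 2 + 2 * c * ds * dp + b * dp ^ 2)) := by linarith
  exact lt_of_mul_lt_mul_left this hm.le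

end Pool.Agent.H32.Q4
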