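import Mathlib
import Pool.Agent.H32.Stek.Defs

set_option autoImplicit false

/-! The first nonzero Steklov eigenvalue of a quadrilateral: definitions.
Points of the plane are complex numbers. -/

open Complex MeasureTheory

namespace Pool.Agent.H32.Q4

open Pool.Agent.H32.Stek

/-- Cross product of two plane vectors. -/
def cr (z w : ℂ) : ℝ := z.re * w.im - z.im * w.re

/-- Scalar product of two plane vectors. -/
def dt (z w : ℂ) : ℝ := z.re * w.re + z.im * w.im

/-- `AC` is a diagonal with `B` and `D` strictly on different sides of the line `AC`. Then the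
closed polygon `ABCD` is simple, and it bounds the union of the triangles `ABC` and `ACD`. -/
def Cut (A B C D : ℂ) : Prop := cr (C - A) (B - A) * cr (C - A) (D - A) < 0

/-- The closed region bounded by the quadrilateral `ABCD` with inner diagonal `AC`. -/
noncomputable def quad (A B C D : ℂ) : Set ℂ := tri A B C ∪ tri A C D

/-- Integral of `f` over the boundary of the quadrilateral `ABCD` with respect to arc length. -/
noncomputable def bd4 (A B C D : ℂ) (f : ℂ → ℝ) : ℝ :=
  segInt f A B + segInt f B C + segInt f C D + segInt f D A

/-- The Dirichlet integral of `u` over the quadrilateral `ABCD`. -/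
noncomputable def energy4 (A B C D : ℂ) (u : ℂ → ℝ) : ℝ := ∫ z in quad A B C D, ‖grad u z‖ ^ 2

/-- The first nonzero Steklov eigenvalue of the quadrilateral `ABCD`: infimum of the Rayleigh
quotient over all `C^1` functions on the plane with boundary integral zero. -/
noncomputable def sigma4 (A B C D : ℂ) : ℝ :=
  sInf {s | ∃ u : ℂ → ℝ, ContDiff ℝ 1 u ∧ bd4 A B C D u = 0 ∧
    0 < bd4 A B C D (fun z => u z ^ 2) ∧
    s = energy4 A B C D u / bd4 A B C D (fun z => u z ^ 2)}

/-- Perimeter. -/
noncomputable def perim4 (A B C D : ℂ) : ℝ := dist A B + dist B C + dist C D + dist D A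

/-- Area. -/
noncomputable def area4 (A B C D : ℂ) : ℝ := (volume (quad A B C D)).toReal

/-- `ABCD` is a square. -/
def IsSq (A B C D : ℂ) : Prop :=
  A ≠ C ∧ dist A B = dist B C ∧ dist B C = dist C D ∧ dist C D = dist D A ∧ dist A C = dist B D

end Pool.Agent.H32.Q4
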