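import Mathlib
import Pool.Agent.H32.Q4.D

set_option autoImplicit false

/-! Steklov problem on quadrilaterals: the constants. `t` is the root of
`sin t sinh t = cos t cosh t`; the square `[-1,1]²` has `σ₁ = t tanh t`. -/

open Real

namespace Pool.Agent.H32.Q4

/-- `t = 0.937552034356...` -/
structure Root (t : ℝ) : Prop where
  lo : 0.937552 ≤ t
  hi : t ≤ 0.9375521
  eq : sin t * sinh t = cos t * cosh t

/-- `σ₁ L` of the square -/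
noncomputable def cT (t : ℝ) : ℝ := 8 * t * tanh t
noncomputable def cp (t : ℝ) : ℝ := t ^ 2 / 4 * (1 + sin (2 * t) / t + (cos (2 * t) - 1) / (2 * t ^ 2) +
  (cosh (2 * t) - 1) / (2 * t ^ 2) + (cosh (2 * t) * cos (2 * t) + sinh (2 * t) * sin (2 * t) - 1) / (4 * t ^ 2))
noncomputable def cq (t : ℝ) : ℝ := t ^ 2 / 4 * (-1 + sin (2 * t) / t + (cos (2 * t) - 1) / (2 * t ^ 2) +
  (cosh (2 * t) - 1) / (2 * t ^ 2) - (cosh (2 * t) * cos (2 * t) + sinh (2 * t) * sin (2 * t) - 1) / (4 * t ^ 2))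
noncomputable def cr0 (t : ℝ) : ℝ := t ^ 2 / 4 * (-1 + sinh (2 * t) / t - (cosh (2 * t) - 1) / (2 * t ^ 2) +
  (1 - cos (2 * t)) / (2 * t ^ 2) - (sinh (2 * t) * sin (2 * t) - cosh (2 * t) * cos (2 * t) + 1) / (4 * t ^ 2))
noncomputable def cs0 (t : ℝ) : ℝ := t ^ 2 / 4 * (1 + sinh (2 * t) / t - (cosh (2 * t) - 1) / (2 * t ^ 2) +
  (1 - cos (2 * t)) / (2 * t ^ 2) + (sinh (2 * t) * sin (2 * t) - cosh (2 * t) * cos (2 * t) + 1) / (4 * t ^ 2))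
noncomputable def cm (t : ℝ) : ℝ := (sinh t ^ 2 + sin t ^ 2) / 2
noncomputable def cn2 (t : ℝ) : ℝ := sinh t * cos t / t ^ 2
noncomputable def cn3 (t : ℝ) : ℝ :=
  (2 * cosh t * sin t - sinh t * cos t) / t ^ 2 - 2 * sinh t * sin t / t
noncomputable def cn1 (t : ℝ) : ℝ := cn2 t - cn3 t
noncomputable def cal (t : ℝ) : ℝ := sin t ^ 2 * (1 + sinh (2 * t) / (2 * t))
noncomputable def cbe (t : ℝ) : ℝ := cosh t ^ 2 * (1 - sin (2 * t) / (2 * t))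
noncomputable def cet (t : ℝ) : ℝ := 2 * cosh t * (sin t / t ^ 2 - cos t / t)
noncomputable def ck0 (t : ℝ) : ℝ := 2 * sin t * sinh t / t

/-- numerical values (`al, be, et, k0` enter only through `K1, K2, K3, C0, C1`) -/
structure Cst (T p0 q0 r0 s0 m n1 n2 n3 al be et k0 K1 K2 K3 C0 C1 : ℝ) : Prop where
  eK1 : K1 = T / 2 * (al - be)
  eK2 : K2 = 2 * T * et
  eK3 : K3 = T * k0 ^ 2 / 4
  eC0 : C0 = T / 4 * (al + be)
  eC1 : C1 = 4 * T / 3 + K2 - K3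
  eC : C0 = 2 * (p0 + q0 + r0 + s0)
  hT : 5.50601 ≤ T
  p1 : 0.63794 ≤ p0
  p2 : p0 ≤ 0.63797
  q1 : 0.06872 ≤ q0
  q2 : q0 ≤ 0.06874
  r1 : 0.08196 ≤ r0
  r2 : r0 ≤ 0.08199
  s1 : 1.15119 ≤ s0
  s2 : s0 ≤ 1.15121
  m1 : 0.90925 ≤ m
  m2 : m ≤ 0.90928
  en1 : n1 = n2 - n3
  n21 : 0.72779 ≤ n2
  n22 : n2 ≤ 0.72781
  n31 : 0.11424 ≤ n3
  n32 : n3 ≤ 0.11426
  K11 : 1.89403 ≤ K1
  K12 : K1 ≤ 1.89406
  K21 : 9.27267 ≤ K2
  K22 : K2 ≤ 9.27272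
  K31 : 4.75710 ≤ K3
  K32 : K3 ≤ 4.75715
  C11 : 11.85688 ≤ C1
  C12 : C1 ≤ 11.85698

end Pool.Agent.H32.Q4
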