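import Mathlib
import Pool.Agent.H32.Q4.D

set_option autoImplicit false

/-! Steklov problem on quadrilaterals: the piecewise linear transplantation of the trial
functions. -/

open Complex

open scoped NNReal

namespace Pool.Agent.H32.Q4

/-- the trial function of the square: `p sin(tX)cosh(tY) + s cosh(tX)sin(tY) + 2gXY` -/
noncomputable def Ft (t p s g X Y : ℝ) : ℝ :=
  p * (Real.sin (t * X) * Real.cosh (t * Y)) + s * (Real.cosh (t * X) * Real.sin (t * Y)) +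
    2 * g * (X * Y)

/-- on the triangle `0, P-(S+γ), P+(S+γ)` the functions `u₁, u₂` are the transplants of the
trial functions -/
def OnTri (t : ℝ) (P S γ : ℂ) (u₁ u₂ : ℂ → ℝ) : Prop :=
  ∀ X Y : ℝ, |Y| ≤ X → X ≤ 1 →
    u₁ (X * P + Y * (S + γ)) = Ft t P.re S.re γ.re X Y ∧
    u₂ (X * P + Y * (S + γ)) = Ft t P.im S.im γ.im X Y

/-- `ω(X,Y) = (|X+Y| - |X-Y|)/2 = sign(XY) min(|X|,|Y|)` -/
noncomputable def om (X Y : ℝ) : ℝ := (|X + Y| - |X - Y|) / 2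

/-- Th1. -/
theorem om_lip (X Y X' Y' : ℝ) : |om X Y - om X' Y'| ≤ max |X - X'| |Y - Y'| := by
  have h1 : |(|X + Y| - |X' + Y'|)| ≤ |(X + Y) - (X' + Y')| := abs_abs_sub_abs_le _ _
  have h2 : |(|X - Y| - |X' - Y'|)| ≤ |(X - Y) - (X' - Y')| := abs_abs_sub_abs_le _ _
  have h3 : |om X Y - om X' Y'| ≤ (|(X - X') + (Y - Y')| + |(X - X') - (Y - Y')|) / 2 := by
    have e1 : (X + Y) - (X' + Y') = (X - X') + (Y - Y') := by ring
    have e2 : (X - Y) - (X' - Y') = (X - X') - (Y - Y') := by ring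
    rw [e1] at h1
    rw [e2] at h2
    unfold om
    rw [abs_le] at h1 h2 ⊢
    constructor <;> linarith [h1.1, h1.2, h2.1, h2.2]
  refine h3.trans ?_
  set a := X - X'
  set b := Y - Y'
  rcases abs_cases (a + b) with ha | ha <;> rcases abs_cases (a - b) with hb | hb <;>
    rcases abs_cases a with hc | hc <;> rcases abs_cases b with hd | hd <;>
    rw [ha.1, hb.1, hc.1, hd.1] <;>
    first
      | exact le_max_of_le_left (by linarith)
      | exact le_max_of_le_right (by linarith)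

theorem th_cr_le (z w : ℂ) : |cr z w| ≤ ‖z‖ * ‖w‖ := by
  have h : cr z w = ((starRingEnd ℂ) z * w).im := by
    simp [cr, Complex.mul_im]; ring
  rw [h]
  refine (Complex.abs_im_le_norm _).trans ?_
  rw [norm_mul, RCLike.norm_conj]

/-- Th2. the map `(X,Y) ↦ X P + Y S + ω γ` is bounded below: with `q = (y, x)`,
`γ = y P + x S`, it is the composition of `Z ↦ Z + ω(Z) q` (`|Z+ωq-Z'-ω'q| ≥ (1-|q|)|Z-Z'|`) and of
the invertible linear map `(X,Y) ↦ X P + Y S`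
(`max(|X|,|Y|) ≤ (|P|+|S|) |X P + Y S|` because `cr P (XP+YS) = Y`). -/
theorem phi_anti {P S γ : ℂ} (h : cr P S = 1) (h2 : cr P γ ^ 2 + cr γ S ^ 2 < 1) :
    ∃ κ : ℝ, 0 < κ ∧ ∀ X Y X' Y' : ℝ, |X - X'| + |Y - Y'| ≤
      κ * ‖((X : ℂ) * P + Y * S + om X Y * γ) - ((X' : ℂ) * P + Y' * S + om X' Y' * γ)‖ := by
  set x := cr P γ with hx
  set y := cr γ S with hy
  set q : ℂ := ⟨y, x⟩ with hq
  have hq2 : ‖q‖ ^ 2 = y ^ 2 + x ^ 2 := by
    rw [← Complex.normSq_eq_norm_sq, Complex.normSq_apply]; simp [hq]; ring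
  have hq1 : ‖q‖ < 1 := by
    have : ‖q‖ ^ 2 < 1 ^ 2 := by rw [hq2]; linarith
    exact lt_of_pow_lt_pow_left₀ 2 (by norm_num) this
  have hpos : 0 < 1 - ‖q‖ := by linarith
  refine ⟨2 * (‖P‖ + ‖S‖) / (1 - ‖q‖) + 1, by positivity, ?_⟩
  intro X Y X' Y'
  set D : ℂ := ((X : ℂ) * P + Y * S + om X Y * γ) - ((X' : ℂ) * P + Y' * S + om X' Y' * γ) with hD
  set a := X - X' with ha
  set b := Y - Y' with hb
  set δ := om X Y - om X' Y' with hδ
  have hδ1 : |δ| ≤ max |a| |b| := om_lip X Y X' Y'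
  have hα : cr D S = a + δ * y := by
    have h' : P.re * S.im - P.im * S.re = 1 := h
    have : cr D S = a * (P.re * S.im - P.im * S.re) + δ * (γ.re * S.im - γ.im * S.re) := by
      simp only [cr, hD, ha, hδ, Complex.sub_re, Complex.sub_im, Complex.add_re, Complex.add_im,
        Complex.mul_re, Complex.mul_im, Complex.ofReal_re, Complex.ofReal_im]
      ring
    rw [this, h', hy]; simp [cr]
  have hβ : cr P D = b + δ * x := by
    have h' : P.re * S.im - P.im * S.re = 1 := h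
    have : cr P D = b * (P.re * S.im - P.im * S.re) + δ * (P.re * γ.im - P.im * γ.re) := by
      simp only [cr, hD, hb, hδ, Complex.sub_re, Complex.sub_im, Complex.add_re, Complex.add_im,
        Complex.mul_re, Complex.mul_im, Complex.ofReal_re, Complex.ofReal_im]
      ring
    rw [this, h', hx]; simp [cr]
  set w : ℂ := ⟨a, b⟩ with hw
  have hwa : |a| ≤ ‖w‖ := by simpa [hw] using Complex.abs_re_le_norm w
  have hwb : |b| ≤ ‖w‖ := by simpa [hw] using Complex.abs_im_le_norm w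
  have hδw : |δ| ≤ ‖w‖ := hδ1.trans (max_le hwa hwb)
  have hsum : ‖w + (δ : ℂ) * q‖ ≤ (‖P‖ + ‖S‖) * ‖D‖ := by
    have e : ‖w + (δ : ℂ) * q‖ ≤ |a + δ * y| + |b + δ * x| := by
      have := Complex.norm_le_abs_re_add_abs_im (w + (δ : ℂ) * q)
      simpa [hw, hq] using this
    have e1 : |a + δ * y| ≤ ‖D‖ * ‖S‖ := by rw [← hα]; exact th_cr_le _ _
    have e2 : |b + δ * x| ≤ ‖P‖ * ‖D‖ := by rw [← hβ]; exact th_cr_le _ _
    calc ‖w + (δ : ℂ) * q‖ ≤ |a + δ * y| + |b + δ * x| := e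
      _ ≤ ‖D‖ * ‖S‖ + ‖P‖ * ‖D‖ := add_le_add e1 e2
      _ = (‖P‖ + ‖S‖) * ‖D‖ := by ring
  have hlow : (1 - ‖q‖) * ‖w‖ ≤ ‖w + (δ : ℂ) * q‖ := by
    have e1 : ‖w‖ - ‖(δ : ℂ) * q‖ ≤ ‖w + (δ : ℂ) * q‖ := by
      have := norm_sub_norm_le w (-((δ : ℂ) * q))
      simpa using this
    have e2 : ‖(δ : ℂ) * q‖ ≤ ‖w‖ * ‖q‖ := by
      rw [norm_mul, Complex.norm_real, Real.norm_eq_abs]
      exact mul_le_mul_of_nonneg_right hδw (norm_nonneg _)
    nlinarith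
  have hfin : ‖w‖ ≤ (‖P‖ + ‖S‖) * ‖D‖ / (1 - ‖q‖) := by
    rw [le_div_iff₀ hpos]; nlinarith
  have : (2 * (‖P‖ + ‖S‖) / (1 - ‖q‖) + 1) * ‖D‖ =
      2 * ((‖P‖ + ‖S‖) * ‖D‖ / (1 - ‖q‖)) + ‖D‖ := by ring
  rw [this]
  have := norm_nonneg D
  linarith

/-- Lipschitz bound for the trial function on the square. -/
theorem th_Ft_lip (t p s g : ℝ) : ∃ K : ℝ, 0 ≤ K ∧ ∀ X Y X' Y' : ℝ, |X| ≤ 1 → |Y| ≤ 1 →
    |X'| ≤ 1 → |Y'| ≤ 1 → |Ft t p s g X Y - Ft t p s g X' Y'| ≤ K * (|X - X'| + |Y - Y'|) := by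
  have hcd : ContDiff ℝ 1 (fun z : ℝ × ℝ => Ft t p s g z.1 z.2) := by
    unfold Ft
    fun_prop
  have hK : IsCompact (Set.Icc (-1 : ℝ) 1 ×ˢ Set.Icc (-1 : ℝ) 1) := isCompact_Icc.prod isCompact_Icc
  obtain ⟨K, hK⟩ := (hcd.locallyLipschitz.locallyLipschitzOn).exists_lipschitzOnWith_of_compact hK
  refine ⟨K, K.2, ?_⟩
  intro X Y X' Y' h1 h2 h3 h4
  have := hK.dist_le_mul (X, Y) ⟨abs_le.1 h1, abs_le.1 h2⟩ (X', Y') ⟨abs_le.1 h3, abs_le.1 h4⟩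
  simp only [Real.dist_eq, Prod.dist_eq] at this
  refine this.trans ?_
  refine mul_le_mul_of_nonneg_left ?_ K.2
  exact max_le (le_add_of_nonneg_right (abs_nonneg _)) (le_add_of_nonneg_left (abs_nonneg _))

/-- extension of one transplant -/
theorem th_extend (t p s g : ℝ) {P S γ : ℂ} (h : cr P S = 1) (h2 : cr P γ ^ 2 + cr γ S ^ 2 < 1) :
    ∃ (u : ℂ → ℝ) (K : ℝ≥0), LipschitzWith K u ∧ ∀ X Y : ℝ, |X| ≤ 1 → |Y| ≤ 1 →
      u ((X : ℂ) * P + Y * S + om X Y * γ) = Ft t p s g X Y := by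
  classical
  obtain ⟨κ, hκ, hanti⟩ := phi_anti h h2
  obtain ⟨L, hL, hlip⟩ := th_Ft_lip t p s g
  set Φ : ℝ × ℝ → ℂ := fun z => (z.1 : ℂ) * P + z.2 * S + om z.1 z.2 * γ with hΦ
  set Q : Set (ℝ × ℝ) := {z | |z.1| ≤ 1 ∧ |z.2| ≤ 1} with hQ
  have hinj : ∀ z z' : ℝ × ℝ, Φ z = Φ z' → z = z' := by
    intro z z' hz
    have := hanti z.1 z.2 z'.1 z'.2
    have h0 : ((z.1 : ℂ) * P + z.2 * S + om z.1 z.2 * γ) -
      ((z'.1 : ℂ) * P + z'.2 * S + om z'.1 z'.2 * γ) = 0 := sub_eq_zero.2 hz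
    rw [h0, norm_zero, mul_zero] at this
    have a1 := abs_nonneg (z.1 - z'.1)
    have a2 := abs_nonneg (z.2 - z'.2)
    have b1 : |z.1 - z'.1| = 0 := by linarith
    have b2 : |z.2 - z'.2| = 0 := by linarith
    exact Prod.ext (sub_eq_zero.1 (abs_eq_zero.1 b1)) (sub_eq_zero.1 (abs_eq_zero.1 b2))
  set f : ℂ → ℝ := fun z => Ft t p s g (Function.invFun Φ z).1 (Function.invFun Φ z).2 with hf
  have hinv : ∀ z : ℝ × ℝ, Function.invFun Φ (Φ z) = z := by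
    intro z
    exact Function.leftInverse_invFun (fun a b hab => hinj a b hab) z
  have hflip : LipschitzOnWith (Real.toNNReal (L * κ)) f (Φ '' Q) := by
    apply LipschitzOnWith.of_dist_le_mul
    rintro _ ⟨z, hz, rfl⟩ _ ⟨z', hz', rfl⟩
    rw [Real.coe_toNNReal _ (by positivity), Real.dist_eq, Complex.dist_eq]
    simp only [hf, hinv]
    calc |Ft t p s g z.1 z.2 - Ft t p s g z'.1 z'.2|
        ≤ L * (|z.1 - z'.1| + |z.2 - z'.2|) := hlip _ _ _ _ hz.1 hz.2 hz'.1 hz'.2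
      _ ≤ L * (κ * ‖Φ z - Φ z'‖) := mul_le_mul_of_nonneg_left (hanti _ _ _ _) hL
      _ = L * κ * ‖Φ z - Φ z'‖ := by ring
  obtain ⟨u, hu, huf⟩ := hflip.extend_real
  refine ⟨u, _, hu, ?_⟩
  intro X Y hX hY
  have := huf ⟨(X, Y), ⟨hX, hY⟩, rfl⟩
  simp only [hf, hinv] at this
  exact this.symm

/-- Th3. existence of the transplants: define `u` on the image of `[-1,1]²` by
`u (X P + Y S + ω γ) = Ft ... X Y`, it is Lipschitz there by Th2, extend by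
`LipschitzOnWith.extend_real`. On `|Y| ≤ X`: `ω = Y`; on `|Y| ≤ -X`: `ω = -Y` (use the point
`(-X, Y)`); on `|X| ≤ Y`: `ω = X`; on `|X| ≤ -Y`: `ω = -X`. -/
theorem trial_exists (t : ℝ) {P S γ : ℂ} (h : cr P S = 1) (h2 : cr P γ ^ 2 + cr γ S ^ 2 < 1) :
    ∃ (u₁ u₂ : ℂ → ℝ) (K₁ K₂ : ℝ≥0), LipschitzWith K₁ u₁ ∧ LipschitzWith K₂ u₂ ∧
      OnTri t P S γ u₁ u₂ ∧ OnTri t (-P) S (-γ) u₁ u₂ ∧ OnTri t S P γ u₁ u₂ ∧
      OnTri t (-S) P (-γ) u₁ u₂ := by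
  obtain ⟨u₁, K₁, hu₁, e₁⟩ := th_extend t P.re S.re γ.re h h2
  obtain ⟨u₂, K₂, hu₂, e₂⟩ := th_extend t P.im S.im γ.im h h2
  have o1 : ∀ X Y : ℝ, |Y| ≤ X → om X Y = Y := by
    intro X Y hY
    have := abs_le.1 hY
    unfold om
    rw [abs_of_nonneg (by linarith : 0 ≤ X + Y), abs_of_nonneg (by linarith : 0 ≤ X - Y)]
    ring
  have o2 : ∀ X Y : ℝ, |Y| ≤ X → om (-X) Y = -Y := by
    intro X Y hY
    have := abs_le.1 hY
    unfold om
    rw [abs_of_nonpos (by linarith : -X + Y ≤ 0), abs_of_nonpos (by linarith : -X - Y ≤ 0)]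
    ring
  have o3 : ∀ X Y : ℝ, |Y| ≤ X → om Y X = Y := by
    intro X Y hY
    have := abs_le.1 hY
    unfold om
    rw [abs_of_nonneg (by linarith : 0 ≤ Y + X), abs_of_nonpos (by linarith : Y - X ≤ 0)]
    ring
  have o4 : ∀ X Y : ℝ, |Y| ≤ X → om Y (-X) = -Y := by
    intro X Y hY
    have := abs_le.1 hY
    unfold om
    rw [abs_of_nonpos (by linarith : Y + -X ≤ 0), abs_of_nonneg (by linarith : 0 ≤ Y - -X)]
    ring
  have bd : ∀ X Y : ℝ, |Y| ≤ X → X ≤ 1 → |X| ≤ 1 ∧ |Y| ≤ 1 := by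
    intro X Y hY hX
    have h0 : 0 ≤ X := (abs_nonneg _).trans hY
    exact ⟨by rwa [abs_of_nonneg h0], hY.trans hX⟩
  refine ⟨u₁, u₂, K₁, K₂, hu₁, hu₂, ?_, ?_, ?_, ?_⟩
  · intro X Y hY hX
    obtain ⟨b1, b2⟩ := bd X Y hY hX
    have q1 := e₁ X Y b1 b2
    have q2 := e₂ X Y b1 b2
    rw [o1 X Y hY] at q1 q2
    have e : (X : ℂ) * P + Y * (S + γ) = X * P + Y * S + Y * γ := by ring
    rw [e]
    exact ⟨q1, q2⟩
  · intro X Y hY hX
    obtain ⟨b1, b2⟩ := bd X Y hY hX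
    have q1 := e₁ (-X) Y (by rwa [abs_neg]) b2
    have q2 := e₂ (-X) Y (by rwa [abs_neg]) b2
    rw [o2 X Y hY] at q1 q2
    have e : (X : ℂ) * (-P) + Y * (S + -γ) =
        ((-X : ℝ) : ℂ) * P + Y * S + ((-Y : ℝ) : ℂ) * γ := by push_cast; ring
    rw [e, q1, q2]
    constructor
    · simp only [Ft, Complex.neg_re, mul_neg, Real.sin_neg, Real.cosh_neg]; ring
    · simp only [Ft, Complex.neg_im, mul_neg, Real.sin_neg, Real.cosh_neg]; ring
  · intro X Y hY hX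
    obtain ⟨b1, b2⟩ := bd X Y hY hX
    have q1 := e₁ Y X b2 b1
    have q2 := e₂ Y X b2 b1
    rw [o3 X Y hY] at q1 q2
    have e : (X : ℂ) * S + Y * (P + γ) = (Y : ℂ) * P + X * S + Y * γ := by ring
    rw [e, q1, q2]
    constructor <;> simp only [Ft] <;> ring
  · intro X Y hY hX
    obtain ⟨b1, b2⟩ := bd X Y hY hX
    have q1 := e₁ Y (-X) b2 (by rwa [abs_neg])
    have q2 := e₂ Y (-X) b2 (by rwa [abs_neg])
    rw [o4 X Y hY] at q1 q2
    have e : (X : ℂ) * (-S) + Y * (P + -γ) =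
        (Y : ℂ) * P + ((-X : ℝ) : ℂ) * S + ((-Y : ℝ) : ℂ) * γ := by push_cast; ring
    rw [e, q1, q2]
    constructor
    · simp only [Ft, Complex.neg_re, mul_neg, Real.sin_neg, Real.cosh_neg]; ring
    · simp only [Ft, Complex.neg_im, mul_neg, Real.sin_neg, Real.cosh_neg]; ring

end Pool.Agent.H32.Q4
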