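import Mathlib
import Pool.Agent.H32.Q4.Th
import Pool.Agent.H32.Q4.K

set_option autoImplicit false

/-! Steklov problem on quadrilaterals: the boundary integrals of the trial functions. -/

open Complex MeasureTheory

namespace Pool.Agent.H32.Q4

open Pool.Agent.H32.Stek

/-- Bt1. -/
theorem segInt_symm (f : ℂ → ℝ) (A B : ℂ) : segInt f A B = segInt f B A := by
  unfold segInt
  rw [norm_sub_rev]
  congr 1
  have h := intervalIntegral.integral_comp_sub_left (a := 0) (b := 1)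
    (fun x : ℝ => f (B + x * (A - B))) (1 : ℝ)
  rw [sub_self, sub_zero] at h
  rw [← h]
  congr 1
  ext x
  congr 1
  push_cast
  ring

theorem segInt_mid (f : ℂ → ℝ) (P W : ℂ) :
    segInt f (P - W) (P + W) = ‖W‖ * ∫ Y in (-1:ℝ)..1, f (P + Y * W) := by
  unfold segInt
  have h := intervalIntegral.integral_comp_mul_sub (a := 0) (b := 1)
    (fun x : ℝ => f (P + x * W)) (two_ne_zero (α := ℝ)) (1 : ℝ)
  have h1 : (P + W) - (P - W) = 2 * W := by ring
  rw [h1, norm_mul, Complex.norm_ofNat]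
  have h2 : ∫ t in (0:ℝ)..1, f (P - W + t * (2 * W)) =
      ∫ x in (0:ℝ)..1, f (P + ((2 * x - 1 : ℝ) : ℂ) * W) := by
    congr 1
    ext x
    congr 1
    push_cast
    ring
  rw [h2, h]
  norm_num
  ring

lemma Ft_sq_int {t : ℝ} (ht : 0 < t) (p s g : ℝ) :
    ∫ Y in (-1:ℝ)..1, Ft t p s g 1 Y ^ 2 =
      p ^ 2 * cal t + s ^ 2 * cbe t + 8 / 3 * g ^ 2 + 4 * (s * g) * cet t := by
  have ht' : t ≠ 0 := ht.ne'
  have hder : ∀ Y : ℝ, HasDerivAt (fun Y : ℝ =>
      p ^ 2 * Real.sin t ^ 2 * (Y / 2 + Real.sinh (t * Y) * Real.cosh (t * Y) / (2 * t)) +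
      s ^ 2 * Real.cosh t ^ 2 * (Y / 2 - Real.sin (t * Y) * Real.cos (t * Y) / (2 * t)) +
      4 / 3 * g ^ 2 * Y ^ 3 +
      p * s * Real.sin t * Real.cosh t * ((Real.sinh (t * Y) * Real.sin (t * Y) -
        Real.cosh (t * Y) * Real.cos (t * Y)) / t) +
      4 * p * g * Real.sin t * (Y * Real.sinh (t * Y) / t - Real.cosh (t * Y) / t ^ 2) +
      4 * s * g * Real.cosh t * (Real.sin (t * Y) / t ^ 2 - Y * Real.cos (t * Y) / t))
      (Ft t p s g 1 Y ^ 2) Y := by
    intro Y
    have h0 : HasDerivAt (fun Y : ℝ => Y) 1 Y := hasDerivAt_id Y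
    have h1 : HasDerivAt (fun Y : ℝ => t * Y) t Y := by
      simpa using h0.const_mul t
    have hs := h1.sin
    have hc := h1.cos
    have hsh := h1.sinh
    have hch := h1.cosh
    have e1 := (((h0.div_const 2).add ((hsh.mul hch).div_const (2 * t))).const_mul
      (p ^ 2 * Real.sin t ^ 2))
    have e2 := (((h0.div_const 2).sub ((hs.mul hc).div_const (2 * t))).const_mul
      (s ^ 2 * Real.cosh t ^ 2))
    have e3 := (h0.pow 3).const_mul (4 / 3 * g ^ 2)
    have e4 := (((hsh.mul hs).sub (hch.mul hc)).div_const t).const_mul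
      (p * s * Real.sin t * Real.cosh t)
    have e5 := (((h0.mul hsh).div_const t).sub (hch.div_const (t ^ 2))).const_mul
      (4 * p * g * Real.sin t)
    have e6 := ((hs.div_const (t ^ 2)).sub ((h0.mul hc).div_const t)).const_mul
      (4 * s * g * Real.cosh t)
    have e := ((((e1.add e2).add e3).add e4).add e5).add e6
    refine HasDerivAt.congr_deriv e ?_
    have i1 := Real.sin_sq_add_cos_sq (t * Y)
    have i2 := Real.cosh_sq (t * Y)
    have i1' : Real.cos (t * Y) ^ 2 = 1 - Real.sin (t * Y) ^ 2 := by linarith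
    unfold Ft
    simp only [mul_one, one_mul]
    field_simp
    ring_nf
    simp only [i1', i2]
    ring
  rw [intervalIntegral.integral_eq_sub_of_hasDerivAt (fun Y _ => hder Y)]
  · have j1 : Real.sinh (2 * t) = 2 * Real.sinh t * Real.cosh t := Real.sinh_two_mul t
    have j2 : Real.sin (2 * t) = 2 * Real.sin t * Real.cos t := Real.sin_two_mul t
    unfold cal cbe cet
    rw [j1, j2]
    simp only [mul_neg, mul_one, Real.sinh_neg, Real.cosh_neg, Real.sin_neg, Real.cos_neg]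
    field_simp
    ring
  · apply Continuous.intervalIntegrable
    unfold Ft
    fun_prop

lemma Ft_int {t : ℝ} (ht : 0 < t) (p s g : ℝ) :
    ∫ Y in (-1:ℝ)..1, Ft t p s g 1 Y = ck0 t * p := by
  have ht' : t ≠ 0 := ht.ne'
  have hder : ∀ Y : ℝ, HasDerivAt (fun Y : ℝ =>
      p * Real.sin t * (Real.sinh (t * Y) / t) +
      s * Real.cosh t * (-Real.cos (t * Y) / t) +
      g * Y ^ 2)
      (Ft t p s g 1 Y) Y := by
    intro Y
    have h0 : HasDerivAt (fun Y : ℝ => Y) 1 Y := hasDerivAt_id Y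
    have h1 : HasDerivAt (fun Y : ℝ => t * Y) t Y := by
      simpa using h0.const_mul t
    have hc := h1.cos
    have hsh := h1.sinh
    have e1 := (hsh.div_const t).const_mul (p * Real.sin t)
    have e2 := (hc.neg.div_const t).const_mul (s * Real.cosh t)
    have e3 := (h0.pow 2).const_mul g
    have e := (e1.add e2).add e3
    refine HasDerivAt.congr_deriv e ?_
    unfold Ft
    simp only [mul_one, one_mul]
    field_simp
    ring
  rw [intervalIntegral.integral_eq_sub_of_hasDerivAt (fun Y _ => hder Y)]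
  · unfold ck0
    simp only [mul_neg, mul_one, Real.sinh_neg, Real.cos_neg]
    field_simp
    ring
  · apply Continuous.intervalIntegrable
    unfold Ft
    fun_prop

/-- Bt2. -/
theorem bd_sq {t : ℝ} (ht : 0 < t) {P S γ : ℂ} {u₁ u₂ : ℂ → ℝ} (hu : OnTri t P S γ u₁ u₂) :
    segInt (fun z => u₁ z ^ 2) (P - (S + γ)) (P + (S + γ)) +
      segInt (fun z => u₂ z ^ 2) (P - (S + γ)) (P + (S + γ)) =
      ‖S + γ‖ * (dt P P * cal t + dt S S * cbe t + 8 / 3 * dt γ γ + 4 * dt S γ * cet t) := by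
  rw [segInt_mid, segInt_mid]
  have h1 : ∫ Y in (-1:ℝ)..1, u₁ (P + Y * (S + γ)) ^ 2 =
      ∫ Y in (-1:ℝ)..1, Ft t P.re S.re γ.re 1 Y ^ 2 := by
    apply intervalIntegral.integral_congr
    intro Y hY
    rw [Set.uIcc_of_le (by norm_num)] at hY
    have := (hu 1 Y (abs_le.mpr hY) le_rfl).1
    simp only [Complex.ofReal_one, one_mul] at this
    simp only [this]
  have h2 : ∫ Y in (-1:ℝ)..1, u₂ (P + Y * (S + γ)) ^ 2 =
      ∫ Y in (-1:ℝ)..1, Ft t P.im S.im γ.im 1 Y ^ 2 := by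
    apply intervalIntegral.integral_congr
    intro Y hY
    rw [Set.uIcc_of_le (by norm_num)] at hY
    have := (hu 1 Y (abs_le.mpr hY) le_rfl).2
    simp only [Complex.ofReal_one, one_mul] at this
    simp only [this]
  rw [h1, h2, Ft_sq_int ht, Ft_sq_int ht]
  unfold dt
  ring

/-- Bt3. -/
theorem bd_lin {t : ℝ} (ht : 0 < t) {P S γ : ℂ} {u₁ u₂ : ℂ → ℝ} (hu : OnTri t P S γ u₁ u₂) :
    segInt u₁ (P - (S + γ)) (P + (S + γ)) = ‖S + γ‖ * ck0 t * P.re ∧
    segInt u₂ (P - (S + γ)) (P + (S + γ)) = ‖S + γ‖ * ck0 t * P.im := by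
  rw [segInt_mid, segInt_mid]
  have h1 : ∫ Y in (-1:ℝ)..1, u₁ (P + Y * (S + γ)) =
      ∫ Y in (-1:ℝ)..1, Ft t P.re S.re γ.re 1 Y := by
    apply intervalIntegral.integral_congr
    intro Y hY
    rw [Set.uIcc_of_le (by norm_num)] at hY
    have := (hu 1 Y (abs_le.mpr hY) le_rfl).1
    simp only [Complex.ofReal_one, one_mul] at this
    simp only [this]
  have h2 : ∫ Y in (-1:ℝ)..1, u₂ (P + Y * (S + γ)) =
      ∫ Y in (-1:ℝ)..1, Ft t P.im S.im γ.im 1 Y := by
    apply intervalIntegral.integral_congr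
    intro Y hY
    rw [Set.uIcc_of_le (by norm_num)] at hY
    have := (hu 1 Y (abs_le.mpr hY) le_rfl).2
    simp only [Complex.ofReal_one, one_mul] at this
    simp only [this]
  rw [h1, h2, Ft_int ht, Ft_int ht, mul_assoc, mul_assoc]
  exact ⟨rfl, rfl⟩

end Pool.Agent.H32.Q4
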