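import Mathlib
import Pool.Agent.H32.Q4.D

set_option autoImplicit false

/-! Steklov problem on quadrilaterals: second moments of the boundary, the case of one large
corner triangle, and the isoperimetric inequality. -/

open Complex MeasureTheory

namespace Pool.Agent.H32.Q4

open Pool.Agent.H32.Stek

/-- second moment of the boundary about its centroid -/
noncomputable def I2 (A B C D : ℂ) : ℝ :=
  bd4 A B C D (fun z => ‖z‖ ^ 2) -
    ((bd4 A B C D (fun z => z.re)) ^ 2 + (bd4 A B C D (fun z => z.im)) ^ 2) / perim4 A B C D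

theorem DG_quad (a b c : ℝ) : ∫ t in (0:ℝ)..1, (a + b * t + c * t ^ 2) = a + b / 2 + c / 3 := by
  have h : ∀ t ∈ Set.uIcc (0:ℝ) 1, HasDerivAt (fun t : ℝ => a * t + b * t ^ 2 / 2 + c * t ^ 3 / 3)
      (a + b * t + c * t ^ 2) t := by
    intro t _
    have h1 := ((hasDerivAt_id t).const_mul a).add
      ((((hasDerivAt_pow 2 t).const_mul b).div_const 2).add
      (((hasDerivAt_pow 3 t).const_mul c).div_const 3))
    refine (h1.congr_deriv ?_).congr_of_eventuallyEq (Filter.Eventually.of_forall fun x => ?_)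
    · simp; ring
    · simp only [Pi.add_apply, id]; ring
  rw [intervalIntegral.integral_eq_sub_of_hasDerivAt h
    ((by fun_prop : Continuous fun t : ℝ => a + b * t + c * t ^ 2).intervalIntegrable _ _)]
  ring

theorem DG_norm_sq (z : ℂ) : ‖z‖ ^ 2 = z.re ^ 2 + z.im ^ 2 := by
  rw [Complex.sq_norm, Complex.normSq_apply]; ring

/-- DG1. -/
theorem seg_sq (A B : ℂ) : segInt (fun z => ‖z‖ ^ 2) A B =
    ‖B - A‖ * (‖(A + B) / 2‖ ^ 2 + ‖B - A‖ ^ 2 / 12) := by
  unfold segInt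
  congr 1
  have h : (fun t : ℝ => ‖A + t * (B - A)‖ ^ 2) = fun t : ℝ =>
      (A.re ^ 2 + A.im ^ 2) + (2 * (A.re * (B.re - A.re) + A.im * (B.im - A.im))) * t +
        ((B.re - A.re) ^ 2 + (B.im - A.im) ^ 2) * t ^ 2 := by
    funext t
    rw [DG_norm_sq]
    simp only [add_re, add_im, mul_re, mul_im, sub_re, sub_im, ofReal_re, ofReal_im]
    ring
  rw [h, DG_quad, DG_norm_sq, DG_norm_sq, Complex.div_ofNat_re, Complex.div_ofNat_im]
  simp only [add_re, add_im, sub_re, sub_im]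
  ring

theorem seg_re (A B : ℂ) : segInt (fun z => z.re) A B = ‖B - A‖ * ((A + B) / 2).re := by
  unfold segInt
  congr 1
  have h : (fun t : ℝ => (A + t * (B - A)).re) = fun t : ℝ =>
      A.re + (B.re - A.re) * t + 0 * t ^ 2 := by
    funext t
    simp only [add_re, mul_re, sub_re, ofReal_re, ofReal_im]
    ring
  rw [h, DG_quad, Complex.div_ofNat_re]
  simp only [add_re]
  ring

theorem seg_im (A B : ℂ) : segInt (fun z => z.im) A B = ‖B - A‖ * ((A + B) / 2).im := by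
  unfold segInt
  congr 1
  have h : (fun t : ℝ => (A + t * (B - A)).im) = fun t : ℝ =>
      A.im + (B.im - A.im) * t + 0 * t ^ 2 := by
    funext t
    simp only [add_im, mul_im, sub_im, ofReal_re, ofReal_im]
    ring
  rw [h, DG_quad, Complex.div_ofNat_im]
  simp only [add_im]
  ring

/-- DG2. `(|p|+|q|)² ≥ |p+q|² + (2 cr(p,q)/|p+q|)²`, in the form without division.
Proof: with `e = (p+q)/|p+q|`, `p = (p1, p2)`, `q = (q1, -p2)` in the frame `e`,
`|p||q| ≥ p1 q1 + p2²`. -/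
theorem mink (p q : ℂ) :
    (‖p + q‖ ^ 2) ^ 2 + (2 * cr p q) ^ 2 ≤ ‖p + q‖ ^ 2 * (‖p‖ + ‖q‖) ^ 2 := by
  have hE : ‖p + q‖ ^ 2 = ‖p‖ ^ 2 + ‖q‖ ^ 2 + 2 * dt p q := by
    rw [DG_norm_sq, DG_norm_sq, DG_norm_sq]
    unfold dt
    simp only [add_re, add_im]
    ring
  have hc : cr p q ^ 2 = ‖p‖ ^ 2 * ‖q‖ ^ 2 - dt p q ^ 2 := by
    rw [DG_norm_sq, DG_norm_sq]
    unfold dt cr
    ring
  have hP := norm_nonneg p
  have hQ := norm_nonneg q
  have hd : dt p q ≤ ‖p‖ * ‖q‖ := by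
    refine le_trans (le_abs_self _) (abs_le_of_sq_le_sq ?_ (by positivity)) 
    nlinarith [sq_nonneg (cr p q)]
  rw [hE, mul_pow, hc]
  nlinarith [mul_nonneg (sub_nonneg.2 hd) (sq_nonneg (‖p‖ - ‖q‖))]

theorem bd4_rot (A B C D : ℂ) (f : ℂ → ℝ) : bd4 B C D A f = bd4 A B C D f := by
  unfold bd4; ring

theorem perim4_rot (A B C D : ℂ) : perim4 B C D A = perim4 A B C D := by
  unfold perim4; ring

theorem I2_rot (A B C D : ℂ) : I2 B C D A = I2 A B C D := by
  unfold I2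
  rw [bd4_rot A B C D, bd4_rot A B C D, bd4_rot A B C D, perim4_rot]

/-- DG6. isoperimetric inequality. Proof: `mink` for the two corner triangles at `V1`, `V3`,
then Minkowski: `L² ≥ 4(2β)²... ≥ 16 K`. -/
theorem iso {V1 V2 V3 V4 : ℂ} {K : ℝ} (hK : 0 < K) (hK2 : 2 * K = cr (V3 - V1) (V4 - V2)) :
    16 * K ≤ perim4 V1 V2 V3 V4 ^ 2 := by
  have e1 : (V1 - V4) + (V2 - V1) = V2 - V4 := by ring
  have e2 : (V3 - V2) + (V4 - V3) = -(V2 - V4) := by ring
  have m1 := mink (V1 - V4) (V2 - V1)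
  have m2 := mink (V3 - V2) (V4 - V3)
  rw [e1] at m1
  rw [e2, norm_neg] at m2
  have hc : cr (V1 - V4) (V2 - V1) + cr (V3 - V2) (V4 - V3) = 2 * K := by
    rw [hK2]
    unfold cr
    simp only [sub_re, sub_im]
    ring
  have hper : perim4 V1 V2 V3 V4 = (‖V1 - V4‖ + ‖V2 - V1‖) + (‖V3 - V2‖ + ‖V4 - V3‖) := by
    unfold perim4
    rw [dist_comm V1 V2, dist_comm V2 V3, dist_comm V3 V4, dist_comm V4 V1]
    simp only [dist_eq_norm]
    ring
  rw [hper]
  have ha : 0 ≤ ‖V1 - V4‖ + ‖V2 - V1‖ := by positivity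
  have hb : 0 ≤ ‖V3 - V2‖ + ‖V4 - V3‖ := by positivity
  have hE0 : 0 < ‖V2 - V4‖ ^ 2 := by
    have : V2 - V4 ≠ 0 := by
      intro h
      have h2 : V4 - V2 = 0 := by linear_combination -h
      rw [h2] at hK2
      unfold cr at hK2
      simp at hK2
      exact hK.ne' hK2
    positivity
  generalize ‖V1 - V4‖ + ‖V2 - V1‖ = a at *
  generalize ‖V3 - V2‖ + ‖V4 - V3‖ = b at *
  generalize ‖V2 - V4‖ ^ 2 = E at *
  generalize cr (V1 - V4) (V2 - V1) = c1 at *
  generalize cr (V3 - V2) (V4 - V3) = c3 at *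
  have hab : E ^ 2 + 4 * (c1 * c3) ≤ a * b * E := by
    refine le_trans (le_abs_self _) (abs_le_of_sq_le_sq ?_ (by positivity))
    have h1 : (E ^ 2 + (2 * c1) ^ 2) * (E ^ 2 + (2 * c3) ^ 2) ≤ (E * a ^ 2) * (E * b ^ 2) :=
      mul_le_mul m1 m2 (by positivity) (by positivity)
    nlinarith [sq_nonneg (E * (c1 - c3))]
  have h2 : 4 * E ^ 2 + 16 * K ^ 2 ≤ (a + b) ^ 2 * E := by
    have : 16 * K ^ 2 = 4 * (c1 + c3) ^ 2 := by rw [hc]; ring
    rw [this]
    nlinarith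
  have h3 : 16 * K * E ≤ (a + b) ^ 2 * E := by nlinarith [sq_nonneg (E - 2 * K)]
  exact le_of_mul_le_mul_right h3 hE0

end Pool.Agent.H32.Q4
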