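import Mathlib
import Pool.Agent.H32.Q4.D

set_option autoImplicit false

/-! Steklov problem on quadrilaterals: scalar inequality for the case of one large corner triangle. -/

open Complex MeasureTheory

namespace Pool.Agent.H32.Q4

open Pool.Agent.H32.Stek

theorem DGs_amgm {a c κ β k : ℝ} (ha : 0 ≤ a) (hc : 0 ≤ c) (hβ : 0 < β) (hk : 0 < k)
    (h : κ ^ 2 ≤ 4 * (a * c)) : κ * (β * k) ≤ a * β ^ 2 + c * k ^ 2 := by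
  have h0 : 0 ≤ a * β ^ 2 + c * k ^ 2 := by positivity
  refine le_of_sq_le_sq ?_ h0
  have h1 : (κ * (β * k)) ^ 2 ≤ 4 * (a * c) * (β * k) ^ 2 := by
    rw [mul_pow]; exact mul_le_mul_of_nonneg_right h (sq_nonneg _)
  nlinarith [sq_nonneg (a * β ^ 2 - c * k ^ 2)]

/-- DG3. scalar inequality. Proof (`k = 1` by homogeneity, `ρ = A2/A1`):
* `39/100 ≤ ρ ≤ 82/100`: `(A1²-A1A2+A2²)/12 + β²/4 = (A1(A1²+3β²)+A2(A2²+3β²))/(12(A1+A2)) ≥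
  β²/3 + .0675 k² A1/(A1+A2)`; discriminant: `16(.81A1²+3.81A1A2) ≥ 19.001 (A1+A2)²`
  (`144·.36325² = 19.0009`);
* `ρ ≤ .395`: `A1 ≥ β/ρ`, so `V ≥ β² (1-ρ+4ρ²)/(12ρ²) + k² ρ/(4(1+ρ)²)`, and
  `(1-ρ+4ρ²)/(12ρ(1+ρ)²) ≥ .13195`;
* `ρ ≥ .8`: `A1² ≥ β²+.81k²`, `V ≥ β² (4-ρ+ρ²)/12 + k² (.0675(1-ρ+ρ²)+ρ/(4(1+ρ)²))`,
  product of the coefficients times 4 is `≥ .13195`
  (`ρ ≤ 1.3`: `.32`, `.118`; `ρ ≥ 1.3`: `.3658`, `.0938`). -/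
theorem diag_sc {A1 A2 β k : ℝ} (hβ : 0 < β) (hk : 0 < k) (hA1 : 0 < A1)
    (h1 : β ^ 2 + (9 / 10 * k) ^ 2 ≤ A1 ^ 2) (h2 : β ≤ A2) :
    0.36325 * (β * k) ≤ (A1 ^ 2 - A1 * A2 + A2 ^ 2) / 12 + β ^ 2 / 4 +
      A1 * A2 * k ^ 2 / (4 * (A1 + A2) ^ 2) := by
  have hA2 : 0 < A2 := hβ.trans_le h2
  set ρ := A2 / A1 with hρ
  have hρ0 : 0 < ρ := by positivity
  have e2 : A2 = ρ * A1 := by rw [hρ]; field_simp
  have hA1' := hA1.ne'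
  have e3 : A1 * A2 * k ^ 2 / (4 * (A1 + A2) ^ 2) = ρ / (4 * (1 + ρ) ^ 2) * k ^ 2 := by
    rw [e2]
    have : A1 + ρ * A1 = A1 * (1 + ρ) := by ring
    rw [this]
    field_simp
  have e4 : (A1 ^ 2 - A1 * A2 + A2 ^ 2) / 12 = A1 ^ 2 * ((1 - ρ + ρ ^ 2) / 12) := by
    rw [e2]; ring
  rw [e3, e4]
  have hq : 0 < 1 - ρ + ρ ^ 2 := by nlinarith [sq_nonneg (ρ - 1 / 2)]
  have h3 : β ≤ ρ * A1 := e2 ▸ h2
  have hs : 0 < (1 + ρ) ^ 2 := by positivity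
  rcases le_or_gt ρ 0.39 with hc | hc
  · -- small ratio
    have h4 : β ^ 2 / ρ ^ 2 ≤ A1 ^ 2 := by
      rw [div_le_iff₀ (by positivity)]
      calc β ^ 2 ≤ (ρ * A1) ^ 2 := pow_le_pow_left₀ hβ.le h3 2
        _ = A1 ^ 2 * ρ ^ 2 := by ring
    have h5 := DGs_amgm (a := (1 - ρ + ρ ^ 2) / (12 * ρ ^ 2) + 1 / 4) (c := ρ / (4 * (1 + ρ) ^ 2))
      (κ := 0.36325) (by positivity) (by positivity) hβ hk (by
        have e : 4 * (((1 - ρ + ρ ^ 2) / (12 * ρ ^ 2) + 1 / 4) * (ρ / (4 * (1 + ρ) ^ 2))) =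
          (1 - ρ + 4 * ρ ^ 2) / (12 * ρ * (1 + ρ) ^ 2) := by field_simp; ring
        rw [e, le_div_iff₀ (by positivity)]
        nlinarith [mul_nonneg hρ0.le (sub_nonneg.2 hc), mul_nonneg (mul_nonneg hρ0.le (sub_nonneg.2 hc)) hρ0.le,
          mul_nonneg (sub_nonneg.2 hc) (sq_nonneg (ρ - 0.39)), sq_nonneg (ρ - 0.39)])
    have h6 : β ^ 2 / ρ ^ 2 * ((1 - ρ + ρ ^ 2) / 12) ≤ A1 ^ 2 * ((1 - ρ + ρ ^ 2) / 12) :=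
      mul_le_mul_of_nonneg_right h4 (by positivity)
    have e5 : ((1 - ρ + ρ ^ 2) / (12 * ρ ^ 2) + 1 / 4) * β ^ 2 =
      β ^ 2 / ρ ^ 2 * ((1 - ρ + ρ ^ 2) / 12) + β ^ 2 / 4 := by
      field_simp
    linarith
  rcases le_or_gt ρ 0.82 with hc2 | hc2
  · -- middle
    have h4 : 1 / (12 * (1 + ρ)) * (4 * β ^ 2 + 0.81 * k ^ 2 + ρ * (4 * β ^ 2)) ≤
        A1 ^ 2 * ((1 - ρ + ρ ^ 2) / 12) + β ^ 2 / 4 := by
      have e : A1 ^ 2 * ((1 - ρ + ρ ^ 2) / 12) + β ^ 2 / 4 = 1 / (12 * (1 + ρ)) *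
          (A1 ^ 2 + 3 * β ^ 2 + ρ * ((ρ * A1) ^ 2 + 3 * β ^ 2)) := by field_simp; ring
      rw [e]
      refine mul_le_mul_of_nonneg_left ?_ (by positivity)
      have h5 : β ^ 2 ≤ (ρ * A1) ^ 2 := pow_le_pow_left₀ hβ.le h3 2
      nlinarith
    have h5 := DGs_amgm (a := 1 / 3) (c := 0.0675 / (1 + ρ) + ρ / (4 * (1 + ρ) ^ 2))
      (κ := 0.36325) (by positivity) (by positivity) hβ hk (by
        have e : 4 * (1 / 3 * (0.0675 / (1 + ρ) + ρ / (4 * (1 + ρ) ^ 2))) =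
          (0.27 + 1.27 * ρ) / (3 * (1 + ρ) ^ 2) := by field_simp; ring
        rw [e, le_div_iff₀ (by positivity)]
        nlinarith)
    have e5 : 1 / (12 * (1 + ρ)) * (4 * β ^ 2 + 0.81 * k ^ 2 + ρ * (4 * β ^ 2)) =
      1 / 3 * β ^ 2 + 0.0675 / (1 + ρ) * k ^ 2 := by field_simp; ring
    have e6 : (0.0675 / (1 + ρ) + ρ / (4 * (1 + ρ) ^ 2)) * k ^ 2 =
      0.0675 / (1 + ρ) * k ^ 2 + ρ / (4 * (1 + ρ) ^ 2) * k ^ 2 := by ring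
    linarith
  · -- large ratio
    have h5 := DGs_amgm (a := (4 - ρ + ρ ^ 2) / 12) (c := 0.0675 * (1 - ρ + ρ ^ 2) + ρ / (4 * (1 + ρ) ^ 2))
      (κ := 0.36325) (by nlinarith) (by positivity) hβ hk (by
        have e : 4 * ((4 - ρ + ρ ^ 2) / 12 * (0.0675 * (1 - ρ + ρ ^ 2) + ρ / (4 * (1 + ρ) ^ 2))) =
          (4 - ρ + ρ ^ 2) * (0.27 * (1 - ρ + ρ ^ 2) * (1 + ρ) ^ 2 + ρ) / (12 * (1 + ρ) ^ 2) := by field_simp; ring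
        rw [e, le_div_iff₀ (by positivity)]
        obtain ⟨t, ht⟩ : ∃ t, ρ = 0.82 + t := ⟨ρ - 0.82, by ring⟩
        have ht0 : 0 < t := by linarith
        rw [ht]
        have := pow_pos ht0 2
        have := pow_pos ht0 3
        have := pow_pos ht0 4
        have := pow_pos ht0 5
        have := pow_pos ht0 6
        nlinarith)
    have h6 : (β ^ 2 + (9 / 10 * k) ^ 2) * ((1 - ρ + ρ ^ 2) / 12) ≤ A1 ^ 2 * ((1 - ρ + ρ ^ 2) / 12) :=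
      mul_le_mul_of_nonneg_right h1 (by positivity)
    have e5 : (4 - ρ + ρ ^ 2) / 12 * β ^ 2 + (0.0675 * (1 - ρ + ρ ^ 2) + ρ / (4 * (1 + ρ) ^ 2)) * k ^ 2 =
      (β ^ 2 + (9 / 10 * k) ^ 2) * ((1 - ρ + ρ ^ 2) / 12) + β ^ 2 / 4 + ρ / (4 * (1 + ρ) ^ 2) * k ^ 2 := by ring
    linarith

end Pool.Agent.H32.Q4
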