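import Mathlib
import Pool.Agent.H32.Q4.DG
import Pool.Agent.H32.Q4.DGs

set_option autoImplicit false

/-! Steklov problem on quadrilaterals: second moment of the boundary from a diagonal. -/

open Complex MeasureTheory

namespace Pool.Agent.H32.Q4

open Pool.Agent.H32.Stek

theorem DGi_pair {l l' β : ℝ} (h0 : 0 < l + l') (hb : β ^ 2 ≤ ((l + l') / 2) ^ 2) :
    (l + l') * (((l + l') / 2) ^ 2 + 3 * β ^ 2) / 12 ≤
      (l ^ 3 + l' ^ 3) / 12 + l * l' / (l + l') * β ^ 2 := by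
  have e : (l ^ 3 + l' ^ 3) / 12 + l * l' / (l + l') * β ^ 2 -
      (l + l') * (((l + l') / 2) ^ 2 + 3 * β ^ 2) / 12 =
      ((l - l') ^ 2 * (((l + l') / 2) ^ 2 - β ^ 2)) / (4 * (l + l')) := by
    field_simp
    ring
  have h1 : 0 ≤ ((l - l') ^ 2 * (((l + l') / 2) ^ 2 - β ^ 2)) / (4 * (l + l')) :=
    div_nonneg (mul_nonneg (sq_nonneg _) (sub_nonneg.2 hb)) (by positivity)
  linarith

theorem DGi_id {a b c d x1 x2 x3 x4 : ℝ} (h1 : 0 < a + d) (h2 : 0 < b + c) :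
    a * x1 ^ 2 + b * x2 ^ 2 + c * x3 ^ 2 + d * x4 ^ 2 -
      (a * x1 + b * x2 + c * x3 + d * x4) ^ 2 / (a + b + c + d) =
    a * d / (a + d) * (x1 - x4) ^ 2 + b * c / (b + c) * (x2 - x3) ^ 2 +
      (a + d) * (b + c) / (a + b + c + d) *
        ((a * x1 + d * x4) / (a + d) - (b * x2 + c * x3) / (b + c)) ^ 2 := by
  have h3 : a + b + c + d ≠ 0 := by nlinarith
  have h1' := h1.ne'
  have h2' := h2.ne'
  field_simp
  ring

/-- DG4. `ℓ1 = |V1V2|` etc., `β = |V2V4|/2`, `k = K/β`, `A1 = (ℓ12+ℓ41)/2`, `A2 = (ℓ23+ℓ34)/2`: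
`I2 ≥ L ((A1²-A1A2+A2²)/12 + β²/4 + A1A2k²/(4(A1+A2)²))`.
Proof: `I2 = Σ ℓ³/12 + Σ ℓ|m|² - |Σ ℓ m|²/L` (`m` midpoints). For two adjacent sides
`ℓ, ℓ'` with midpoints at distance `β`: `(ℓ³+ℓ'³)/12 + ℓℓ'β²/(ℓ+ℓ') ≥ (ℓ+ℓ')(A²+3β²)/12`,
`A = (ℓ+ℓ')/2 ≥ β`. Between the two groups: `(2A1)(2A2)/(2A1+2A2) |C1-C2|²` and
`K = cr(V4-V2, C1-C2) ≤ 2β|C1-C2|`, since `cr(V4-V2, m12-m41) = 0`. -/
theorem I2_ge {V1 V2 V3 V4 : ℂ} {K : ℝ} (hK : 0 < K) (hK2 : 2 * K = cr (V3 - V1) (V4 - V2)) :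
    perim4 V1 V2 V3 V4 * ((((dist V1 V2 + dist V4 V1) / 2) ^ 2 -
      (dist V1 V2 + dist V4 V1) / 2 * ((dist V2 V3 + dist V3 V4) / 2) +
      ((dist V2 V3 + dist V3 V4) / 2) ^ 2) / 12 + (dist V2 V4 / 2) ^ 2 / 4 +
      (dist V1 V2 + dist V4 V1) / 2 * ((dist V2 V3 + dist V3 V4) / 2) *
        (K / (dist V2 V4 / 2)) ^ 2 / (4 * ((dist V1 V2 + dist V4 V1) / 2 +
          (dist V2 V3 + dist V3 V4) / 2) ^ 2)) ≤ I2 V1 V2 V3 V4 := by
  have hVne : 0 < ‖V2 - V4‖ := by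
    have : V2 - V4 ≠ 0 := by
      intro h
      have h2 : V4 - V2 = 0 := by linear_combination -h
      rw [h2] at hK2
      unfold cr at hK2
      simp at hK2
      exact hK.ne' hK2
    positivity
  have n1 : ‖V2 - V4‖ ≤ ‖V2 - V1‖ + ‖V1 - V4‖ := by
    have : V2 - V4 = (V2 - V1) + (V1 - V4) := by ring
    rw [this]; exact norm_add_le _ _
  have n2 : ‖V2 - V4‖ ≤ ‖V3 - V2‖ + ‖V4 - V3‖ := by
    have : V2 - V4 = -((V3 - V2) + (V4 - V3)) := by ring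
    rw [this, norm_neg]; exact norm_add_le _ _
  have hsq : ‖V2 - V4‖ ^ 2 = (V2.re - V4.re) ^ 2 + (V2.im - V4.im) ^ 2 := by
    rw [DG_norm_sq]; simp only [sub_re, sub_im]
  unfold I2 bd4 perim4
  rw [dist_comm V1 V2, dist_comm V2 V3, dist_comm V3 V4, dist_comm V4 V1, dist_eq_norm V2 V1,
    dist_eq_norm V1 V4, dist_eq_norm V3 V2, dist_eq_norm V4 V3, dist_eq_norm V2 V4]
  simp only [seg_sq, seg_re, seg_im, DG_norm_sq ((_ + _) / 2), Complex.div_ofNat_re,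
    Complex.div_ofNat_im, add_re, add_im]
  have ha : 0 ≤ ‖V2 - V1‖ := norm_nonneg _
  have hb : 0 ≤ ‖V3 - V2‖ := norm_nonneg _
  have hc : 0 ≤ ‖V4 - V3‖ := norm_nonneg _
  have hd : 0 ≤ ‖V1 - V4‖ := norm_nonneg _
  generalize ‖V2 - V1‖ = a at *
  generalize ‖V3 - V2‖ = b at *
  generalize ‖V4 - V3‖ = c at *
  generalize ‖V1 - V4‖ = d at *
  generalize hβ : ‖V2 - V4‖ = e at *
  unfold cr at hK2
  simp only [sub_re, sub_im] at hK2
  generalize V1.re = x1 at *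
  generalize V2.re = x2 at *
  generalize V3.re = x3 at *
  generalize V4.re = x4 at *
  generalize V1.im = y1 at *
  generalize V2.im = y2 at *
  generalize V3.im = y3 at *
  generalize V4.im = y4 at *
  have w1 : 0 < a + d := by linarith
  have w2 : 0 < b + c := by linarith
  have w3 : 0 < a + b + c + d := by linarith
  have p1 := DGi_pair (l := a) (l' := d) (β := e / 2) w1 (by
    refine pow_le_pow_left₀ (by positivity) (by linarith) 2)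
  have p2 := DGi_pair (l := b) (l' := c) (β := e / 2) w2 (by
    refine pow_le_pow_left₀ (by positivity) (by linarith) 2)
  have i1 := DGi_id (a := a) (b := b) (c := c) (d := d) (x1 := (x1 + x2) / 2) (x2 := (x2 + x3) / 2)
    (x3 := (x3 + x4) / 2) (x4 := (x4 + x1) / 2) w1 w2
  have i2 := DGi_id (a := a) (b := b) (c := c) (d := d) (x1 := (y1 + y2) / 2) (x2 := (y2 + y3) / 2)
    (x3 := (y3 + y4) / 2) (x4 := (y4 + y1) / 2) w1 w2
  -- the distance of the two centroids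
  generalize hX : (a * ((x1 + x2) / 2) + d * ((x4 + x1) / 2)) / (a + d) -
    (b * ((x2 + x3) / 2) + c * ((x3 + x4) / 2)) / (b + c) = X at *
  generalize hY : (a * ((y1 + y2) / 2) + d * ((y4 + y1) / 2)) / (a + d) -
    (b * ((y2 + y3) / 2) + c * ((y3 + y4) / 2)) / (b + c) = Y at *
  have hcr : (x4 - x2) * Y - (y4 - y2) * X = K := by
    rw [← hX, ← hY]
    have : K = ((x3 - x1) * (y4 - y2) - (y3 - y1) * (x4 - x2)) / 2 := by linarith
    rw [this]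
    field_simp
    ring
  have hdist : (K / e) ^ 2 ≤ X ^ 2 + Y ^ 2 := by
    rw [div_pow, div_le_iff₀ (by positivity), hsq, ← hcr]
    have r1 : (X ^ 2 + Y ^ 2) * ((x2 - x4) ^ 2 + (y2 - y4) ^ 2) =
        ((x4 - x2) * Y - (y4 - y2) * X) ^ 2 + ((x4 - x2) * X + (y4 - y2) * Y) ^ 2 := by ring
    rw [r1]
    exact le_add_of_nonneg_right (sq_nonneg _)
  have hK4 : (K / (e / 2)) ^ 2 = 4 * (K / e) ^ 2 := by
    field_simp
    ring
  rw [hK4]
  have q1 : 0 ≤ (a + d) * (b + c) / (a + b + c + d) := by positivity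
  have q2 := mul_le_mul_of_nonneg_left hdist q1
  have q3 : (a + b + c + d) * ((((a + d) / 2) ^ 2 - (a + d) / 2 * ((b + c) / 2) +
      ((b + c) / 2) ^ 2) / 12 + (e / 2) ^ 2 / 4 +
      (a + d) / 2 * ((b + c) / 2) * (4 * (K / e) ^ 2) /
        (4 * ((a + d) / 2 + (b + c) / 2) ^ 2)) =
      (a + d) * (((a + d) / 2) ^ 2 + 3 * (e / 2) ^ 2) / 12 +
      (b + c) * (((b + c) / 2) ^ 2 + 3 * (e / 2) ^ 2) / 12 +
      (a + d) * (b + c) / (a + b + c + d) * (K / e) ^ 2 := by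
    have e1 : (a + d) / 2 + (b + c) / 2 = (a + b + c + d) / 2 := by ring
    rw [e1]
    generalize K / e = k
    have := w3.ne'
    field_simp
    ring
  rw [q3]
  have q4 : ((x1 + x2) / 2 - (x4 + x1) / 2) ^ 2 + ((y1 + y2) / 2 - (y4 + y1) / 2) ^ 2 =
      (e / 2) ^ 2 := by
    rw [div_pow, hsq]; ring
  have q5 : ((x2 + x3) / 2 - (x3 + x4) / 2) ^ 2 + ((y2 + y3) / 2 - (y3 + y4) / 2) ^ 2 =
      (e / 2) ^ 2 := by
    rw [div_pow, hsq]; ring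
  have q6 : a * d / (a + d) * ((x1 + x2) / 2 - (x4 + x1) / 2) ^ 2 +
      a * d / (a + d) * ((y1 + y2) / 2 - (y4 + y1) / 2) ^ 2 = a * d / (a + d) * (e / 2) ^ 2 := by
    rw [← mul_add, q4]
  have q7 : b * c / (b + c) * ((x2 + x3) / 2 - (x3 + x4) / 2) ^ 2 +
      b * c / (b + c) * ((y2 + y3) / 2 - (y3 + y4) / 2) ^ 2 = b * c / (b + c) * (e / 2) ^ 2 := by
    rw [← mul_add, q5]
  have r : a * (((x1 + x2) / 2) ^ 2 + ((y1 + y2) / 2) ^ 2 + a ^ 2 / 12) +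
            b * (((x2 + x3) / 2) ^ 2 + ((y2 + y3) / 2) ^ 2 + b ^ 2 / 12) +
          c * (((x3 + x4) / 2) ^ 2 + ((y3 + y4) / 2) ^ 2 + c ^ 2 / 12) +
        d * (((x4 + x1) / 2) ^ 2 + ((y4 + y1) / 2) ^ 2 + d ^ 2 / 12) -
      ((a * ((x1 + x2) / 2) + b * ((x2 + x3) / 2) + c * ((x3 + x4) / 2) + d * ((x4 + x1) / 2)) ^ 2 +
          (a * ((y1 + y2) / 2) + b * ((y2 + y3) / 2) + c * ((y3 + y4) / 2) + d * ((y4 + y1) / 2)) ^ 2) /
        (a + b + c + d) =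
      (a * ((x1 + x2) / 2) ^ 2 + b * ((x2 + x3) / 2) ^ 2 + c * ((x3 + x4) / 2) ^ 2 +
        d * ((x4 + x1) / 2) ^ 2 -
      (a * ((x1 + x2) / 2) + b * ((x2 + x3) / 2) + c * ((x3 + x4) / 2) + d * ((x4 + x1) / 2)) ^ 2 /
        (a + b + c + d)) +
      (a * ((y1 + y2) / 2) ^ 2 + b * ((y2 + y3) / 2) ^ 2 + c * ((y3 + y4) / 2) ^ 2 +
        d * ((y4 + y1) / 2) ^ 2 -
      (a * ((y1 + y2) / 2) + b * ((y2 + y3) / 2) + c * ((y3 + y4) / 2) + d * ((y4 + y1) / 2)) ^ 2 /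
        (a + b + c + d)) + (a ^ 3 + d ^ 3) / 12 + (b ^ 3 + c ^ 3) / 12 := by
    rw [add_div]
    ring
  rw [r, i1, i2]
  generalize a * d / (a + d) = G1 at *
  generalize b * c / (b + c) = G2 at *
  generalize (a + d) * (b + c) / (a + b + c + d) = W at *
  generalize ((x1 + x2) / 2 - (x4 + x1) / 2) ^ 2 = u1 at *
  generalize ((y1 + y2) / 2 - (y4 + y1) / 2) ^ 2 = u2 at *
  generalize ((x2 + x3) / 2 - (x3 + x4) / 2) ^ 2 = u3 at *
  generalize ((y2 + y3) / 2 - (y3 + y4) / 2) ^ 2 = u4 at *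
  linarith [p1, p2, q2, q6, q7]

/-- DG5. one corner triangle has at least `0.9` of the area. -/
theorem diag_I2 {V1 V2 V3 V4 : ℂ} {K : ℝ} (hK : 0 < K)
    (hK2 : 2 * K = cr (V3 - V1) (V4 - V2)) (hc : 9 / 5 * K ≤ cr (V1 - V4) (V2 - V1)) :
    0.36325 * K * perim4 V1 V2 V3 V4 ≤ I2 V1 V2 V3 V4 := by
  have hVne : 0 < ‖V2 - V4‖ := by
    have : V2 - V4 ≠ 0 := by
      intro h
      have h2 : V4 - V2 = 0 := by linear_combination -h
      rw [h2] at hK2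
      unfold cr at hK2
      simp at hK2
      exact hK.ne' hK2
    positivity
  refine le_trans ?_ (I2_ge hK hK2)
  have hL : 0 ≤ perim4 V1 V2 V3 V4 := by unfold perim4; positivity
  rw [mul_comm (_ * K)]
  refine mul_le_mul_of_nonneg_left ?_ hL
  have hk : 0.36325 * K = 0.36325 * (dist V2 V4 / 2 * (K / (dist V2 V4 / 2))) := by
    rw [dist_eq_norm]
    field_simp
  have m1 := mink (V1 - V4) (V2 - V1)
  have e1 : (V1 - V4) + (V2 - V1) = V2 - V4 := by ring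
  rw [e1] at m1
  have n1 : ‖V2 - V4‖ ≤ ‖V2 - V1‖ + ‖V1 - V4‖ := by
    have : V2 - V4 = (V2 - V1) + (V1 - V4) := by ring
    rw [this]; exact norm_add_le _ _
  have n2 : ‖V2 - V4‖ ≤ ‖V3 - V2‖ + ‖V4 - V3‖ := by
    have : V2 - V4 = -((V3 - V2) + (V4 - V3)) := by ring
    rw [this, norm_neg]; exact norm_add_le _ _
  rw [hk]
  refine diag_sc ?_ ?_ ?_ ?_ ?_
  · rw [dist_eq_norm]; positivity
  · rw [dist_eq_norm]; positivity
  · rw [dist_comm V1 V2, dist_comm V4 V1, dist_eq_norm, dist_eq_norm]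
    linarith
  · rw [dist_comm V1 V2, dist_comm V4 V1, dist_eq_norm V2 V1, dist_eq_norm V1 V4,
      dist_eq_norm V2 V4]
    generalize ‖V2 - V1‖ = a at *
    generalize ‖V1 - V4‖ = d at *
    generalize ‖V2 - V4‖ = e at *
    have e2 : (e / 2) ^ 2 + (9 / 10 * (K / (e / 2))) ^ 2 =
        ((e ^ 2) ^ 2 + (2 * (9 / 5 * K)) ^ 2) / (4 * e ^ 2) := by
      field_simp
      ring
    rw [e2, div_le_iff₀ (by positivity)]
    have h3 : (9 / 5 * K) ^ 2 ≤ cr (V1 - V4) (V2 - V1) ^ 2 :=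
      pow_le_pow_left₀ (by positivity) hc 2
    nlinarith
  · rw [dist_eq_norm, dist_comm V2 V3, dist_comm V3 V4, dist_eq_norm, dist_eq_norm]
    linarith

end Pool.Agent.H32.Q4
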