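import Mathlib
import Pool.Agent.H32.Q4.A5
import Pool.Agent.H32.Q4.K

set_option autoImplicit false

/-! Steklov problem on quadrilaterals, near part 1: the exact identities.

`Et` is the energy of the transplanted pair of trial functions on one of the four triangles,
`Dd` the boundary integral of the squares, `cenq` the square of the boundary mean. -/

namespace Pool.Agent.H32.Q4

/-- energy on one triangle -/
noncomputable def Et (p0 q0 r0 s0 m n1 n2 n3 a b c gp gs g D : ℝ) : ℝ :=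
  ((a * p0 + b * r0 + 2 / 3 * g + 4 * gs * n3) * (b + 2 * gs + g) +
    (a * q0 + b * s0 + 2 * g + 4 * gs * n2) * a -
    2 * (c + gp) * (c * m + 2 * gp * n1)) / D

/-- total energy -/
noncomputable def Es (p0 q0 r0 s0 m n1 n2 n3 a b c x y : ℝ) : ℝ :=
  Et p0 q0 r0 s0 m n1 n2 n3 a b c (y * a + x * c) (y * c + x * b) (gg a b c x y) (1 + x) +
  Et p0 q0 r0 s0 m n1 n2 n3 a b (-c) (y * a + x * c) (-(y * c + x * b)) (gg a b c x y) (1 - x) +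
  Et p0 q0 r0 s0 m n1 n2 n3 b a c (y * c + x * b) (y * a + x * c) (gg a b c x y) (1 + y) +
  Et p0 q0 r0 s0 m n1 n2 n3 b a (-c) (y * c + x * b) (-(y * a + x * c)) (gg a b c x y) (1 - y)

/-- boundary integral of the squares -/
noncomputable def Dd (al be et a b s p ds dp g : ℝ) : ℝ :=
  2 * s * (a * al + b * be + 8 / 3 * g + 4 * et * ds ^ 2) +
  2 * p * (b * al + a * be + 8 / 3 * g + 4 * et * dp ^ 2)

def cenq (a b c ds dp : ℝ) : ℝ := a * ds ^ 2 + 2 * c * ds * dp + b * dp ^ 2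

/-- the error term -/
noncomputable def Psi (K1 K2 K3 a b c x y s p : ℝ) : ℝ :=
  K1 / 2 * (a - b) ^ 2 + K2 / 2 * ((s ^ 2 - b) - (p ^ 2 - a)) ^ 2 -
    (K1 + K2) / 2 * (a - b) * ((s ^ 2 - b) - (p ^ 2 - a)) + K3 * (x ^ 2 + y ^ 2) +
    2 * K3 * ((s ^ 2 - b) * (p ^ 2 - a) * ((s + p) ^ 2 - s * p - gg a b c x y) - x * y * c) /
      (s * p)

noncomputable def NEx (K1 K2 K3 C0 C1 E a b c x y s p : ℝ) : ℝ :=
  C0 * (a + b) + C1 * gg a b c x y - E + (K3 - K2 / 2) * ((s ^ 2 - b) + (p ^ 2 - a)) -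
    Psi K1 K2 K3 a b c x y s p / (s + p) ^ 2

variable {a b c x y s p ds dp : ℝ}

/-- N1a. Proof: `cen` from `Geo.cen` (divide by `s p`), and
`s a + p b = (s+p)(a+b)/2 + (s-p)(a-b)/2`, `(s-p)(s+p) = s²-p² = (b-a) + (es - ep)`,
`s ds² + p dp² = (s+p) g - (s es + p ep)`,
`s es + p ep = (s+p)(es+ep)/2 + (s-p)(es-ep)/2`. -/
theorem Geo.NE_eq (h : Geo a b c x y s p ds dp)
    {T p0 q0 r0 s0 m n1 n2 n3 al be et k0 K1 K2 K3 C0 C1 : ℝ}
    (hC : Cst T p0 q0 r0 s0 m n1 n2 n3 al be et k0 K1 K2 K3 C0 C1) (E : ℝ) :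
    T * (Dd al be et a b s p ds dp (gg a b c x y) - k0 ^ 2 * cenq a b c ds dp / (s + p)) -
      4 * (s + p) * E = 4 * (s + p) * NEx K1 K2 K3 C0 C1 E a b c x y s p := by
  have hs := h.hs
  have hp := h.hp
  have hS : s + p ≠ 0 := (add_pos hs hp).ne'
  have hsp : s * p ≠ 0 := (mul_pos hs hp).ne'
  have h1 := h.es_eq
  have h2 := h.ep_eq
  have hcen := h.cen
  have hc2 : cenq a b c ds dp = (s + p) ^ 2 * (gg a b c x y - (s ^ 2 - b) - (p ^ 2 - a)) +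
      (x ^ 2 + y ^ 2) +
      2 * (((s ^ 2 - b) * (p ^ 2 - a) * ((s + p) ^ 2 - s * p - gg a b c x y) - x * y * c) /
        (s * p)) := by
    unfold cenq
    apply mul_left_cancel₀ hsp
    rw [hcen, mul_add (s * p) _ (2 * _)]
    congr 1
    rw [mul_left_comm, mul_div_cancel₀ _ hsp]
  have hPsi : Psi K1 K2 K3 a b c x y s p =
      K1 / 2 * (a - b) ^ 2 + K2 / 2 * ((s ^ 2 - b) - (p ^ 2 - a)) ^ 2 -
    (K1 + K2) / 2 * (a - b) * ((s ^ 2 - b) - (p ^ 2 - a)) + K3 * (x ^ 2 + y ^ 2) +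
    2 * K3 * (((s ^ 2 - b) * (p ^ 2 - a) * ((s + p) ^ 2 - s * p - gg a b c x y) - x * y * c) /
      (s * p)) := by
    unfold Psi
    rw [mul_div_assoc]
  have key : T * Dd al be et a b s p ds dp (gg a b c x y) * (s + p) -
      T * k0 ^ 2 * cenq a b c ds dp =
      4 * (s + p) ^ 2 * (C0 * (a + b) + C1 * gg a b c x y +
        (K3 - K2 / 2) * ((s ^ 2 - b) + (p ^ 2 - a))) - 4 * Psi K1 K2 K3 a b c x y s p := by
    rw [hPsi, hc2, hC.eC1, hC.eK1, hC.eK2, hC.eK3, hC.eC0]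
    unfold Dd
    generalize ((s ^ 2 - b) * (p ^ 2 - a) * ((s + p) ^ 2 - s * p - gg a b c x y) - x * y * c) /
      (s * p) = ρ
    generalize gg a b c x y = g at *
    linear_combination (8 * T * (s + p) * et * s) * h1 + (8 * T * (s + p) * et * p) * h2
  unfold NEx
  generalize Psi K1 K2 K3 a b c x y s p = Ps at *
  generalize cenq a b c ds dp = cq at *
  generalize Dd al be et a b s p ds dp (gg a b c x y) = dd at *
  generalize gg a b c x y = g at *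
  apply mul_right_cancel₀ hS
  have e1 : (T * (dd - k0 ^ 2 * cq / (s + p)) - 4 * (s + p) * E) * (s + p) =
      T * dd * (s + p) - T * k0 ^ 2 * cq - 4 * (s + p) ^ 2 * E := by
    field_simp
  have e2 : 4 * (s + p) * (C0 * (a + b) + C1 * g - E +
      (K3 - K2 / 2) * ((s ^ 2 - b) + (p ^ 2 - a)) - Ps / (s + p) ^ 2) * (s + p) =
      4 * (s + p) ^ 2 * (C0 * (a + b) + C1 * g +
        (K3 - K2 / 2) * ((s ^ 2 - b) + (p ^ 2 - a))) - 4 * Ps - 4 * (s + p) ^ 2 * E := by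
    field_simp
    ring
  rw [e1, e2, key]

/-- N1b. expansion of the energy; `X = 1/(1-x²)`, `Y = 1/(1-y²)`,
`A1 = 2p0-8n1+4`, `A0 = 2q0`, `A2 = 4/3`, `B0 = 2s0`, `B1 = 2r0`, `B2 = 8n2-4`,
`B3 = 4/3-8n3`, `Ck0 = 4m-8n1-8n2+8`, `Ck1 = 8/3-8n3`.
(`/(1+x)` and `/(1-x)` terms are combined: `(E+O)/(1+x)+(E-O)/(1-x) = (2E-2xO)/(1-x²)`.) -/
theorem Es_eq {p0 q0 r0 s0 m n1 n2 n3 : ℝ} (hab : a * b - c ^ 2 = 1)
    (hx : x ^ 2 < 1) (hy : y ^ 2 < 1) :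
    Es p0 q0 r0 s0 m n1 n2 n3 a b c x y =
      a * (1 / (1 - x ^ 2)) * (a * (2 * q0 + (2 * p0 - 8 * n1 + 4) * y ^ 2 + 4 / 3 * y ^ 4) +
        b * (2 * s0 + 2 * r0 * y ^ 2 - (8 * n2 - 4) * x ^ 2 + (4 / 3 - 8 * n3) * (x ^ 2 * y ^ 2)) +
        x * y * c * (4 * m - 8 * n1 - 8 * n2 + 8 + (8 / 3 - 8 * n3) * y ^ 2)) +
      b * (1 / (1 - y ^ 2)) * (b * (2 * q0 + (2 * p0 - 8 * n1 + 4) * x ^ 2 + 4 / 3 * x ^ 4) +
        a * (2 * s0 + 2 * r0 * x ^ 2 - (8 * n2 - 4) * y ^ 2 + (4 / 3 - 8 * n3) * (x ^ 2 * y ^ 2)) +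
        x * y * c * (4 * m - 8 * n1 - 8 * n2 + 8 + (8 / 3 - 8 * n3) * x ^ 2)) +
      (4 * p0 * (a * b) + 2 * r0 * (a ^ 2 + b ^ 2) - 8 * m * c ^ 2 +
        8 * n3 * (y ^ 2 * a ^ 2 + x ^ 2 * b ^ 2 + 3 * (x * y * c) * (a + b) +
          2 * (x ^ 2 + y ^ 2) * c ^ 2) + 4 / 3 * (a + b) * gg a b c x y) := by
  have hx1 : (1 - x ^ 2) ≠ 0 := by nlinarith
  have hy1 : (1 - y ^ 2) ≠ 0 := by nlinarith
  have key : ∀ {z : ℝ}, z ^ 2 < 1 → ∀ A B : ℝ, A / (1 + z) + B / (1 - z) =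
      (A * (1 - z) + B * (1 + z)) * (1 / (1 - z ^ 2)) := by
    intro z hz A B
    have h1 : (1 + z) ≠ 0 := by nlinarith
    have h2 : (1 - z) ≠ 0 := by nlinarith
    have h3 : (1 - z ^ 2) = (1 + z) * (1 - z) := by ring
    rw [h3]
    field_simp
  unfold Es Et
  rw [key hx, add_assoc (_ * (1 / (1 - x ^ 2))), key hy]
  have hX : (1 - x ^ 2) * (1 / (1 - x ^ 2)) = 1 := mul_one_div_cancel hx1
  have hY : (1 - y ^ 2) * (1 / (1 - y ^ 2)) = 1 := mul_one_div_cancel hy1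
  generalize 1 / (1 - x ^ 2) = X at *
  generalize 1 / (1 - y ^ 2) = Y at *
  unfold gg
  linear_combination
    (4 * m - 16 * y ^ 2 * n3 - 4 * x ^ 2 * m + 16 * x ^ 2 * y ^ 2 * n3) * X * hab +
    (4 * m - 4 * y ^ 2 * m - 16 * x ^ 2 * n3 + 16 * x ^ 2 * y ^ 2 * n3) * Y * hab -
    (8 * m - 16 * y ^ 2 * n3 - 16 * x ^ 2 * n3) * hab +
    (4 * m + (-16) * y ^ 2 * n3 + (8 / 3) * b * c * x * y + (24) * b * c * x * y * n3 +
      (2) * b ^ 2 * r0 + (4 / 3) * b ^ 2 * x ^ 2 + (8) * b ^ 2 * x ^ 2 * n3 + (-4) * a * b * m +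
      (2) * a * b * p0 + (4 / 3) * a * b * y ^ 2 + (16) * a * b * y ^ 2 * n3) * hX +
    (4 * m + (-16) * x ^ 2 * n3 + (8 / 3) * a * c * x * y + (24) * a * c * x * y * n3 +
      (-4) * a * b * m + (2) * a * b * p0 + (4 / 3) * a * b * x ^ 2 + (16) * a * b * x ^ 2 * n3 +
      (2) * a ^ 2 * r0 + (4 / 3) * a ^ 2 * y ^ 2 + (8) * a ^ 2 * y ^ 2 * n3) * hY

/-- N1c. symmetries of the quantities -/
theorem NEx_swap {K1 K2 K3 C0 C1 E : ℝ} :
    NEx K1 K2 K3 C0 C1 E b a c y x p s = NEx K1 K2 K3 C0 C1 E a b c x y s p := by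
  unfold NEx Psi gg
  ring_nf

theorem NEx_flipx {K1 K2 K3 C0 C1 E : ℝ} :
    NEx K1 K2 K3 C0 C1 E a b (-c) (-x) y s p = NEx K1 K2 K3 C0 C1 E a b c x y s p := by
  unfold NEx Psi gg
  ring_nf

theorem Es_swap {p0 q0 r0 s0 m n1 n2 n3 : ℝ} :
    Es p0 q0 r0 s0 m n1 n2 n3 b a c y x = Es p0 q0 r0 s0 m n1 n2 n3 a b c x y := by
  have h1 : gg b a c y x = gg a b c x y := by unfold gg; ring
  have h2 : x * b + y * c = y * c + x * b := by ring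
  have h3 : x * c + y * a = y * a + x * c := by ring
  unfold Es
  rw [h1, h2, h3]
  ring

theorem Es_flipx {p0 q0 r0 s0 m n1 n2 n3 : ℝ} :
    Es p0 q0 r0 s0 m n1 n2 n3 a b (-c) (-x) y = Es p0 q0 r0 s0 m n1 n2 n3 a b c x y := by
  have h1 : gg a b (-c) (-x) y = gg a b c x y := by unfold gg; ring
  have h2 : y * (-c) + (-x) * b = -(y * c + x * b) := by ring
  have h3 : y * a + (-x) * (-c) = y * a + x * c := by ring
  have h4 : ∀ c gp gs g D, Et p0 q0 r0 s0 m n1 n2 n3 b a (-c) (-gp) gs g D =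
      Et p0 q0 r0 s0 m n1 n2 n3 b a c gp gs g D := by
    intro c gp gs g D
    unfold Et; ring
  unfold Es
  rw [h1, h2, h3, h4, neg_neg, neg_neg]
  have h5 := h4 (-c) (y * c + x * b) (-(y * a + x * c)) (gg a b c x y) (1 - y)
  rw [neg_neg] at h5
  rw [h5, ← sub_eq_add_neg, sub_neg_eq_add]
  ring

end Pool.Agent.H32.Q4
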