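import Mathlib
import Pool.Agent.H32.Q4.Th
import Pool.Agent.H32.Q4.N1
import Pool.Agent.H32.Q4.K

set_option autoImplicit false

/-! Steklov problem on quadrilaterals: the energy of the trial functions on one triangle. -/

open Complex MeasureTheory

namespace Pool.Agent.H32.Q4

open Pool.Agent.H32.Stek

/-- integral over the reference triangle `|Y| ≤ X ≤ 1` -/
noncomputable def JJ (f : ℝ → ℝ → ℝ) : ℝ := ∫ X in (0:ℝ)..1, ∫ Y in (-X)..X, f X Y

/-! ### the linear map and the reference triangle -/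

/-- the linear map `X + iY ↦ X P + Y W` -/
noncomputable def EnL (P W : ℂ) : ℂ →L[ℝ] ℂ :=
  Complex.reCLM.smulRight P + Complex.imCLM.smulRight W

lemma EnL_apply (P W z : ℂ) : EnL P W z = (z.re : ℂ) * P + (z.im : ℂ) * W := by
  simp [EnL]

lemma EnL_re (P W z : ℂ) : (EnL P W z).re = z.re * P.re + z.im * W.re := by
  rw [EnL_apply]; simp

lemma EnL_im (P W z : ℂ) : (EnL P W z).im = z.re * P.im + z.im * W.im := by
  rw [EnL_apply]; simp

lemma EnL_det (P W : ℂ) : (EnL P W).det = cr P W := by
  rw [ContinuousLinearMap.det, ← LinearMap.det_toMatrix Complex.basisOneI, Matrix.det_fin_two]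
  simp only [LinearMap.toMatrix_apply, Complex.coe_basisOneI, Complex.coe_basisOneI_repr]
  simp only [ContinuousLinearMap.coe_coe, Matrix.cons_val_zero, Matrix.cons_val_one, EnL_re,
    EnL_im]
  simp [cr]
  ring

/-- inverse of `EnL` -/
noncomputable def EnI (P W z : ℂ) : ℂ := ⟨cr z W / cr P W, cr P z / cr P W⟩

lemma EnI_EnL {P W : ℂ} (hD : cr P W ≠ 0) (z : ℂ) : EnI P W (EnL P W z) = z := by
  apply Complex.ext
  · simp only [EnI]
    rw [div_eq_iff hD]
    simp only [cr, EnL_re, EnL_im]
    ring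
  · simp only [EnI]
    rw [div_eq_iff hD]
    simp only [cr, EnL_re, EnL_im]
    ring

lemma EnL_EnI {P W : ℂ} (hD : cr P W ≠ 0) (z : ℂ) : EnL P W (EnI P W z) = z := by
  apply Complex.ext
  · rw [EnL_re]
    simp only [EnI]
    rw [div_mul_eq_mul_div, div_mul_eq_mul_div, ← add_div, div_eq_iff hD]
    simp only [cr]
    ring
  · rw [EnL_im]
    simp only [EnI]
    rw [div_mul_eq_mul_div, div_mul_eq_mul_div, ← add_div, div_eq_iff hD]
    simp only [cr]
    ring

lemma EnL_inj {P W : ℂ} (hD : cr P W ≠ 0) : Function.Injective (EnL P W) :=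
  Function.LeftInverse.injective (EnI_EnL hD)

/-- `EnL` as an equivalence -/
noncomputable def EnE {P W : ℂ} (hD : cr P W ≠ 0) : ℂ ≃L[ℝ] ℂ :=
  (LinearEquiv.ofBijective (EnL P W : ℂ →ₗ[ℝ] ℂ)
    ⟨EnL_inj hD, (Function.RightInverse.surjective (EnL_EnI hD))⟩).toContinuousLinearEquiv

lemma EnE_apply {P W : ℂ} (hD : cr P W ≠ 0) (z : ℂ) : EnE hD z = EnL P W z := rfl

/-- the reference triangle -/
def EnD : Set ℂ := {z | |z.im| ≤ z.re ∧ z.re ≤ 1}

lemma EnD_eq : EnD = convexHull ℝ {(0 : ℂ), 1 - I, 1 + I} := by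
  apply Set.Subset.antisymm
  · intro z hz
    obtain ⟨h1, h2⟩ := hz
    obtain ⟨h3, h4⟩ := abs_le.mp h1
    rw [mem_convexHull_iff]
    intro t ht hc
    have h0 : (0 : ℂ) ∈ t := ht (by simp)
    have ha : (1 - I : ℂ) ∈ t := ht (by simp)
    have hb : (1 + I : ℂ) ∈ t := ht (by simp)
    have hs := hc.sum_mem (t := (Finset.univ : Finset (Fin 3)))
      (w := ![1 - z.re, (z.re - z.im) / 2, (z.re + z.im) / 2])
      (z := ![(0 : ℂ), 1 - I, 1 + I]) (by
        intro i _
        fin_cases i
        · show 0 ≤ 1 - z.re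
          linarith
        · show 0 ≤ (z.re - z.im) / 2
          linarith
        · show 0 ≤ (z.re + z.im) / 2
          linarith) (by
        rw [Fin.sum_univ_three]
        show (1 - z.re) + (z.re - z.im) / 2 + (z.re + z.im) / 2 = 1
        ring) (by
        intro i _
        fin_cases i
        · exact h0
        · exact ha
        · exact hb)
    rw [Fin.sum_univ_three] at hs
    have he : (![1 - z.re, (z.re - z.im) / 2, (z.re + z.im) / 2] 0) • (![(0 : ℂ), 1 - I, 1 + I] 0) +
        (![1 - z.re, (z.re - z.im) / 2, (z.re + z.im) / 2] 1) • (![(0 : ℂ), 1 - I, 1 + I] 1) +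
        (![1 - z.re, (z.re - z.im) / 2, (z.re + z.im) / 2] 2) • (![(0 : ℂ), 1 - I, 1 + I] 2) = z := by
      simp only [Matrix.cons_val_zero, Matrix.cons_val_one, Matrix.cons_val_two, Matrix.tail_cons,
        Matrix.head_cons, smul_zero, zero_add]
      apply Complex.ext
      · simp
        ring
      · simp
        ring
    rw [he] at hs
    exact hs
  · apply convexHull_min
    · intro z hz
      simp only [Set.mem_insert_iff, Set.mem_singleton_iff] at hz
      rcases hz with rfl | rfl | rfl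
      · simp [EnD]
      · simp [EnD]
      · simp [EnD]
    · have h1 : EnD = {z : ℂ | z.im ≤ z.re} ∩ {z : ℂ | -z.im ≤ z.re} ∩ {z : ℂ | z.re ≤ 1} := by
        ext z
        simp only [EnD, Set.mem_setOf_eq, Set.mem_inter_iff, abs_le]
        constructor
        · rintro ⟨⟨h1, h2⟩, h3⟩
          exact ⟨⟨h2, by linarith⟩, h3⟩
        · rintro ⟨⟨h1, h2⟩, h3⟩
          exact ⟨⟨by linarith, h1⟩, h3⟩
      rw [h1]
      refine (Convex.inter ?_ ?_).inter ?_
      · intro x hx y hy a b ha hb _
        simp only [Set.mem_setOf_eq, add_im, add_re, real_smul, mul_re, mul_im, ofReal_re,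
          ofReal_im, zero_mul, sub_zero, add_zero] at *
        nlinarith
      · intro x hx y hy a b ha hb _
        simp only [Set.mem_setOf_eq, add_im, add_re, real_smul, mul_re, mul_im, ofReal_re,
          ofReal_im, zero_mul, sub_zero, add_zero] at *
        nlinarith
      · intro x hx y hy a b ha hb hab
        simp only [Set.mem_setOf_eq, add_im, add_re, real_smul, mul_re, mul_im, ofReal_re,
          ofReal_im, zero_mul, sub_zero, add_zero] at *
        nlinarith

lemma EnD_convex : Convex ℝ EnD := by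
  rw [EnD_eq]; exact convex_convexHull ℝ _

lemma EnD_compact : IsCompact EnD := by
  rw [EnD_eq]; exact (Set.toFinite _).isCompact_convexHull ℝ

lemma EnD_image (P W : ℂ) : EnL P W '' EnD = tri 0 (P - W) (P + W) := by
  rw [EnD_eq, tri]
  have h := (EnL P W : ℂ →ₗ[ℝ] ℂ).image_convexHull {(0 : ℂ), 1 - I, 1 + I}
  rw [ContinuousLinearMap.coe_coe] at h
  rw [h]
  congr 1
  rw [Set.image_insert_eq, Set.image_pair]
  have e0 : EnL P W 0 = 0 := map_zero _
  have e1 : EnL P W (1 - I) = P - W := by
    rw [EnL_apply]; simp [sub_eq_add_neg]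
  have e2 : EnL P W (1 + I) = P + W := by
    rw [EnL_apply]; simp
  rw [e0, e1, e2]

lemma EnD_ae : ∀ᵐ z ∂(volume.restrict EnD), z ∈ interior EnD := by
  rw [ae_restrict_iff' EnD_compact.isClosed.measurableSet]
  have h := EnD_convex.addHaar_frontier volume
  have h2 : ∀ᵐ z : ℂ, z ∉ frontier EnD := measure_eq_zero_iff_ae_notMem.mp h
  filter_upwards [h2] with z hz hzD
  rw [EnD_compact.isClosed.frontier_eq] at hz
  by_contra hc
  exact hz ⟨hzD, hc⟩

/-- Fubini on the reference triangle -/
lemma EnD_fubini {G : ℝ → ℝ → ℝ} (hG : Continuous (fun z : ℝ × ℝ => G z.1 z.2)) :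
    ∫ z in EnD, G z.re z.im = JJ G := by
  set D' : Set (ℝ × ℝ) := {p | |p.2| ≤ p.1 ∧ p.1 ≤ 1} with hD'
  have hclosed : IsClosed D' := by
    rw [hD', Set.setOf_and]
    exact (isClosed_le (continuous_abs.comp continuous_snd) continuous_fst).inter
      (isClosed_le continuous_fst continuous_const)
  have hbdd : Bornology.IsBounded D' := by
    rw [Metric.isBounded_iff_subset_closedBall (0 : ℝ × ℝ)]
    refine ⟨1, ?_⟩
    rintro ⟨x, y⟩ ⟨h1, h2⟩
    simp only at h1 h2
    have h3 : 0 ≤ x := (abs_nonneg y).trans h1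
    rw [mem_closedBall_zero_iff, Prod.norm_def]
    simp only [Real.norm_eq_abs]
    rw [abs_of_nonneg h3]
    exact max_le h2 (h1.trans h2)
  have hcomp : IsCompact D' := Metric.isCompact_of_isClosed_isBounded hclosed hbdd
  have hmeas : MeasurableSet D' := hclosed.measurableSet
  have h1 : ∫ z in EnD, G z.re z.im = ∫ p in D', G p.1 p.2 := by
    have hpre : EnD = Complex.measurableEquivRealProd ⁻¹' D' := by
      ext z
      simp [EnD, hD', Complex.measurableEquivRealProd_apply]
    rw [hpre]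
    have h := Complex.volume_preserving_equiv_real_prod.setIntegral_preimage_emb
      Complex.measurableEquivRealProd.measurableEmbedding (fun p : ℝ × ℝ => G p.1 p.2) D'
    rw [← h]
    rfl
  have hint : Integrable (D'.indicator fun p : ℝ × ℝ => G p.1 p.2) (volume : Measure (ℝ × ℝ)) := by
    rw [integrable_indicator_iff hmeas]
    exact hG.continuousOn.integrableOn_compact hcomp
  rw [h1, ← integral_indicator hmeas]
  rw [Measure.volume_eq_prod] at hint ⊢
  rw [integral_prod _ hint, JJ, intervalIntegral.integral_of_le zero_le_one,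
    ← integral_indicator measurableSet_Ioc]
  have hx0 : ∀ᵐ x : ℝ, x ≠ 0 := by
    rw [ae_iff]
    simp
  apply integral_congr_ae
  filter_upwards [hx0] with x hx
  by_cases hxI : x ∈ Set.Ioc (0 : ℝ) 1
  · rw [Set.indicator_of_mem hxI]
    have hle : -x ≤ x := by linarith [hxI.1]
    rw [intervalIntegral.integral_of_le hle, ← integral_Icc_eq_integral_Ioc,
      ← integral_indicator measurableSet_Icc]
    congr 1
    funext y
    by_cases hy : y ∈ Set.Icc (-x) x
    · rw [Set.indicator_of_mem hy, Set.indicator_of_mem]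
      exact ⟨abs_le.mpr hy, hxI.2⟩
    · rw [Set.indicator_of_notMem hy, Set.indicator_of_notMem]
      intro hc
      exact hy (abs_le.mp hc.1)
  · rw [Set.indicator_of_notMem hxI]
    have h0 : (fun y => D'.indicator (fun p : ℝ × ℝ => G p.1 p.2) (x, y)) = fun _ => 0 := by
      funext y
      apply Set.indicator_of_notMem
      rintro ⟨h3, h4⟩
      apply hxI
      simp only at h3 h4
      have h5 : 0 ≤ x := (abs_nonneg y).trans h3
      exact ⟨lt_of_le_of_ne h5 (Ne.symm hx), h4⟩
    rw [h0]
    simp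

/-- En1. change of variables. `L (X,Y) = X P + Y W`, `det = cr P W`. For `F` of class `C¹` and
`u (X P + Y W) = F X Y` on the reference triangle. Proof: on the open triangle
`grad u (L Z)` is determined by `F_X = ⟨grad u, P⟩`, `F_Y = ⟨grad u, W⟩`, so
`|grad u|² = |W F_X - P F_Y|²/(cr P W)²`; image formula
`MeasureTheory.integral_image_eq_integral_abs_det_fderiv_smul`; the boundary is a null set. -/
theorem energy_cov {P W : ℂ} (hD : cr P W ≠ 0) {u : ℂ → ℝ} {F FX FY : ℝ → ℝ → ℝ}
    (hX : ∀ X Y, HasDerivAt (fun x => F x Y) (FX X Y) X)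
    (hY : ∀ X Y, HasDerivAt (fun y => F X y) (FY X Y) Y)
    (cX : Continuous (fun z : ℝ × ℝ => FX z.1 z.2)) (cY : Continuous (fun z : ℝ × ℝ => FY z.1 z.2))
    (hu : ∀ X Y : ℝ, |Y| ≤ X → X ≤ 1 → u (X * P + Y * W) = F X Y) :
    ∫ z in tri 0 (P - W) (P + W), ‖grad u z‖ ^ 2 =
      JJ (fun X Y => dt W W * FX X Y ^ 2 - 2 * dt P W * (FX X Y * FY X Y) +
        dt P P * FY X Y ^ 2) / |cr P W| := by
  set G : ℝ → ℝ → ℝ := fun X Y => dt W W * FX X Y ^ 2 - 2 * dt P W * (FX X Y * FY X Y) +
        dt P P * FY X Y ^ 2 with hG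
  have hGc : Continuous (fun z : ℝ × ℝ => G z.1 z.2) := by
    simp only [hG]
    fun_prop
  have hjoint : ∀ p : ℝ × ℝ, HasFDerivAt (fun q : ℝ × ℝ => F q.1 q.2)
      ((ContinuousLinearMap.toSpanSingleton ℝ (FX p.1 p.2)).coprod
        (ContinuousLinearMap.toSpanSingleton ℝ (FY p.1 p.2))) p := by
    intro p
    have h := hasStrictFDerivAt_uncurry_coprod (𝕜 := ℝ) (u := p) (f := F)
      (f₁ := fun x y => ContinuousLinearMap.toSpanSingleton ℝ (FX x y))
      (f₂ := fun x y => ContinuousLinearMap.toSpanSingleton ℝ (FY x y))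
      (Filter.Eventually.of_forall fun v => (hX v.1 v.2).hasFDerivAt)
      (Filter.Eventually.of_forall fun v => (hY v.1 v.2).hasFDerivAt)
      (by
        apply Continuous.continuousAt
        exact (ContinuousLinearMap.toSpanSingletonCLE (𝕜 := ℝ) (E := ℝ)).continuous.comp cX)
      (by
        apply Continuous.continuousAt
        exact (ContinuousLinearMap.toSpanSingletonCLE (𝕜 := ℝ) (E := ℝ)).continuous.comp cY)
    exact h.hasFDerivAt
  have hpt : ∀ z ∈ interior EnD, ‖grad u (EnL P W z)‖ ^ 2 = G z.re z.im / cr P W ^ 2 := by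
    intro z hz
    have hev : (fun z' : ℂ => u (EnL P W z')) =ᶠ[nhds z] fun z' => F z'.re z'.im := by
      filter_upwards [mem_interior_iff_mem_nhds.mp hz] with z' hz'
      rw [EnL_apply]
      exact hu _ _ hz'.1 hz'.2
    have hF : HasFDerivAt (fun z' : ℂ => F z'.re z'.im)
        (((ContinuousLinearMap.toSpanSingleton ℝ (FX z.re z.im)).coprod
        (ContinuousLinearMap.toSpanSingleton ℝ (FY z.re z.im))).comp
          (Complex.equivRealProdCLM : ℂ →L[ℝ] ℝ × ℝ)) z := by
      have h1 := hjoint (z.re, z.im)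
      have h2 : HasFDerivAt (fun z' : ℂ => Complex.equivRealProdCLM z')
        (Complex.equivRealProdCLM : ℂ →L[ℝ] ℝ × ℝ) z :=
        Complex.equivRealProdCLM.hasFDerivAt
      exact HasFDerivAt.comp z (g := fun q : ℝ × ℝ => F q.1 q.2) h1 h2
    have hcomp : HasFDerivAt (u ∘ (EnE hD)) (((ContinuousLinearMap.toSpanSingleton ℝ
        (FX z.re z.im)).coprod (ContinuousLinearMap.toSpanSingleton ℝ (FY z.re z.im))).comp
          (Complex.equivRealProdCLM : ℂ →L[ℝ] ℝ × ℝ)) z := hF.congr_of_eventuallyEq hev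
    have hu' := (ContinuousLinearEquiv.comp_right_hasFDerivAt_iff' (EnE hD)).mp hcomp
    rw [EnE_apply] at hu'
    have hfd := hu'.fderiv
    set D := fderiv ℝ u (EnL P W z) with hDdef
    have hDP : D P = FX z.re z.im := by
      rw [hfd]
      have h1 : (EnE hD).symm P = 1 := by
        rw [ContinuousLinearEquiv.symm_apply_eq, EnE_apply, EnL_apply]
        simp
      simp [h1]
    have hDW : D W = FY z.re z.im := by
      rw [hfd]
      have h1 : (EnE hD).symm W = I := by
        rw [ContinuousLinearEquiv.symm_apply_eq, EnE_apply, EnL_apply]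
        simp
      simp [h1]
    have hl : ∀ h : ℂ, D h = h.re * D 1 + h.im * D I := by
      intro h
      have : h = h.re • (1 : ℂ) + h.im • I := by
        apply Complex.ext <;> simp
      conv_lhs => rw [this]
      rw [map_add, map_smul, map_smul, smul_eq_mul, smul_eq_mul]
    rw [hl P] at hDP
    rw [hl W] at hDW
    rw [← Complex.normSq_eq_norm_sq, Complex.normSq_apply, grad]
    simp only
    rw [← hDdef, eq_div_iff (pow_ne_zero 2 hD)]
    simp only [hG]
    rw [← hDP, ← hDW]
    simp only [cr, dt]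
    ring
  rw [← EnD_image, integral_image_eq_integral_abs_det_fderiv_smul volume
    EnD_compact.isClosed.measurableSet
    (fun z _ => (EnL P W).hasFDerivAt.hasFDerivWithinAt) (EnL_inj hD).injOn, EnL_det]
  have h1 : ∫ z in EnD, |cr P W| • ‖grad u (EnL P W z)‖ ^ 2 =
      ∫ z in EnD, |cr P W| * (G z.re z.im / cr P W ^ 2) := by
    apply integral_congr_ae
    filter_upwards [EnD_ae] with z hz
    rw [hpt z hz, smul_eq_mul]
  rw [h1, integral_const_mul, integral_div, EnD_fubini hGc, ← sq_abs (cr P W)]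
  have h2 : |cr P W| ≠ 0 := abs_ne_zero.mpr hD
  field_simp

end Pool.Agent.H32.Q4
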