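import Mathlib
import Pool.Agent.H32.Q4.En

set_option autoImplicit false

/-! Steklov problem on quadrilaterals: the integrals over the reference triangle. -/

open Complex MeasureTheory

namespace Pool.Agent.H32.Q4

open Pool.Agent.H32.Stek

theorem EnJ_eval {f Φ : ℝ → ℝ → ℝ} {Ψ : ℝ → ℝ} (hf : ∀ X, Continuous (f X))
    (hΦ : ∀ X Y, HasDerivAt (Φ X) (f X Y) Y)
    (hI : Continuous fun X => Φ X X - Φ X (-X))
    (hΨ : ∀ X, HasDerivAt Ψ (Φ X X - Φ X (-X)) X) : JJ f = Ψ 1 - Ψ 0 := by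
  unfold JJ
  have h1 : ∀ X : ℝ, ∫ Y in (-X)..X, f X Y = Φ X X - Φ X (-X) := fun X =>
    intervalIntegral.integral_eq_sub_of_hasDerivAt (fun Y _ => hΦ X Y)
      ((hf X).intervalIntegrable _ _)
  simp only [h1]
  exact intervalIntegral.integral_eq_sub_of_hasDerivAt (fun X _ => hΨ X)
    (hI.intervalIntegrable _ _)

section basic

variable (t : ℝ) (y : ℝ)

theorem EnJ_ds : HasDerivAt (fun y => Real.sin (t * y)) (t * Real.cos (t * y)) y := by
  have h := ((hasDerivAt_id y).const_mul t).sin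
  refine h.congr_deriv ?_
  simp only [id, Pi.add_apply, Pi.sub_apply, Pi.mul_apply]
  ring

theorem EnJ_dc : HasDerivAt (fun y => Real.cos (t * y)) (-(t * Real.sin (t * y))) y := by
  have h := ((hasDerivAt_id y).const_mul t).cos
  refine h.congr_deriv ?_
  simp only [id, Pi.add_apply, Pi.sub_apply, Pi.mul_apply]
  ring

theorem EnJ_dsh : HasDerivAt (fun y => Real.sinh (t * y)) (t * Real.cosh (t * y)) y := by
  have h := ((hasDerivAt_id y).const_mul t).sinh
  refine h.congr_deriv ?_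
  simp only [id, Pi.add_apply, Pi.sub_apply, Pi.mul_apply]
  ring

theorem EnJ_dch : HasDerivAt (fun y => Real.cosh (t * y)) (t * Real.sinh (t * y)) y := by
  have h := ((hasDerivAt_id y).const_mul t).cosh
  refine h.congr_deriv ?_
  simp only [id, Pi.add_apply, Pi.sub_apply, Pi.mul_apply]
  ring

end basic

section prim

variable {t : ℝ} (ht : t ≠ 0) (y : ℝ)

include ht

/-- `∫ cosh²` -/
theorem EnJ_i1 : HasDerivAt (fun y => y / 2 + Real.sinh (t * y) * Real.cosh (t * y) / (2 * t))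
    (Real.cosh (t * y) ^ 2) y := by
  have h := ((hasDerivAt_id y).div_const 2).add
    (((EnJ_dsh t y).mul (EnJ_dch t y)).div_const (2 * t))
  refine h.congr_deriv ?_
  have h2 := Real.cosh_sq (t * y)
  field_simp
  linear_combination -h2

/-- `∫ sinh²` -/
theorem EnJ_i1' : HasDerivAt (fun y => Real.sinh (t * y) * Real.cosh (t * y) / (2 * t) - y / 2)
    (Real.sinh (t * y) ^ 2) y := by
  have h := (((EnJ_dsh t y).mul (EnJ_dch t y)).div_const (2 * t)).sub
    ((hasDerivAt_id y).div_const 2)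
  refine h.congr_deriv ?_
  have h2 := Real.cosh_sq (t * y)
  field_simp
  linear_combination h2

/-- `∫ sin²` -/
theorem EnJ_i2 : HasDerivAt (fun y => y / 2 - Real.sin (t * y) * Real.cos (t * y) / (2 * t))
    (Real.sin (t * y) ^ 2) y := by
  have h := ((hasDerivAt_id y).div_const 2).sub
    (((EnJ_ds t y).mul (EnJ_dc t y)).div_const (2 * t))
  refine h.congr_deriv ?_
  have h2 := Real.sin_sq_add_cos_sq (t * y)
  field_simp
  linear_combination -h2

/-- `∫ cos²` -/
theorem EnJ_i2' : HasDerivAt (fun y => y / 2 + Real.sin (t * y) * Real.cos (t * y) / (2 * t))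
    (Real.cos (t * y) ^ 2) y := by
  have h := ((hasDerivAt_id y).div_const 2).add
    (((EnJ_ds t y).mul (EnJ_dc t y)).div_const (2 * t))
  refine h.congr_deriv ?_
  have h2 := Real.sin_sq_add_cos_sq (t * y)
  field_simp
  linear_combination -h2

/-- `∫ cosh sin` -/
theorem EnJ_i3 : HasDerivAt (fun y => (Real.sinh (t * y) * Real.sin (t * y) -
    Real.cosh (t * y) * Real.cos (t * y)) / (2 * t)) (Real.cosh (t * y) * Real.sin (t * y)) y := by
  have h := (((EnJ_dsh t y).mul (EnJ_ds t y)).sub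
    ((EnJ_dch t y).mul (EnJ_dc t y))).div_const (2 * t)
  refine h.congr_deriv ?_
  field_simp
  ring

/-- `∫ sinh cos` -/
theorem EnJ_i3a : HasDerivAt (fun y => (Real.cosh (t * y) * Real.cos (t * y) +
    Real.sinh (t * y) * Real.sin (t * y)) / (2 * t)) (Real.sinh (t * y) * Real.cos (t * y)) y := by
  have h := (((EnJ_dch t y).mul (EnJ_dc t y)).add
    ((EnJ_dsh t y).mul (EnJ_ds t y))).div_const (2 * t)
  refine h.congr_deriv ?_
  field_simp
  ring

/-- `∫ cosh cos` -/
theorem EnJ_i3b : HasDerivAt (fun y => (Real.sinh (t * y) * Real.cos (t * y) +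
    Real.cosh (t * y) * Real.sin (t * y)) / (2 * t)) (Real.cosh (t * y) * Real.cos (t * y)) y := by
  have h := (((EnJ_dsh t y).mul (EnJ_dc t y)).add
    ((EnJ_dch t y).mul (EnJ_ds t y))).div_const (2 * t)
  refine h.congr_deriv ?_
  field_simp
  ring

/-- `∫ sinh sin` -/
theorem EnJ_i3c : HasDerivAt (fun y => (Real.cosh (t * y) * Real.sin (t * y) -
    Real.sinh (t * y) * Real.cos (t * y)) / (2 * t)) (Real.sinh (t * y) * Real.sin (t * y)) y := by
  have h := (((EnJ_dch t y).mul (EnJ_ds t y)).sub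
    ((EnJ_dsh t y).mul (EnJ_dc t y))).div_const (2 * t)
  refine h.congr_deriv ?_
  field_simp
  ring

/-- `∫ y cosh` -/
theorem EnJ_i4 : HasDerivAt (fun y => y * Real.sinh (t * y) / t - Real.cosh (t * y) / t ^ 2)
    (y * Real.cosh (t * y)) y := by
  have h := (((hasDerivAt_id y).mul (EnJ_dsh t y)).div_const t).sub
    ((EnJ_dch t y).div_const (t ^ 2))
  refine h.congr_deriv ?_
  simp only [id, Pi.add_apply, Pi.sub_apply, Pi.mul_apply]
  field_simp
  ring

/-- `∫ y sinh` -/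
theorem EnJ_i4' : HasDerivAt (fun y => y * Real.cosh (t * y) / t - Real.sinh (t * y) / t ^ 2)
    (y * Real.sinh (t * y)) y := by
  have h := (((hasDerivAt_id y).mul (EnJ_dch t y)).div_const t).sub
    ((EnJ_dsh t y).div_const (t ^ 2))
  refine h.congr_deriv ?_
  simp only [id, Pi.add_apply, Pi.sub_apply, Pi.mul_apply]
  field_simp
  ring

/-- `∫ y sin` -/
theorem EnJ_i5 : HasDerivAt (fun y => Real.sin (t * y) / t ^ 2 - y * Real.cos (t * y) / t)
    (y * Real.sin (t * y)) y := by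
  have h := ((EnJ_ds t y).div_const (t ^ 2)).sub
    (((hasDerivAt_id y).mul (EnJ_dc t y)).div_const t)
  refine h.congr_deriv ?_
  simp only [id, Pi.add_apply, Pi.sub_apply, Pi.mul_apply]
  field_simp
  ring

/-- `∫ y cos` -/
theorem EnJ_i5' : HasDerivAt (fun y => Real.cos (t * y) / t ^ 2 + y * Real.sin (t * y) / t)
    (y * Real.cos (t * y)) y := by
  have h := ((EnJ_dc t y).div_const (t ^ 2)).add
    (((hasDerivAt_id y).mul (EnJ_ds t y)).div_const t)
  refine h.congr_deriv ?_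
  simp only [id, Pi.add_apply, Pi.sub_apply, Pi.mul_apply]
  field_simp
  ring

/-- outer primitives -/
theorem EnJ_o1 : HasDerivAt (fun y => t ^ 2 / 2 * (y ^ 2 / 2 + y * Real.sin (2 * t * y) / (2 * t) +
      Real.cos (2 * t * y) / (4 * t ^ 2) + Real.cosh (2 * t * y) / (4 * t ^ 2) +
      (Real.cosh (2 * t * y) * Real.cos (2 * t * y) +
        Real.sinh (2 * t * y) * Real.sin (2 * t * y)) / (8 * t ^ 2)))
    (t ^ 2 * Real.cos (t * y) ^ 2 * (y + Real.sinh (t * y) * Real.cosh (t * y) / t)) y := by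
  have d1 : HasDerivAt (fun y : ℝ => y ^ 2 / 2) y y := by
    refine ((hasDerivAt_pow 2 y).div_const 2).congr_deriv ?_
    simp
  have h := ((((d1.add (((hasDerivAt_id y).mul (EnJ_ds (2 * t) y)).div_const (2 * t))).add
    ((EnJ_dc (2 * t) y).div_const (4 * t ^ 2))).add
    ((EnJ_dch (2 * t) y).div_const (4 * t ^ 2))).add
    ((((EnJ_dch (2 * t) y).mul (EnJ_dc (2 * t) y)).add
      ((EnJ_dsh (2 * t) y).mul (EnJ_ds (2 * t) y))).div_const (8 * t ^ 2))).const_mul (t ^ 2 / 2)
  refine h.congr_deriv ?_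
  simp only [id, Pi.add_apply, Pi.sub_apply, Pi.mul_apply]
  rw [mul_assoc 2 t y, Real.cos_two_mul, Real.sin_two_mul, Real.sinh_two_mul, Real.cosh_two_mul]
  field_simp
  ring

theorem EnJ_o2 : HasDerivAt (fun y => t ^ 2 / 2 * (y * Real.sinh (2 * t * y) / (2 * t) -
      Real.cosh (2 * t * y) / (4 * t ^ 2) - y ^ 2 / 2 -
      (Real.sinh (2 * t * y) * Real.sin (2 * t * y) -
        Real.cosh (2 * t * y) * Real.cos (2 * t * y)) / (8 * t ^ 2) -
      Real.cos (2 * t * y) / (4 * t ^ 2)))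
    (t ^ 2 * Real.sinh (t * y) ^ 2 * (y - Real.sin (t * y) * Real.cos (t * y) / t)) y := by
  have d1 : HasDerivAt (fun y : ℝ => y ^ 2 / 2) y y := by
    refine ((hasDerivAt_pow 2 y).div_const 2).congr_deriv ?_
    simp
  have h := (((((((hasDerivAt_id y).mul (EnJ_dsh (2 * t) y)).div_const (2 * t)).sub
    ((EnJ_dch (2 * t) y).div_const (4 * t ^ 2))).sub d1).sub
    ((((EnJ_dsh (2 * t) y).mul (EnJ_ds (2 * t) y)).sub
      ((EnJ_dch (2 * t) y).mul (EnJ_dc (2 * t) y))).div_const (8 * t ^ 2))).sub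
    ((EnJ_dc (2 * t) y).div_const (4 * t ^ 2))).const_mul (t ^ 2 / 2)
  refine h.congr_deriv ?_
  simp only [id, Pi.add_apply, Pi.sub_apply, Pi.mul_apply]
  rw [mul_assoc 2 t y, Real.cos_two_mul, Real.sin_two_mul, Real.sinh_two_mul, Real.cosh_two_mul,
    Real.cosh_sq]
  field_simp
  ring

theorem EnJ_o3 : HasDerivAt (fun y => (2 * (Real.cosh (t * y) * Real.sin (t * y)) -
      Real.sinh (t * y) * Real.cos (t * y)) / (2 * t ^ 2) -
      y * (Real.cosh (t * y) * Real.cos (t * y) + Real.sinh (t * y) * Real.sin (t * y)) / (2 * t))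
    (Real.sinh (t * y) * (Real.sin (t * y) / t - y * Real.cos (t * y))) y := by
  have h := (((((EnJ_dch t y).mul (EnJ_ds t y)).const_mul 2).sub
    ((EnJ_dsh t y).mul (EnJ_dc t y))).div_const (2 * t ^ 2)).sub
    (((hasDerivAt_id y).mul (((EnJ_dch t y).mul (EnJ_dc t y)).add
      ((EnJ_dsh t y).mul (EnJ_ds t y)))).div_const (2 * t))
  refine h.congr_deriv ?_
  simp only [id, Pi.add_apply, Pi.sub_apply, Pi.mul_apply]
  field_simp
  ring

theorem EnJ_o4 : HasDerivAt (fun y => t ^ 2 / 2 * (Real.cosh (2 * t * y) / (4 * t ^ 2) -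
      y ^ 2 / 2 - (Real.cosh (2 * t * y) * Real.cos (2 * t * y) +
        Real.sinh (2 * t * y) * Real.sin (2 * t * y)) / (8 * t ^ 2) +
      y * Real.sin (2 * t * y) / (2 * t) + Real.cos (2 * t * y) / (4 * t ^ 2)))
    (t ^ 2 * Real.sin (t * y) ^ 2 * (Real.sinh (t * y) * Real.cosh (t * y) / t - y)) y := by
  have d1 : HasDerivAt (fun y : ℝ => y ^ 2 / 2) y y := by
    refine ((hasDerivAt_pow 2 y).div_const 2).congr_deriv ?_
    simp
  have h := ((((((EnJ_dch (2 * t) y).div_const (4 * t ^ 2)).sub d1).sub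
    ((((EnJ_dch (2 * t) y).mul (EnJ_dc (2 * t) y)).add
      ((EnJ_dsh (2 * t) y).mul (EnJ_ds (2 * t) y))).div_const (8 * t ^ 2))).add
    (((hasDerivAt_id y).mul (EnJ_ds (2 * t) y)).div_const (2 * t))).add
    ((EnJ_dc (2 * t) y).div_const (4 * t ^ 2))).const_mul (t ^ 2 / 2)
  refine h.congr_deriv ?_
  simp only [id, Pi.add_apply, Pi.sub_apply, Pi.mul_apply]
  rw [mul_assoc 2 t y, Real.cos_two_mul, Real.sin_two_mul, Real.sinh_two_mul, Real.cosh_two_mul,
    Real.sin_sq]
  field_simp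
  ring

theorem EnJ_o5 : HasDerivAt (fun y => t ^ 2 / 2 * (y ^ 2 / 2 +
      y * Real.sinh (2 * t * y) / (2 * t) - Real.cosh (2 * t * y) / (4 * t ^ 2) -
      Real.cos (2 * t * y) / (4 * t ^ 2) +
      (Real.sinh (2 * t * y) * Real.sin (2 * t * y) -
        Real.cosh (2 * t * y) * Real.cos (2 * t * y)) / (8 * t ^ 2)))
    (t ^ 2 * Real.cosh (t * y) ^ 2 * (y + Real.sin (t * y) * Real.cos (t * y) / t)) y := by
  have d1 : HasDerivAt (fun y : ℝ => y ^ 2 / 2) y y := by
    refine ((hasDerivAt_pow 2 y).div_const 2).congr_deriv ?_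
    simp
  have h := ((((d1.add (((hasDerivAt_id y).mul (EnJ_dsh (2 * t) y)).div_const (2 * t))).sub
    ((EnJ_dch (2 * t) y).div_const (4 * t ^ 2))).sub
    ((EnJ_dc (2 * t) y).div_const (4 * t ^ 2))).add
    ((((EnJ_dsh (2 * t) y).mul (EnJ_ds (2 * t) y)).sub
      ((EnJ_dch (2 * t) y).mul (EnJ_dc (2 * t) y))).div_const (8 * t ^ 2))).const_mul (t ^ 2 / 2)
  refine h.congr_deriv ?_
  simp only [id, Pi.add_apply, Pi.sub_apply, Pi.mul_apply]
  rw [mul_assoc 2 t y, Real.cos_two_mul, Real.sin_two_mul, Real.sinh_two_mul, Real.cosh_two_mul,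
    Real.cosh_sq]
  field_simp
  ring

theorem EnJ_o6 : HasDerivAt (fun y => y * (Real.sinh (t * y) * Real.sin (t * y) -
      Real.cosh (t * y) * Real.cos (t * y)) / (2 * t) +
      Real.sinh (t * y) * Real.cos (t * y) / (2 * t ^ 2))
    (y * (Real.cosh (t * y) * Real.sin (t * y))) y := by
  have h := (((hasDerivAt_id y).mul (((EnJ_dsh t y).mul (EnJ_ds t y)).sub
      ((EnJ_dch t y).mul (EnJ_dc t y)))).div_const (2 * t)).add
    (((EnJ_dsh t y).mul (EnJ_dc t y)).div_const (2 * t ^ 2))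
  refine h.congr_deriv ?_
  simp only [id, Pi.add_apply, Pi.sub_apply, Pi.mul_apply]
  field_simp
  ring

theorem EnJ_o7 : HasDerivAt (fun y => (Real.sinh (t * y) * Real.sinh (t * y) +
      Real.sin (t * y) * Real.sin (t * y)) / 2)
    (t * (Real.sinh (t * y) * Real.cosh (t * y) + Real.sin (t * y) * Real.cos (t * y))) y := by
  have h := (((EnJ_dsh t y).mul (EnJ_dsh t y)).add ((EnJ_ds t y).mul (EnJ_ds t y))).div_const 2
  refine h.congr_deriv ?_
  ring

theorem EnJ_o8 : HasDerivAt (fun y => y * (Real.sinh (t * y) * Real.sin (t * y)) / t +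
      (Real.sinh (t * y) * Real.cos (t * y) - Real.cosh (t * y) * Real.sin (t * y)) / t ^ 2)
    (y * (Real.cos (t * y) * Real.sinh (t * y)) + y * (Real.sin (t * y) * Real.cosh (t * y)) -
      Real.sin (t * y) * Real.sinh (t * y) / t) y := by
  have h := (((hasDerivAt_id y).mul ((EnJ_dsh t y).mul (EnJ_ds t y))).div_const t).add
    ((((EnJ_dsh t y).mul (EnJ_dc t y)).sub ((EnJ_dch t y).mul (EnJ_ds t y))).div_const (t ^ 2))
  refine h.congr_deriv ?_
  simp only [id, Pi.add_apply, Pi.sub_apply, Pi.mul_apply]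
  field_simp
  ring

end prim

/-- En2. the integrals over the reference triangle
(`f1 = sin(tX)cosh(tY)`, `f2 = cosh(tX)sin(tY)`); uses the root equation for
`∫ X sinh(tX) cos(tY)` -/
theorem JJ_XX {t : ℝ} (ht : Root t) (p s g : ℝ) :
    JJ (fun X Y => (p * (t * Real.cos (t * X) * Real.cosh (t * Y)) +
      s * (t * Real.sinh (t * X) * Real.sin (t * Y)) + 2 * g * Y) ^ 2) =
      p ^ 2 * cp t + s ^ 2 * cr0 t + 4 * g ^ 2 / 6 + 4 * (s * g) * cn3 t := by
  have t0 : t ≠ 0 := by have := ht.lo; intro h; rw [h] at this; norm_num at this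
  have hv : ∀ X : ℝ, Real.cos (t * -X) = Real.cos (t * X) ∧ Real.sin (t * -X) = -Real.sin (t * X) ∧
      Real.cosh (t * -X) = Real.cosh (t * X) ∧ Real.sinh (t * -X) = -Real.sinh (t * X) := by
    intro X
    rw [mul_neg]
    exact ⟨Real.cos_neg _, Real.sin_neg _, Real.cosh_neg _, Real.sinh_neg _⟩
  have h := EnJ_eval
    (f := fun X Y => (p * (t * Real.cos (t * X) * Real.cosh (t * Y)) +
      s * (t * Real.sinh (t * X) * Real.sin (t * Y)) + 2 * g * Y) ^ 2)
    (Φ := fun X Y => p ^ 2 * t ^ 2 * Real.cos (t * X) ^ 2 *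
        (Y / 2 + Real.sinh (t * Y) * Real.cosh (t * Y) / (2 * t)) +
      s ^ 2 * t ^ 2 * Real.sinh (t * X) ^ 2 *
        (Y / 2 - Real.sin (t * Y) * Real.cos (t * Y) / (2 * t)) +
      4 * g ^ 2 / 3 * Y ^ 3 +
      2 * p * s * t ^ 2 * (Real.cos (t * X) * Real.sinh (t * X)) *
        ((Real.sinh (t * Y) * Real.sin (t * Y) - Real.cosh (t * Y) * Real.cos (t * Y)) / (2 * t)) +
      4 * p * g * t * Real.cos (t * X) *
        (Y * Real.sinh (t * Y) / t - Real.cosh (t * Y) / t ^ 2) +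
      4 * s * g * t * Real.sinh (t * X) *
        (Real.sin (t * Y) / t ^ 2 - Y * Real.cos (t * Y) / t))
    (Ψ := fun y => p ^ 2 * (t ^ 2 / 2 * (y ^ 2 / 2 + y * Real.sin (2 * t * y) / (2 * t) +
      Real.cos (2 * t * y) / (4 * t ^ 2) + Real.cosh (2 * t * y) / (4 * t ^ 2) +
      (Real.cosh (2 * t * y) * Real.cos (2 * t * y) +
        Real.sinh (2 * t * y) * Real.sin (2 * t * y)) / (8 * t ^ 2))) +
      s ^ 2 * (t ^ 2 / 2 * (y * Real.sinh (2 * t * y) / (2 * t) -
      Real.cosh (2 * t * y) / (4 * t ^ 2) - y ^ 2 / 2 -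
      (Real.sinh (2 * t * y) * Real.sin (2 * t * y) -
        Real.cosh (2 * t * y) * Real.cos (2 * t * y)) / (8 * t ^ 2) -
      Real.cos (2 * t * y) / (4 * t ^ 2))) +
      2 / 3 * g ^ 2 * y ^ 4 +
      8 * (s * g) * ((2 * (Real.cosh (t * y) * Real.sin (t * y)) -
      Real.sinh (t * y) * Real.cos (t * y)) / (2 * t ^ 2) -
      y * (Real.cosh (t * y) * Real.cos (t * y) + Real.sinh (t * y) * Real.sin (t * y)) / (2 * t)))
    (fun X => by fun_prop)
    (fun X Y => by
      have d3 : HasDerivAt (fun y : ℝ => 4 * g ^ 2 / 3 * y ^ 3) (4 * g ^ 2 * Y ^ 2) Y := by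
        refine ((hasDerivAt_pow 3 Y).const_mul _).congr_deriv ?_
        simp
        ring
      refine (((((((EnJ_i1 t0 Y).const_mul (p ^ 2 * t ^ 2 * Real.cos (t * X) ^ 2)).add
        ((EnJ_i2 t0 Y).const_mul (s ^ 2 * t ^ 2 * Real.sinh (t * X) ^ 2))).add d3).add
        ((EnJ_i3 t0 Y).const_mul (2 * p * s * t ^ 2 * (Real.cos (t * X) * Real.sinh (t * X))))).add
        ((EnJ_i4 t0 Y).const_mul (4 * p * g * t * Real.cos (t * X)))).add
        ((EnJ_i5 t0 Y).const_mul (4 * s * g * t * Real.sinh (t * X)))).congr_deriv ?_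
      ring)
    (by fun_prop)
    (fun X => by
      have d4 : HasDerivAt (fun y : ℝ => 2 / 3 * g ^ 2 * y ^ 4) (8 / 3 * g ^ 2 * X ^ 3) X := by
        refine ((hasDerivAt_pow 4 X).const_mul _).congr_deriv ?_
        simp
        ring
      refine (((((EnJ_o1 t0 X).const_mul (p ^ 2)).add ((EnJ_o2 t0 X).const_mul (s ^ 2))).add
        d4).add ((EnJ_o3 t0 X).const_mul (8 * (s * g)))).congr_deriv ?_
      obtain ⟨e1, e2, e3, e4⟩ := hv X
      simp only [e1, e2, e3, e4]
      field_simp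
      ring)
  rw [h]
  have he := ht.eq
  unfold cp cr0 cn3
  simp only [mul_one, mul_zero, Real.sin_zero, Real.cos_zero, Real.sinh_zero, Real.cosh_zero,
    one_pow]
  linear_combination (4 * s * g / t) * he

/-- En3. uses the root equation for `∫ X cosh(tX) sin(tY)` -/
theorem JJ_YY {t : ℝ} (ht : Root t) (p s g : ℝ) :
    JJ (fun X Y => (p * (t * Real.sin (t * X) * Real.sinh (t * Y)) +
      s * (t * Real.cosh (t * X) * Real.cos (t * Y)) + 2 * g * X) ^ 2) =
      p ^ 2 * cq t + s ^ 2 * cs0 t + 2 * g ^ 2 + 4 * (s * g) * cn2 t := by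
  have t0 : t ≠ 0 := by have := ht.lo; intro h; rw [h] at this; norm_num at this
  have hv : ∀ X : ℝ, Real.cos (t * -X) = Real.cos (t * X) ∧ Real.sin (t * -X) = -Real.sin (t * X) ∧
      Real.cosh (t * -X) = Real.cosh (t * X) ∧ Real.sinh (t * -X) = -Real.sinh (t * X) := by
    intro X
    rw [mul_neg]
    exact ⟨Real.cos_neg _, Real.sin_neg _, Real.cosh_neg _, Real.sinh_neg _⟩
  have h := EnJ_eval
    (f := fun X Y => (p * (t * Real.sin (t * X) * Real.sinh (t * Y)) +
      s * (t * Real.cosh (t * X) * Real.cos (t * Y)) + 2 * g * X) ^ 2)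
    (Φ := fun X Y => p ^ 2 * t ^ 2 * Real.sin (t * X) ^ 2 *
        (Real.sinh (t * Y) * Real.cosh (t * Y) / (2 * t) - Y / 2) +
      s ^ 2 * t ^ 2 * Real.cosh (t * X) ^ 2 *
        (Y / 2 + Real.sin (t * Y) * Real.cos (t * Y) / (2 * t)) +
      4 * g ^ 2 * X ^ 2 * Y +
      2 * p * s * t ^ 2 * (Real.sin (t * X) * Real.cosh (t * X)) *
        ((Real.cosh (t * Y) * Real.cos (t * Y) + Real.sinh (t * Y) * Real.sin (t * Y)) / (2 * t)) +
      4 * p * g * X * Real.sin (t * X) * Real.cosh (t * Y) +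
      4 * s * g * X * Real.cosh (t * X) * Real.sin (t * Y))
    (Ψ := fun y => p ^ 2 * (t ^ 2 / 2 * (Real.cosh (2 * t * y) / (4 * t ^ 2) -
      y ^ 2 / 2 - (Real.cosh (2 * t * y) * Real.cos (2 * t * y) +
        Real.sinh (2 * t * y) * Real.sin (2 * t * y)) / (8 * t ^ 2) +
      y * Real.sin (2 * t * y) / (2 * t) + Real.cos (2 * t * y) / (4 * t ^ 2))) +
      s ^ 2 * (t ^ 2 / 2 * (y ^ 2 / 2 +
      y * Real.sinh (2 * t * y) / (2 * t) - Real.cosh (2 * t * y) / (4 * t ^ 2) -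
      Real.cos (2 * t * y) / (4 * t ^ 2) +
      (Real.sinh (2 * t * y) * Real.sin (2 * t * y) -
        Real.cosh (2 * t * y) * Real.cos (2 * t * y)) / (8 * t ^ 2))) +
      2 * g ^ 2 * y ^ 4 +
      8 * (s * g) * (y * (Real.sinh (t * y) * Real.sin (t * y) -
      Real.cosh (t * y) * Real.cos (t * y)) / (2 * t) +
      Real.sinh (t * y) * Real.cos (t * y) / (2 * t ^ 2)))
    (fun X => by fun_prop)
    (fun X Y => by
      have d1 : HasDerivAt (fun y : ℝ => 4 * g ^ 2 * X ^ 2 * y) (4 * g ^ 2 * X ^ 2) Y := by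
        refine ((hasDerivAt_id Y).const_mul (4 * g ^ 2 * X ^ 2)).congr_deriv ?_
        simp
      refine (((((((EnJ_i1' t0 Y).const_mul (p ^ 2 * t ^ 2 * Real.sin (t * X) ^ 2)).add
        ((EnJ_i2' t0 Y).const_mul (s ^ 2 * t ^ 2 * Real.cosh (t * X) ^ 2))).add d1).add
        ((EnJ_i3a t0 Y).const_mul (2 * p * s * t ^ 2 * (Real.sin (t * X) * Real.cosh (t * X))))).add
        ((EnJ_dch t Y).const_mul (4 * p * g * X * Real.sin (t * X)))).add
        ((EnJ_ds t Y).const_mul (4 * s * g * X * Real.cosh (t * X)))).congr_deriv ?_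
      ring)
    (by fun_prop)
    (fun X => by
      have d4 : HasDerivAt (fun y : ℝ => 2 * g ^ 2 * y ^ 4) (8 * g ^ 2 * X ^ 3) X := by
        refine ((hasDerivAt_pow 4 X).const_mul _).congr_deriv ?_
        simp
        ring
      refine (((((EnJ_o4 t0 X).const_mul (p ^ 2)).add ((EnJ_o5 t0 X).const_mul (s ^ 2))).add
        d4).add ((EnJ_o6 t0 X).const_mul (8 * (s * g)))).congr_deriv ?_
      obtain ⟨e1, e2, e3, e4⟩ := hv X
      simp only [e1, e2, e3, e4]
      field_simp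
      ring)
  rw [h]
  have he := ht.eq
  unfold cq cs0 cn2
  simp only [mul_one, mul_zero, Real.sin_zero, Real.cos_zero, Real.sinh_zero, Real.cosh_zero,
    one_pow]
  linear_combination (4 * s * g / t) * he

/-- En4. -/
theorem JJ_XY {t : ℝ} (ht : Root t) (p s g : ℝ) :
    JJ (fun X Y => (p * (t * Real.cos (t * X) * Real.cosh (t * Y)) +
      s * (t * Real.sinh (t * X) * Real.sin (t * Y)) + 2 * g * Y) *
      (p * (t * Real.sin (t * X) * Real.sinh (t * Y)) +
      s * (t * Real.cosh (t * X) * Real.cos (t * Y)) + 2 * g * X)) =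
      p * s * cm t + 2 * (p * g) * cn1 t := by
  have t0 : t ≠ 0 := by have := ht.lo; intro h; rw [h] at this; norm_num at this
  have hv : ∀ X : ℝ, Real.cos (t * -X) = Real.cos (t * X) ∧ Real.sin (t * -X) = -Real.sin (t * X) ∧
      Real.cosh (t * -X) = Real.cosh (t * X) ∧ Real.sinh (t * -X) = -Real.sinh (t * X) := by
    intro X
    rw [mul_neg]
    exact ⟨Real.cos_neg _, Real.sin_neg _, Real.cosh_neg _, Real.sinh_neg _⟩
  have h := EnJ_eval
    (f := fun X Y => (p * (t * Real.cos (t * X) * Real.cosh (t * Y)) +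
      s * (t * Real.sinh (t * X) * Real.sin (t * Y)) + 2 * g * Y) *
      (p * (t * Real.sin (t * X) * Real.sinh (t * Y)) +
      s * (t * Real.cosh (t * X) * Real.cos (t * Y)) + 2 * g * X))
    (Φ := fun X Y => p * s * t ^ 2 * (Real.cos (t * X) * Real.cosh (t * X)) *
        ((Real.sinh (t * Y) * Real.cos (t * Y) + Real.cosh (t * Y) * Real.sin (t * Y)) / (2 * t)) +
      p * s * t ^ 2 * (Real.sinh (t * X) * Real.sin (t * X)) *
        ((Real.cosh (t * Y) * Real.sin (t * Y) - Real.sinh (t * Y) * Real.cos (t * Y)) / (2 * t)) +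
      2 * p * g * X * Real.cos (t * X) * Real.sinh (t * Y) +
      2 * g * p * t * Real.sin (t * X) *
        (Y * Real.cosh (t * Y) / t - Real.sinh (t * Y) / t ^ 2) +
      p ^ 2 * t / 2 * (Real.cos (t * X) * Real.sin (t * X)) *
        (Real.sinh (t * Y) * Real.sinh (t * Y)) +
      s ^ 2 * t / 2 * (Real.sinh (t * X) * Real.cosh (t * X)) *
        (Real.sin (t * Y) * Real.sin (t * Y)) -
      2 * s * g * X * Real.sinh (t * X) * Real.cos (t * Y) +
      2 * g * s * t * Real.cosh (t * X) *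
        (Real.cos (t * Y) / t ^ 2 + Y * Real.sin (t * Y) / t) +
      2 * g ^ 2 * X * Y ^ 2)
    (Ψ := fun y => p * s * ((Real.sinh (t * y) * Real.sinh (t * y) +
      Real.sin (t * y) * Real.sin (t * y)) / 2) +
      4 * (p * g) * (y * (Real.sinh (t * y) * Real.sin (t * y)) / t +
      (Real.sinh (t * y) * Real.cos (t * y) - Real.cosh (t * y) * Real.sin (t * y)) / t ^ 2))
    (fun X => by fun_prop)
    (fun X Y => by
      have d1 : HasDerivAt (fun y : ℝ => 2 * g ^ 2 * X * y ^ 2) (4 * g ^ 2 * X * Y) Y := by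
        refine ((hasDerivAt_pow 2 Y).const_mul (2 * g ^ 2 * X)).congr_deriv ?_
        simp
        ring
      refine ((((((((((EnJ_i3b t0 Y).const_mul
        (p * s * t ^ 2 * (Real.cos (t * X) * Real.cosh (t * X)))).add
        ((EnJ_i3c t0 Y).const_mul
        (p * s * t ^ 2 * (Real.sinh (t * X) * Real.sin (t * X))))).add
        ((EnJ_dsh t Y).const_mul (2 * p * g * X * Real.cos (t * X)))).add
        ((EnJ_i4' t0 Y).const_mul (2 * g * p * t * Real.sin (t * X)))).add
        (((EnJ_dsh t Y).mul (EnJ_dsh t Y)).const_mul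
          (p ^ 2 * t / 2 * (Real.cos (t * X) * Real.sin (t * X))))).add
        (((EnJ_ds t Y).mul (EnJ_ds t Y)).const_mul
          (s ^ 2 * t / 2 * (Real.sinh (t * X) * Real.cosh (t * X))))).sub
        ((EnJ_dc t Y).const_mul (2 * s * g * X * Real.sinh (t * X)))).add
        ((EnJ_i5' t0 Y).const_mul (2 * g * s * t * Real.cosh (t * X)))).add d1).congr_deriv ?_
      ring)
    (by fun_prop)
    (fun X => by
      refine (((EnJ_o7 t0 X).const_mul (p * s)).add ((EnJ_o8 t0 X).const_mul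
        (4 * (p * g)))).congr_deriv ?_
      obtain ⟨e1, e2, e3, e4⟩ := hv X
      simp only [e1, e2, e3, e4]
      have h1 := Real.sin_sq_add_cos_sq (t * X)
      have h2 := Real.cosh_sq (t * X)
      field_simp
      linear_combination (-(2 * p * s * t ^ 2 * Real.sinh (t * X) * Real.cosh (t * X))) * h1 -
        2 * p * s * t ^ 2 * Real.sin (t * X) * Real.cos (t * X) * h2)
  rw [h]
  unfold cm cn1 cn2 cn3
  simp only [mul_one, mul_zero, Real.sin_zero, Real.cos_zero, Real.sinh_zero, Real.cosh_zero,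
    one_pow]
  ring

end Pool.Agent.H32.Q4
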