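import Mathlib
import Pool.Agent.H32.Q4.EnJ

set_option autoImplicit false

/-! Steklov problem on quadrilaterals: the energy of the trial functions on one triangle. -/

open Complex MeasureTheory

namespace Pool.Agent.H32.Q4

open Pool.Agent.H32.Stek

lemma EnT_int {G : ℝ → ℝ → ℝ} (hG : Continuous (fun z : ℝ × ℝ => G z.1 z.2)) :
    IntegrableOn (fun z : ℂ => G z.re z.im) EnD := by
  have h : Continuous (fun z : ℂ => G z.re z.im) :=
    hG.comp (continuous_re.prodMk continuous_im)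
  exact h.continuousOn.integrableOn_compact EnD_compact

lemma EnT_lin {f g h : ℝ → ℝ → ℝ} (hf : Continuous (fun z : ℝ × ℝ => f z.1 z.2))
    (hg : Continuous (fun z : ℝ × ℝ => g z.1 z.2)) (hh : Continuous (fun z : ℝ × ℝ => h z.1 z.2))
    (a b c : ℝ) :
    JJ (fun X Y => a * f X Y - b * g X Y + c * h X Y) = a * JJ f - b * JJ g + c * JJ h := by
  have hc : Continuous (fun z : ℝ × ℝ => (fun X Y => a * f X Y - b * g X Y + c * h X Y) z.1 z.2) :=
    ((continuous_const.mul hf).sub (continuous_const.mul hg)).add (continuous_const.mul hh)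
  rw [← EnD_fubini hc, ← EnD_fubini hf, ← EnD_fubini hg, ← EnD_fubini hh]
  have i1 := (EnT_int hf).const_mul a
  have i2 := (EnT_int hg).const_mul b
  have i3 := (EnT_int hh).const_mul c
  have i12 : IntegrableOn (fun z : ℂ => a * f z.re z.im - b * g z.re z.im) EnD := i1.sub i2
  have e1 : ∫ z in EnD, (a * f z.re z.im - b * g z.re z.im + c * h z.re z.im) =
      (∫ z in EnD, (a * f z.re z.im - b * g z.re z.im)) + ∫ z in EnD, c * h z.re z.im :=
    integral_add i12 i3
  have e2 : ∫ z in EnD, (a * f z.re z.im - b * g z.re z.im) =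
      (∫ z in EnD, a * f z.re z.im) - ∫ z in EnD, b * g z.re z.im :=
    integral_sub i1 i2
  show ∫ z in EnD, (a * f z.re z.im - b * g z.re z.im + c * h z.re z.im) = _
  rw [e1, e2, integral_const_mul, integral_const_mul, integral_const_mul]

/-- the `X` derivative of the trial function -/
noncomputable def EnTX (t p s g X Y : ℝ) : ℝ :=
  p * (t * Real.cos (t * X) * Real.cosh (t * Y)) +
      s * (t * Real.sinh (t * X) * Real.sin (t * Y)) + 2 * g * Y

/-- the `Y` derivative of the trial function -/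
noncomputable def EnTY (t p s g X Y : ℝ) : ℝ :=
  p * (t * Real.sin (t * X) * Real.sinh (t * Y)) +
      s * (t * Real.cosh (t * X) * Real.cos (t * Y)) + 2 * g * X

lemma EnT_dX (t p s g X Y : ℝ) : HasDerivAt (fun x => Ft t p s g x Y) (EnTX t p s g X Y) X := by
  unfold Ft EnTX
  have h0 : HasDerivAt (fun x : ℝ => t * x) t X := by
    simpa using (hasDerivAt_id X).const_mul t
  have h1 := (Real.hasDerivAt_sin (t * X)).comp X h0
  have h2 := (Real.hasDerivAt_cosh (t * X)).comp X h0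
  have h3 := ((h1.mul_const (Real.cosh (t * Y))).const_mul p).add
    ((h2.mul_const (Real.sin (t * Y))).const_mul s)
  have h4 := h3.add (((hasDerivAt_id X).mul_const Y).const_mul (2 * g))
  refine (h4.congr_deriv ?_)
  ring

lemma EnT_dY (t p s g X Y : ℝ) : HasDerivAt (fun y => Ft t p s g X y) (EnTY t p s g X Y) Y := by
  unfold Ft EnTY
  have h0 : HasDerivAt (fun x : ℝ => t * x) t Y := by
    simpa using (hasDerivAt_id Y).const_mul t
  have h1 := (Real.hasDerivAt_cosh (t * Y)).comp Y h0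
  have h2 := (Real.hasDerivAt_sin (t * Y)).comp Y h0
  have h3 := ((h1.const_mul (Real.sin (t * X))).const_mul p).add
    ((h2.const_mul (Real.cosh (t * X))).const_mul s)
  have h4 := h3.add (((hasDerivAt_id Y).const_mul X).const_mul (2 * g))
  refine (h4.congr_deriv ?_)
  ring

lemma EnT_one {t : ℝ} (ht : Root t) {P S γ : ℂ} (hD : cr P (S + γ) ≠ 0) {u : ℂ → ℝ} {p s g : ℝ}
    (hu : ∀ X Y : ℝ, |Y| ≤ X → X ≤ 1 → u (X * P + Y * (S + γ)) = Ft t p s g X Y) :
    ∫ z in tri 0 (P - (S + γ)) (P + (S + γ)), ‖grad u z‖ ^ 2 =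
      (dt (S + γ) (S + γ) * (p ^ 2 * cp t + s ^ 2 * cr0 t + 4 * g ^ 2 / 6 + 4 * (s * g) * cn3 t) -
        2 * dt P (S + γ) * (p * s * cm t + 2 * (p * g) * cn1 t) +
        dt P P * (p ^ 2 * cq t + s ^ 2 * cs0 t + 2 * g ^ 2 + 4 * (s * g) * cn2 t)) /
        |cr P (S + γ)| := by
  have cX : Continuous (fun z : ℝ × ℝ => EnTX t p s g z.1 z.2) := by
    unfold EnTX
    fun_prop
  have cY : Continuous (fun z : ℝ × ℝ => EnTY t p s g z.1 z.2) := by
    unfold EnTY
    fun_prop
  have ht0 : 0 < t := by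
    have := ht.lo
    linarith
  have h := energy_cov hD (u := u) (F := fun X Y => Ft t p s g X Y)
    (FX := fun X Y => EnTX t p s g X Y) (FY := fun X Y => EnTY t p s g X Y)
    (EnT_dX t p s g) (EnT_dY t p s g) cX cY hu
  rw [h]
  have hl := EnT_lin (f := fun X Y => EnTX t p s g X Y ^ 2)
    (g := fun X Y => EnTX t p s g X Y * EnTY t p s g X Y)
    (h := fun X Y => EnTY t p s g X Y ^ 2) (cX.pow 2) (cX.mul cY) (cY.pow 2)
    (dt (S + γ) (S + γ)) (2 * dt P (S + γ)) (dt P P)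
  rw [hl]
  have e1 : JJ (fun X Y => EnTX t p s g X Y ^ 2) =
      p ^ 2 * cp t + s ^ 2 * cr0 t + 4 * g ^ 2 / 6 + 4 * (s * g) * cn3 t := JJ_XX ht p s g
  have e2 : JJ (fun X Y => EnTY t p s g X Y ^ 2) =
      p ^ 2 * cq t + s ^ 2 * cs0 t + 2 * g ^ 2 + 4 * (s * g) * cn2 t := JJ_YY ht p s g
  have e3 : JJ (fun X Y => EnTX t p s g X Y * EnTY t p s g X Y) =
      p * s * cm t + 2 * (p * g) * cn1 t := JJ_XY ht p s g
  rw [e1, e2, e3]

/-- En5. combination over real and imaginary parts -/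
theorem energy_tri {t : ℝ} (ht : Root t) {P S γ : ℂ} (hD : cr P (S + γ) ≠ 0) {u₁ u₂ : ℂ → ℝ}
    (hu : OnTri t P S γ u₁ u₂) :
    (∫ z in tri 0 (P - (S + γ)) (P + (S + γ)), ‖grad u₁ z‖ ^ 2) +
      (∫ z in tri 0 (P - (S + γ)) (P + (S + γ)), ‖grad u₂ z‖ ^ 2) =
      Et (cp t) (cq t) (cr0 t) (cs0 t) (cm t) (cn1 t) (cn2 t) (cn3 t)
        (dt P P) (dt S S) (dt P S) (dt P γ) (dt S γ) (dt γ γ) |cr P (S + γ)| := by
  rw [EnT_one ht hD (fun X Y h1 h2 => (hu X Y h1 h2).1),
    EnT_one ht hD (fun X Y h1 h2 => (hu X Y h1 h2).2), ← add_div, Et]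
  congr 1
  simp only [dt, add_re, add_im]
  ring

end Pool.Agent.H32.Q4
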