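import Mathlib
import Pool.Agent.H32.Q4.D
import Pool.Agent.H32.Q4.A1

set_option autoImplicit false

/-! Steklov problem on quadrilaterals: the algebraic data of a normalised quadrilateral
`P+S+γ, -P+S-γ, -P-S+γ, P-S-γ`, `P × S = 1`. -/

open Complex

namespace Pool.Agent.H32.Q4

/-- GM1. `γ = y P + x S` with `x = P × γ`, `y = γ × S` -/
theorem gamma_eq {P S : ℂ} (h : cr P S = 1) (γ : ℂ) :
    γ = (cr γ S : ℂ) * P + (cr P γ : ℂ) * S := by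
  unfold cr at *
  apply Complex.ext
  · simp only [Complex.add_re, Complex.mul_re, Complex.ofReal_re, Complex.ofReal_im, zero_mul,
      sub_zero]
    linear_combination (-γ.re) * h
  · simp only [Complex.add_im, Complex.mul_im, Complex.ofReal_re, Complex.ofReal_im, zero_mul,
      add_zero]
    linear_combination (-γ.im) * h

theorem gg_eq {P S : ℂ} (h : cr P S = 1) (γ : ℂ) :
    gg (dt P P) (dt S S) (dt P S) (cr P γ) (cr γ S) = dt γ γ := by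
  unfold gg dt cr at *
  linear_combination (γ.re ^ 2 + γ.im ^ 2) * (P.re * S.im - P.im * S.re + 1) * h

theorem dtP_eq {P S : ℂ} (h : cr P S = 1) (γ : ℂ) :
    dt P γ = cr γ S * dt P P + cr P γ * dt P S := by
  unfold dt cr at *
  linear_combination (-(P.re * γ.re + P.im * γ.im)) * h

theorem dtS_eq {P S : ℂ} (h : cr P S = 1) (γ : ℂ) :
    dt S γ = cr γ S * dt P S + cr P γ * dt S S := by
  unfold dt cr at *
  linear_combination (-(S.re * γ.re + S.im * γ.im)) * h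

lemma dt_norm_sq (z : ℂ) : ‖z‖ ^ 2 = dt z z := by
  rw [Complex.sq_norm, Complex.normSq_apply]; rfl

lemma norm_le_half_sum (S γ : ℂ) : ‖S‖ ≤ (‖S + γ‖ + ‖S - γ‖) / 2 := by
  have h1 : (2 : ℂ) * S = (S + γ) + (S - γ) := by ring
  have h2 : ‖(2 : ℂ) * S‖ ≤ ‖S + γ‖ + ‖S - γ‖ := by
    rw [h1]; exact norm_add_le _ _
  rw [norm_mul, Complex.norm_ofNat] at h2
  linarith

lemma norm_le_half_sum' (S γ : ℂ) : ‖γ‖ ≤ (‖S + γ‖ + ‖S - γ‖) / 2 := by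
  have h1 : (2 : ℂ) * γ = (S + γ) - (S - γ) := by ring
  have h2 : ‖(2 : ℂ) * γ‖ ≤ ‖S + γ‖ + ‖S - γ‖ := by
    rw [h1]; exact norm_sub_le _ _
  rw [norm_mul, Complex.norm_ofNat] at h2
  linarith

lemma parallelogram (S γ : ℂ) :
    ((‖S + γ‖ + ‖S - γ‖) / 2) ^ 2 + ((‖S + γ‖ - ‖S - γ‖) / 2) ^ 2 = dt S S + dt γ γ := by
  have h1 := dt_norm_sq (S + γ)
  have h2 := dt_norm_sq (S - γ)
  have h3 : ((‖S + γ‖ + ‖S - γ‖) / 2) ^ 2 + ((‖S + γ‖ - ‖S - γ‖) / 2) ^ 2 =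
      (‖S + γ‖ ^ 2 + ‖S - γ‖ ^ 2) / 2 := by ring
  rw [h3, h1, h2]
  unfold dt
  simp only [Complex.add_re, Complex.add_im, Complex.sub_re, Complex.sub_im]
  ring

lemma polar (S γ : ℂ) :
    ((‖S + γ‖ + ‖S - γ‖) / 2) * ((‖S + γ‖ - ‖S - γ‖) / 2) = dt S γ := by
  have h1 := dt_norm_sq (S + γ)
  have h2 := dt_norm_sq (S - γ)
  have h3 : ((‖S + γ‖ + ‖S - γ‖) / 2) * ((‖S + γ‖ - ‖S - γ‖) / 2) =
      (‖S + γ‖ ^ 2 - ‖S - γ‖ ^ 2) / 4 := by ring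
  rw [h3, h1, h2]
  unfold dt
  simp only [Complex.add_re, Complex.add_im, Complex.sub_re, Complex.sub_im]
  ring

lemma norm_prod_ge (A B C D : ℂ) :
    (cr A B + cr C D) ^ 2 + (dt A B - dt C D) ^ 2 ≤ (‖A‖ * ‖B‖ + ‖C‖ * ‖D‖) ^ 2 := by
  set z1 : ℂ := (starRingEnd ℂ) A * B with hz1
  set z2 : ℂ := (starRingEnd ℂ) C * D with hz2
  have h1 : ‖z1 - (starRingEnd ℂ) z2‖ ≤ ‖A‖ * ‖B‖ + ‖C‖ * ‖D‖ := by
    refine (norm_sub_le _ _).trans (le_of_eq ?_)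
    rw [RCLike.norm_conj, hz1, hz2, norm_mul, norm_mul, RCLike.norm_conj, RCLike.norm_conj]
  have h2 : ‖z1 - (starRingEnd ℂ) z2‖ ^ 2 = (cr A B + cr C D) ^ 2 + (dt A B - dt C D) ^ 2 := by
    rw [dt_norm_sq, hz1, hz2]
    unfold dt cr
    simp only [Complex.sub_re, Complex.sub_im, Complex.mul_re, Complex.mul_im, Complex.conj_re,
      Complex.conj_im]
    ring
  rw [← h2]
  exact pow_le_pow_left₀ (norm_nonneg _) h1 2

/-- GM2. Proof: `s² + ds² = (|S+γ|²+|S-γ|²)/2`, `s ds = (|S+γ|²-|S-γ|²)/4 = S·γ`,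
`|S|, |γ| ≤ s` by the triangle inequality.
`hK`: `z1 = conj(P+γ)(S+γ)`, `z2 = conj(P-γ)(S-γ)`,
`|z1|+|z2| = 2(sp + dp ds) ≥ |z1 - conj z2|`, `Im (z1 - conj z2) = 2`,
`Re (z1 - conj z2) = 2 (p dp + s ds)`, and
`(sp+dp ds)² - (p dp + s ds)² = (s²-dp²)(p²-ds²)`. -/
theorem geo_mk {P S : ℂ} (h : cr P S = 1) (γ : ℂ) :
    Geo (dt P P) (dt S S) (dt P S) (cr P γ) (cr γ S) ((‖S + γ‖ + ‖S - γ‖) / 2)
      ((‖P + γ‖ + ‖P - γ‖) / 2) ((‖S + γ‖ - ‖S - γ‖) / 2) ((‖P + γ‖ - ‖P - γ‖) / 2) := by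
  have hP : P ≠ 0 := by
    rintro rfl
    simp [cr] at h
  have hS : S ≠ 0 := by
    rintro rfl
    simp [cr] at h
  have hP' : 0 < ‖P‖ := norm_pos_iff.mpr hP
  have hS' : 0 < ‖S‖ := norm_pos_iff.mpr hS
  have hg := gg_eq h γ
  have hsw : gg (dt P P) (dt S S) (dt P S) (cr P γ) (cr γ S) = ‖γ‖ ^ 2 := by
    rw [hg, dt_norm_sq]
  refine ⟨?_, ?_, ?_, ?_, ?_, ?_, ?_, ?_, ?_, ?_, ?_, ?_, ?_, ?_⟩
  · rw [← dt_norm_sq]; positivity
  · rw [← dt_norm_sq]; positivity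
  · unfold dt cr at *
    linear_combination (P.re * S.im - P.im * S.re + 1) * h
  · exact lt_of_lt_of_le hS' (norm_le_half_sum S γ)
  · exact lt_of_lt_of_le hP' (norm_le_half_sum P γ)
  · rw [← dt_norm_sq]
    exact pow_le_pow_left₀ (norm_nonneg _) (norm_le_half_sum S γ) 2
  · rw [← dt_norm_sq]
    exact pow_le_pow_left₀ (norm_nonneg _) (norm_le_half_sum P γ) 2
  · rw [hsw]
    exact pow_le_pow_left₀ (norm_nonneg _) (norm_le_half_sum' S γ) 2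
  · rw [hsw]
    exact pow_le_pow_left₀ (norm_nonneg _) (norm_le_half_sum' P γ) 2
  · rw [parallelogram, hg]
  · rw [polar, dtS_eq h]
  · rw [parallelogram, hg]
  · rw [polar, dtP_eq h]
  · have h1 := norm_prod_ge (P + γ) (S + γ) (P - γ) (S - γ)
    have h2 : cr (P + γ) (S + γ) + cr (P - γ) (S - γ) = 2 := by
      unfold cr at *
      simp only [Complex.add_re, Complex.add_im, Complex.sub_re, Complex.sub_im]
      linear_combination 2 * h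
    have h3 : dt (P + γ) (S + γ) - dt (P - γ) (S - γ) = 2 * (dt P γ + dt S γ) := by
      unfold dt
      simp only [Complex.add_re, Complex.add_im, Complex.sub_re, Complex.sub_im]
      ring
    rw [h2, h3, ← polar P γ, ← polar S γ] at h1
    nlinarith [h1]

end Pool.Agent.H32.Q4
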