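import Mathlib
import Pool.Agent.H32.Q4.N1

set_option autoImplicit false

/-! Steklov problem on quadrilaterals, near part 2: bound of the error term and of the energy. -/

namespace Pool.Agent.H32.Q4

variable {a b c x y s p ds dp : ℝ}
variable {T p0 q0 r0 s0 m n1 n2 n3 al be et k0 K1 K2 K3 C0 C1 : ℝ}

/-- upper bound of `Psi` -/
noncomputable def Pu (K1 K2 K3 a b c x y : ℝ) : ℝ :=
  K1 / 2 * (b - a) ^ 2 + K2 / 2 * gg a b c x y ^ 2 + (K1 + K2) / 2 * (b - a) * gg a b c x y +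
    K3 * (x ^ 2 + y ^ 2) +
    2 * K3 * (x ^ 2 * y ^ 2 / (19 / 20 - (x ^ 2 + y ^ 2))) * (1 + (a + b)) +
    2 * K3 * |x * y * c|

/-- N2a. Proof: `d = es - ep` satisfies `|d| ≤ g` (`Geo.es_le`, `Geo.ep_le`, nonnegativity),
so `d² ≤ g²` and `-(a-b) d ≤ (b-a) g`; `(Q - m - g)/m ≤ 1 + u` (`Geo.fac`), `|κ|/m ≤ |κ|`
(`Geo.m_ge_one`), `e ≤ x² y² / (0.95 - v)` (`Geo.e_le`). -/
theorem Geo.Psi_le (h : Geo a b c x y s p ds dp) (hx : 0 ≤ x) (hy : 0 ≤ y)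
    (hxy : x + y ≤ 4 / 5) (hle : a ≤ b) (hK1 : 0 ≤ K1) (hK2 : 0 ≤ K2) (hK3 : 0 ≤ K3) :
    Psi K1 K2 K3 a b c x y s p ≤ Pu K1 K2 K3 a b c x y := by
  have e1 := h.es_le
  have e2 := h.ep_le
  have e3 := h.es_nonneg
  have e4 := h.ep_nonneg
  have hg := h.gg_nonneg
  have hm1 := h.m_ge_one
  have hm := h.m_pos
  have hfac := h.fac
  have hel := h.e_le hx hy hxy
  have hv : 0 < 19 / 20 - (x ^ 2 + y ^ 2) := by nlinarith [mul_nonneg hx hy]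
  have hu := h.u_ge
  unfold Psi Pu
  set g := gg a b c x y with hgd
  set es := s ^ 2 - b with hes
  set ep := p ^ 2 - a with hep
  set m := s * p with hmd
  have hd2 : (es - ep) ^ 2 ≤ g ^ 2 := by nlinarith
  have t1 : K2 / 2 * (es - ep) ^ 2 ≤ K2 / 2 * g ^ 2 :=
    mul_le_mul_of_nonneg_left hd2 (by linarith)
  have t2 : -((K1 + K2) / 2 * (a - b) * (es - ep)) ≤ (K1 + K2) / 2 * (b - a) * g := by
    have q1 : (b - a) * (es - ep) ≤ (b - a) * g :=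
      mul_le_mul_of_nonneg_left (by linarith) (by linarith)
    have q2 : (K1 + K2) / 2 * ((b - a) * (es - ep)) ≤ (K1 + K2) / 2 * ((b - a) * g) :=
      mul_le_mul_of_nonneg_left q1 (by linarith)
    nlinarith
  have t3 : es * ep ≤ x ^ 2 * y ^ 2 / (19 / 20 - (x ^ 2 + y ^ 2)) := by
    rw [le_div_iff₀ hv]; exact hel
  have he0 : 0 ≤ es * ep := mul_nonneg e3 e4
  have t4 : (es * ep * ((s + p) ^ 2 - m - g) - x * y * c) / m ≤
      x ^ 2 * y ^ 2 / (19 / 20 - (x ^ 2 + y ^ 2)) * (1 + (a + b)) + |x * y * c| := by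
    rw [div_le_iff₀ hm]
    have q1 : es * ep * ((s + p) ^ 2 - m - g) ≤ es * ep * ((1 + (a + b)) * m) :=
      mul_le_mul_of_nonneg_left hfac he0
    have q2 : es * ep * ((1 + (a + b)) * m) ≤
        x ^ 2 * y ^ 2 / (19 / 20 - (x ^ 2 + y ^ 2)) * ((1 + (a + b)) * m) :=
      mul_le_mul_of_nonneg_right t3 (by positivity)
    have q3 : -(x * y * c) ≤ |x * y * c| * m := by
      have r1 : -(x * y * c) ≤ |x * y * c| := neg_le_abs _
      have r2 : |x * y * c| * 1 ≤ |x * y * c| * m :=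
        mul_le_mul_of_nonneg_left hm1 (abs_nonneg _)
      linarith
    nlinarith
  have t5 : 2 * K3 * ((es * ep * ((s + p) ^ 2 - m - g) - x * y * c) / m) ≤
      2 * K3 * (x ^ 2 * y ^ 2 / (19 / 20 - (x ^ 2 + y ^ 2)) * (1 + (a + b)) + |x * y * c|) :=
    mul_le_mul_of_nonneg_left t4 (by linarith)
  have t6 : 2 * K3 * (es * ep * ((s + p) ^ 2 - m - g) - x * y * c) / m =
      2 * K3 * ((es * ep * ((s + p) ^ 2 - m - g) - x * y * c) / m) := by ring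
  rw [t6]
  have t7 : (a - b) ^ 2 = (b - a) ^ 2 := by ring
  rw [t7]
  linarith

/-- N2b. Proof: drop `(K3 - K2/2)(es+ep) ≥ 0`; `0 ≤ Pu`, `1/Q ≤ 1/(u+2) ≤ (6.5-u)/18` for
`2 ≤ u ≤ 5/2` (`(6.5-u)(u+2) ≥ 18`: `(u-2)(2.5-u) ≥ 0`). -/
theorem Geo.NE_ge (h : Geo a b c x y s p ds dp) (hx : 0 ≤ x) (hy : 0 ≤ y)
    (hxy : x + y ≤ 4 / 5) (hle : a ≤ b) (hu : a + b ≤ 5 / 2)
    (hC : Cst T p0 q0 r0 s0 m n1 n2 n3 al be et k0 K1 K2 K3 C0 C1) (E : ℝ) :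
    C0 * (a + b) + C1 * gg a b c x y - E -
        (13 / 2 - (a + b)) / 18 * Pu K1 K2 K3 a b c x y ≤
      NEx K1 K2 K3 C0 C1 E a b c x y s p := by
  have hK1 : 0 ≤ K1 := by linarith [hC.K11]
  have hK2 : 0 ≤ K2 := by linarith [hC.K21]
  have hK3 : 0 ≤ K3 := by linarith [hC.K31]
  have hP := h.Psi_le hx hy hxy hle hK1 hK2 hK3
  have hg := h.gg_nonneg
  have hu2 := h.u_ge
  have hQ := h.Q_ge
  have e3 := h.es_nonneg
  have e4 := h.ep_nonneg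
  have hv : 0 < 19 / 20 - (x ^ 2 + y ^ 2) := by nlinarith [mul_nonneg hx hy]
  have hPu : 0 ≤ Pu K1 K2 K3 a b c x y := by
    unfold Pu
    have z1 : 0 ≤ b - a := by linarith
    have z2 : 0 ≤ 1 + (a + b) := by linarith
    positivity
  have hQ0 : 0 < (s + p) ^ 2 := by linarith
  unfold NEx
  have k1 : 0 ≤ (K3 - K2 / 2) * ((s ^ 2 - b) + (p ^ 2 - a)) :=
    mul_nonneg (by linarith [hC.K31, hC.K22]) (by linarith)
  have k2 : Psi K1 K2 K3 a b c x y s p / (s + p) ^ 2 ≤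
      (13 / 2 - (a + b)) / 18 * Pu K1 K2 K3 a b c x y := by
    rw [div_le_iff₀ hQ0]
    refine le_trans hP ?_
    have k3 : 1 ≤ (13 / 2 - (a + b)) / 18 * (s + p) ^ 2 := by
      have k4 : 0 ≤ (13 / 2 - (a + b)) / 18 := by linarith
      have k5 : (13 / 2 - (a + b)) / 18 * (a + b + 2) ≤ (13 / 2 - (a + b)) / 18 * (s + p) ^ 2 :=
        mul_le_mul_of_nonneg_left hQ k4
      nlinarith
    calc Pu K1 K2 K3 a b c x y = Pu K1 K2 K3 a b c x y * 1 := (mul_one _).symm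
      _ ≤ Pu K1 K2 K3 a b c x y * ((13 / 2 - (a + b)) / 18 * (s + p) ^ 2) :=
        mul_le_mul_of_nonneg_left k3 hPu
      _ = _ := by ring
  linarith

end Pool.Agent.H32.Q4
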