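import Mathlib
import Pool.Agent.H32.Q4.N1

set_option autoImplicit false

/-! Steklov problem on quadrilaterals, near part 2c: bound of the energy. -/

namespace Pool.Agent.H32.Q4

variable {a b c x y s p ds dp : ℝ}
variable {T p0 q0 r0 s0 m n1 n2 n3 al be et k0 K1 K2 K3 C0 C1 : ℝ}

/-- the upper bound of the energy; `V = 1/(1-v)`, `g' = y² a + x² b`,
`A3 = 2p0 - 8n1 + 4 + 8n3 + 4/3` -/
noncomputable def Eb (p0 q0 r0 s0 m n1 n2 n3 a b c x y V : ℝ) : ℝ :=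
  (2 * q0 + 2 * r0) * ((a + b) ^ 2 - 2 * (a * b)) +
  2 * q0 * V * ((x ^ 2 + y ^ 2) * ((a + b) ^ 2 - a * b) - (y ^ 2 * a + x ^ 2 * b) * (a + b)) +
  (2 * p0 - 8 * n1 + 4 + 8 * n3 + 4 / 3) *
    ((y ^ 2 * a + x ^ 2 * b) * (a + b) - (x ^ 2 + y ^ 2) * (a * b)) +
  4 / 3 * ((y ^ 2 * a + x ^ 2 * b) ^ 2 - 2 * (x ^ 2 * y ^ 2) * (a * b)) +
  x ^ 2 * y ^ 2 * (a ^ 2 * (1 / (1 - x ^ 2)) * (2 * p0 - 8 * n1 + 4 + 4 / 3 * y ^ 2) +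
    b ^ 2 * (1 / (1 - y ^ 2)) * (2 * p0 - 8 * n1 + 4 + 4 / 3 * x ^ 2)) +
  a * b * (2 * (8 * n2 - 4) + 4 * p0 + (2 * s0 - (8 * n2 - 4)) * (1 + V) +
    (2 * r0 + 4 / 3) * (x ^ 2 + y ^ 2) +
    (2 * r0 + 4 / 3 - 8 * n3) * ((2 - (x ^ 2 + y ^ 2)) * V * (x ^ 2 * y ^ 2))) -
  8 * m * c ^ 2 + 16 * n3 * (x ^ 2 + y ^ 2) * c ^ 2 +
  x * y * c * (a * (1 / (1 - x ^ 2)) * (4 * m - 8 * n1 - 8 * n2 + 8 + (8 / 3 - 8 * n3) * y ^ 2) +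
    b * (1 / (1 - y ^ 2)) * (4 * m - 8 * n1 - 8 * n2 + 8 + (8 / 3 - 8 * n3) * x ^ 2) +
    (24 * n3 + 8 / 3) * (a + b))

/-- N2c. Proof: with `X = 1/(1-x²)`, `Y = 1/(1-y²)`, `ξ = x²`, `ζ = y²`, `π = ξζ`, start from
`Es_eq` and use the identities `X = 1 + ξX`, `Y = 1 + ζY`:
* `A0 (a²X + b²Y) = A0 (a²+b²) + A0 (a²ξX + b²ζY) ≤ A0 (a²+b²) + A0 V (a²ξ+b²ζ)` since
  `X, Y ≤ V`, and `a²ξ+b²ζ = v(u²-w²) - g'u` (`w² = ab`);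
* `a²Xζ + b²Yξ = (a²ζ+b²ξ) + π(a²X+b²Y)`, `a²ζ+b²ξ = g'u - v w²`;
* `a²Xζ²+b²Yξ² = (a²ζ²+b²ξ²) + π(a²ζX+b²ξY)`, `a²ζ²+b²ξ² = g'² - 2πw²`;
* `ξX+ζY = X+Y-2`, `ζX+ξY = v+π(X+Y)`, `X+Y ≤ 1+V = (2-v)V`;
coefficients `A0, B0-B2, B1, B3 ≥ 0`. -/
theorem Es_le (hab : a * b - c ^ 2 = 1) (ha : 0 < a) (hb : 0 < b) (hx : 0 ≤ x) (hy : 0 ≤ y)
    (hxy : x + y ≤ 4 / 5)
    (hC : Cst T p0 q0 r0 s0 m n1 n2 n3 al be et k0 K1 K2 K3 C0 C1) :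
    Es p0 q0 r0 s0 m n1 n2 n3 a b c x y ≤
      Eb p0 q0 r0 s0 m n1 n2 n3 a b c x y (1 / (1 - (x ^ 2 + y ^ 2))) := by
  have hxy0 := mul_nonneg hx hy
  have hx2 : 0 ≤ x ^ 2 := sq_nonneg x
  have hy2 : 0 ≤ y ^ 2 := sq_nonneg y
  have hv : x ^ 2 + y ^ 2 ≤ 16 / 25 := by nlinarith
  rw [Es_eq hab (by linarith) (by linarith)]
  unfold Eb gg
  have pX : 0 < 1 - x ^ 2 := by linarith
  have pY : 0 < 1 - y ^ 2 := by linarith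
  have pV : 0 < 1 - (x ^ 2 + y ^ 2) := by linarith
  have hX : 1 / (1 - x ^ 2) * (1 - x ^ 2) = 1 := by field_simp
  have hY : 1 / (1 - y ^ 2) * (1 - y ^ 2) = 1 := by field_simp
  have hV : 1 / (1 - (x ^ 2 + y ^ 2)) * (1 - (x ^ 2 + y ^ 2)) = 1 := by field_simp
  have hXV : 1 / (1 - x ^ 2) ≤ 1 / (1 - (x ^ 2 + y ^ 2)) :=
    one_div_le_one_div_of_le pV (by linarith)
  have hYV : 1 / (1 - y ^ 2) ≤ 1 / (1 - (x ^ 2 + y ^ 2)) :=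
    one_div_le_one_div_of_le pV (by linarith)
  have hX0 : 0 < 1 / (1 - x ^ 2) := by positivity
  have hY0 : 0 < 1 / (1 - y ^ 2) := by positivity
  have hXY : 1 / (1 - x ^ 2) * (1 / (1 - y ^ 2)) ≤ 1 / (1 - (x ^ 2 + y ^ 2)) := by
    rw [one_div_mul_one_div]
    apply one_div_le_one_div_of_le pV
    nlinarith [mul_nonneg hx2 hy2]
  generalize 1 / (1 - x ^ 2) = X at *
  generalize 1 / (1 - y ^ 2) = Y at *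
  generalize 1 / (1 - (x ^ 2 + y ^ 2)) = V at *
  have hsum : X + Y ≤ 1 + V := by
    have q1 : X + Y = X * Y * (2 - (x ^ 2 + y ^ 2)) := by
      linear_combination (-Y) * hX + (-X) * hY
    have q2 : X * Y * (2 - (x ^ 2 + y ^ 2)) ≤ V * (2 - (x ^ 2 + y ^ 2)) :=
      mul_le_mul_of_nonneg_right hXY (by linarith)
    have q3 : V * (2 - (x ^ 2 + y ^ 2)) = 1 + V := by linear_combination hV
    linarith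
  have c1 : 0 ≤ 2 * q0 := by linarith [hC.q1]
  have c2 : 0 ≤ 2 * s0 - (8 * n2 - 4) := by linarith [hC.s1, hC.n22]
  have c3 : 0 ≤ 2 * r0 + (4 / 3 - 8 * n3) := by linarith [hC.r1, hC.n32]
  have d1 : 0 ≤ 2 * q0 * (a ^ 2 * x ^ 2 * (V - X) + b ^ 2 * y ^ 2 * (V - Y)) := by
    have := sub_nonneg.mpr hXV
    have := sub_nonneg.mpr hYV
    positivity
  have d2 : 0 ≤ a * b * ((2 * s0 - (8 * n2 - 4)) + (2 * r0 + (4 / 3 - 8 * n3)) *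
      (x ^ 2 * y ^ 2)) * (1 + V - (X + Y)) := by
    have := sub_nonneg.mpr hsum
    positivity
  rw [← sub_nonneg]
  refine le_of_le_of_eq (add_nonneg d1 d2) ?_
  linear_combination (-(a * b * (2 * r0 + (4 / 3 - 8 * n3)) * (x ^ 2 * y ^ 2))) * hV +
    (2 * q0 * a ^ 2 + (2 * p0 - 8 * n1 + 4) * a ^ 2 * y ^ 2 + 4 / 3 * a ^ 2 * y ^ 4 +
      (8 * n2 - 4) * (a * b) + 2 * r0 * (a * b) * y ^ 2) * hX +
    (2 * q0 * b ^ 2 + (2 * p0 - 8 * n1 + 4) * b ^ 2 * x ^ 2 + 4 / 3 * b ^ 2 * x ^ 4 +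
      (8 * n2 - 4) * (a * b) + 2 * r0 * (a * b) * x ^ 2) * hY

end Pool.Agent.H32.Q4
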