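import Mathlib
import Pool.Agent.H32.Q4.N2
import Pool.Agent.H32.Q4.N2c

set_option autoImplicit false

/-! Steklov problem on quadrilaterals, near part 3: separation of the terms in `x y`. -/

namespace Pool.Agent.H32.Q4

variable {a b c x y s p ds dp : ℝ}
variable {T p0 q0 r0 s0 m n1 n2 n3 al be et k0 K1 K2 K3 C0 C1 : ℝ}

/-- main part: `u = a+b`, `v = x²+y²`, `V = 1/(1-v)`, `d = b - a` -/
noncomputable def G1 (p0 q0 r0 s0 n1 n2 n3 K1 K2 K3 C0 C1 u v g d V : ℝ) : ℝ :=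
  C0 * u + C1 * g - (2 * q0 + 2 * r0) * (u ^ 2 - 2) - 2 * q0 * V * v * (u ^ 2 - 1) +
    2 * q0 * V * u * g - (2 * p0 - 8 * n1 + 4 + 8 * n3 + 4 / 3) * (u * g - v) -
    4 / 3 * g ^ 2 -
    (2 * (8 * n2 - 4) + 4 * p0 + (2 * s0 - (8 * n2 - 4)) * (1 + V) + (2 * r0 + 4 / 3) * v) -
    (13 / 2 - u) / 18 * (K1 / 2 * (u ^ 2 - 4) + K2 / 2 * g ^ 2 + (K1 + K2) / 2 * d * g + K3 * v)

/-- coefficient of `-κ` -/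
noncomputable def Kka (p0 q0 m n1 n2 n3 a b c x y V : ℝ) : ℝ :=
  (a + b) * (2 * (2 * p0 - 8 * n1 + 4 + 8 * n3 + 4 / 3) - 4 * q0 * V - 24 * n3 - 8 / 3) +
    16 / 3 * gg a b c x y -
    (4 * m - 8 * n1 - 8 * n2 + 8) * (a * (1 / (1 - x ^ 2)) + b * (1 / (1 - y ^ 2))) -
    (8 / 3 - 8 * n3) * (y ^ 2 * a * (1 / (1 - x ^ 2)) + x ^ 2 * b * (1 / (1 - y ^ 2)))

/-- coefficient of `-c²` -/
noncomputable def Gac (p0 q0 r0 s0 m n1 n2 n3 K1 u v V : ℝ) : ℝ :=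
  2 * (2 * q0 + 2 * r0) + 2 * q0 * V * v + (2 * p0 - 8 * n1 + 4 + 8 * n3 + 4 / 3) * v -
    (2 * (8 * n2 - 4) + 4 * p0 + (2 * s0 - (8 * n2 - 4)) * (1 + V) + (2 * r0 + 4 / 3) * v) +
    8 * m - 16 * n3 * v + 2 * K1 * ((13 / 2 - u) / 18)

/-- coefficient of `π = x²y²` -/
noncomputable def Kpi (p0 r0 n1 n3 K3 a b x y V : ℝ) : ℝ :=
  -8 / 3 + (a ^ 2 * (1 / (1 - x ^ 2)) * (2 * p0 - 8 * n1 + 4 + 4 / 3 * y ^ 2) +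
    b ^ 2 * (1 / (1 - y ^ 2)) * (2 * p0 - 8 * n1 + 4 + 4 / 3 * x ^ 2)) +
    (2 * r0 + 4 / 3 - 8 * n3) * (1 + V) +
    2 * K3 * ((13 / 2 - (a + b)) / 18) * (1 + (a + b)) / (19 / 20 - (x ^ 2 + y ^ 2))

noncomputable def CF (p0 q0 r0 s0 m n1 n2 n3 K1 K3 a b c x y V : ℝ) : ℝ :=
  Kpi p0 r0 n1 n3 K3 a b x y V * (x ^ 2 * y ^ 2) -
    x * y * c * Kka p0 q0 m n1 n2 n3 a b c x y V +
    2 * K3 * ((13 / 2 - (a + b)) / 18) * |x * y * c| +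
    x ^ 2 * y ^ 2 * c ^ 2 * (8 / 3 + (2 * r0 + 4 / 3 - 8 * n3) * (1 + V)) -
    Gac p0 q0 r0 s0 m n1 n2 n3 K1 (a + b) (x ^ 2 + y ^ 2) V * c ^ 2

/-- N3a. Substitute `ab = 1 + c²`, `g' = g - 2κ`, `(b-a)² = u² - 4 - 4c²`, `1 + V = (2-v) V`
(`V (1 - v) = 1`), `κ² = x²y²c²`. -/
theorem NL_eq (hab : a * b - c ^ 2 = 1) {V : ℝ} (hV : V * (1 - (x ^ 2 + y ^ 2)) = 1) :
    C0 * (a + b) + C1 * gg a b c x y - Eb p0 q0 r0 s0 m n1 n2 n3 a b c x y V -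
        (13 / 2 - (a + b)) / 18 * Pu K1 K2 K3 a b c x y =
      G1 p0 q0 r0 s0 n1 n2 n3 K1 K2 K3 C0 C1 (a + b) (x ^ 2 + y ^ 2) (gg a b c x y) (b - a) V -
        CF p0 q0 r0 s0 m n1 n2 n3 K1 K3 a b c x y V := by
  unfold Eb Pu G1 CF Kpi Kka Gac gg
  linear_combination
    (2 * K1 * ((13 / 2 - (a + b)) / 18) + 2 * (2 * q0 + 2 * r0) + 2 * q0 * V * (x ^ 2 + y ^ 2) +
      (2 * p0 - 8 * n1 + 4 + 8 * n3 + 4 / 3) * (x ^ 2 + y ^ 2) + 8 / 3 * (x ^ 2 * y ^ 2) -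
      (2 * (8 * n2 - 4) + 4 * p0 + (2 * s0 - (8 * n2 - 4)) * (1 + V) +
        (2 * r0 + 4 / 3) * (x ^ 2 + y ^ 2)) -
      (2 * r0 + 4 / 3 - 8 * n3) * (x ^ 2 * y ^ 2) * (1 + V)) * hab -
    a * b * (2 * r0 + 4 / 3 - 8 * n3) * (x ^ 2 * y ^ 2) * hV

end Pool.Agent.H32.Q4
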