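import Mathlib
import Pool.Agent.H32.Q4.N3

set_option autoImplicit false

/-! Steklov problem on quadrilaterals, near part 3b: separation of the terms in `x y`. -/

namespace Pool.Agent.H32.Q4

variable {a b c x y s p ds dp : ℝ}
variable {T p0 q0 r0 s0 m n1 n2 n3 al be et k0 K1 K2 K3 C0 C1 : ℝ}

/-- N3b. `Kπ ≤ -2.083 + 2.146 V + 5.667 v + 7.41/(.95-v)`: `X ≤ V`, `y² X ≤ v`, `x² Y ≤ v`
(`ζ ≤ (ζ+ξ)(1-ξ)`), `a²+b² = u² - 2ab ≤ u² - 2 ≤ 4.25`, `(6.5-u)(1+u)/18 ≤ 7/9` on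
`[2, 2.5]`. -/
theorem Kpi_le (hab : a * b - c ^ 2 = 1) (ha : 0 < a) (hb : 0 < b) (hx : 0 ≤ x) (hy : 0 ≤ y)
    (hxy : x + y ≤ 4 / 5) (hu : a + b ≤ 5 / 2) (hv : x ^ 2 + y ^ 2 ≤ 11 / 20)
    (hC : Cst T p0 q0 r0 s0 m n1 n2 n3 al be et k0 K1 K2 K3 C0 C1) {V : ℝ}
    (hV : V * (1 - (x ^ 2 + y ^ 2)) = 1) :
    Kpi p0 r0 n1 n3 K3 a b x y V ≤
      -2.083 + 2.146 * V + 5.667 * (x ^ 2 + y ^ 2) + 7.41 / (19 / 20 - (x ^ 2 + y ^ 2)) := by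
  have hx2 : 0 ≤ x ^ 2 := sq_nonneg x
  have hy2 : 0 ≤ y ^ 2 := sq_nonneg y
  have pX : 0 < 1 - x ^ 2 := by linarith
  have pY : 0 < 1 - y ^ 2 := by linarith
  have pV : 0 < 1 - (x ^ 2 + y ^ 2) := by linarith
  have p95 : 0 < 19 / 20 - (x ^ 2 + y ^ 2) := by linarith
  have hVe : V = 1 / (1 - (x ^ 2 + y ^ 2)) := by rw [eq_div_iff pV.ne']; exact hV
  have hV1 : 1 ≤ V := by rw [hVe, le_div_iff₀ pV]; linarith
  have hV2 : V ≤ 20 / 9 := by rw [hVe, div_le_iff₀ pV]; linarith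
  have hu2 : 2 ≤ a + b := by nlinarith [sq_nonneg (a - b), sq_nonneg c]
  have hn1 := hC.en1
  have A1a : 2 * p0 - 8 * n1 + 4 ≤ 0.3677 := by
    rw [hn1]; linarith [hC.p2, hC.n21, hC.n32]
  have A1b : 0 ≤ 2 * p0 - 8 * n1 + 4 := by
    rw [hn1]; linarith [hC.p1, hC.n22, hC.n31]
  have hXV : 1 / (1 - x ^ 2) ≤ V := by
    rw [hVe]; exact one_div_le_one_div_of_le pV (by linarith)
  have hYV : 1 / (1 - y ^ 2) ≤ V := by
    rw [hVe]; exact one_div_le_one_div_of_le pV (by linarith)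
  have hyX : 1 / (1 - x ^ 2) * y ^ 2 ≤ x ^ 2 + y ^ 2 := by
    rw [div_mul_eq_mul_div, div_le_iff₀ pX]; nlinarith [mul_nonneg hx2 pV.le]
  have hxY : 1 / (1 - y ^ 2) * x ^ 2 ≤ x ^ 2 + y ^ 2 := by
    rw [div_mul_eq_mul_div, div_le_iff₀ pY]; nlinarith [mul_nonneg hy2 pV.le]
  have hX0 : 0 < 1 / (1 - x ^ 2) := by positivity
  have hY0 : 0 < 1 / (1 - y ^ 2) := by positivity
  unfold Kpi
  generalize 1 / (1 - x ^ 2) = X at *
  generalize 1 / (1 - y ^ 2) = Y at *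
  set v := x ^ 2 + y ^ 2 with hvd
  set A1 := 2 * p0 - 8 * n1 + 4 with hA1
  have hv0 : 0 ≤ v := by positivity
  have k1 : X * (A1 + 4 / 3 * y ^ 2) ≤ A1 * V + 4 / 3 * v := by
    linarith [mul_le_mul_of_nonneg_left hXV A1b]
  have k2 : Y * (A1 + 4 / 3 * x ^ 2) ≤ A1 * V + 4 / 3 * v := by
    linarith [mul_le_mul_of_nonneg_left hYV A1b]
  have k3 : a ^ 2 * X * (A1 + 4 / 3 * y ^ 2) ≤ a ^ 2 * (A1 * V + 4 / 3 * v) := by
    rw [mul_assoc]; exact mul_le_mul_of_nonneg_left k1 (sq_nonneg a)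
  have k4 : b ^ 2 * Y * (A1 + 4 / 3 * x ^ 2) ≤ b ^ 2 * (A1 * V + 4 / 3 * v) := by
    rw [mul_assoc]; exact mul_le_mul_of_nonneg_left k2 (sq_nonneg b)
  have k5 : a ^ 2 + b ^ 2 ≤ 17 / 4 := by nlinarith [sq_nonneg c]
  have k6 : (a ^ 2 + b ^ 2) * (A1 * V + 4 / 3 * v) ≤ 17 / 4 * (0.3677 * V + 4 / 3 * v) := by
    apply mul_le_mul k5 _ _ (by norm_num)
    · linarith [mul_le_mul_of_nonneg_right A1a (by linarith : (0:ℝ) ≤ V)]
    · have := mul_nonneg A1b (by linarith : (0:ℝ) ≤ V)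
      linarith
  have k7 : (2 * r0 + 4 / 3 - 8 * n3) * (1 + V) ≤ (0.16398 + 4 / 3 - 0.91392) * (1 + V) :=
    mul_le_mul_of_nonneg_right (by linarith [hC.r2, hC.n31]) (by linarith)
  have k8 : 2 * K3 * ((13 / 2 - (a + b)) / 18) * (1 + (a + b)) / (19 / 20 - v) ≤
      7.41 / (19 / 20 - v) := by
    apply div_le_div_of_nonneg_right _ p95.le
    have q1 : (13 / 2 - (a + b)) / 18 * (1 + (a + b)) ≤ 7 / 9 := by nlinarith
    have q2 : 2 * K3 * ((13 / 2 - (a + b)) / 18) * (1 + (a + b)) =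
        2 * K3 * ((13 / 2 - (a + b)) / 18 * (1 + (a + b))) := by ring
    rw [q2]
    have q3 : 2 * K3 * ((13 / 2 - (a + b)) / 18 * (1 + (a + b))) ≤ 2 * K3 * (7 / 9) :=
      mul_le_mul_of_nonneg_left q1 (by linarith [hC.K31])
    linarith [hC.K32]
  linarith

/-- N3e. `-2.083 + 2.146 V + 5.667 v + (5.79+3.82v)²/(6.16(1-v)) ≤ 11.59/(.95-v)` on `[0,.55]`. -/
theorem cf_poly {v V : ℝ} (h0 : 0 ≤ v) (hv : v ≤ 11 / 20) (hV : V * (1 - v) = 1) :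
    -2.083 + 2.146 * V + 5.667 * v + (5.79 + 3.82 * v) ^ 2 / (6.16 * (1 - v)) ≤
      11.59 / (19 / 20 - v) := by
  have p1 : 0 < 1 - v := by linarith
  have p2 : 0 < 19 / 20 - v := by linarith
  rw [le_div_iff₀ p2]
  have e1 : (5.79 + 3.82 * v) ^ 2 / (6.16 * (1 - v)) = (5.79 + 3.82 * v) ^ 2 / 6.16 * V := by
    rw [div_mul_eq_div_div]
    rw [div_eq_iff p1.ne']
    rw [mul_assoc, hV, mul_one]
  rw [e1]
  refine le_of_mul_le_mul_right ?_ p1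
  have e2 : (-2.083 + 2.146 * V + 5.667 * v + (5.79 + 3.82 * v) ^ 2 / 6.16 * V) *
      (19 / 20 - v) * (1 - v) =
      ((-2.083 + 5.667 * v) * (1 - v) + (2.146 + (5.79 + 3.82 * v) ^ 2 / 6.16)) *
      (19 / 20 - v) := by
    linear_combination ((2.146 + (5.79 + 3.82 * v) ^ 2 / 6.16) * (19 / 20 - v)) * hV
  rw [e2]
  have h3 : 0 ≤ 11 / 20 - v := by linarith
  have hQ : 0 ≤ 11.3 - 16.26 * v + 3.2 * v ^ 2 := by nlinarith [sq_nonneg (v - 11 / 20)]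
  have e3 : (5.79 + 3.82 * v) ^ 2 / 6.16 = (579 / 100 + 382 / 100 * v) ^ 2 * (25 / 154) := by
    norm_num
    ring
  rw [e3]
  have z1 := mul_nonneg h3 hQ
  have z2 := mul_nonneg h3 h0
  have z3 := mul_nonneg h3 (sq_nonneg v)
  norm_num at z1 ⊢
  nlinarith

end Pool.Agent.H32.Q4
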