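import Mathlib
import Pool.Agent.H32.Q4.N3

set_option autoImplicit false

/-! Steklov problem on quadrilaterals, near part 3c: separation of the terms in `x y`. -/

namespace Pool.Agent.H32.Q4

variable {a b c x y s p ds dp : ℝ}
variable {T p0 q0 r0 s0 m n1 n2 n3 al be et k0 K1 K2 K3 C0 C1 : ℝ}

/-- N3c. `-κ Kκ + 2 K3 fQ |κ| ≤ |κ| (5.79 + 3.82 v)`.
If `κ ≥ 0`: `-Kκ ≤ u(4q0 V + 24n3 + 8/3 - 2A3) + Ck0 (aX+bY) + Ck1 (ζaX+ξbY) - (16/3) g'` where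
`g ≥ g' = ζa+ξb ≥ v/2` (`a, b ≥ 1/2`: `a b ≥ 1`, `a+b ≤ 5/2`, so `b ≤ 2`, `a ≥ 1/2`),
`aX+bY ≤ a + bV ≤ 1/2 + 2V` (`X+Y ≤ 1+V`, `X, Y ≤ V`, `a ≤ b`), `ζaX+ξbY = g' + π(aX+bY) ≤
g' + (5/2)πV`, `4q0·(5/2) = .6873`, `u(24n3+8/3-2A3) ≤ .4473`, `2K3 fQ ≤ 2.3786`
(fQ ≤ 1/4): sum `≤ 3.2791 + 2.5 V + 4.382 π V - 1.7903 v ≤ 5.79 + 3.82 v`
(with `π ≤ v²/4`, `π ≤ (.64-v)²/4`).
If `κ ≤ 0`: `g ≤ g' ≤ 2v`, `aX+bY ≥ u`, `ζaX+ξbY ≥ g'`, `V ≥ 1`:
`Kκ ≤ u(2A3 - 4q0 - 24n3 - 8/3 - Ck0) + (16/3 - Ck1) g' ≤ -1.36 u + 3.5808·2v`. -/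
theorem Kka_le (hab : a * b - c ^ 2 = 1) (ha : 0 < a) (hb : 0 < b) (hle : a ≤ b)
    (hx : 0 ≤ x) (hy : 0 ≤ y)
    (hxy : x + y ≤ 4 / 5) (hu : a + b ≤ 5 / 2) (hv : x ^ 2 + y ^ 2 ≤ 11 / 20)
    (hC : Cst T p0 q0 r0 s0 m n1 n2 n3 al be et k0 K1 K2 K3 C0 C1) {V : ℝ}
    (hV : V * (1 - (x ^ 2 + y ^ 2)) = 1) :
    -(x * y * c * Kka p0 q0 m n1 n2 n3 a b c x y V) +
      2 * K3 * ((13 / 2 - (a + b)) / 18) * |x * y * c| ≤
      |x * y * c| * (5.79 + 3.82 * (x ^ 2 + y ^ 2)) := by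
  have hxy0 : 0 ≤ x * y := mul_nonneg hx hy
  have hv0 : 0 ≤ x ^ 2 + y ^ 2 := by positivity
  have hpi0 : 0 ≤ x ^ 2 * y ^ 2 := by positivity
  have hpi1 : x ^ 2 * y ^ 2 ≤ (x ^ 2 + y ^ 2) ^ 2 / 4 := by
    nlinarith [sq_nonneg (x ^ 2 - y ^ 2)]
  have h2xy : 2 * (x * y) ≤ 0.64 - (x ^ 2 + y ^ 2) := by nlinarith
  have hpi2 : x ^ 2 * y ^ 2 ≤ (0.64 - (x ^ 2 + y ^ 2)) ^ 2 / 4 := by
    have h1 : (2 * (x * y)) ^ 2 ≤ (0.64 - (x ^ 2 + y ^ 2)) ^ 2 :=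
      pow_le_pow_left₀ (by linarith) h2xy 2
    nlinarith
  have hV0 : 0 < V := by
    by_contra hcon
    push Not at hcon
    nlinarith
  have hx1 : 0 < 1 - x ^ 2 := by nlinarith [sq_nonneg y]
  have hy1 : 0 < 1 - y ^ 2 := by nlinarith [sq_nonneg x]
  have hab1 : 1 ≤ a * b := by nlinarith [sq_nonneg c]
  have hb1 : 1 ≤ b := by nlinarith
  have hb2 : b ≤ 2 := by nlinarith
  have ha2 : a ≤ 2 := hle.trans hb2
  have ha1 : 1 / 2 ≤ a := by nlinarith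
  have hu2 : 2 ≤ a + b := by nlinarith [sq_nonneg (a - b)]
  obtain ⟨X, hXd⟩ : ∃ X, X = 1 / (1 - x ^ 2) := ⟨_, rfl⟩
  obtain ⟨Y, hYd⟩ : ∃ Y, Y = 1 / (1 - y ^ 2) := ⟨_, rfl⟩
  have hX : X * (1 - x ^ 2) = 1 := by rw [hXd]; field_simp
  have hY : Y * (1 - y ^ 2) = 1 := by rw [hYd]; field_simp
  have hX0 : 0 < X := by rw [hXd]; positivity
  have hY0 : 0 < Y := by rw [hYd]; positivity
  have hX1 : 1 ≤ X := by nlinarith [sq_nonneg x, mul_nonneg hX0.le (sq_nonneg x)]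
  have hY1 : 1 ≤ Y := by nlinarith [sq_nonneg y, mul_nonneg hY0.le (sq_nonneg y)]
  have hV1 : 1 ≤ V := by nlinarith [mul_nonneg hV0.le hv0]
  have hYV : Y ≤ V := by
    have h1 : V * (1 - y ^ 2) = 1 + V * x ^ 2 := by linear_combination hV
    have h2 : (V - Y) * (1 - y ^ 2) = V * x ^ 2 := by linear_combination h1 - hY
    have h3 : 0 ≤ (V - Y) * (1 - y ^ 2) := by rw [h2]; positivity
    have h4 := nonneg_of_mul_nonneg_left h3 hy1
    linarith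
  have hXYV : X + Y ≤ 1 + V := by
    have h2 : (1 + V - X - Y) * ((1 - x ^ 2) * (1 - y ^ 2)) =
        x ^ 2 * y ^ 2 * (1 + V) := by
      linear_combination hV - (1 - y ^ 2) * hX - (1 - x ^ 2) * hY
    have h3 : 0 ≤ (1 + V - X - Y) * ((1 - x ^ 2) * (1 - y ^ 2)) := by rw [h2]; positivity
    have h4 := nonneg_of_mul_nonneg_left h3 (mul_pos hx1 hy1)
    linarith
  -- `aX + bY`
  have hS1 : a * X + b * Y ≤ 1 / 2 + 2 * V := by
    have h1 : a * (X + Y) ≤ a * (1 + V) := mul_le_mul_of_nonneg_left hXYV ha.le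
    have h2 : (b - a) * Y ≤ (b - a) * V := mul_le_mul_of_nonneg_left hYV (by linarith)
    have h3 : b * (V - 1) ≤ 2 * (V - 1) := mul_le_mul_of_nonneg_right hb2 (by linarith)
    nlinarith
  have hS0 : a + b ≤ a * X + b * Y := by nlinarith
  have hS2 : a * X + b * Y ≤ 5 / 2 * V := by linarith
  have hg1 : (x ^ 2 + y ^ 2) / 2 ≤ y ^ 2 * a + x ^ 2 * b := by nlinarith [sq_nonneg x, sq_nonneg y]
  have hg2 : y ^ 2 * a + x ^ 2 * b ≤ 2 * (x ^ 2 + y ^ 2) := by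
    nlinarith [sq_nonneg x, sq_nonneg y]
  have hT : y ^ 2 * a * X + x ^ 2 * b * Y =
      y ^ 2 * a + x ^ 2 * b + x ^ 2 * y ^ 2 * (a * X + b * Y) := by
    linear_combination (y ^ 2 * a) * hX + (x ^ 2 * b) * hY
  have hen1 := hC.en1
  obtain ⟨q1, q2, p1, p2, n21, n22, n31, n32, m1, m2, K31, K32⟩ :
      0.06872 ≤ q0 ∧ q0 ≤ 0.06874 ∧
        0.63794 ≤ p0 ∧ p0 ≤ 0.63797 ∧ 0.72779 ≤ n2 ∧ n2 ≤ 0.72781 ∧ 0.11424 ≤ n3 ∧
        n3 ≤ 0.11426 ∧ 0.90925 ≤ m ∧ m ≤ 0.90928 ∧ 4.75710 ≤ K3 ∧ K3 ≤ 4.75715 :=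
    ⟨hC.q1, hC.q2, hC.p1, hC.p2, hC.n21, hC.n22, hC.n31, hC.n32, hC.m1, hC.m2,
      hC.K31, hC.K32⟩
  have hK3 : 2 * K3 * ((13 / 2 - (a + b)) / 18) ≤ 2.3786 := by
    have : 2 * K3 * ((13 / 2 - (a + b)) / 18) ≤ 2 * K3 * (1 / 4) :=
      mul_le_mul_of_nonneg_left (by linarith) (by linarith)
    linarith
  have hKe : Kka p0 q0 m n1 n2 n3 a b c x y V =
      (a + b) * (2 * (2 * p0 - 8 * n2 + 16 * n3 + 16 / 3) - 24 * n3 - 8 / 3) -
        4 * q0 * ((a + b) * V) + 16 / 3 * (y ^ 2 * a + x ^ 2 * b) + 32 / 3 * (x * y * c) -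
        (4 * m - 16 * n2 + 8 * n3 + 8) * (a * X + b * Y) -
        (8 / 3 - 8 * n3) * (y ^ 2 * a + x ^ 2 * b + x ^ 2 * y ^ 2 * (a * X + b * Y)) := by
    rw [← hT]
    unfold Kka gg
    rw [← hXd, ← hYd, hen1]
    ring
  generalize hvd : x ^ 2 + y ^ 2 = v at *
  generalize hpid : x ^ 2 * y ^ 2 = π at *
  generalize hSd : a * X + b * Y = S at *
  generalize hgd : y ^ 2 * a + x ^ 2 * b = g at *
  have h1v : 0 < 1 - v := by linarith
  rcases le_total 0 (x * y * c) with hk | hk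
  · rw [abs_of_nonneg hk]
    have hmain : 2.3786 - Kka p0 q0 m n1 n2 n3 a b c x y V ≤ 5.79 + 3.82 * v := by
      have e1 : (a + b) * (24 * n3 + 8 / 3 - 2 * (2 * p0 - 8 * n2 + 16 * n3 + 16 / 3)) ≤
          5 / 2 * 0.1796 := by
        apply mul_le_mul hu (by linarith) (by linarith) (by norm_num)
      have e2 : 4 * q0 * ((a + b) * V) ≤ 0.275 * (5 / 2 * V) := by
        apply mul_le_mul (by linarith) (mul_le_mul_of_nonneg_right hu hV0.le) (by positivity)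
          (by norm_num)
      have e3 : (4 * m - 16 * n2 + 8 * n3 + 8) * S ≤ 0.9067 * (1 / 2 + 2 * V) := by
        apply mul_le_mul (by linarith) hS1 (by linarith) (by norm_num)
      have e4 : (8 / 3 - 8 * n3) * (g + π * S) ≤ (8 / 3 - 8 * n3) * g + 1.7528 * (π * (5 / 2 * V)) := by
        have h1 : π * S ≤ π * (5 / 2 * V) := mul_le_mul_of_nonneg_left hS2 hpi0
        have h2 : 0 ≤ π * (5 / 2 * V) := by positivity
        have h3 : (8 / 3 - 8 * n3) * (π * S) ≤ 1.7528 * (π * (5 / 2 * V)) := by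
          apply mul_le_mul (by linarith) h1 (mul_nonneg hpi0 (by linarith)) (by norm_num)
        linarith
      have e5 : (8 / 3 - 8 * n3 - 16 / 3) * g ≤ (8 / 3 - 8 * n3 - 16 / 3) * (v / 2) :=
        mul_le_mul_of_nonpos_left hg1 (by linarith)
      have e6 : (8 / 3 - 8 * n3 - 16 / 3) * (v / 2) ≤ -3.58 * (v / 2) :=
        mul_le_mul_of_nonneg_right (by linarith) (by linarith)
      have hF : 0 ≤ 5.79 + 3.82 * v - (2.3786 + 5 / 2 * 0.1796 + 0.9067 / 2 +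
          (0.6875 + 1.8134) * V + 4.382 * (π * V) - 1.79 * v) := by
        have key : 0 ≤ (5.79 + 3.82 * v - (2.3786 + 5 / 2 * 0.1796 + 0.9067 / 2 +
          (0.6875 + 1.8134) * V + 4.382 * (π * V) - 1.79 * v)) * (1 - v) := by
          have e7 : (5.79 + 3.82 * v - (2.3786 + 5 / 2 * 0.1796 + 0.9067 / 2 +
            (0.6875 + 1.8134) * V + 4.382 * (π * V) - 1.79 * v)) * (1 - v) =
            (5.79 - (2.3786 + 5 / 2 * 0.1796 + 0.9067 / 2) + 5.61 * v) * (1 - v) -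
              (0.6875 + 1.8134) - 4.382 * π := by
            linear_combination (-(0.6875 + 1.8134) - 4.382 * π) * hV
          rw [e7]
          rcases le_total v 0.32 with h | h
          · have f1 := mul_nonneg hv0 (sub_nonneg.mpr h)
            linarith
          · have f1 := mul_nonneg (sub_nonneg.mpr h) (sub_nonneg.mpr hv)
            linarith
        exact nonneg_of_mul_nonneg_left key h1v
      rw [hKe]
      linarith
    have f1 := mul_le_mul_of_nonneg_left hmain hk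
    have f2 := mul_le_mul_of_nonneg_left hK3 hk
    linarith
  · rw [abs_of_nonpos hk]
    have hmain : 2.3786 + Kka p0 q0 m n1 n2 n3 a b c x y V ≤ 5.79 + 3.82 * v := by
      have e1 : 4 * q0 * (a + b) ≤ 4 * q0 * ((a + b) * V) := by
        exact mul_le_mul_of_nonneg_left (le_mul_of_one_le_right (by linarith) hV1) (by linarith)
      have e3 : (4 * m - 16 * n2 + 8 * n3 + 8) * (a + b) ≤ (4 * m - 16 * n2 + 8 * n3 + 8) * S :=
        mul_le_mul_of_nonneg_left hS0 (by linarith)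
      have e4 : (8 / 3 - 8 * n3) * g ≤ (8 / 3 - 8 * n3) * (g + π * S) := by
        apply mul_le_mul_of_nonneg_left _ (by linarith)
        have : 0 ≤ π * S := mul_nonneg hpi0 (by linarith)
        linarith
      have e5 : (16 / 3 - (8 / 3 - 8 * n3)) * g ≤ 3.5809 * (2 * v) := by
        apply mul_le_mul (by linarith) hg2 (by linarith) (by norm_num)
      have e6 : (a + b) * (2 * (2 * p0 - 8 * n2 + 16 * n3 + 16 / 3) - 24 * n3 - 8 / 3 - 4 * q0 -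
          (4 * m - 16 * n2 + 8 * n3 + 8)) ≤ (a + b) * 0 :=
        mul_le_mul_of_nonneg_left (by linarith) (by linarith)
      rw [hKe]
      linarith
    have f1 := mul_le_mul_of_nonneg_left hmain (neg_nonneg.mpr hk)
    have f2 := mul_le_mul_of_nonneg_left hK3 (neg_nonneg.mpr hk)
    linarith

end Pool.Agent.H32.Q4
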