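import Mathlib
import Pool.Agent.H32.Q4.N3

set_option autoImplicit false

/-! Steklov problem on quadrilaterals, near part 3d: separation of the terms in `x y`. -/

namespace Pool.Agent.H32.Q4

variable {a b c x y s p ds dp : ℝ}
variable {T p0 q0 r0 s0 m n1 n2 n3 al be et k0 K1 K2 K3 C0 C1 : ℝ}

/-- N3d. `Γ - π(8/3 + (B1+B3)(1+V)) ≥ 1.54 (1 - v)`. Numerically `Γ ≥ 1.9046 - .34257 V - .71043 v`
(`vV = V - 1`, `fQ ≥ 2/9`), and `π ≤ v²/4`, `π ≤ (.64-v)²/4`. -/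
theorem Gac_ge (hx : 0 ≤ x) (hy : 0 ≤ y) {u : ℝ}
    (hxy : x + y ≤ 4 / 5) (hu : u ≤ 5 / 2) (hv : x ^ 2 + y ^ 2 ≤ 11 / 20)
    (hC : Cst T p0 q0 r0 s0 m n1 n2 n3 al be et k0 K1 K2 K3 C0 C1) {V : ℝ}
    (hV : V * (1 - (x ^ 2 + y ^ 2)) = 1) :
    1.54 * (1 - (x ^ 2 + y ^ 2)) ≤
      Gac p0 q0 r0 s0 m n1 n2 n3 K1 u (x ^ 2 + y ^ 2) V -
        x ^ 2 * y ^ 2 * (8 / 3 + (2 * r0 + 4 / 3 - 8 * n3) * (1 + V)) := by
  have hxy0 : 0 ≤ x * y := mul_nonneg hx hy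
  have hv0 : 0 ≤ x ^ 2 + y ^ 2 := by positivity
  have hpi0 : 0 ≤ x ^ 2 * y ^ 2 := by positivity
  have hpi1 : x ^ 2 * y ^ 2 ≤ (x ^ 2 + y ^ 2) ^ 2 / 4 := by
    nlinarith [sq_nonneg (x ^ 2 - y ^ 2)]
  have h2xy : 2 * (x * y) ≤ 0.64 - (x ^ 2 + y ^ 2) := by nlinarith
  have hpi2 : x ^ 2 * y ^ 2 ≤ (0.64 - (x ^ 2 + y ^ 2)) ^ 2 / 4 := by
    have h1 : (2 * (x * y)) ^ 2 ≤ (0.64 - (x ^ 2 + y ^ 2)) ^ 2 :=
      pow_le_pow_left₀ (by linarith) h2xy 2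
    nlinarith
  have hV0 : 0 ≤ V := by
    by_contra hcon
    push Not at hcon
    nlinarith
  have hen1 := hC.en1
  obtain ⟨q1, q2, r1, r2, s2, p1, p2, n21, n22, n31, n32, m1, K11⟩ :
      0.06872 ≤ q0 ∧ q0 ≤ 0.06874 ∧ 0.08196 ≤ r0 ∧ r0 ≤ 0.08199 ∧ s0 ≤ 1.15121 ∧
        0.63794 ≤ p0 ∧ p0 ≤ 0.63797 ∧ 0.72779 ≤ n2 ∧ n2 ≤ 0.72781 ∧ 0.11424 ≤ n3 ∧
        n3 ≤ 0.11426 ∧ 0.90925 ≤ m ∧ 1.89403 ≤ K1 :=
    ⟨hC.q1, hC.q2, hC.r1, hC.r2, hC.s2, hC.p1, hC.p2, hC.n21, hC.n22, hC.n31, hC.n32, hC.m1,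
      hC.K11⟩
  generalize hvd : x ^ 2 + y ^ 2 = v at *
  generalize hpid : x ^ 2 * y ^ 2 = π at *
  have hG : 1.9042 - 0.3427 * V - 0.7106 * v ≤ Gac p0 q0 r0 s0 m n1 n2 n3 K1 u v V := by
    have e1 : Gac p0 q0 r0 s0 m n1 n2 n3 K1 u v V =
        (2 * q0 + 4 * r0 - 8 * n2 + 4 - 4 * p0 - 2 * s0 + 8 * m) +
        (2 * q0 - (2 * s0 - (8 * n2 - 4))) * V + (2 * p0 - 8 * n2 + 4 - 2 * r0) * v +
        2 * K1 * ((13 / 2 - u) / 18) := by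
      unfold Gac
      rw [hen1]
      linear_combination (-2 * q0) * hV
    have h1 : -0.3427 * V ≤ (2 * q0 - (2 * s0 - (8 * n2 - 4))) * V :=
      mul_le_mul_of_nonneg_right (by linarith) hV0
    have h2 : -0.7106 * v ≤ (2 * p0 - 8 * n2 + 4 - 2 * r0) * v :=
      mul_le_mul_of_nonneg_right (by linarith) hv0
    have h3 : 2 * K1 * (2 / 9) ≤ 2 * K1 * ((13 / 2 - u) / 18) :=
      mul_le_mul_of_nonneg_left (by linarith) (by linarith)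
    rw [e1]
    linarith
  have hB : π * (8 / 3 + (2 * r0 + 4 / 3 - 8 * n3) * (1 + V)) ≤
      π * (8 / 3 + 0.5835 * (1 + V)) := by
    apply mul_le_mul_of_nonneg_left _ hpi0
    have : (2 * r0 + 4 / 3 - 8 * n3) * (1 + V) ≤ 0.5835 * (1 + V) :=
      mul_le_mul_of_nonneg_right (by linarith) (by linarith)
    linarith
  have hF : 0 ≤ 1.9042 - 0.3427 * V - 0.7106 * v - π * (8 / 3 + 0.5835 * (1 + V)) -
      1.54 * (1 - v) := by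
    have h1v : 0 < 1 - v := by linarith
    have key : 0 ≤ (1.9042 - 0.3427 * V - 0.7106 * v - π * (8 / 3 + 0.5835 * (1 + V)) -
        1.54 * (1 - v)) * (1 - v) := by
      have e2 : (1.9042 - 0.3427 * V - 0.7106 * v - π * (8 / 3 + 0.5835 * (1 + V)) -
        1.54 * (1 - v)) * (1 - v) = (0.3642 + 0.8294 * v) * (1 - v) - 0.3427 -
          π * ((8 / 3 + 0.5835) * (1 - v) + 0.5835) := by
        linear_combination (-0.3427 - 0.5835 * π) * hV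
      rw [e2]
      have h5 : 0 ≤ (8 / 3 + 0.5835) * (1 - v) + 0.5835 := by nlinarith
      rcases le_total v 0.32 with h | h
      · have h6 := mul_le_mul_of_nonneg_right hpi1 h5
        have h7 : 0 ≤ v ^ 2 * (0.32 - v) := mul_nonneg (sq_nonneg v) (by linarith)
        have h8 : 0 ≤ v * (0.32 - v) := mul_nonneg hv0 (by linarith)
        nlinarith
      · have h6 := mul_le_mul_of_nonneg_right hpi2 h5
        have h8 : 0 ≤ (v - 0.32) * (0.55 - v) := mul_nonneg (by linarith) (by linarith)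
        have h9 : 0 ≤ (v - 0.32) ^ 2 * (0.55 - v) := mul_nonneg (sq_nonneg _) (by linarith)
        nlinarith
    by_contra hcon
    push Not at hcon
    nlinarith
  linarith

end Pool.Agent.H32.Q4
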