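import Mathlib
import Pool.Agent.H32.Q4.N3b
import Pool.Agent.H32.Q4.N3c
import Pool.Agent.H32.Q4.N3d

set_option autoImplicit false

/-! Steklov problem on quadrilaterals, near part 3f: separation of the terms in `x y`. -/

namespace Pool.Agent.H32.Q4

variable {a b c x y s p ds dp : ℝ}
variable {T p0 q0 r0 s0 m n1 n2 n3 al be et k0 K1 K2 K3 C0 C1 : ℝ}

/-- N3f. Proof: N3b, N3c, N3d; `|κ| = xy|c|`, so
`|κ| M - Γ' c² ≤ π M²/(4Γ')`, then N3e. -/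
theorem CF_le (hab : a * b - c ^ 2 = 1) (ha : 0 < a) (hb : 0 < b) (hle : a ≤ b)
    (hx : 0 ≤ x) (hy : 0 ≤ y)
    (hxy : x + y ≤ 4 / 5) (hu : a + b ≤ 5 / 2) (hv : x ^ 2 + y ^ 2 ≤ 11 / 20)
    (hC : Cst T p0 q0 r0 s0 m n1 n2 n3 al be et k0 K1 K2 K3 C0 C1) {V : ℝ}
    (hV : V * (1 - (x ^ 2 + y ^ 2)) = 1) :
    CF p0 q0 r0 s0 m n1 n2 n3 K1 K3 a b c x y V ≤
      19 * (x ^ 2 * y ^ 2) / (19 / 20 - (x ^ 2 + y ^ 2)) := by
  have h1 := Kpi_le hab ha hb hx hy hxy hu hv hC hV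
  have h2 := Kka_le hab ha hb hle hx hy hxy hu hv hC hV
  have h3 := Gac_ge hx hy hxy hu hv hC hV
  have hv0 : 0 ≤ x ^ 2 + y ^ 2 := by positivity
  have h4 := cf_poly hv0 hv hV
  have hpi0 : 0 ≤ x ^ 2 * y ^ 2 := by positivity
  have hk : |x * y * c| = x * y * |c| := by
    rw [abs_mul, abs_of_nonneg (mul_nonneg hx hy)]
  have hc2 : c ^ 2 = |c| ^ 2 := (sq_abs c).symm
  have h5 := mul_le_mul_of_nonneg_right h1 hpi0
  have h6 := mul_le_mul_of_nonneg_right h3 (sq_nonneg c)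
  have h7 := mul_le_mul_of_nonneg_right h4 hpi0
  have h1v : 0 < 1 - (x ^ 2 + y ^ 2) := by linarith
  have h8 : |x * y * c| * (5.79 + 3.82 * (x ^ 2 + y ^ 2)) -
      1.54 * (1 - (x ^ 2 + y ^ 2)) * c ^ 2 ≤
      (5.79 + 3.82 * (x ^ 2 + y ^ 2)) ^ 2 / (6.16 * (1 - (x ^ 2 + y ^ 2))) * (x ^ 2 * y ^ 2) := by
    rw [hk, hc2]
    generalize x ^ 2 + y ^ 2 = v at *
    have e1 : (5.79 + 3.82 * v) ^ 2 / (6.16 * (1 - v)) * (x ^ 2 * y ^ 2) =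
        (x * y * (5.79 + 3.82 * v)) ^ 2 / (6.16 * (1 - v)) := by
      rw [div_mul_eq_mul_div]
      congr 1
      ring
    rw [e1, le_div_iff₀ (by linarith)]
    nlinarith [sq_nonneg (x * y * (5.79 + 3.82 * v) - 3.08 * (1 - v) * |c|)]
  have h9 : 19 * (x ^ 2 * y ^ 2) / (19 / 20 - (x ^ 2 + y ^ 2)) =
      7.41 / (19 / 20 - (x ^ 2 + y ^ 2)) * (x ^ 2 * y ^ 2) +
        11.59 / (19 / 20 - (x ^ 2 + y ^ 2)) * (x ^ 2 * y ^ 2) := by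
    rw [← add_mul, ← add_div, div_mul_eq_mul_div]
    norm_num
  rw [h9]
  unfold CF
  linarith

end Pool.Agent.H32.Q4
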