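import Mathlib
import Pool.Agent.H32.Q4.N3

set_option autoImplicit false

/-! Steklov problem on quadrilaterals, near part 4: the two-variable inequality. -/

namespace Pool.Agent.H32.Q4

variable {a b c x y s p ds dp : ℝ}
variable {T p0 q0 r0 s0 m n1 n2 n3 al be et k0 K1 K2 K3 C0 C1 : ℝ}

/-- lower bound of `G1` in terms of `t` (`t + 1/t = a + b`) and `v` -/
noncomputable def HH (p0 q0 r0 s0 n1 n2 n3 K1 K2 K3 C0 C1 t v V : ℝ) : ℝ :=
  C0 * (t + 1 / t) - (2 * q0 + 2 * r0) * ((t + 1 / t) ^ 2 - 2) -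
    (2 * s0 + (8 * n2 - 4) + 4 * p0) + 2 * q0 / t ^ 2 -
    (13 / 2 - (t + 1 / t)) / 18 * (K1 / 2) * ((t + 1 / t) ^ 2 - 4) -
  V * (2 * q0 / t ^ 2 + (2 * s0 - (8 * n2 - 4))) +
  v * (C1 * t - (2 * p0 - 8 * n1 + 4 + 8 * n3 + 4 / 3) * t ^ 2 - (2 * r0 + 4 / 3) -
    (13 / 2 - (t + 1 / t)) / 18 * ((K1 + K2) / 2 * (1 - t ^ 2) + K3)) -
  v ^ 2 * t ^ 2 * (4 / 3 + (13 / 2 - (t + 1 / t)) / 18 * (K2 / 2))

/-- N4a. existence of `t` (`t = (u - √(u²-4))/2`) and the bounds of `g`: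
`t(g - t v) = (t a - t²) ... `, precisely `y²(a-t) + 2xyc + x²(b-t) ≥ 0` because
`(a-t)(b-t) = c²` and `a, b ≥ t`; similarly `y²(1/t-a) - 2xyc + x²(1/t-b) ≥ 0`,
`(1/t-a)(1/t-b) = c²`. -/
theorem t_exists (ha : 0 < a) (hb : 0 < b) (hab : a * b - c ^ 2 = 1) (hu : a + b ≤ 5 / 2) :
    ∃ t : ℝ, 1 / 2 ≤ t ∧ t ≤ 1 ∧ t + 1 / t = a + b ∧ t * (x ^ 2 + y ^ 2) ≤ gg a b c x y ∧
      gg a b c x y ≤ (x ^ 2 + y ^ 2) / t ∧ b - a ≤ 1 / t - t := by
  have hu2 : 2 ≤ a + b := by nlinarith [sq_nonneg (a - b), sq_nonneg c]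
  have hD : 0 ≤ (a + b) ^ 2 - 4 := by nlinarith
  set r := Real.sqrt ((a + b) ^ 2 - 4) with hr
  have hr0 : 0 ≤ r := Real.sqrt_nonneg _
  have hr2 : r ^ 2 = (a + b) ^ 2 - 4 := Real.sq_sqrt hD
  have hrle : r ≤ a + b - 1 := by
    apply Real.sqrt_le_iff.mpr
    constructor
    · linarith
    · nlinarith
  have hrge : a + b - 2 ≤ r := by
    apply Real.le_sqrt_of_sq_le
    nlinarith
  obtain ⟨t, ht⟩ : ∃ t, t = (a + b - r) / 2 := ⟨_, rfl⟩
  have ht1 : 1 / 2 ≤ t := by rw [ht]; linarith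
  have ht2 : t ≤ 1 := by rw [ht]; linarith
  have ht0 : 0 < t := by linarith
  have hq : t ^ 2 - (a + b) * t + 1 = 0 := by
    rw [ht]; nlinarith
  obtain ⟨w, hw⟩ : ∃ w, w = 1 / t := ⟨_, rfl⟩
  have hwt : w * t = 1 := by rw [hw]; field_simp
  have hw1 : 1 ≤ w := by nlinarith
  have hsum : t + w = a + b := by
    have h1 : t * (t + w) = t * (a + b) := by nlinarith
    exact mul_left_cancel₀ ht0.ne' h1
  have key : ∀ A B k : ℝ, 0 ≤ A + B → A * B = k ^ 2 → 0 ≤ A ∧ 0 ≤ B ∧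
      0 ≤ y ^ 2 * A + 2 * x * y * k + x ^ 2 * B := by
    intro A B k h1 h2
    have hA : 0 ≤ A := by
      by_contra hA
      push Not at hA
      have hB : 0 < B := by linarith
      nlinarith [sq_nonneg k]
    have hB : 0 ≤ B := by
      by_contra hB
      push Not at hB
      have hA : 0 < A := by linarith
      nlinarith [sq_nonneg k]
    refine ⟨hA, hB, ?_⟩
    rcases eq_or_lt_of_le h1 with h3 | h3
    · have hA0 : A = 0 := by linarith
      have hB0 : B = 0 := by linarith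
      have hk0 : k = 0 := by
        rw [hA0, zero_mul] at h2
        exact pow_eq_zero_iff two_ne_zero |>.mp h2.symm
      rw [hA0, hB0, hk0]; simp
    · have h4 : 0 ≤ (A + B) * (y ^ 2 * A + 2 * x * y * k + x ^ 2 * B) := by
        have h5 : (A + B) * (y ^ 2 * A + 2 * x * y * k + x ^ 2 * B) =
            (y * A + x * k) ^ 2 + (y * k + x * B) ^ 2 := by
          linear_combination (x ^ 2 + y ^ 2) * h2
        rw [h5]; positivity
      exact nonneg_of_mul_nonneg_right h4 h3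
  obtain ⟨hA1, hB1, hG1⟩ := key (a - t) (b - t) c (by linarith)
    (by nlinarith)
  obtain ⟨hA2, hB2, hG2⟩ := key (w - a) (w - b) (-c) (by linarith)
    (by
      have h1 : w * (t + w) = w * (a + b) := by rw [hsum]
      nlinarith)
  refine ⟨t, ht1, ht2, by rw [← hw]; exact hsum, ?_, ?_, ?_⟩
  · unfold gg; nlinarith
  · have h2 : (x ^ 2 + y ^ 2) / t = w * (x ^ 2 + y ^ 2) := by
      rw [hw]; field_simp
    rw [h2]
    unfold gg; nlinarith
  · rw [← hw]; linarith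

end Pool.Agent.H32.Q4
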