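import Mathlib
import Pool.Agent.H32.Q4.N4

set_option autoImplicit false

/-! Steklov problem on quadrilaterals, near part 4b: the two-variable inequality. -/

namespace Pool.Agent.H32.Q4

variable {a b c x y s p ds dp : ℝ}
variable {T p0 q0 r0 s0 m n1 n2 n3 al be et k0 K1 K2 K3 C0 C1 : ℝ}

/-- N4b. `G1` is concave in `g` and decreasing in `d`; at `d = 1/t - t`, `g = t v` it equals `HH`
(use `V v = V - 1`), and
`G1(g) - G1(t v) ≥ (g - tv) (C1 - A3 u + 2 q0 V u - (4/3) (g+tv) -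
fQ (K2/2 (g + tv) + (K1+K2)/2 d))` with `g + t v ≤ u v ≤ (5/2)(11/20)`. -/
theorem G1_ge {t g d v V : ℝ} (ht : 1 / 2 ≤ t) (ht1 : t ≤ 1) (hv : 0 ≤ v) (hv1 : v ≤ 11 / 20)
    (hV : V * (1 - v) = 1) (hg1 : t * v ≤ g) (hg2 : g ≤ v / t) (hd : d ≤ 1 / t - t)
    (hC : Cst T p0 q0 r0 s0 m n1 n2 n3 al be et k0 K1 K2 K3 C0 C1) :
    HH p0 q0 r0 s0 n1 n2 n3 K1 K2 K3 C0 C1 t v V ≤
      G1 p0 q0 r0 s0 n1 n2 n3 K1 K2 K3 C0 C1 (t + 1 / t) v g d V := by
  have ht0 : 0 < t := by linarith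
  obtain ⟨w, hw⟩ : ∃ w, w = 1 / t := ⟨_, rfl⟩
  have hwt : w * t = 1 := by rw [hw]; field_simp
  have hw1 : 1 ≤ w := by nlinarith
  have hw2 : w ≤ 2 := by nlinarith
  have hq : 2 * q0 / t ^ 2 = 2 * q0 * w ^ 2 := by rw [hw]; field_simp
  have hg2' : g ≤ v * w := by
    have : v / t = v * w := by rw [hw]; field_simp
    linarith
  rw [← hw] at hd ⊢
  -- bounds for `u = t + w`
  have hu2 : t + w ≤ 5 / 2 := by nlinarith
  have hu1 : 2 ≤ t + w := by nlinarith [sq_nonneg (w - t)]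
  have hVp : 0 < V := by
    by_contra hc
    push Not at hc
    nlinarith
  have hq0 : 0 ≤ q0 := by have := hC.q1; linarith
  have hG : g + t * v ≤ 11 / 20 * (t + w) := by nlinarith
  have hG0 : 0 ≤ g + t * v := by nlinarith
  have hg0 : 0 ≤ g := by nlinarith
  have hK1 := hC.K11
  have hK1' := hC.K12
  have hK2 := hC.K21
  have hK2' := hC.K22
  have hC1 := hC.C11
  have hp := hC.p2
  have hn1 := hC.en1
  have hn2 := hC.n21
  have hn3 := hC.n32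
  obtain ⟨A3, hA3⟩ : ∃ A3, A3 = 2 * p0 - 8 * n1 + 4 + 8 * n3 + 4 / 3 := ⟨_, rfl⟩
  have hA3' : A3 ≤ 2.616 := by rw [hA3, hn1]; linarith
  obtain ⟨f, hf⟩ : ∃ f, f = (13 / 2 - (t + w)) / 18 := ⟨_, rfl⟩
  have hf0 : 0 ≤ f := by rw [hf]; linarith
  obtain ⟨B, hB⟩ : ∃ B, B = C1 + 2 * q0 * V * (t + w) - A3 * (t + w) - 4 / 3 * (g + t * v) -
    f * (K2 / 2 * (g + t * v) + (K1 + K2) / 2 * (w - t)) := ⟨_, rfl⟩
  have hB0 : 0 ≤ B := by
    have h1 : 0 ≤ 2 * q0 * V * (t + w) := by positivity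
    have h2 : A3 * (t + w) ≤ 2.616 * (t + w) := mul_le_mul_of_nonneg_right hA3' (by linarith)
    have h3 : K2 / 2 * (g + t * v) ≤ 2.552 * (t + w) := by
      have h4 : K2 / 2 * (g + t * v) ≤ 4.64 * (g + t * v) :=
        mul_le_mul_of_nonneg_right (by linarith) hG0
      linarith
    have h5 : (K1 + K2) / 2 * (w - t) ≤ 8.38 := by
      have h6 : w - t ≤ 3 / 2 := by linarith
      have h7 : (K1 + K2) / 2 * (w - t) ≤ (K1 + K2) / 2 * (3 / 2) :=
        mul_le_mul_of_nonneg_left h6 (by linarith)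
      linarith
    have h8 : f * (K2 / 2 * (g + t * v) + (K1 + K2) / 2 * (w - t)) ≤
        f * (2.552 * (t + w) + 8.38) := mul_le_mul_of_nonneg_left (by linarith) hf0
    have h9 : f * (2.552 * (t + w) + 8.38) ≤ 11.85 - 2.616 * (t + w) - 4 / 3 * (11 / 20 * (t + w)) := by
      rw [hf]
      nlinarith [mul_nonneg (sub_nonneg.mpr hu1) (sub_nonneg.mpr hu2)]
    rw [hB]
    linarith
  have key : G1 p0 q0 r0 s0 n1 n2 n3 K1 K2 K3 C0 C1 (t + w) v g d V -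
      HH p0 q0 r0 s0 n1 n2 n3 K1 K2 K3 C0 C1 t v V =
      (g - t * v) * B + f * ((K1 + K2) / 2) * ((w - t - d) * g) := by
    unfold G1 HH
    rw [← hw, hq, hB, hA3, hf]
    linear_combination (-2 * q0 * V * v - (2 * p0 - 8 * n1 + 4 + 8 * n3 + 4 / 3) * v -
      (13 / 2 - (t + w)) / 18 * ((K1 + K2) / 2) * v) * hwt + 2 * q0 * w ^ 2 * hV
  have h1 : 0 ≤ (g - t * v) * B := mul_nonneg (by linarith) hB0
  have h2 : 0 ≤ f * ((K1 + K2) / 2) * ((w - t - d) * g) := by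
    have h3 : 0 ≤ (K1 + K2) / 2 := by linarith
    have h4 : 0 ≤ w - t - d := by linarith
    positivity
  linarith

end Pool.Agent.H32.Q4
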