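import Mathlib
import Pool.Agent.H32.Q4.N4

set_option autoImplicit false

/-! Steklov problem on quadrilaterals, near part 4c: the two-variable inequality. -/

namespace Pool.Agent.H32.Q4

variable {a b c x y s p ds dp : ℝ}
variable {T p0 q0 r0 s0 m n1 n2 n3 al be et k0 K1 K2 K3 C0 C1 : ℝ}

/-- N4c. `HH(t,0) = (u-2)(C0 - (2q0+2r0)(u+2) - (K1/2)(u+2)(6.5-u)/18)` (uses
`C0 = 2(p0+q0+r0+s0)`), `(u+2)(6.5-u)/18 ≤ 1.0035`. -/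
theorem HH0 {t : ℝ} (ht : 1 / 2 ≤ t) (ht1 : t ≤ 1)
    (hC : Cst T p0 q0 r0 s0 m n1 n2 n3 al be et k0 K1 K2 K3 C0 C1) :
    1.57 * (t + 1 / t - 2) ≤ HH p0 q0 r0 s0 n1 n2 n3 K1 K2 K3 C0 C1 t 0 1 := by
  have ht0 : 0 < t := by linarith
  have e1 : t + 1 / t - 2 = (1 - t) ^ 2 / t := by field_simp; ring
  have e2 : 5 / 2 - (t + 1 / t) = (t - 1 / 2) * (2 - t) / t := by field_simp; ring
  have hu2 : 0 ≤ t + 1 / t - 2 := by rw [e1]; positivity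
  have hu3 : 0 ≤ 5 / 2 - (t + 1 / t) := by
    rw [e2]
    exact div_nonneg (mul_nonneg (by linarith) (by linarith)) ht0.le
  have key : HH p0 q0 r0 s0 n1 n2 n3 K1 K2 K3 C0 C1 t 0 1 = (t + 1 / t - 2) *
      (2 * (p0 + q0 + r0 + s0) - (t + 1 / t + 2) * (2 * q0 + 2 * r0) -
        (t + 1 / t + 2) * (13 / 2 - (t + 1 / t)) / 18 * (K1 / 2)) := by
    unfold HH
    rw [hC.eC]
    ring
  rw [key, mul_comm (1.57 : ℝ)]
  apply mul_le_mul_of_nonneg_left _ hu2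
  set u := t + 1 / t with hu
  clear_value u
  have h1 : (u + 2) * (13 / 2 - u) ≤ 18.0625 := by nlinarith [sq_nonneg (u - 9 / 4)]
  have h2 : (u + 2) * (13 / 2 - u) / 18 * (K1 / 2) ≤ 18.0625 / 18 * (K1 / 2) := by
    have := hC.K11
    apply mul_le_mul_of_nonneg_right _ (by linarith)
    linarith
  have h3 : (u + 2) * (2 * q0 + 2 * r0) ≤ 9 / 2 * (2 * q0 + 2 * r0) := by
    have := hC.q1
    have := hC.r1
    apply mul_le_mul_of_nonneg_right _ (by linarith)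
    linarith
  have := hC.K12
  have := hC.q1
  have := hC.q2
  have := hC.r1
  have := hC.r2
  have := hC.p1
  have := hC.s1
  linarith

/-- N4d. one-variable inequality (min over `t ∈ [1/2,1]` is `.79914`) -/
theorem HH32 {t : ℝ} (ht : 1 / 2 ≤ t) (ht1 : t ≤ 1)
    (hC : Cst T p0 q0 r0 s0 m n1 n2 n3 al be et k0 K1 K2 K3 C0 C1) :
    0.798 ≤ HH p0 q0 r0 s0 n1 n2 n3 K1 K2 K3 C0 C1 t (8 / 25) (25 / 17) := by
  have ht0 : 0 < t := by linarith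
  have hs : 0 ≤ t - 1 / 2 := by linarith
  have hr : 0 ≤ 1 - t := by linarith
  have g_p0a : 0 ≤ (p0 - 0.63794) * (2 * t ^ 2 * (1 - t) ^ 2) := mul_nonneg (sub_nonneg.mpr hC.p1) (by positivity)
  have g_p0b : 0 ≤ (0.63797 - p0) * ((16/25) * t ^ 5) := mul_nonneg (sub_nonneg.mpr hC.p2) (by positivity)
  have g_q0 : 0 ≤ (0.06874 - q0) * ((50/17) * t + (-2) * t ^ 2 + (-2) * t ^ 4 + 2 * t ^ 5) := by
    refine mul_nonneg (sub_nonneg.mpr hC.q2) ?_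
    have e : (50/17) * t + (-2) * t ^ 2 + (-2) * t ^ 4 + 2 * t ^ 5 = (494/17) * (1 - t) ^ 5 + (2624/17) * (t - 1 / 2) ^ 1 * (1 - t) ^ 4 + (5216/17) * (t - 1 / 2) ^ 2 * (1 - t) ^ 3 + (4912/17) * (t - 1 / 2) ^ 3 * (1 - t) ^ 2 + (2304/17) * (t - 1 / 2) ^ 4 * (1 - t) ^ 1 + (512/17) * (t - 1 / 2) ^ 5 := by ring
    rw [e]; positivity
  have g_r0 : 0 ≤ (0.08199 - r0) * (2 * t + (-2) * t ^ 2 + (16/25) * t ^ 3 + (-2) * t ^ 4 + 2 * t ^ 5) := by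
    refine mul_nonneg (sub_nonneg.mpr hC.r2) ?_
    have e : 2 * t + (-2) * t ^ 2 + (16/25) * t ^ 3 + (-2) * t ^ 4 + 2 * t ^ 5 = (414/25) * (1 - t) ^ 5 + (2112/25) * (t - 1 / 2) ^ 1 * (1 - t) ^ 4 + 160 * (t - 1 / 2) ^ 2 * (1 - t) ^ 3 + (3632/25) * (t - 1 / 2) ^ 3 * (1 - t) ^ 2 + (1792/25) * (t - 1 / 2) ^ 4 * (1 - t) ^ 1 + (512/25) * (t - 1 / 2) ^ 5 := by ring
    rw [e]; positivity
  have g_s0a : 0 ≤ (s0 - 1.15119) * (2 * (t ^ 4 + t ^ 2)) := mul_nonneg (sub_nonneg.mpr hC.s1) (by positivity)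
  have g_s0b : 0 ≤ (1.15121 - s0) * ((84/17) * t ^ 3) := mul_nonneg (sub_nonneg.mpr hC.s2) (by positivity)
  have g_n2 : 0 ≤ (n2 - 0.72779) * ((64/17) * t ^ 3 + (64/25) * t ^ 5) := by
    refine mul_nonneg (sub_nonneg.mpr hC.n21) ?_
    have e : (64/17) * t ^ 3 + (64/25) * t ^ 5 = (7488/425) * (1 - t) ^ 5 + (12416/85) * (t - 1 / 2) ^ 1 * (1 - t) ^ 4 + (40704/85) * (t - 1 / 2) ^ 2 * (1 - t) ^ 3 + (66048/85) * (t - 1 / 2) ^ 3 * (1 - t) ^ 2 + (53248/85) * (t - 1 / 2) ^ 4 * (1 - t) ^ 1 + (86016/425) * (t - 1 / 2) ^ 5 := by ring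
    rw [e]; positivity
  have g_n3 : 0 ≤ (0.11426 - n3) * ((128/25) * t ^ 5) := by
    refine mul_nonneg (sub_nonneg.mpr hC.n32) ?_
    have e : (128/25) * t ^ 5 = (128/25) * (1 - t) ^ 5 + (256/5) * (t - 1 / 2) ^ 1 * (1 - t) ^ 4 + (1024/5) * (t - 1 / 2) ^ 2 * (1 - t) ^ 3 + (2048/5) * (t - 1 / 2) ^ 3 * (1 - t) ^ 2 + (2048/5) * (t - 1 / 2) ^ 4 * (1 - t) ^ 1 + (4096/25) * (t - 1 / 2) ^ 5 := by ring
    rw [e]; positivity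
  have g_K1 : 0 ≤ (1.89406 - K1) * ((-1/36) + (13/72) * t + (17/900) * t ^ 2 + (-91/300) * t ^ 3 + (1/36) * t ^ 4 + (221/1800) * t ^ 5 + (-17/900) * t ^ 6) := by
    refine mul_nonneg (sub_nonneg.mpr hC.K12) ?_
    have e : (-1/36) + (13/72) * t + (17/900) * t ^ 2 + (-91/300) * t ^ 3 + (1/36) * t ^ 4 + (221/1800) * t ^ 5 + (-17/900) * t ^ 6 = (166/75) * (1 - t) ^ 6 + (12547/900) * (t - 1 / 2) ^ 1 * (1 - t) ^ 5 + (971/30) * (t - 1 / 2) ^ 2 * (1 - t) ^ 4 + (7744/225) * (t - 1 / 2) ^ 3 * (1 - t) ^ 3 + (408/25) * (t - 1 / 2) ^ 4 * (1 - t) ^ 2 + (64/25) * (t - 1 / 2) ^ 5 * (1 - t) ^ 1 := by ring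
    rw [e]; positivity
  have g_K2 : 0 ≤ (9.27272 - K2) * ((-2/225) * t ^ 2 + (13/225) * t ^ 3 + (-16/5625) * t ^ 4 + (-221/5625) * t ^ 5 + (34/5625) * t ^ 6) := by
    refine mul_nonneg (sub_nonneg.mpr hC.K22) ?_
    have e : (-2/225) * t ^ 2 + (13/225) * t ^ 3 + (-16/5625) * t ^ 4 + (-221/5625) * t ^ 5 + (34/5625) * t ^ 6 = (1328/5625) * (1 - t) ^ 6 + (11906/5625) * (t - 1 / 2) ^ 1 * (1 - t) ^ 5 + (42316/5625) * (t - 1 / 2) ^ 2 * (1 - t) ^ 4 + (75368/5625) * (t - 1 / 2) ^ 3 * (1 - t) ^ 3 + (69584/5625) * (t - 1 / 2) ^ 4 * (1 - t) ^ 2 + (3392/625) * (t - 1 / 2) ^ 5 * (1 - t) ^ 1 + (512/625) * (t - 1 / 2) ^ 6 := by ring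
    rw [e]; positivity
  have g_K3 : 0 ≤ (4.75715 - K3) * ((-4/225) * t ^ 2 + (26/225) * t ^ 3 + (-4/225) * t ^ 4) := by
    refine mul_nonneg (sub_nonneg.mpr hC.K32) ?_
    have e : (-4/225) * t ^ 2 + (26/225) * t ^ 3 + (-4/225) * t ^ 4 = (32/225) * (1 - t) ^ 4 + (236/225) * (t - 1 / 2) ^ 1 * (1 - t) ^ 3 + (632/225) * (t - 1 / 2) ^ 2 * (1 - t) ^ 2 + (16/5) * (t - 1 / 2) ^ 3 * (1 - t) ^ 1 + (32/25) * (t - 1 / 2) ^ 4 := by ring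
    rw [e]; positivity
  have g_C1 : 0 ≤ (C1 - 11.85688) * ((8/25) * t ^ 4) := by
    refine mul_nonneg (sub_nonneg.mpr hC.C11) ?_
    have e : (8/25) * t ^ 4 = (8/25) * (1 - t) ^ 4 + (64/25) * (t - 1 / 2) ^ 1 * (1 - t) ^ 3 + (192/25) * (t - 1 / 2) ^ 2 * (1 - t) ^ 2 + (256/25) * (t - 1 / 2) ^ 3 * (1 - t) ^ 1 + (128/25) * (t - 1 / 2) ^ 4 := by ring
    rw [e]; positivity
  have hP : 0 ≤ (94703/1800000) + (-43338139/61200000) * t + (180492257/45000000) * t ^ 2 + (-155900377/17000000) * t ^ 3 + (2899596043/375000000) * t ^ 4 + (-285765803/250000000) * t ^ 5 + (-2533969/125000000) * t ^ 6 := by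
    have e : (94703/1800000) + (-43338139/61200000) * t + (180492257/45000000) * t ^ 2 + (-155900377/17000000) * t ^ 3 + (2899596043/375000000) * t ^ 4 + (-285765803/250000000) * t ^ 5 + (-2533969/125000000) * t ^ 6 = (t - (1103/2000)) ^ 2 * ((48458746026563553744983/3825000000000000000000) * (1 - t) ^ 4 + (78065990305616062427183/956250000000000000000) * (t - 1 / 2) ^ 1 * (1 - t) ^ 3 + (7034882416731083518199/37500000000000000000) * (t - 1 / 2) ^ 2 * (1 - t) ^ 2 + (170733367511203525891583/956250000000000000000) * (t - 1 / 2) ^ 3 * (1 - t) ^ 1 + (229103139282744280673783/3825000000000000000000) * (t - 1 / 2) ^ 4) + ((6522538201395752773158451/40800000000000000000000000000) * (1 - t) ^ 1 + (57650389350135690449378051/40800000000000000000000000000) * (t - 1 / 2) ^ 1) := by ring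
    rw [e]; positivity
  have key : t ^ 3 * (HH p0 q0 r0 s0 n1 n2 n3 K1 K2 K3 C0 C1 t (8 / 25) (25 / 17) - 0.798) =
      t ^ 3 * (-0.798) + 2 * (p0 + q0 + r0 + s0) * (t ^ 4 + t ^ 2) - (2 * q0 + 2 * r0) * (t ^ 5 + t) -
      (2 * s0 + (8 * n2 - 4) + 4 * p0) * t ^ 3 + 2 * q0 * t -
      (13 / 2 * t - t ^ 2 - 1) / 18 * (K1 / 2) * (t ^ 2 - 1) ^ 2 -
      (25 / 17) * (2 * q0 * t + (2 * s0 - (8 * n2 - 4)) * t ^ 3) +
      (8 / 25) * (C1 * t ^ 4 - (2 * p0 - 8 * (n2 - n3) + 4 + 8 * n3 + 4 / 3) * t ^ 5 - (2 * r0 + 4 / 3) * t ^ 3 -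
        (13 / 2 * t - t ^ 2 - 1) * t ^ 2 / 18 * ((K1 + K2) / 2 * (1 - t ^ 2) + K3)) -
      (8 / 25) ^ 2 * t ^ 5 * (4 / 3) - (8 / 25) ^ 2 * (13 / 2 * t - t ^ 2 - 1) * t ^ 4 / 18 * (K2 / 2) := by
    unfold HH
    rw [hC.eC, hC.en1]
    field_simp
    ring
  have h3 : 0 ≤ t ^ 3 * (HH p0 q0 r0 s0 n1 n2 n3 K1 K2 K3 C0 C1 t (8 / 25) (25 / 17) - 0.798) := by
    rw [key]
    linarith [g_p0a, g_p0b, g_q0, g_r0, g_s0a, g_s0b, g_n2, g_n3, g_K1, g_K2, g_K3, g_C1, hP]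
  have h4 : 0 < t ^ 3 := by positivity
  have h5 := nonneg_of_mul_nonneg_right h3 h4
  linarith

/-- N4e. one-variable inequality (min over `t ∈ [1/2,1]` is `.335`) -/
theorem HH55 {t : ℝ} (ht : 1 / 2 ≤ t) (ht1 : t ≤ 1)
    (hC : Cst T p0 q0 r0 s0 m n1 n2 n3 al be et k0 K1 K2 K3 C0 C1) :
    0.33 ≤ HH p0 q0 r0 s0 n1 n2 n3 K1 K2 K3 C0 C1 t (11 / 20) (20 / 9) := by
  have ht0 : 0 < t := by linarith
  have hs : 0 ≤ t - 1 / 2 := by linarith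
  have hr : 0 ≤ 1 - t := by linarith
  have g_p0a : 0 ≤ (p0 - 0.63794) * (2 * t ^ 2 * (1 - t) ^ 2) := mul_nonneg (sub_nonneg.mpr hC.p1) (by positivity)
  have g_p0b : 0 ≤ (0.63797 - p0) * ((11/10) * t ^ 5) := mul_nonneg (sub_nonneg.mpr hC.p2) (by positivity)
  have g_q0 : 0 ≤ (0.06874 - q0) * ((40/9) * t + (-2) * t ^ 2 + (-2) * t ^ 4 + 2 * t ^ 5) := by
    refine mul_nonneg (sub_nonneg.mpr hC.q2) ?_
    have e : (40/9) * t + (-2) * t ^ 2 + (-2) * t ^ 4 + 2 * t ^ 5 = (478/9) * (1 - t) ^ 5 + (896/3) * (t - 1 / 2) ^ 1 * (1 - t) ^ 4 + (5792/9) * (t - 1 / 2) ^ 2 * (1 - t) ^ 3 + (6064/9) * (t - 1 / 2) ^ 3 * (1 - t) ^ 2 + 352 * (t - 1 / 2) ^ 4 * (1 - t) ^ 1 + (704/9) * (t - 1 / 2) ^ 5 := by ring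
    rw [e]; positivity
  have g_r0 : 0 ≤ (0.08199 - r0) * (2 * t + (-2) * t ^ 2 + (11/10) * t ^ 3 + (-2) * t ^ 4 + 2 * t ^ 5) := by
    refine mul_nonneg (sub_nonneg.mpr hC.r2) ?_
    have e : 2 * t + (-2) * t ^ 2 + (11/10) * t ^ 3 + (-2) * t ^ 4 + 2 * t ^ 5 = (92/5) * (1 - t) ^ 5 + (496/5) * (t - 1 / 2) ^ 1 * (1 - t) ^ 4 + 206 * (t - 1 / 2) ^ 2 * (1 - t) ^ 3 + (1076/5) * (t - 1 / 2) ^ 3 * (1 - t) ^ 2 + (616/5) * (t - 1 / 2) ^ 4 * (1 - t) ^ 1 + (176/5) * (t - 1 / 2) ^ 5 := by ring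
    rw [e]; positivity
  have g_s0a : 0 ≤ (s0 - 1.15119) * (2 * (t ^ 4 + t ^ 2)) := mul_nonneg (sub_nonneg.mpr hC.s1) (by positivity)
  have g_s0b : 0 ≤ (1.15121 - s0) * ((58/9) * t ^ 3) := mul_nonneg (sub_nonneg.mpr hC.s2) (by positivity)
  have g_n2 : 0 ≤ (n2 - 0.72779) * ((88/9) * t ^ 3 + (22/5) * t ^ 5) := by
    refine mul_nonneg (sub_nonneg.mpr hC.n21) ?_
    have e : (88/9) * t ^ 3 + (22/5) * t ^ 5 = (1958/45) * (1 - t) ^ 5 + (3212/9) * (t - 1 / 2) ^ 1 * (1 - t) ^ 4 + (10384/9) * (t - 1 / 2) ^ 2 * (1 - t) ^ 3 + (16544/9) * (t - 1 / 2) ^ 3 * (1 - t) ^ 2 + (13024/9) * (t - 1 / 2) ^ 4 * (1 - t) ^ 1 + (20416/45) * (t - 1 / 2) ^ 5 := by ring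
    rw [e]; positivity
  have g_n3 : 0 ≤ (0.11426 - n3) * ((44/5) * t ^ 5) := by
    refine mul_nonneg (sub_nonneg.mpr hC.n32) ?_
    have e : (44/5) * t ^ 5 = (44/5) * (1 - t) ^ 5 + 88 * (t - 1 / 2) ^ 1 * (1 - t) ^ 4 + 352 * (t - 1 / 2) ^ 2 * (1 - t) ^ 3 + 704 * (t - 1 / 2) ^ 3 * (1 - t) ^ 2 + 704 * (t - 1 / 2) ^ 4 * (1 - t) ^ 1 + (1408/5) * (t - 1 / 2) ^ 5 := by ring
    rw [e]; positivity
  have g_K1 : 0 ≤ (1.89406 - K1) * ((-1/36) + (13/72) * t + (1/80) * t ^ 2 + (-377/1440) * t ^ 3 + (1/36) * t ^ 4 + (13/160) * t ^ 5 + (-1/80) * t ^ 6) := by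
    refine mul_nonneg (sub_nonneg.mpr hC.K12) ?_
    have e : (-1/36) + (13/72) * t + (1/80) * t ^ 2 + (-377/1440) * t ^ 3 + (1/36) * t ^ 4 + (13/160) * t ^ 5 + (-1/80) * t ^ 6 = (71/30) * (1 - t) ^ 6 + (10999/720) * (t - 1 / 2) ^ 1 * (1 - t) ^ 5 + (2657/72) * (t - 1 / 2) ^ 2 * (1 - t) ^ 4 + (7543/180) * (t - 1 / 2) ^ 3 * (1 - t) ^ 3 + (223/10) * (t - 1 / 2) ^ 4 * (1 - t) ^ 2 + (22/5) * (t - 1 / 2) ^ 5 * (1 - t) ^ 1 := by ring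
    rw [e]; positivity
  have g_K2 : 0 ≤ (9.27272 - K2) * ((-11/720) * t ^ 2 + (143/1440) * t ^ 3 + (-121/14400) * t ^ 4 + (-143/3200) * t ^ 5 + (11/1600) * t ^ 6) := by
    refine mul_nonneg (sub_nonneg.mpr hC.K22) ?_
    have e : (-11/720) * t ^ 2 + (143/1440) * t ^ 3 + (-121/14400) * t ^ 4 + (-143/3200) * t ^ 5 + (11/1600) * t ^ 6 = (781/1800) * (1 - t) ^ 6 + (18997/4800) * (t - 1 / 2) ^ 1 * (1 - t) ^ 5 + (103873/7200) * (t - 1 / 2) ^ 2 * (1 - t) ^ 4 + (16027/600) * (t - 1 / 2) ^ 3 * (1 - t) ^ 3 + (23639/900) * (t - 1 / 2) ^ 4 * (1 - t) ^ 2 + (1287/100) * (t - 1 / 2) ^ 5 * (1 - t) ^ 1 + (121/50) * (t - 1 / 2) ^ 6 := by ring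
    rw [e]; positivity
  have g_K3 : 0 ≤ (4.75715 - K3) * ((-11/360) * t ^ 2 + (143/720) * t ^ 3 + (-11/360) * t ^ 4) := by
    refine mul_nonneg (sub_nonneg.mpr hC.K32) ?_
    have e : (-11/360) * t ^ 2 + (143/720) * t ^ 3 + (-11/360) * t ^ 4 = (11/45) * (1 - t) ^ 4 + (649/360) * (t - 1 / 2) ^ 1 * (1 - t) ^ 3 + (869/180) * (t - 1 / 2) ^ 2 * (1 - t) ^ 2 + (11/2) * (t - 1 / 2) ^ 3 * (1 - t) ^ 1 + (11/5) * (t - 1 / 2) ^ 4 := by ring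
    rw [e]; positivity
  have g_C1 : 0 ≤ (C1 - 11.85688) * ((11/20) * t ^ 4) := by
    refine mul_nonneg (sub_nonneg.mpr hC.C11) ?_
    have e : (11/20) * t ^ 4 = (11/20) * (1 - t) ^ 4 + (22/5) * (t - 1 / 2) ^ 1 * (1 - t) ^ 3 + (66/5) * (t - 1 / 2) ^ 2 * (1 - t) ^ 2 + (88/5) * (t - 1 / 2) ^ 3 * (1 - t) ^ 1 + (44/5) * (t - 1 / 2) ^ 4 := by ring
    rw [e]; positivity
  have hP : 0 ≤ (94703/1800000) + (-973769/1200000) * t + (24858409/6000000) * t ^ 2 + (-8213353/800000) * t ^ 3 + (951449867/90000000) * t ^ 4 + (-56478701/30000000) * t ^ 5 + (-200371/5000000) * t ^ 6 := by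
    have e : (94703/1800000) + (-973769/1200000) * t + (24858409/6000000) * t ^ 2 + (-8213353/800000) * t ^ 3 + (951449867/90000000) * t ^ 4 + (-56478701/30000000) * t ^ 5 + (-200371/5000000) * t ^ 6 = (277087/7500000) * (1 - t) ^ 6 + (473042329/45000000) * (t - 1 / 2) ^ 1 * (1 - t) ^ 5 + (1965621817/22500000) * (t - 1 / 2) ^ 2 * (1 - t) ^ 4 + (6606481981/22500000) * (t - 1 / 2) ^ 3 * (1 - t) ^ 3 + (5446396169/11250000) * (t - 1 / 2) ^ 4 * (1 - t) ^ 2 + (2140219919/5625000) * (t - 1 / 2) ^ 5 * (1 - t) ^ 1 + (35329663/312500) * (t - 1 / 2) ^ 6 := by ring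
    rw [e]; positivity
  have key : t ^ 3 * (HH p0 q0 r0 s0 n1 n2 n3 K1 K2 K3 C0 C1 t (11 / 20) (20 / 9) - 0.33) =
      t ^ 3 * (-0.33) + 2 * (p0 + q0 + r0 + s0) * (t ^ 4 + t ^ 2) - (2 * q0 + 2 * r0) * (t ^ 5 + t) -
      (2 * s0 + (8 * n2 - 4) + 4 * p0) * t ^ 3 + 2 * q0 * t -
      (13 / 2 * t - t ^ 2 - 1) / 18 * (K1 / 2) * (t ^ 2 - 1) ^ 2 -
      (20 / 9) * (2 * q0 * t + (2 * s0 - (8 * n2 - 4)) * t ^ 3) +
      (11 / 20) * (C1 * t ^ 4 - (2 * p0 - 8 * (n2 - n3) + 4 + 8 * n3 + 4 / 3) * t ^ 5 - (2 * r0 + 4 / 3) * t ^ 3 -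
        (13 / 2 * t - t ^ 2 - 1) * t ^ 2 / 18 * ((K1 + K2) / 2 * (1 - t ^ 2) + K3)) -
      (11 / 20) ^ 2 * t ^ 5 * (4 / 3) - (11 / 20) ^ 2 * (13 / 2 * t - t ^ 2 - 1) * t ^ 4 / 18 * (K2 / 2) := by
    unfold HH
    rw [hC.eC, hC.en1]
    field_simp
    ring
  have h3 : 0 ≤ t ^ 3 * (HH p0 q0 r0 s0 n1 n2 n3 K1 K2 K3 C0 C1 t (11 / 20) (20 / 9) - 0.33) := by
    rw [key]
    linarith [g_p0a, g_p0b, g_q0, g_r0, g_s0a, g_s0b, g_n2, g_n3, g_K1, g_K2, g_K3, g_C1, hP]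
  have h4 : 0 < t ^ 3 := by positivity
  have h5 := nonneg_of_mul_nonneg_right h3 h4
  linarith

end Pool.Agent.H32.Q4
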