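import Mathlib
import Pool.Agent.H32.Q4.N4

set_option autoImplicit false

/-! Steklov problem on quadrilaterals, near part 4f: the two-variable inequality. -/

namespace Pool.Agent.H32.Q4

variable {a b c x y s p ds dp : ℝ}
variable {T p0 q0 r0 s0 m n1 n2 n3 al be et k0 K1 K2 K3 C0 C1 : ℝ}

/-- N4f. concavity in `v` (`V` convex, coefficients of `V` and `v²` negative):
for `v ∈ [v0, v1]`, `HH(v) ≥` the linear interpolation. -/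
theorem HH_conc {t v v0 v1 V V0 V1 : ℝ} (ht : 1 / 2 ≤ t) (ht1 : t ≤ 1) (h0 : 0 ≤ v0)
    (h01 : v0 < v1) (h1 : v1 < 1) (hv0 : v0 ≤ v) (hv1 : v ≤ v1)
    (hV : V * (1 - v) = 1) (hV0 : V0 * (1 - v0) = 1) (hV1 : V1 * (1 - v1) = 1)
    (hC : Cst T p0 q0 r0 s0 m n1 n2 n3 al be et k0 K1 K2 K3 C0 C1) :
    (v1 - v) / (v1 - v0) * HH p0 q0 r0 s0 n1 n2 n3 K1 K2 K3 C0 C1 t v0 V0 +
      (v - v0) / (v1 - v0) * HH p0 q0 r0 s0 n1 n2 n3 K1 K2 K3 C0 C1 t v1 V1 ≤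
      HH p0 q0 r0 s0 n1 n2 n3 K1 K2 K3 C0 C1 t v V := by
  have hd : 0 < v1 - v0 := by linarith
  have ht0 : 0 < t := by linarith
  obtain ⟨l0, hl0⟩ : ∃ l0, l0 = (v1 - v) / (v1 - v0) := ⟨_, rfl⟩
  obtain ⟨l1, hl1⟩ : ∃ l1, l1 = (v - v0) / (v1 - v0) := ⟨_, rfl⟩
  rw [← hl0, ← hl1]
  have hl0' : l0 * (v1 - v0) = v1 - v := by rw [hl0]; field_simp
  have hl1' : l1 * (v1 - v0) = v - v0 := by rw [hl1]; field_simp
  have hl00 : 0 ≤ l0 := by rw [hl0]; exact div_nonneg (by linarith) hd.le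
  have hl10 : 0 ≤ l1 := by rw [hl1]; exact div_nonneg (by linarith) hd.le
  have hsum : l0 + l1 = 1 := by
    have : (l0 + l1) * (v1 - v0) = 1 * (v1 - v0) := by linarith
    exact mul_right_cancel₀ hd.ne' this
  have hv : l0 * v0 + l1 * v1 = v := by
    have h2 : l0 = 1 - l1 := by linarith
    rw [h2]; linarith
  -- the reciprocals
  have hVp : 0 < V := by
    by_contra hc
    push Not at hc
    nlinarith
  have hV0p : 0 < V0 := by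
    by_contra hc
    push Not at hc
    nlinarith
  have hV1p : 0 < V1 := by
    by_contra hc
    push Not at hc
    nlinarith
  have e0 : V - V0 = (v - v0) * (V * V0) := by
    linear_combination (-V) * hV0 + V0 * hV
  have e1 : V1 - V = (v1 - v) * (V * V1) := by
    linear_combination (-V1) * hV + V * hV1
  have e2 : V1 - V0 = (v1 - v0) * (V0 * V1) := by
    linear_combination (-V1) * hV0 + V0 * hV1
  have hVc : V ≤ l0 * V0 + l1 * V1 := by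
    have h3 : l0 * V0 + l1 * V1 - V = l0 * l1 * (v1 - v0) * V * (V1 - V0) := by
      have h4 : l0 * V0 + l1 * V1 - V = l1 * (V1 - V) - l0 * (V - V0) := by
        linear_combination V * hsum
      rw [h4, e0, e1, ← hl0', ← hl1']
      ring
    have h5 : 0 ≤ V1 - V0 := by rw [e2]; positivity
    have h6 : 0 ≤ l0 * l1 * (v1 - v0) * V * (V1 - V0) := by positivity
    linarith
  have hvc : v ^ 2 ≤ l0 * v0 ^ 2 + l1 * v1 ^ 2 := by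
    have h3 : l0 * v0 ^ 2 + l1 * v1 ^ 2 - v ^ 2 = l0 * l1 * (v1 - v0) ^ 2 := by
      rw [← hv]
      have h2 : l0 = 1 - l1 := by linarith
      rw [h2]; ring
    have h4 : 0 ≤ l0 * l1 * (v1 - v0) ^ 2 := by positivity
    linarith
  -- the coefficients
  obtain ⟨A, hA⟩ : ∃ A, A = 2 * q0 / t ^ 2 + (2 * s0 - (8 * n2 - 4)) := ⟨_, rfl⟩
  have hA0 : 0 ≤ A := by
    have h1 : 0 ≤ 2 * q0 / t ^ 2 := by
      have := hC.q1
      have h0 : 0 ≤ q0 := by linarith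
      positivity
    have h2 := hC.s1
    have h3 := hC.n22
    rw [hA]; linarith
  obtain ⟨C2, hC2⟩ : ∃ C2, C2 = t ^ 2 * (4 / 3 + (13 / 2 - (t + 1 / t)) / 18 * (K2 / 2)) :=
    ⟨_, rfl⟩
  have hC20 : 0 ≤ C2 := by
    have h1 : 1 / t ≤ 2 := by
      rw [div_le_iff₀ ht0]; linarith
    have h2 : 0 ≤ 13 / 2 - (t + 1 / t) := by linarith
    have h3 := hC.K21
    have h4 : 0 ≤ K2 := by linarith
    rw [hC2]; positivity
  obtain ⟨B, hB⟩ : ∃ B, B = C1 * t - (2 * p0 - 8 * n1 + 4 + 8 * n3 + 4 / 3) * t ^ 2 -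
    (2 * r0 + 4 / 3) - (13 / 2 - (t + 1 / t)) / 18 * ((K1 + K2) / 2 * (1 - t ^ 2) + K3) := ⟨_, rfl⟩
  obtain ⟨D, hD⟩ : ∃ D, D = C0 * (t + 1 / t) - (2 * q0 + 2 * r0) * ((t + 1 / t) ^ 2 - 2) -
    (2 * s0 + (8 * n2 - 4) + 4 * p0) + 2 * q0 / t ^ 2 -
    (13 / 2 - (t + 1 / t)) / 18 * (K1 / 2) * ((t + 1 / t) ^ 2 - 4) := ⟨_, rfl⟩
  have hHH : ∀ w W, HH p0 q0 r0 s0 n1 n2 n3 K1 K2 K3 C0 C1 t w W =
      D - W * A + w * B - w ^ 2 * C2 := by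
    intro w W
    unfold HH
    rw [hA, hB, hC2, hD]
    ring
  rw [hHH, hHH, hHH]
  have k1 : 0 ≤ A * (l0 * V0 + l1 * V1 - V) := mul_nonneg hA0 (by linarith)
  have k2 : 0 ≤ C2 * (l0 * v0 ^ 2 + l1 * v1 ^ 2 - v ^ 2) := mul_nonneg hC20 (by linarith)
  have k3 : l0 * (D - V0 * A + v0 * B - v0 ^ 2 * C2) + l1 * (D - V1 * A + v1 * B - v1 ^ 2 * C2) =
      (l0 + l1) * D - A * (l0 * V0 + l1 * V1) + (l0 * v0 + l1 * v1) * B -
        C2 * (l0 * v0 ^ 2 + l1 * v1 ^ 2) := by ring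
  rw [k3, hsum, hv]
  linarith

/-- N4g. `19 x²y²/(.95-v) ≤ 2.45 v` for `v ≤ .32` and `≤ .785 - 2.1 (v-.32)` for `v ≥ .32`;
`2xy ≤ v`, `2xy ≤ .64 - v`. -/
theorem pi_le (hx : 0 ≤ x) (hy : 0 ≤ y) (hxy : x + y ≤ 4 / 5) :
    (x ^ 2 + y ^ 2 ≤ 8 / 25 → 19 * (x ^ 2 * y ^ 2) / (19 / 20 - (x ^ 2 + y ^ 2)) ≤
      2.45 * (x ^ 2 + y ^ 2)) ∧
    (8 / 25 ≤ x ^ 2 + y ^ 2 → x ^ 2 + y ^ 2 ≤ 11 / 20 →
      19 * (x ^ 2 * y ^ 2) / (19 / 20 - (x ^ 2 + y ^ 2)) ≤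
      0.785 - 2.1 * (x ^ 2 + y ^ 2 - 0.32)) := by
  obtain ⟨v, hv⟩ : ∃ v, v = x ^ 2 + y ^ 2 := ⟨_, rfl⟩
  have h1 : 2 * (x * y) ≤ v := by rw [hv]; nlinarith [sq_nonneg (x - y)]
  have h2 : 2 * (x * y) ≤ 16 / 25 - v := by rw [hv]; nlinarith
  have h0 : 0 ≤ x * y := mul_nonneg hx hy
  have hp : x ^ 2 * y ^ 2 = (x * y) ^ 2 := by ring
  rw [← hv, hp]
  obtain ⟨w, hw⟩ : ∃ w, w = x * y := ⟨_, rfl⟩
  rw [← hw]
  have k1 : 0 ≤ v - 2 * w := by rw [hw]; linarith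
  have k2 : 0 ≤ 16 / 25 - v - 2 * w := by rw [hw]; linarith
  have k0 : 0 ≤ w := by rw [hw]; exact h0
  constructor
  · intro h3
    rw [div_le_iff₀ (by linarith)]
    have h4 : w ^ 2 ≤ v ^ 2 / 4 := by nlinarith [mul_nonneg k1 (by linarith : 0 ≤ v + 2 * w)]
    have h5 : 0 ≤ v := by linarith
    nlinarith
  · intro h3 h3'
    rw [div_le_iff₀ (by linarith)]
    have h4 : w ^ 2 ≤ (16 / 25 - v) ^ 2 / 4 := by
      nlinarith [mul_nonneg k2 (by linarith : 0 ≤ 16 / 25 - v + 2 * w)]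
    nlinarith [mul_nonneg (sub_nonneg.mpr h3) (sub_nonneg.mpr h3')]

end Pool.Agent.H32.Q4
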