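import Mathlib
import Pool.Agent.H32.Q4.N3f
import Pool.Agent.H32.Q4.N4b
import Pool.Agent.H32.Q4.N4c
import Pool.Agent.H32.Q4.N4f

set_option autoImplicit false

/-! Steklov problem on quadrilaterals, near part 4h: the two-variable inequality. -/

namespace Pool.Agent.H32.Q4

variable {a b c x y s p ds dp : ℝ}
variable {T p0 q0 r0 s0 m n1 n2 n3 al be et k0 K1 K2 K3 C0 C1 : ℝ}

/-- N4h. combination. -/
theorem Geo.near0 (h : Geo a b c x y s p ds dp) (hx : 0 ≤ x) (hy : 0 ≤ y)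
    (hxy : x + y ≤ 4 / 5) (hle : a ≤ b) (hu : a + b ≤ 5 / 2) (hv : x ^ 2 + y ^ 2 ≤ 11 / 20)
    (hC : Cst T p0 q0 r0 s0 m n1 n2 n3 al be et k0 K1 K2 K3 C0 C1)
    (hne : 2 < a + b ∨ 0 < x ^ 2 + y ^ 2) :
    0 < NEx K1 K2 K3 C0 C1 (Es p0 q0 r0 s0 m n1 n2 n3 a b c x y) a b c x y s p := by
  have ha := h.ha
  have hb := h.hb
  have hab := h.hab
  have hv0 : 0 ≤ x ^ 2 + y ^ 2 := by positivity
  have hv1 : 0 < 1 - (x ^ 2 + y ^ 2) := by linarith
  have hV : 1 / (1 - (x ^ 2 + y ^ 2)) * (1 - (x ^ 2 + y ^ 2)) = 1 := by field_simp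
  obtain ⟨t, ht, ht1, htu, hg1, hg2, hd⟩ := t_exists (x := x) (y := y) ha hb hab hu
  have h1 := h.NE_ge hx hy hxy hle hu hC (Es p0 q0 r0 s0 m n1 n2 n3 a b c x y)
  have h2 := Es_le hab ha hb hx hy hxy hC
  have h3 := NL_eq (p0 := p0) (q0 := q0) (r0 := r0) (s0 := s0) (m := m) (n1 := n1) (n2 := n2)
    (n3 := n3) (K1 := K1) (K2 := K2) (K3 := K3) (C0 := C0) (C1 := C1) hab hV
  have h4 := CF_le hab ha hb hle hx hy hxy hu hv hC hV
  have h5 := G1_ge ht ht1 hv0 hv hV hg1 hg2 hd hC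
  rw [htu] at h5
  have hpi := pi_le hx hy hxy
  have hH0 := HH0 ht ht1 hC
  rw [htu] at hH0
  have hH32 := HH32 ht ht1 hC
  have hH55 := HH55 ht ht1 hC
  have hu2 : 2 ≤ a + b := h.u_ge
  set v := x ^ 2 + y ^ 2 with hvd
  set V := 1 / (1 - v) with hVd
  have key : 19 * (x ^ 2 * y ^ 2) / (19 / 20 - v) <
      HH p0 q0 r0 s0 n1 n2 n3 K1 K2 K3 C0 C1 t v V := by
    rcases le_total v (8 / 25) with hc | hc
    · have h6 := HH_conc ht ht1 (le_refl (0:ℝ)) (by norm_num : (0:ℝ) < 8 / 25) (by norm_num)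
        hv0 hc hV (by norm_num : (1:ℝ) * (1 - 0) = 1) (by norm_num : (25 / 17 : ℝ) * (1 - 8 / 25) = 1)
        hC
      have h7 := hpi.1 hc
      have e1 : (8 / 25 - v) / (8 / 25 - 0) = 1 - 25 / 8 * v := by ring
      have e2 : (v - 0) / (8 / 25 - 0) = 25 / 8 * v := by ring
      rw [e1, e2] at h6
      have h8 : (1 - 25 / 8 * v) * (1.57 * (a + b - 2)) ≤
          (1 - 25 / 8 * v) * HH p0 q0 r0 s0 n1 n2 n3 K1 K2 K3 C0 C1 t 0 1 :=
        mul_le_mul_of_nonneg_left hH0 (by linarith)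
      have h9 : 25 / 8 * v * 0.798 ≤
          25 / 8 * v * HH p0 q0 r0 s0 n1 n2 n3 K1 K2 K3 C0 C1 t (8 / 25) (25 / 17) :=
        mul_le_mul_of_nonneg_left hH32 (by linarith)
      have h10 : 0 ≤ (1 - 25 / 8 * v) * (1.57 * (a + b - 2)) :=
        mul_nonneg (by linarith) (by linarith)
      rcases hne with hne | hne
      · rcases hv0.lt_or_eq with h0 | h0
        · nlinarith
        · rw [← h0] at h7 h6 h8 h9 ⊢
          simp only [mul_zero, sub_zero, zero_mul, one_mul, add_zero] at h6 h8 h7 ⊢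
          have : (0:ℝ) < 1.57 * (a + b - 2) := by linarith
          linarith
      · nlinarith
    · have h6 := HH_conc ht ht1 (by norm_num : (0:ℝ) ≤ 8 / 25)
        (by norm_num : (8 / 25 : ℝ) < 11 / 20) (by norm_num)
        hc hv hV (by norm_num : (25 / 17 : ℝ) * (1 - 8 / 25) = 1)
        (by norm_num : (20 / 9 : ℝ) * (1 - 11 / 20) = 1) hC
      have h7 := hpi.2 hc hv
      have e1 : (11 / 20 - v) / (11 / 20 - 8 / 25) = 100 / 23 * (11 / 20 - v) := by ring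
      have e2 : (v - 8 / 25) / (11 / 20 - 8 / 25) = 100 / 23 * (v - 8 / 25) := by ring
      rw [e1, e2] at h6
      have h8 : 100 / 23 * (11 / 20 - v) * 0.798 ≤ 100 / 23 * (11 / 20 - v) *
          HH p0 q0 r0 s0 n1 n2 n3 K1 K2 K3 C0 C1 t (8 / 25) (25 / 17) :=
        mul_le_mul_of_nonneg_left hH32 (by linarith)
      have h9 : 100 / 23 * (v - 8 / 25) * 0.33 ≤ 100 / 23 * (v - 8 / 25) *
          HH p0 q0 r0 s0 n1 n2 n3 K1 K2 K3 C0 C1 t (11 / 20) (20 / 9) :=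
        mul_le_mul_of_nonneg_left hH55 (by linarith)
      nlinarith
  linarith

/-- N4i. all signs. Use `Geo.swap`, `Geo.flipx`, `NEx_swap`, `NEx_flipx`, `Es_swap`, `Es_flipx`. -/
theorem Geo.near (h : Geo a b c x y s p ds dp)
    (hxy : |x| + |y| ≤ 4 / 5) (hu : a + b ≤ 5 / 2) (hv : x ^ 2 + y ^ 2 ≤ 11 / 20)
    (hC : Cst T p0 q0 r0 s0 m n1 n2 n3 al be et k0 K1 K2 K3 C0 C1)
    (hne : 2 < a + b ∨ 0 < x ^ 2 + y ^ 2) :
    4 * (s + p) * Es p0 q0 r0 s0 m n1 n2 n3 a b c x y <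
      T * (Dd al be et a b s p ds dp (gg a b c x y) - k0 ^ 2 * cenq a b c ds dp / (s + p)) := by
  have main2 : ∀ {a b c x y s p ds dp : ℝ}, Geo a b c x y s p ds dp → 0 ≤ x → 0 ≤ y →
      x + y ≤ 4 / 5 → a + b ≤ 5 / 2 → x ^ 2 + y ^ 2 ≤ 11 / 20 →
      (2 < a + b ∨ 0 < x ^ 2 + y ^ 2) →
      0 < NEx K1 K2 K3 C0 C1 (Es p0 q0 r0 s0 m n1 n2 n3 a b c x y) a b c x y s p := by
    intro a b c x y s p ds dp h hx hy hxy hu hv hne
    rcases le_total a b with h1 | h1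
    · exact h.near0 hx hy hxy h1 hu hv hC hne
    · have := h.swap.near0 hy hx (by linarith) h1 (by linarith) (by linarith) hC
        (by rcases hne with h2 | h2
            · left; linarith
            · right; linarith)
      rwa [NEx_swap, Es_swap] at this
  have main3 : ∀ {a b c x y s p ds dp : ℝ}, Geo a b c x y s p ds dp → 0 ≤ y →
      |x| + y ≤ 4 / 5 → a + b ≤ 5 / 2 → x ^ 2 + y ^ 2 ≤ 11 / 20 →
      (2 < a + b ∨ 0 < x ^ 2 + y ^ 2) →
      0 < NEx K1 K2 K3 C0 C1 (Es p0 q0 r0 s0 m n1 n2 n3 a b c x y) a b c x y s p := by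
    intro a b c x y s p ds dp h hy hxy hu hv hne
    rcases le_total 0 x with h1 | h1
    · rw [abs_of_nonneg h1] at hxy
      exact main2 h h1 hy hxy hu hv hne
    · rw [abs_of_nonpos h1] at hxy
      have := main2 h.flipx (by linarith) hy hxy hu (by simpa using hv) (by simpa using hne)
      rwa [NEx_flipx, Es_flipx] at this
  have main4 : 0 < NEx K1 K2 K3 C0 C1 (Es p0 q0 r0 s0 m n1 n2 n3 a b c x y) a b c x y s p := by
    rcases le_total 0 y with h1 | h1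
    · rw [abs_of_nonneg h1] at hxy
      exact main3 h h1 hxy hu hv hne
    · rw [abs_of_nonpos h1] at hxy
      have h2 := main3 h.flipy (by linarith) hxy hu (by simpa using hv) (by simpa using hne)
      rwa [← NEx_swap, NEx_flipx, NEx_swap, ← Es_swap, Es_flipx, Es_swap] at h2
  have hC' := h.NE_eq hC (Es p0 q0 r0 s0 m n1 n2 n3 a b c x y)
  have : 0 < 4 * (s + p) * NEx K1 K2 K3 C0 C1 (Es p0 q0 r0 s0 m n1 n2 n3 a b c x y) a b c x y s p :=
    mul_pos (by have := h.hs; have := h.hp; linarith) main4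
  linarith

end Pool.Agent.H32.Q4
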