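import Mathlib
import Pool.Agent.H32.Q4.K

set_option autoImplicit false

open Real

namespace Pool.Agent.H32.Q4

/-- Taylor bounds -/
theorem rt_taylor {t : ℝ} (h0 : 0 ≤ t) (h1 : t ≤ 1) :
    |sin t - (t - t ^ 3 / 6 + t ^ 5 / 120 - t ^ 7 / 5040 + t ^ 9 / 362880 - t ^ 11 / 39916800)| ≤ 3 / 1000000000 ∧
    |cos t - (1 - t ^ 2 / 2 + t ^ 4 / 24 - t ^ 6 / 720 + t ^ 8 / 40320 - t ^ 10 / 3628800)| ≤ 3 / 1000000000 ∧
    |sinh t - (t + t ^ 3 / 6 + t ^ 5 / 120 + t ^ 7 / 5040 + t ^ 9 / 362880 + t ^ 11 / 39916800)| ≤ 3 / 1000000000 ∧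
    |cosh t - (1 + t ^ 2 / 2 + t ^ 4 / 24 + t ^ 6 / 720 + t ^ 8 / 40320 + t ^ 10 / 3628800)| ≤ 3 / 1000000000 := by
  have hn : ‖(t : ℂ) * Complex.I‖ ≤ 1 := by
    rw [norm_mul, Complex.norm_I, mul_one, Complex.norm_real, Real.norm_eq_abs, abs_of_nonneg h0]
    exact h1
  have hb := Complex.exp_bound hn (n := 12) (by norm_num)
  have hpow : ‖(t : ℂ) * Complex.I‖ ^ 12 ≤ 1 := pow_le_one₀ (norm_nonneg _) hn
  have hb2 : ‖Complex.exp ((t : ℂ) * Complex.I) - ∑ m ∈ Finset.range 12, ((t : ℂ) * Complex.I) ^ m / (m.factorial : ℂ)‖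
      ≤ 3 / 1000000000 := by
    refine hb.trans ?_
    have : ((Nat.succ 12 : ℕ) : ℝ) * (((Nat.factorial 12 : ℕ) : ℝ) * ((12 : ℕ) : ℝ))⁻¹ ≤ 3 / 1000000000 := by
      norm_num [Nat.factorial]
    calc _ ≤ 1 * (((Nat.succ 12 : ℕ) : ℝ) * (((Nat.factorial 12 : ℕ) : ℝ) * ((12 : ℕ) : ℝ))⁻¹) := by
          gcongr
      _ ≤ _ := by linarith
  have hsum : ∑ m ∈ Finset.range 12, ((t : ℂ) * Complex.I) ^ m / (m.factorial : ℂ) =
      ((1 - t ^ 2 / 2 + t ^ 4 / 24 - t ^ 6 / 720 + t ^ 8 / 40320 - t ^ 10 / 3628800 : ℝ) : ℂ) +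
      ((t - t ^ 3 / 6 + t ^ 5 / 120 - t ^ 7 / 5040 + t ^ 9 / 362880 - t ^ 11 / 39916800 : ℝ) : ℂ) * Complex.I := by
    have i2 : Complex.I ^ 2 = -1 := Complex.I_sq
    have i3 : Complex.I ^ 3 = -Complex.I := by rw [pow_succ, i2]; ring
    have i4 : Complex.I ^ 4 = 1 := Complex.I_pow_four
    have i5 : Complex.I ^ 5 = Complex.I := by rw [pow_succ, i4]; ring
    have i6 : Complex.I ^ 6 = -1 := by rw [pow_succ, i5, ← sq, i2]
    have i7 : Complex.I ^ 7 = -Complex.I := by rw [pow_succ, i6]; ring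
    have i8 : Complex.I ^ 8 = 1 := by rw [pow_succ, i7, neg_mul, ← sq, i2]; ring
    have i9 : Complex.I ^ 9 = Complex.I := by rw [pow_succ, i8]; ring
    have i10 : Complex.I ^ 10 = -1 := by rw [pow_succ, i9, ← sq, i2]
    have i11 : Complex.I ^ 11 = -Complex.I := by rw [pow_succ, i10]; ring
    simp only [Finset.sum_range_succ, Finset.sum_range_zero, mul_pow, i2, i3, i4, i5, i6, i7, i8, i9, i10, i11]
    push_cast
    norm_num [Nat.factorial]
    ring
  rw [hsum, Complex.exp_mul_I] at hb2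
  have hre := (Complex.abs_re_le_norm _).trans hb2
  have him := (Complex.abs_im_le_norm _).trans hb2
  rw [← Complex.ofReal_cos, ← Complex.ofReal_sin] at hre him
  simp only [Complex.sub_re, Complex.add_re, Complex.mul_re, Complex.sub_im, Complex.add_im, Complex.mul_im,
    Complex.ofReal_re, Complex.ofReal_im, Complex.I_re, Complex.I_im, mul_zero, mul_one, sub_zero, zero_add, add_zero] at hre him
  have e1 := Real.exp_bound (x := t) (by rw [abs_of_nonneg h0]; exact h1) (n := 12) (by norm_num)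
  have e2 := Real.exp_bound (x := -t) (by rw [abs_neg, abs_of_nonneg h0]; exact h1) (n := 12) (by norm_num)
  have hpt : t ^ 12 ≤ 1 := pow_le_one₀ h0 h1
  have hc : ((Nat.succ 12 : ℕ) : ℝ) / (((Nat.factorial 12 : ℕ) : ℝ) * ((12 : ℕ) : ℝ)) ≤ 3 / 1000000000 := by
      norm_num [Nat.factorial]
  have hc0 : 0 ≤ ((Nat.succ 12 : ℕ) : ℝ) / (((Nat.factorial 12 : ℕ) : ℝ) * ((12 : ℕ) : ℝ)) := by positivity
  have f1 : |exp t - ∑ m ∈ Finset.range 12, t ^ m / (m.factorial : ℝ)| ≤ 3 / 1000000000 := by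
    refine e1.trans ?_
    rw [abs_of_nonneg h0]
    calc _ ≤ 1 * (((Nat.succ 12 : ℕ) : ℝ) / (((Nat.factorial 12 : ℕ) : ℝ) * ((12 : ℕ) : ℝ))) := by
          gcongr
      _ ≤ _ := by linarith
  have f2 : |exp (-t) - ∑ m ∈ Finset.range 12, (-t) ^ m / (m.factorial : ℝ)| ≤ 3 / 1000000000 := by
    refine e2.trans ?_
    rw [abs_neg, abs_of_nonneg h0]
    calc _ ≤ 1 * (((Nat.succ 12 : ℕ) : ℝ) / (((Nat.factorial 12 : ℕ) : ℝ) * ((12 : ℕ) : ℝ))) := by
          gcongr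
      _ ≤ _ := by linarith
  simp only [Finset.sum_range_succ, Finset.sum_range_zero] at f1 f2
  norm_num [Nat.factorial] at f1 f2
  refine ⟨him, hre, ?_, ?_⟩
  · rw [Real.sinh_eq, abs_le]
    rw [abs_le] at f1 f2
    constructor <;> nlinarith [f1.1, f1.2, f2.1, f2.2]
  · rw [Real.cosh_eq, abs_le]
    rw [abs_le] at f1 f2
    constructor <;> nlinarith [f1.1, f1.2, f2.1, f2.2]

/-- bounds of the powers of `t` -/
theorem rt_pow {t : ℝ} (h1 : 0.937552 ≤ t) (h2 : t ≤ 0.9375521) :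
    (8790037527 / 10000000000 ≤ t ^ 2 ∧ t ^ 2 ≤ 8790039403 / 10000000000) ∧
    (8241117263 / 10000000000 ≤ t ^ 3 ∧ t ^ 3 ≤ 8241119901 / 10000000000) ∧
    (1931618993 / 2500000000 ≤ t ^ 4 ∧ t ^ 4 ≤ 772647927 / 1000000000) ∧
    (7243973001 / 10000000000 ≤ t ^ 5 ∧ t ^ 5 ≤ 1448795373 / 2000000000) ∧
    (54332811 / 80000000 ≤ t ^ 6 ∧ t ^ 6 ≤ 3395802861 / 5000000000) ∧
    (1591869863 / 2500000000 ≤ t ^ 7 ∧ t ^ 7 ≤ 6367484207 / 10000000000) ∧
    (1193968619 / 2000000000 ≤ t ^ 8 ∧ t ^ 8 ≤ 596984819 / 1000000000) ∧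
    (5597038333 / 10000000000 ≤ t ^ 9 ∧ t ^ 9 ≤ 5597043707 / 10000000000) ∧
    (1311878621 / 2500000000 ≤ t ^ 10 ∧ t ^ 10 ≤ 2623760041 / 5000000000) ∧
    (4919817699 / 10000000000 ≤ t ^ 11 ∧ t ^ 11 ≤ 307488967 / 625000000) := by
  have key : ∀ k : ℕ, (0.937552 : ℝ) ^ k ≤ t ^ k ∧ t ^ k ≤ (0.9375521 : ℝ) ^ k := fun k =>
    ⟨pow_le_pow_left₀ (by norm_num) h1 k, pow_le_pow_left₀ (by linarith) h2 k⟩
  refine ⟨?_, ?_, ?_, ?_, ?_, ?_, ?_, ?_, ?_, ?_⟩
  · exact ⟨le_trans (by norm_num) (key 2).1, le_trans (key 2).2 (by norm_num)⟩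
  · exact ⟨le_trans (by norm_num) (key 3).1, le_trans (key 3).2 (by norm_num)⟩
  · exact ⟨le_trans (by norm_num) (key 4).1, le_trans (key 4).2 (by norm_num)⟩
  · exact ⟨le_trans (by norm_num) (key 5).1, le_trans (key 5).2 (by norm_num)⟩
  · exact ⟨le_trans (by norm_num) (key 6).1, le_trans (key 6).2 (by norm_num)⟩
  · exact ⟨le_trans (by norm_num) (key 7).1, le_trans (key 7).2 (by norm_num)⟩
  · exact ⟨le_trans (by norm_num) (key 8).1, le_trans (key 8).2 (by norm_num)⟩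
  · exact ⟨le_trans (by norm_num) (key 9).1, le_trans (key 9).2 (by norm_num)⟩
  · exact ⟨le_trans (by norm_num) (key 10).1, le_trans (key 10).2 (by norm_num)⟩
  · exact ⟨le_trans (by norm_num) (key 11).1, le_trans (key 11).2 (by norm_num)⟩

/-- sharp bounds -/
theorem rt_num {t : ℝ} (h1 : 0.937552 ≤ t) (h2 : t ≤ 0.9375521) :
    (0.80611183 ≤ sin t ∧ sin t ≤ 0.80611199) ∧ (0.59176305 ≤ cos t ∧ cos t ≤ 0.59176318) ∧
    (1.08106848 ≤ sinh t ∧ sinh t ≤ 1.08106865) ∧ (1.47265375 ≤ cosh t ∧ cosh t ≤ 1.47265387) := by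
  obtain ⟨hs, hc, hsh, hch⟩ := rt_taylor (t := t) (by linarith) (by linarith)
  obtain ⟨⟨p2, q2⟩, ⟨p3, q3⟩, ⟨p4, q4⟩, ⟨p5, q5⟩, ⟨p6, q6⟩, ⟨p7, q7⟩, ⟨p8, q8⟩, ⟨p9, q9⟩, ⟨p10, q10⟩, ⟨p11, q11⟩⟩ := rt_pow h1 h2
  rw [abs_le] at hs hc hsh hch
  norm_num at h1 h2 ⊢
  refine ⟨⟨?_, ?_⟩, ⟨?_, ?_⟩, ⟨?_, ?_⟩, ⟨?_, ?_⟩⟩ <;> linarith [hs.1, hs.2, hc.1, hc.2, hsh.1, hsh.2, hch.1, hch.2]

theorem root_num {t : ℝ} (h1 : 0.937552 ≤ t) (h2 : t ≤ 0.9375521) :
    |sin t - 0.8061119| ≤ 0.0000002 ∧ |cos t - 0.5917631| ≤ 0.0000002 ∧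
    |sinh t - 1.0810686| ≤ 0.0000003 ∧ |cosh t - 1.4726538| ≤ 0.0000003 := by
  obtain ⟨⟨a1, a2⟩, ⟨b1, b2⟩, ⟨c1, c2⟩, ⟨d1, d2⟩⟩ := rt_num h1 h2
  refine ⟨abs_le.2 ⟨?_, ?_⟩, abs_le.2 ⟨?_, ?_⟩, abs_le.2 ⟨?_, ?_⟩, abs_le.2 ⟨?_, ?_⟩⟩ <;> norm_num at * <;> linarith

theorem rt_end_a : (8061118779 / 10000000000 ≤ sin 0.937552 ∧ sin 0.937552 ≤ 201527971 / 250000000) ∧
    (5917631541 / 10000000000 ≤ cos 0.937552 ∧ cos 0.937552 ≤ 2958815801 / 5000000000) ∧
    (10810684891 / 10000000000 ≤ sinh 0.937552 ∧ sinh 0.937552 ≤ 1351335619 / 1250000000) ∧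
    (14726537519 / 10000000000 ≤ cosh 0.937552 ∧ cosh 0.937552 ≤ 736326879 / 500000000) := by
  obtain ⟨hs, hc, hsh, hch⟩ := rt_taylor (t := 0.937552) (by norm_num) (by norm_num)
  rw [abs_le] at hs hc hsh hch
  generalize sin 0.937552 = S at *
  generalize cos 0.937552 = C at *
  generalize sinh 0.937552 = H at *
  generalize cosh 0.937552 = G at *
  norm_num at hs hc hsh hch
  refine ⟨⟨?_, ?_⟩, ⟨?_, ?_⟩, ⟨?_, ?_⟩, ⟨?_, ?_⟩⟩ <;> linarith [hs.1, hs.2, hc.1, hc.2, hsh.1, hsh.2, hch.1, hch.2]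

theorem rt_end_b : (8061119371 / 10000000000 ≤ sin 0.9375521 ∧ sin 0.9375521 ≤ 1007639929 / 1250000000) ∧
    (1183526147 / 2000000000 ≤ cos 0.9375521 ∧ cos 0.9375521 ≤ 1479407699 / 2500000000) ∧
    (2702671591 / 2500000000 ≤ sinh 0.9375521 ∧ sinh 0.9375521 ≤ 432427457 / 400000000) ∧
    (73632693 / 50000000 ≤ cosh 0.9375521 ∧ cosh 0.9375521 ≤ 14726538661 / 10000000000) := by
  obtain ⟨hs, hc, hsh, hch⟩ := rt_taylor (t := 0.9375521) (by norm_num) (by norm_num)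
  rw [abs_le] at hs hc hsh hch
  generalize sin 0.9375521 = S at *
  generalize cos 0.9375521 = C at *
  generalize sinh 0.9375521 = H at *
  generalize cosh 0.9375521 = G at *
  norm_num at hs hc hsh hch
  refine ⟨⟨?_, ?_⟩, ⟨?_, ?_⟩, ⟨?_, ?_⟩, ⟨?_, ?_⟩⟩ <;> linarith [hs.1, hs.2, hc.1, hc.2, hsh.1, hsh.2, hch.1, hch.2]


theorem exists_root : ∃ t, Root t := by
  have hcont : ContinuousOn (fun t : ℝ => sin t * sinh t - cos t * cosh t) (Set.Icc 0.937552 0.9375521) := by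
    apply Continuous.continuousOn
    exact (continuous_sin.mul continuous_sinh).sub (continuous_cos.mul continuous_cosh)
  have hle : (0.937552 : ℝ) ≤ 0.9375521 := by norm_num
  have h := intermediate_value_Icc hle hcont
  have h0 : (0 : ℝ) ∈ Set.Icc ((fun t : ℝ => sin t * sinh t - cos t * cosh t) 0.937552)
      ((fun t : ℝ => sin t * sinh t - cos t * cosh t) 0.9375521) := by
    constructor
    · obtain ⟨⟨a1, a2⟩, ⟨b1, b2⟩, ⟨c1, c2⟩, ⟨d1, d2⟩⟩ := rt_end_a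
      have e1 := mul_le_mul a2 c2 (by linarith) (by norm_num)
      have e2 := mul_le_mul b1 d1 (by norm_num) (by linarith)
      show sin 0.937552 * sinh 0.937552 - cos 0.937552 * cosh 0.937552 ≤ 0
      norm_num at e1 e2 ⊢
      linarith
    · obtain ⟨⟨a1, a2⟩, ⟨b1, b2⟩, ⟨c1, c2⟩, ⟨d1, d2⟩⟩ := rt_end_b
      have e1 := mul_le_mul a1 c1 (by norm_num) (by linarith)
      have e2 := mul_le_mul b2 d2 (by linarith) (by norm_num)
      show 0 ≤ sin 0.9375521 * sinh 0.9375521 - cos 0.9375521 * cosh 0.9375521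
      norm_num at e1 e2 ⊢
      linarith
  obtain ⟨t, ht, hft⟩ := h h0
  exact ⟨t, ht.1, ht.2, by simpa [sub_eq_zero] using hft⟩

theorem cst_eC {t : ℝ} (h : Root t) :
    cT t / 4 * (cal t + cbe t) = 2 * (cp t + cq t + cr0 t + cs0 t) := by
  have ht : 0 < t := by have := h.lo; norm_num at this; linarith
  have hG : 0 < cosh t := cosh_pos t
  have hr := h.eq
  have R : 2 * (cp t + cq t + cr0 t + cs0 t) = t * (sin (2 * t) + sinh (2 * t)) := by
    unfold cp cq cr0 cs0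
    field_simp
    ring
  rw [R]
  unfold cT cal cbe
  rw [tanh_eq_sinh_div_cosh, sin_two_mul, sinh_two_mul]
  have e1 : cosh t ^ 2 = 1 + sinh t ^ 2 := by rw [cosh_sq]; ring
  field_simp
  linear_combination (8 * t * sin t + 8 * sinh t * sin t * cosh t) * hr

theorem rt_mul {x y a b c d : ℝ} (hx : a ≤ x ∧ x ≤ b) (hy : c ≤ y ∧ y ≤ d) (ha : 0 ≤ a) (hc : 0 ≤ c) :
    a * c ≤ x * y ∧ x * y ≤ b * d :=
  ⟨mul_le_mul hx.1 hy.1 hc (ha.trans hx.1), mul_le_mul hx.2 hy.2 (hc.trans hy.1) ((ha.trans hx.1).trans hx.2)⟩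

/-- polynomial forms -/
theorem rt_poly {t : ℝ} (h : Root t) :
    cT t * cosh t = 8 * (t * sinh t) ∧
    cp t = t * t / 4 + t * (sin t * cos t) / 2 + ((2 * (cos t * cos t) - 1) - 1) / 8 + ((2 * (cosh t * cosh t) - 1) - 1) / 8 +
      ((2 * (cosh t * cosh t) - 1) * (2 * (cos t * cos t) - 1) + 4 * ((sinh t * cosh t) * (sin t * cos t)) - 1) / 16 ∧
    cq t = -(t * t) / 4 + t * (sin t * cos t) / 2 + ((2 * (cos t * cos t) - 1) - 1) / 8 + ((2 * (cosh t * cosh t) - 1) - 1) / 8 -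
      ((2 * (cosh t * cosh t) - 1) * (2 * (cos t * cos t) - 1) + 4 * ((sinh t * cosh t) * (sin t * cos t)) - 1) / 16 ∧
    cr0 t = -(t * t) / 4 + t * (sinh t * cosh t) / 2 - ((2 * (cosh t * cosh t) - 1) - 1) / 8 - ((2 * (cos t * cos t) - 1) - 1) / 8 -
      (4 * ((sinh t * cosh t) * (sin t * cos t)) - (2 * (cosh t * cosh t) - 1) * (2 * (cos t * cos t) - 1) + 1) / 16 ∧
    cs0 t = t * t / 4 + t * (sinh t * cosh t) / 2 - ((2 * (cosh t * cosh t) - 1) - 1) / 8 - ((2 * (cos t * cos t) - 1) - 1) / 8 +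
      (4 * ((sinh t * cosh t) * (sin t * cos t)) - (2 * (cosh t * cosh t) - 1) * (2 * (cos t * cos t) - 1) + 1) / 16 ∧
    cT t / 2 * (cal t - cbe t) = 4 * (t * (sin t * cos t)) - 4 * (t * (sinh t * cosh t)) + 8 * ((sin t * sinh t) * (sin t * sinh t)) ∧
    (2 * cT t * cet t) * t = 32 * (sin t * sinh t) - 32 * (t * (sinh t * cos t)) ∧
    (cT t * ck0 t ^ 2 / 4) * t = 8 * ((sinh t * sinh t) * (sin t * cos t)) ∧
    cn2 t * (t * t) = sinh t * cos t ∧
    cn3 t * (t * t) = 2 * (sin t * cosh t) - sinh t * cos t - 2 * (t * (sin t * sinh t)) := by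
  have ht : 0 < t := by have := h.lo; norm_num at this; linarith
  have hG : 0 < cosh t := cosh_pos t
  have hr := h.eq
  have hc2 : cosh (2 * t) = 2 * (cosh t * cosh t) - 1 := by
    rw [cosh_two_mul, cosh_sq, ← sq, cosh_sq]; ring
  have hcos2 : cos (2 * t) = 2 * (cos t * cos t) - 1 := by rw [cos_two_mul]; ring
  refine ⟨?_, ?_, ?_, ?_, ?_, ?_, ?_, ?_, ?_, ?_⟩
  · unfold cT; rw [tanh_eq_sinh_div_cosh]; field_simp
  · unfold cp; rw [hc2, hcos2, sin_two_mul, sinh_two_mul]; field_simp; ring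
  · unfold cq; rw [hc2, hcos2, sin_two_mul, sinh_two_mul]; field_simp; ring
  · unfold cr0; rw [hc2, hcos2, sin_two_mul, sinh_two_mul]; field_simp; ring
  · unfold cs0; rw [hc2, hcos2, sin_two_mul, sinh_two_mul]; field_simp; ring
  · unfold cT cal cbe; rw [tanh_eq_sinh_div_cosh, sin_two_mul, sinh_two_mul]; field_simp
    linear_combination (8 * t * sin t - 8 * sinh t * sin t * cosh t) * hr
  · unfold cT cet; rw [tanh_eq_sinh_div_cosh]; field_simp; ring
  · unfold cT ck0; rw [tanh_eq_sinh_div_cosh]; field_simp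
    linear_combination (4 * sin t) * hr
  · unfold cn2; field_simp
  · unfold cn3; field_simp


theorem cst_of_root {t : ℝ} (h : Root t) :
    Cst (cT t) (cp t) (cq t) (cr0 t) (cs0 t) (cm t) (cn1 t) (cn2 t) (cn3 t) (cal t) (cbe t)
      (cet t) (ck0 t) (cT t / 2 * (cal t - cbe t)) (2 * cT t * cet t) (cT t * ck0 t ^ 2 / 4)
      (cT t / 4 * (cal t + cbe t)) (4 * cT t / 3 + 2 * cT t * cet t - cT t * ck0 t ^ 2 / 4) := by
  have hC := cst_eC h
  obtain ⟨hT, hp, hq, hr, hs, hK1, hK2, hK3, hn2, hn3⟩ := rt_poly h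
  have h1 := h.lo
  have h2 := h.hi
  have ht : 0 < t := by norm_num at h1; linarith
  have hG0 : 0 < cosh t := cosh_pos t
  obtain ⟨jS, jC, jH, jG⟩ := rt_num h1 h2
  have jt : 0.937552 ≤ t ∧ t ≤ 0.9375521 := ⟨h1, h2⟩

  have jtt : 109875469 / 125000000 ≤ t * t ∧ t * t ≤ 879003941 / 1000000000 := by
    obtain ⟨u1, u2⟩ := rt_mul jt jt (by norm_num) (by norm_num)
    exact ⟨le_trans (by norm_num) u1, le_trans u2 (by norm_num)⟩
  have jSC : 95405439 / 200000000 ≤ sin t * cos t ∧ sin t * cos t ≤ 95405479 / 200000000 := by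
    obtain ⟨u1, u2⟩ := rt_mul jS jC (by norm_num) (by norm_num)
    exact ⟨le_trans (by norm_num) u1, le_trans u2 (by norm_num)⟩
  have jCC : 350183507 / 1000000000 ≤ cos t * cos t ∧ cos t * cos t ≤ 175091831 / 500000000 := by
    obtain ⟨u1, u2⟩ := rt_mul jC jC (by norm_num) (by norm_num)
    exact ⟨le_trans (by norm_num) u1, le_trans u2 (by norm_num)⟩
  have jGG : 2168709067 / 1000000000 ≤ cosh t * cosh t ∧ cosh t * cosh t ≤ 2168709421 / 1000000000 := by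
    obtain ⟨u1, u2⟩ := rt_mul jG jG (by norm_num) (by norm_num)
    exact ⟨le_trans (by norm_num) u1, le_trans u2 (by norm_num)⟩
  have jHG : 1592039551 / 1000000000 ≤ sinh t * cosh t ∧ sinh t * cosh t ≤ 398009983 / 250000000 := by
    obtain ⟨u1, u2⟩ := rt_mul jH jG (by norm_num) (by norm_num)
    exact ⟨le_trans (by norm_num) u1, le_trans u2 (by norm_num)⟩
  have jSS : 324908141 / 500000000 ≤ sin t * sin t ∧ sin t * sin t ≤ 649816541 / 1000000000 := by
    obtain ⟨u1, u2⟩ := rt_mul jS jS (by norm_num) (by norm_num)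
    exact ⟨le_trans (by norm_num) u1, le_trans u2 (by norm_num)⟩
  have jHH : 584354529 / 500000000 ≤ sinh t * sinh t ∧ sinh t * sinh t ≤ 1168709427 / 1000000000 := by
    obtain ⟨u1, u2⟩ := rt_mul jH jH (by norm_num) (by norm_num)
    exact ⟨le_trans (by norm_num) u1, le_trans u2 (by norm_num)⟩
  have jSH : 87146209 / 100000000 ≤ sin t * sinh t ∧ sin t * sinh t ≤ 871462401 / 1000000000 := by
    obtain ⟨u1, u2⟩ := rt_mul jS jH (by norm_num) (by norm_num)
    exact ⟨le_trans (by norm_num) u1, le_trans u2 (by norm_num)⟩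
  have jHC : 31986819 / 50000000 ≤ sinh t * cos t ∧ sinh t * cos t ≤ 639736623 / 1000000000 := by
    obtain ⟨u1, u2⟩ := rt_mul jH jC (by norm_num) (by norm_num)
    exact ⟨le_trans (by norm_num) u1, le_trans u2 (by norm_num)⟩
  have jSG : 1187123609 / 1000000000 ≤ sin t * cosh t ∧ sin t * cosh t ≤ 593561971 / 500000000 := by
    obtain ⟨u1, u2⟩ := rt_mul jS jG (by norm_num) (by norm_num)
    exact ⟨le_trans (by norm_num) u1, le_trans u2 (by norm_num)⟩
  have jtSC : 2236189 / 5000000 ≤ t * (sin t * cos t) ∧ t * (sin t * cos t) ≤ 111809509 / 250000000 := by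
    obtain ⟨u1, u2⟩ := rt_mul jt jSC (by norm_num) (by norm_num)
    exact ⟨le_trans (by norm_num) u1, le_trans u2 (by norm_num)⟩
  have jtHG : 298523973 / 200000000 ≤ t * (sinh t * cosh t) ∧ t * (sinh t * cosh t) ≤ 746310191 / 500000000 := by
    obtain ⟨u1, u2⟩ := rt_mul jt jHG (by norm_num) (by norm_num)
    exact ⟨le_trans (by norm_num) u1, le_trans u2 (by norm_num)⟩
  have jtHC : 299893061 / 500000000 ≤ t * (sinh t * cos t) ∧ t * (sinh t * cos t) ≤ 119957283 / 200000000 := by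
    obtain ⟨u1, u2⟩ := rt_mul jt jHC (by norm_num) (by norm_num)
    exact ⟨le_trans (by norm_num) u1, le_trans u2 (by norm_num)⟩
  have jtSH : 32681641 / 40000000 ≤ t * (sin t * sinh t) ∧ t * (sin t * sinh t) ≤ 163408281 / 200000000 := by
    obtain ⟨u1, u2⟩ := rt_mul jt jSH (by norm_num) (by norm_num)
    exact ⟨le_trans (by norm_num) u1, le_trans u2 (by norm_num)⟩
  have jtH : 202711583 / 200000000 ≤ t * sinh t ∧ t * sinh t ≤ 126694773 / 125000000 := by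
    obtain ⟨u1, u2⟩ := rt_mul jt jH (by norm_num) (by norm_num)
    exact ⟨le_trans (by norm_num) u1, le_trans u2 (by norm_num)⟩
  have jGGCC : 379723073 / 500000000 ≤ (cosh t * cosh t) * (cos t * cos t) ∧ (cosh t * cosh t) * (cos t * cos t) ≤ 759446607 / 1000000000 := by
    obtain ⟨u1, u2⟩ := rt_mul jGG jCC (by norm_num) (by norm_num)
    exact ⟨le_trans (by norm_num) u1, le_trans u2 (by norm_num)⟩
  have jHGSC : 759446161 / 1000000000 ≤ (sinh t * cosh t) * (sin t * cos t) ∧ (sinh t * cosh t) * (sin t * cos t) ≤ 379723331 / 500000000 := by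
    obtain ⟨u1, u2⟩ := rt_mul jHG jSC (by norm_num) (by norm_num)
    exact ⟨le_trans (by norm_num) u1, le_trans u2 (by norm_num)⟩
  have jSHSH : 379723087 / 500000000 ≤ (sin t * sinh t) * (sin t * sinh t) ∧ (sin t * sinh t) * (sin t * sinh t) ≤ 759446717 / 1000000000 := by
    obtain ⟨u1, u2⟩ := rt_mul jSH jSH (by norm_num) (by norm_num)
    exact ⟨le_trans (by norm_num) u1, le_trans u2 (by norm_num)⟩
  have jHHSC : 557506003 / 1000000000 ≤ (sinh t * sinh t) * (sin t * cos t) ∧ (sinh t * sinh t) * (sin t * cos t) ≤ 278753207 / 500000000 := by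
    obtain ⟨u1, u2⟩ := rt_mul jHH jSC (by norm_num) (by norm_num)
    exact ⟨le_trans (by norm_num) u1, le_trans u2 (by norm_num)⟩
  have hprod : (2 * (cosh t * cosh t) - 1) * (2 * (cos t * cos t) - 1) =
      4 * ((cosh t * cosh t) * (cos t * cos t)) - 2 * (cosh t * cosh t) - 2 * (cos t * cos t) + 1 := by ring
  rw [hprod] at hp hq hr hs
  obtain ⟨t1, t2⟩ := jt
  obtain ⟨G1, G2⟩ := jG
  obtain ⟨tt1, tt2⟩ := jtt
  obtain ⟨SC1, SC2⟩ := jSC
  obtain ⟨CC1, CC2⟩ := jCC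
  obtain ⟨GG1, GG2⟩ := jGG
  obtain ⟨HG1, HG2⟩ := jHG
  obtain ⟨SS1, SS2⟩ := jSS
  obtain ⟨HH1, HH2⟩ := jHH
  obtain ⟨SH1, SH2⟩ := jSH
  obtain ⟨HC1, HC2⟩ := jHC
  obtain ⟨SG1, SG2⟩ := jSG
  obtain ⟨tSC1, tSC2⟩ := jtSC
  obtain ⟨tHG1, tHG2⟩ := jtHG
  obtain ⟨tHC1, tHC2⟩ := jtHC
  obtain ⟨tSH1, tSH2⟩ := jtSH
  obtain ⟨tH1, tH2⟩ := jtH
  obtain ⟨GC1, GC2⟩ := jGGCC
  obtain ⟨HGSC1, HGSC2⟩ := jHGSC
  obtain ⟨SHSH1, SHSH2⟩ := jSHSH
  obtain ⟨HHSC1, HHSC2⟩ := jHHSC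
  have hm : cm t = (sinh t * sinh t + sin t * sin t) / 2 := by unfold cm; ring
  have hn1 : cn1 t = cn2 t - cn3 t := rfl
  generalize cT t = T at *
  generalize cp t = P at *
  generalize cq t = Q at *
  generalize cr0 t = R at *
  generalize cs0 t = Sx at *
  generalize cm t = M at *
  generalize cn1 t = N1 at *
  generalize cn2 t = N2 at *
  generalize cn3 t = N3 at *
  generalize hk1 : T / 2 * (cal t - cbe t) = K1 at *
  generalize hk2 : 2 * T * cet t = K2 at *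
  generalize hk3 : T * ck0 t ^ 2 / 4 = K3 at *
  norm_num at t1 t2 G1 G2

  have T1 : 5.50601 ≤ T := by
    by_contra hc
    push Not at hc
    have : T * cosh t < 5.50601 * cosh t := mul_lt_mul_of_pos_right hc hG0
    norm_num at this; linarith
  have T2 : T ≤ 5.50603 := by
    by_contra hc
    push Not at hc
    have : 5.50603 * cosh t < T * cosh t := mul_lt_mul_of_pos_right hc hG0
    norm_num at this; linarith
  have N21 : 0.72779 ≤ N2 := by
    by_contra hc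
    push Not at hc
    have : N2 * (t * t) < 0.72779 * (t * t) := mul_lt_mul_of_pos_right hc (by positivity)
    norm_num at this; linarith
  have N22 : N2 ≤ 0.72781 := by
    by_contra hc
    push Not at hc
    have : 0.72781 * (t * t) < N2 * (t * t) := mul_lt_mul_of_pos_right hc (by positivity)
    norm_num at this; linarith
  have N31 : 0.11424 ≤ N3 := by
    by_contra hc
    push Not at hc
    have : N3 * (t * t) < 0.11424 * (t * t) := mul_lt_mul_of_pos_right hc (by positivity)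
    norm_num at this; linarith
  have N32 : N3 ≤ 0.11426 := by
    by_contra hc
    push Not at hc
    have : 0.11426 * (t * t) < N3 * (t * t) := mul_lt_mul_of_pos_right hc (by positivity)
    norm_num at this; linarith
  have K21 : 9.27267 ≤ K2 := by
    by_contra hc
    push Not at hc
    have : K2 * t < 9.27267 * t := mul_lt_mul_of_pos_right hc (by positivity)
    norm_num at this; linarith
  have K22 : K2 ≤ 9.27272 := by
    by_contra hc
    push Not at hc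
    have : 9.27272 * t < K2 * t := mul_lt_mul_of_pos_right hc (by positivity)
    norm_num at this; linarith
  have K31 : 4.75710 ≤ K3 := by
    by_contra hc
    push Not at hc
    have : K3 * t < 4.75710 * t := mul_lt_mul_of_pos_right hc (by positivity)
    norm_num at this; linarith
  have K32 : K3 ≤ 4.75715 := by
    by_contra hc
    push Not at hc
    have : 4.75715 * t < K3 * t := mul_lt_mul_of_pos_right hc (by positivity)
    norm_num at this; linarith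
  have K21s : 9.272679 ≤ K2 := by
    by_contra hc
    push Not at hc
    have : K2 * t < 9.272679 * t := mul_lt_mul_of_pos_right hc (by positivity)
    norm_num at this; linarith
  have K22s : K2 ≤ 9.272704 := by
    by_contra hc
    push Not at hc
    have : 9.272704 * t < K2 * t := mul_lt_mul_of_pos_right hc (by positivity)
    norm_num at this; linarith
  have K31s : 4.757114 ≤ K3 := by
    by_contra hc
    push Not at hc
    have : K3 * t < 4.757114 * t := mul_lt_mul_of_pos_right hc (by positivity)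
    norm_num at this; linarith
  have K32s : K3 ≤ 4.757131 := by
    by_contra hc
    push Not at hc
    have : 4.757131 * t < K3 * t := mul_lt_mul_of_pos_right hc (by positivity)
    norm_num at this; linarith
  refine ⟨hk1.symm, hk2.symm, hk3.symm, rfl, rfl, hC, T1, ?_, ?_, ?_, ?_, ?_, ?_, ?_, ?_, ?_, ?_, hn1, N21, N22, N31, N32, ?_, ?_, K21, K22, K31, K32, ?_, ?_⟩
  · rw [hp]; norm_num; linarith
  · rw [hp]; norm_num; linarith
  · rw [hq]; norm_num; linarith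
  · rw [hq]; norm_num; linarith
  · rw [hr]; norm_num; linarith
  · rw [hr]; norm_num; linarith
  · rw [hs]; norm_num; linarith
  · rw [hs]; norm_num; linarith
  · rw [hm]; norm_num; linarith
  · rw [hm]; norm_num; linarith
  · rw [hK1]; norm_num; linarith
  · rw [hK1]; norm_num; linarith
  · norm_num at *; linarith
  · norm_num at *; linarith

end Pool.Agent.H32.Q4
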