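import Mathlib
import Pool.Agent.H32.Q4.D

set_option autoImplicit false

/-! Steklov problem on quadrilaterals: areas, the standard square. -/

open Complex MeasureTheory

namespace Pool.Agent.H32.Q4

open Pool.Agent.H32.Stek

lemma SimA_mem_tri (P Q R z : ℂ) : z ∈ tri P Q R ↔
    ∃ a b c : ℝ, 0 ≤ a ∧ 0 ≤ b ∧ 0 ≤ c ∧ a + b + c = 1 ∧ z = a * P + b * Q + c * R := by
  constructor
  · intro hz
    have hsub : tri P Q R ⊆ {z : ℂ | ∃ a b c : ℝ, 0 ≤ a ∧ 0 ≤ b ∧ 0 ≤ c ∧ a + b + c = 1 ∧
        z = a * P + b * Q + c * R} := by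
      apply convexHull_min
      · rintro w (rfl | rfl | rfl)
        · exact ⟨1, 0, 0, by norm_num, le_rfl, le_rfl, by norm_num, by simp⟩
        · exact ⟨0, 1, 0, le_rfl, by norm_num, le_rfl, by norm_num, by simp⟩
        · exact ⟨0, 0, 1, le_rfl, le_rfl, by norm_num, by norm_num, by simp⟩
      · rintro x ⟨a, b, c, ha, hb, hc, h1, rfl⟩ y ⟨a', b', c', ha', hb', hc', h1', rfl⟩ s t hs ht hst
        refine ⟨s * a + t * a', s * b + t * b', s * c + t * c', by positivity, by positivity,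
          by positivity, ?_, ?_⟩
        · calc s * a + t * a' + (s * b + t * b') + (s * c + t * c')
              = s * (a + b + c) + t * (a' + b' + c') := by ring
            _ = 1 := by rw [h1, h1']; linarith
        · rw [Complex.real_smul, Complex.real_smul]
          push_cast
          ring
    exact hsub hz
  · rintro ⟨a, b, c, ha, hb, hc, h1, rfl⟩
    have hconv := convex_convexHull ℝ ({P, Q, R} : Set ℂ)
    have hP : P ∈ convexHull ℝ ({P, Q, R} : Set ℂ) := subset_convexHull ℝ _ (by simp)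
    have hQ : Q ∈ convexHull ℝ ({P, Q, R} : Set ℂ) := subset_convexHull ℝ _ (by simp)
    have hR : R ∈ convexHull ℝ ({P, Q, R} : Set ℂ) := subset_convexHull ℝ _ (by simp)
    have h := hconv.sum_mem (t := (Finset.univ : Finset (Fin 3))) (w := ![a, b, c])
      (z := ![P, Q, R]) (by
        intro i _
        fin_cases i <;> simp [ha, hb, hc]) (by
        rw [Fin.sum_univ_three]; simpa using h1) (by
        intro i _
        fin_cases i <;> simp [hP, hQ, hR])
    rw [Fin.sum_univ_three] at h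
    simpa [tri, Complex.real_smul] using h

/-- the standard triangle -/
lemma SimA_std (z : ℂ) : z ∈ tri 0 1 I ↔ 0 ≤ z.re ∧ 0 ≤ z.im ∧ z.re + z.im ≤ 1 := by
  rw [SimA_mem_tri]
  constructor
  · rintro ⟨a, b, c, ha, hb, hc, h1, rfl⟩
    simp
    exact ⟨hb, hc, by linarith⟩
  · rintro ⟨h1, h2, h3⟩
    refine ⟨1 - z.re - z.im, z.re, z.im, by linarith, h1, h2, by ring, ?_⟩
    apply Complex.ext <;> simp

lemma SimA_vol_std : volume (tri 0 1 I) = ENNReal.ofReal (1 / 2) := by
  have hcomp : IsCompact (tri 0 1 I) := by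
    rw [tri]
    exact (Set.toFinite _).isCompact_convexHull ℝ
  have hmeas : MeasurableSet (tri 0 1 I) := hcomp.isClosed.measurableSet
  have hset : tri 0 1 I = Complex.measurableEquivRealProd ⁻¹'
      {p : ℝ × ℝ | 0 ≤ p.1 ∧ 0 ≤ p.2 ∧ p.1 + p.2 ≤ 1} := by
    ext z
    rw [SimA_std]
    rfl
  have hm2 : MeasurableSet {p : ℝ × ℝ | 0 ≤ p.1 ∧ 0 ≤ p.2 ∧ p.1 + p.2 ≤ 1} := by
    apply IsClosed.measurableSet
    exact (isClosed_le continuous_const continuous_fst).inter
      ((isClosed_le continuous_const continuous_snd).inter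
        (isClosed_le (continuous_fst.add continuous_snd) continuous_const))
  rw [hset, Complex.volume_preserving_equiv_real_prod.measure_preimage hm2.nullMeasurableSet,
    Measure.volume_eq_prod, Measure.prod_apply hm2]
  have hsl : ∀ x : ℝ, volume (Prod.mk x ⁻¹' {p : ℝ × ℝ | 0 ≤ p.1 ∧ 0 ≤ p.2 ∧ p.1 + p.2 ≤ 1}) =
      (Set.Icc (0 : ℝ) 1).indicator (fun x => ENNReal.ofReal (1 - x)) x := by
    intro x
    by_cases hx : x ∈ Set.Icc (0 : ℝ) 1
    · rw [Set.indicator_of_mem hx]
      have : Prod.mk x ⁻¹' {p : ℝ × ℝ | 0 ≤ p.1 ∧ 0 ≤ p.2 ∧ p.1 + p.2 ≤ 1} =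
          Set.Icc (0 : ℝ) (1 - x) := by
        ext y
        simp only [Set.mem_preimage, Set.mem_ofPred_eq, Set.mem_Icc]
        constructor
        · rintro ⟨_, h2, h3⟩
          exact ⟨h2, by linarith⟩
        · rintro ⟨h2, h3⟩
          exact ⟨hx.1, h2, by linarith⟩
      rw [this, Real.volume_Icc, sub_zero]
    · rw [Set.indicator_of_notMem hx]
      have : Prod.mk x ⁻¹' {p : ℝ × ℝ | 0 ≤ p.1 ∧ 0 ≤ p.2 ∧ p.1 + p.2 ≤ 1} = ∅ := by
        rw [Set.eq_empty_iff_forall_notMem]
        rintro y ⟨h1, h2, h3⟩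
        exact hx ⟨h1, by simp only at h1 h2 h3; linarith⟩
      rw [this, measure_empty]
  simp only [hsl]
  rw [lintegral_indicator measurableSet_Icc, ← ofReal_integral_eq_lintegral_ofReal]
  · congr 1
    rw [integral_Icc_eq_integral_Ioc, ← intervalIntegral.integral_of_le zero_le_one,
      intervalIntegral.integral_sub (by simp) (by simp)]
    simp
    norm_num
  · exact (Continuous.integrableOn_Icc (by fun_prop))
  · rw [Filter.EventuallyLE, ae_restrict_iff' measurableSet_Icc]
    filter_upwards with x hx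
    simp only [Pi.zero_apply]
    linarith [hx.2]

/-- linear map -/
noncomputable def SimA_L (u v : ℂ) : ℂ →ₗ[ℝ] ℂ where
  toFun z := z.re * u + z.im * v
  map_add' x y := by
    simp only [Complex.add_re, Complex.add_im]
    push_cast
    ring
  map_smul' r x := by
    simp only [Complex.real_smul, Complex.mul_re, Complex.mul_im, Complex.ofReal_re,
      Complex.ofReal_im, zero_mul, sub_zero, add_zero, RingHom.id_apply]
    push_cast
    ring

lemma SimA_det (u v : ℂ) : LinearMap.det (SimA_L u v) = cr u v := by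
  rw [← LinearMap.det_toMatrix Complex.basisOneI, Matrix.det_fin_two]
  simp only [LinearMap.toMatrix_apply, Complex.coe_basisOneI, Complex.coe_basisOneI_repr]
  simp [SimA_L, cr]
  ring

lemma SimA_image (A B C : ℂ) :
    tri A B C = (fun z => A + z) '' (SimA_L (B - A) (C - A) '' tri 0 1 I) := by
  ext z
  constructor
  · intro hz
    rw [SimA_mem_tri] at hz
    obtain ⟨a, b, c, ha, hb, hc, h1, rfl⟩ := hz
    refine ⟨SimA_L (B - A) (C - A) ⟨b, c⟩, ⟨⟨b, c⟩, ?_, rfl⟩, ?_⟩
    · rw [SimA_std]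
      exact ⟨hb, hc, by show b + c ≤ 1; linarith⟩
    · show A + ((b : ℂ) * (B - A) + (c : ℂ) * (C - A)) = _
      have h2 : (a : ℂ) = 1 - b - c := by
        have : a = 1 - b - c := by linarith
        rw [this]; push_cast; ring
      rw [h2]
      ring
  · rintro ⟨_, ⟨w, hw, rfl⟩, rfl⟩
    rw [SimA_std] at hw
    obtain ⟨h1, h2, h3⟩ := hw
    rw [SimA_mem_tri]
    refine ⟨1 - w.re - w.im, w.re, w.im, by linarith, h1, h2, by ring, ?_⟩
    show A + ((w.re : ℂ) * (B - A) + (w.im : ℂ) * (C - A)) = _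
    push_cast
    ring

lemma SimA_vol (A B C : ℂ) : volume (tri A B C) = ENNReal.ofReal (|cr (B - A) (C - A)| / 2) := by
  rw [SimA_image, Set.image_add_left, measure_preimage_add, Measure.addHaar_image_linearMap,
    SimA_det, SimA_vol_std, ← ENNReal.ofReal_mul (abs_nonneg _)]
  congr 1
  ring

/-- Sim3. area of a triangle (twice the area is the cross product) -/
theorem area_tri (A B C : ℂ) : (volume (tri A B C)).toReal = |cr (B - A) (C - A)| / 2 := by
  rw [SimA_vol, ENNReal.toReal_ofReal (by positivity)]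

theorem area4_le (A B C D : ℂ) :
    area4 A B C D ≤ (|cr (B - A) (C - A)| + |cr (C - A) (D - A)|) / 2 := by
  have h1 : volume (tri A B C) ≠ ⊤ := by
    rw [SimA_vol]; exact ENNReal.ofReal_ne_top
  have h2 : volume (tri A C D) ≠ ⊤ := by
    rw [SimA_vol]; exact ENNReal.ofReal_ne_top
  calc area4 A B C D ≤ (volume (tri A B C) + volume (tri A C D)).toReal := by
        apply ENNReal.toReal_mono (ENNReal.add_ne_top.2 ⟨h1, h2⟩)
        exact measure_union_le _ _
    _ = (volume (tri A B C)).toReal + (volume (tri A C D)).toReal := ENNReal.toReal_add h1 h2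
    _ = _ := by
        rw [area_tri, area_tri]
        ring

/-- Sim4. the standard square -/
theorem quad_std : quad (1 + I) (-1 + I) (-1 - I) (1 - I) = {z : ℂ | |z.re| ≤ 1 ∧ |z.im| ≤ 1} := by
  ext z
  simp only [quad, Set.mem_union, SimA_mem_tri, Set.mem_ofPred_eq, abs_le]
  constructor
  · rintro (⟨a, b, c, ha, hb, hc, h1, rfl⟩ | ⟨a, b, c, ha, hb, hc, h1, rfl⟩)
    · simp
      refine ⟨⟨?_, ?_⟩, ⟨?_, ?_⟩⟩ <;> linarith
    · simp
      refine ⟨⟨?_, ?_⟩, ⟨?_, ?_⟩⟩ <;> linarith
  · rintro ⟨⟨h1, h2⟩, ⟨h3, h4⟩⟩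
    rcases le_total z.re z.im with h | h
    · left
      refine ⟨(1 + z.re) / 2, (z.im - z.re) / 2, (1 - z.im) / 2, by linarith, by linarith,
        by linarith, by ring, ?_⟩
      apply Complex.ext
      · simp
        ring
      · simp
        ring
    · right
      refine ⟨(1 + z.im) / 2, (1 - z.re) / 2, (z.re - z.im) / 2, by linarith, by linarith,
        by linarith, by ring, ?_⟩
      apply Complex.ext
      · simp
        ring
      · simp
        ring

theorem area4_std : area4 (1 + I) (-1 + I) (-1 - I) (1 - I) = 4 := by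
  unfold area4
  rw [quad_std]
  have hset : {z : ℂ | |z.re| ≤ 1 ∧ |z.im| ≤ 1} = Complex.measurableEquivRealProd ⁻¹'
      (Set.Icc (-1 : ℝ) 1 ×ˢ Set.Icc (-1 : ℝ) 1) := by
    ext z
    simp only [Set.mem_ofPred_eq, abs_le]
    rfl
  rw [hset, Complex.volume_preserving_equiv_real_prod.measure_preimage
    (measurableSet_Icc.prod measurableSet_Icc).nullMeasurableSet, Measure.volume_eq_prod,
    Measure.prod_prod, Real.volume_Icc, ← ENNReal.ofReal_mul (by norm_num),
    ENNReal.toReal_ofReal (by norm_num)]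
  norm_num

/-- Sim5. every square is, up to exchange of `B` and `D`, similar to the standard one -/
theorem sq_normal {A B C D : ℂ} (h : IsSq A B C D) : ∃ a t : ℂ, a ≠ 0 ∧
    A = a * (1 + I) + t ∧ C = a * (-1 - I) + t ∧
    ((B = a * (-1 + I) + t ∧ D = a * (1 - I) + t) ∨
      (D = a * (-1 + I) + t ∧ B = a * (1 - I) + t)) := by
  obtain ⟨hAC, h1, h2, h3, h4⟩ := h
  set w : ℂ := (A - C) / 2 with hw
  set t : ℂ := (A + C) / 2 with ht
  have hw0 : w ≠ 0 := by
    rw [hw]
    exact div_ne_zero (sub_ne_zero.2 hAC) two_ne_zero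
  have hwn : 0 < ‖w‖ := norm_pos_iff.2 hw0
  obtain ⟨β, hβ⟩ : ∃ β : ℂ, B = t + β * w := ⟨(B - t) / w, by field_simp; ring⟩
  obtain ⟨δ, hδ⟩ : ∃ δ : ℂ, D = t + δ * w := ⟨(D - t) / w, by field_simp; ring⟩
  have hA : A = t + w := by rw [hw, ht]; ring
  have hC : C = t - w := by rw [hw, ht]; ring
  have e1 : dist A B = ‖1 - β‖ * ‖w‖ := by
    rw [dist_eq_norm, ← norm_mul, hA, hβ]; congr 1; ring
  have e2 : dist B C = ‖1 + β‖ * ‖w‖ := by
    rw [dist_eq_norm, ← norm_mul, hC, hβ]; congr 1; ring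
  have e3 : dist C D = ‖1 + δ‖ * ‖w‖ := by
    rw [dist_comm, dist_eq_norm, ← norm_mul, hC, hδ]; congr 1; ring
  have e4 : dist D A = ‖1 - δ‖ * ‖w‖ := by
    rw [dist_comm, dist_eq_norm, ← norm_mul, hA, hδ]; congr 1; ring
  have e5 : dist A C = 2 * ‖w‖ := by
    rw [dist_eq_norm, hA, hC]
    have : t + w - (t - w) = 2 * w := by ring
    rw [this, norm_mul]
    simp
  have e6 : dist B D = ‖β - δ‖ * ‖w‖ := by
    rw [dist_eq_norm, ← norm_mul, hβ, hδ]; congr 1; ring
  rw [e1, e2] at h1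
  rw [e2, e3] at h2
  rw [e3, e4] at h3
  rw [e5, e6] at h4
  have h1' := mul_right_cancel₀ hwn.ne' h1
  have h2' := mul_right_cancel₀ hwn.ne' h2
  have h3' := mul_right_cancel₀ hwn.ne' h3
  have h4' := mul_right_cancel₀ hwn.ne' h4
  have sq : ∀ z : ℂ, ‖z‖ ^ 2 = z.re ^ 2 + z.im ^ 2 := by
    intro z
    rw [← Complex.normSq_eq_norm_sq, Complex.normSq_apply]
    ring
  have k1 : ‖1 - β‖ ^ 2 = ‖1 + β‖ ^ 2 := by rw [h1']
  have k2 : ‖1 + β‖ ^ 2 = ‖1 + δ‖ ^ 2 := by rw [h2']
  have k3 : ‖1 + δ‖ ^ 2 = ‖1 - δ‖ ^ 2 := by rw [h3']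
  have k4 : (2 : ℝ) ^ 2 = ‖β - δ‖ ^ 2 := by rw [← h4']
  rw [sq, sq] at k1 k2 k3
  rw [sq] at k4
  simp at k1 k2 k3 k4
  have r1 : β.re = 0 := by nlinarith
  have r2 : δ.re = 0 := by nlinarith
  rw [r1, r2] at k2 k4
  have k5 : β.im ^ 2 = δ.im ^ 2 := by linarith
  have k6 : (β.im - δ.im) ^ 2 = 4 := by linarith
  have k7 : δ.im = - β.im := by
    rcases sq_eq_sq_iff_eq_or_eq_neg.1 k5 with h | h
    · rw [h] at k6; norm_num at k6
    · linarith
  rw [k7] at k6
  have k8 : β.im = 1 ∨ β.im = -1 := by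
    have h9 : (β.im - 1) * (β.im + 1) = 0 := by nlinarith
    rcases mul_eq_zero.1 h9 with h | h
    · left; linarith
    · right; linarith
  have hI : (1 + I : ℂ) ≠ 0 := by
    intro hh
    have := congrArg Complex.re hh
    simp at this
  have hII : I * I = -1 := Complex.I_mul_I
  refine ⟨w / (1 + I), t, div_ne_zero hw0 hI, ?_, ?_, ?_⟩
  · rw [hA]; field_simp; ring
  · rw [hC]; field_simp; ring
  · rcases k8 with k | k
    · left
      have hb : β = I := by apply Complex.ext <;> simp [r1, k]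
      have hd : δ = -I := by apply Complex.ext <;> simp [r2, k7, k]
      constructor
      · rw [hβ, hb]
        have : (-1 + I : ℂ) = I * (1 + I) := by rw [mul_add, hII]; ring
        rw [this]; field_simp; ring
      · rw [hδ, hd]
        have : (1 - I : ℂ) = -I * (1 + I) := by rw [mul_add, neg_mul, neg_mul, hII]; ring
        rw [this]; field_simp; ring
    · right
      have hb : β = -I := by apply Complex.ext <;> simp [r1, k]
      have hd : δ = I := by apply Complex.ext <;> simp [r2, k7, k]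
      constructor
      · rw [hδ, hd]
        have : (-1 + I : ℂ) = I * (1 + I) := by rw [mul_add, hII]; ring
        rw [this]; field_simp; ring
      · rw [hβ, hb]
        have : (1 - I : ℂ) = -I * (1 + I) := by rw [mul_add, neg_mul, neg_mul, hII]; ring
        rw [this]; field_simp; ring

end Pool.Agent.H32.Q4
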