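import Mathlib
import Pool.Agent.H32.Q4.D

set_option autoImplicit false

/-! Steklov problem on quadrilaterals: mollification. -/

open Complex MeasureTheory Filter Topology

open scoped NNReal

namespace Pool.Agent.H32.Q4

open Pool.Agent.H32.Stek

/-- the bump functions -/
noncomputable def MoB (n : ℕ) : ContDiffBump (0 : ℂ) where
  rIn := 1 / (2 * ((n : ℝ) + 1))
  rOut := 1 / ((n : ℝ) + 1)
  rIn_pos := by positivity
  rIn_lt_rOut := by
    have h : (0 : ℝ) < n + 1 := by positivity
    rw [div_lt_div_iff₀ (by positivity) h]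
    linarith

/-- the normalised bump -/
noncomputable def MoP (n : ℕ) : ℂ → ℝ := (MoB n).normed volume

/-- the mollification -/
noncomputable def MoV (u : ℂ → ℝ) (n : ℕ) : ℂ → ℝ :=
  convolution (MoP n) u (ContinuousLinearMap.lsmul ℝ ℝ) volume

theorem MoV_eq (u : ℂ → ℝ) (n : ℕ) (z : ℂ) : MoV u n z = ∫ x, MoP n x * u (z - x) := rfl

theorem MoP_cont (n : ℕ) : Continuous (MoP n) := (MoB n).continuous_normed

theorem MoP_supp (n : ℕ) : HasCompactSupport (MoP n) := (MoB n).hasCompactSupport_normed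

theorem MoP_nonneg (n : ℕ) (x : ℂ) : 0 ≤ MoP n x := (MoB n).nonneg_normed x

theorem MoP_int (n : ℕ) : Integrable (MoP n) := (MoP_cont n).integrable_of_hasCompactSupport (MoP_supp n)

theorem MoP_one (n : ℕ) : ∫ x, MoP n x = 1 := (MoB n).integral_normed

theorem MoV_C1 {u : ℂ → ℝ} {K : ℝ≥0} (hu : LipschitzWith K u) (n : ℕ) : ContDiff ℝ 1 (MoV u n) := by
  have h1 : ContDiff ℝ 1 (MoP n) := (MoB n).contDiff_normed
  exact (MoP_supp n).contDiff_convolution_left _ h1 hu.continuous.locallyIntegrable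

theorem MoV_near {u : ℂ → ℝ} {K : ℝ≥0} (hu : LipschitzWith K u) (n : ℕ) (z : ℂ) :
    |MoV u n z - u z| ≤ K / (n + 1) := by
  have h := (MoB n).dist_normed_convolution_le (μ := volume) (g := u) (x₀ := z)
    (ε := K / (n + 1)) hu.continuous.aestronglyMeasurable (by
      intro x hx
      have h1 := hu.dist_le_mul x z
      have h2 : dist x z < 1 / ((n : ℝ) + 1) := by
        have := Metric.mem_ball.mp hx
        exact this
      calc dist (u x) (u z) ≤ K * dist x z := h1
        _ ≤ K * (1 / ((n : ℝ) + 1)) := by gcongr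
        _ = K / (n + 1) := by ring)
  rw [Real.dist_eq] at h
  exact h

theorem MoV_fderiv {u : ℂ → ℝ} {K : ℝ≥0} (hu : LipschitzWith K u) (n : ℕ) (z : ℂ) :
    fderiv ℝ (MoV u n) z = ∫ x, MoP n x • fderiv ℝ u (z - x) := by
  have hcont : ∀ w : ℂ, Continuous fun x => MoP n x * u (w - x) := fun w =>
    (MoP_cont n).mul (hu.continuous.comp (continuous_const.sub continuous_id))
  have hm : Measurable (fun x : ℂ => fderiv ℝ u (z - x)) :=
    (measurable_fderiv ℝ u).comp (measurable_const.sub measurable_id)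
  have h := hasFDerivAt_integral_of_dominated_loc_of_lip (𝕜 := ℝ) (μ := (volume : Measure ℂ))
    (F := fun w x => MoP n x * u (w - x)) (F' := fun x => MoP n x • fderiv ℝ u (z - x))
    (x₀ := z) (s := Set.univ) (bound := fun x => MoP n x * K) univ_mem
    (Eventually.of_forall fun w => (hcont w).aestronglyMeasurable)
    ((hcont z).integrable_of_hasCompactSupport (MoP_supp n).mul_right)
    (((MoP_cont n).measurable.smul hm).aestronglyMeasurable)
    (Eventually.of_forall fun x => by
      refine LipschitzOnWith.of_dist_le_mul fun w _ w' _ => ?_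
      rw [Real.dist_eq, ← mul_sub, abs_mul]
      have h1 := hu.dist_le_mul (w - x) (w' - x)
      rw [Real.dist_eq, dist_sub_right] at h1
      have h2 : ((Real.nnabs (MoP n x * K) : ℝ≥0) : ℝ) = |MoP n x| * K := by
        rw [Real.coe_nnabs, abs_mul, NNReal.abs_eq]
      rw [h2, mul_assoc]
      exact mul_le_mul_of_nonneg_left h1 (abs_nonneg _))
    ((MoP_int n).mul_const _)
    (by
      have h1 := hu.ae_differentiableAt (μ := (volume : Measure ℂ))
      have h2 := (Measure.measurePreserving_sub_left (volume : Measure ℂ) z).quasiMeasurePreserving.ae h1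
      filter_upwards [h2] with x hx
      have h3 : HasFDerivAt (fun w : ℂ => u (w - x)) (fderiv ℝ u (z - x)) z := by
        have h4 := hx.hasFDerivAt.comp z ((hasFDerivAt_id z).sub_const x)
        exact h4
      exact h3.const_mul (MoP n x))
  exact h.2.fderiv

theorem MoV_bound {u : ℂ → ℝ} {K : ℝ≥0} (hu : LipschitzWith K u) (n : ℕ) (z : ℂ) :
    ‖fderiv ℝ (MoV u n) z‖ ≤ K := by
  rw [MoV_fderiv hu]
  have h := norm_integral_le_of_norm_le (μ := (volume : Measure ℂ))
    (f := fun x => MoP n x • fderiv ℝ u (z - x)) (g := fun x => MoP n x * K)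
    ((MoP_int n).mul_const _) (Eventually.of_forall fun x => by
      rw [norm_smul, Real.norm_of_nonneg (MoP_nonneg n x)]
      exact mul_le_mul_of_nonneg_left (norm_fderiv_le_of_lipschitz ℝ hu) (MoP_nonneg n x))
  rw [integral_mul_const, MoP_one, one_mul] at h
  exact h

theorem MoV_tendsto {u : ℂ → ℝ} {K : ℝ≥0} (hu : LipschitzWith K u) :
    ∀ᵐ z : ℂ, Tendsto (fun n => fderiv ℝ (MoV u n) z) atTop (𝓝 (fderiv ℝ u z)) := by
  have h1 : Tendsto (fun n => (MoB n).rOut) atTop (𝓝 0) := tendsto_one_div_add_atTop_nhds_zero_nat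
  have h2 : ∀ᶠ n in atTop, (MoB n).rOut ≤ 2 * (MoB n).rIn := by
    refine Eventually.of_forall fun n => ?_
    change 1 / ((n : ℝ) + 1) ≤ 2 * (1 / (2 * ((n : ℝ) + 1)))
    have h : (0 : ℝ) < n + 1 := by positivity
    field_simp
    exact le_rfl
  have h3 : LocallyIntegrable (fderiv ℝ u) volume := by
    refine (locallyIntegrable_const ((K : ℝ))).mono (measurable_fderiv ℝ u).aestronglyMeasurable ?_
    refine Eventually.of_forall fun z => ?_
    have hK : ‖((K : ℝ≥0) : ℝ)‖ = K := NNReal.norm_eq K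
    exact (norm_fderiv_le_of_lipschitz ℝ hu).trans hK.ge
  have h4 := ContDiffBump.ae_convolution_tendsto_right_of_locallyIntegrable (μ := (volume : Measure ℂ))
    h1 h2 h3
  filter_upwards [h4] with z hz
  refine hz.congr fun n => ?_
  rw [MoV_fderiv hu]
  rfl

theorem MoV_grad (v : ℂ → ℝ) (z : ℂ) :
    ‖grad v z‖ ^ 2 = fderiv ℝ v z 1 * fderiv ℝ v z 1 + fderiv ℝ v z I * fderiv ℝ v z I := by
  rw [Complex.sq_norm, Complex.normSq_apply]
  rfl

/-- Up1. mollification of a Lipschitz function. Proof: `v n = (φ n).normed ⋆ u` with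
`ContDiffBump`s of radius `→ 0`; `HasCompactSupport.contDiff_convolution_left`,
`ContDiffBump.dist_normed_convolution_le`; `fderiv (v n)` is the convolution of `fderiv u` (by
`LipschitzWith.ae_differentiableAt` and `hasFDerivAt_integral_of_dominated_loc_of_lip`), hence
bounded by `K` and a.e. convergent
(`ContDiffBump.ae_convolution_tendsto_right_of_locallyIntegrable`); dominated convergence. -/
theorem moll {u : ℂ → ℝ} {K : ℝ≥0} (hu : LipschitzWith K u) :
    ∃ v : ℕ → ℂ → ℝ, (∀ n, ContDiff ℝ 1 (v n)) ∧ (∀ n z, |v n z - u z| ≤ K / (n + 1)) ∧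
      ∀ s : Set ℂ, MeasurableSet s → volume s ≠ ⊤ →
        Tendsto (fun n => ∫ z in s, ‖grad (v n) z‖ ^ 2) atTop (𝓝 (∫ z in s, ‖grad u z‖ ^ 2)) := by
  refine ⟨MoV u, MoV_C1 hu, MoV_near hu, fun s hs hfin => ?_⟩
  have : IsFiniteMeasure (volume.restrict s) :=
    ⟨by rw [Measure.restrict_apply_univ]; exact lt_top_iff_ne_top.mpr hfin⟩
  simp only [MoV_grad]
  refine tendsto_integral_of_dominated_convergence (fun _ => (K : ℝ) * K + K * K) ?_ ?_ ?_ ?_
  · intro n
    have h1 : Measurable fun z => fderiv ℝ (MoV u n) z 1 := measurable_fderiv_apply_const ℝ _ 1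
    have h2 : Measurable fun z => fderiv ℝ (MoV u n) z I := measurable_fderiv_apply_const ℝ _ I
    exact ((h1.mul h1).add (h2.mul h2)).aestronglyMeasurable
  · exact integrable_const _
  · intro n
    refine Eventually.of_forall fun z => ?_
    have h1 : |fderiv ℝ (MoV u n) z 1| ≤ K := by
      have := (fderiv ℝ (MoV u n) z).le_opNorm 1
      rw [norm_one, mul_one, Real.norm_eq_abs] at this
      exact this.trans (MoV_bound hu n z)
    have h2 : |fderiv ℝ (MoV u n) z I| ≤ K := by
      have := (fderiv ℝ (MoV u n) z).le_opNorm I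
      rw [Complex.norm_I, mul_one, Real.norm_eq_abs] at this
      exact this.trans (MoV_bound hu n z)
    rw [Real.norm_of_nonneg (add_nonneg (mul_self_nonneg _) (mul_self_nonneg _)), ← abs_mul_abs_self (fderiv ℝ (MoV u n) z 1),
      ← abs_mul_abs_self (fderiv ℝ (MoV u n) z I)]
    gcongr
  · refine ae_restrict_of_ae ?_
    filter_upwards [MoV_tendsto hu] with z hz
    have h1 : Tendsto (fun n => fderiv ℝ (MoV u n) z 1) atTop (𝓝 (fderiv ℝ u z 1)) :=
      ((ContinuousLinearMap.apply ℝ ℝ (1 : ℂ)).continuous.tendsto _).comp hz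
    have h2 : Tendsto (fun n => fderiv ℝ (MoV u n) z I) atTop (𝓝 (fderiv ℝ u z I)) :=
      ((ContinuousLinearMap.apply ℝ ℝ (I : ℂ)).continuous.tendsto _).comp hz
    exact (h1.mul h1).add (h2.mul h2)

end Pool.Agent.H32.Q4
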