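import Mathlib
import Pool.Agent.H32.Q4.DG
import Pool.Agent.H32.Q4.Mo
import Pool.Agent.H32.Stek.Side

set_option autoImplicit false

/-! Steklov problem on quadrilaterals: Lipschitz functions as test functions. -/

open Complex MeasureTheory Filter Topology

open scoped NNReal

namespace Pool.Agent.H32.Q4

open Pool.Agent.H32.Stek

theorem Up_seg_add {f g : ℂ → ℝ} (hf : Continuous f) (hg : Continuous g) (P Q : ℂ) :
    segInt (fun z => f z + g z) P Q = segInt f P Q + segInt g P Q := by
  unfold segInt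
  rw [intervalIntegral.integral_add
    ((continuous_line hf P (Q - P)).intervalIntegrable _ _)
    ((continuous_line hg P (Q - P)).intervalIntegrable _ _)]
  ring

theorem Up_seg_smul (c : ℝ) (f : ℂ → ℝ) (P Q : ℂ) :
    segInt (fun z => c * f z) P Q = c * segInt f P Q := by
  unfold segInt
  rw [intervalIntegral.integral_const_mul]
  ring

theorem Up_seg_const (c : ℝ) (P Q : ℂ) : segInt (fun _ => c) P Q = c * dist P Q := by
  unfold segInt
  rw [intervalIntegral.integral_const, dist_comm, Complex.dist_eq]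
  simp
  ring

theorem Up_seg_nonneg {f : ℂ → ℝ} (h : ∀ z, 0 ≤ f z) (P Q : ℂ) : 0 ≤ segInt f P Q := by
  unfold segInt
  exact mul_nonneg (norm_nonneg _)
    (intervalIntegral.integral_nonneg (by norm_num) (fun t _ => h _))

theorem Up_bd_add {f g : ℂ → ℝ} (hf : Continuous f) (hg : Continuous g) (A B C D : ℂ) :
    bd4 A B C D (fun z => f z + g z) = bd4 A B C D f + bd4 A B C D g := by
  unfold bd4
  rw [Up_seg_add hf hg, Up_seg_add hf hg, Up_seg_add hf hg, Up_seg_add hf hg]
  ring

theorem Up_bd_smul (c : ℝ) (f : ℂ → ℝ) (A B C D : ℂ) :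
    bd4 A B C D (fun z => c * f z) = c * bd4 A B C D f := by
  unfold bd4
  rw [Up_seg_smul, Up_seg_smul, Up_seg_smul, Up_seg_smul]
  ring

theorem Up_bd_const (c : ℝ) (A B C D : ℂ) :
    bd4 A B C D (fun _ => c) = c * perim4 A B C D := by
  unfold bd4 perim4
  rw [Up_seg_const, Up_seg_const, Up_seg_const, Up_seg_const]
  ring

theorem Up_bd_nonneg {f : ℂ → ℝ} (h : ∀ z, 0 ≤ f z) (A B C D : ℂ) : 0 ≤ bd4 A B C D f := by
  unfold bd4
  have h1 := Up_seg_nonneg h A B
  have h2 := Up_seg_nonneg h B C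
  have h3 := Up_seg_nonneg h C D
  have h4 := Up_seg_nonneg h D A
  linarith

theorem Up_energy_nonneg (A B C D : ℂ) (u : ℂ → ℝ) : 0 ≤ energy4 A B C D u := by
  unfold energy4
  exact integral_nonneg (fun z => sq_nonneg _)

/-- Up2. `C¹` test functions: subtract the mean; if the variance is `0` the left side is `0`. -/
theorem sigma_le_C1 {u : ℂ → ℝ} (hu : ContDiff ℝ 1 u) {A B C D : ℂ} (hL : 0 < perim4 A B C D) :
    sigma4 A B C D * (bd4 A B C D (fun z => u z ^ 2) - (bd4 A B C D u) ^ 2 / perim4 A B C D) ≤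
      energy4 A B C D u := by
  set L : ℝ := perim4 A B C D with hLdef
  set m : ℝ := bd4 A B C D u / L with hm
  have huc : Continuous u := hu.continuous
  have hmL : bd4 A B C D u = L * m := by rw [hm]; field_simp
  have h0 : bd4 A B C D (fun z => u z + (-m)) = 0 := by
    rw [Up_bd_add huc continuous_const, Up_bd_const, ← hLdef, hmL]; ring
  have h1 : bd4 A B C D (fun z => (u z + (-m)) ^ 2) =
      bd4 A B C D (fun z => u z ^ 2) - (bd4 A B C D u) ^ 2 / L := by
    have e : (fun z => (u z + (-m)) ^ 2) = fun z => (u z ^ 2 + (-2 * m) * u z) + m ^ 2 := by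
      funext z; ring
    rw [e, Up_bd_add (by fun_prop) continuous_const, Up_bd_add (by fun_prop) (by fun_prop),
      Up_bd_smul, Up_bd_const, ← hLdef, hmL]
    field_simp
    ring
  have hE : energy4 A B C D (fun z => u z + (-m)) = energy4 A B C D u := by
    unfold energy4
    congr 1
    funext z
    rw [grad_add hu contDiff_const, grad_const, add_zero]
  have hV : 0 ≤ bd4 A B C D (fun z => (u z + (-m)) ^ 2) :=
    Up_bd_nonneg (fun z => sq_nonneg _) A B C D
  rw [← h1]
  rcases hV.eq_or_lt with h | h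
  · rw [← h, mul_zero]
    exact Up_energy_nonneg A B C D u
  · have hs : sigma4 A B C D ≤ energy4 A B C D (fun z => u z + (-m)) /
        bd4 A B C D (fun z => (u z + (-m)) ^ 2) := by
      unfold sigma4
      apply csInf_le
      · refine ⟨0, ?_⟩
        rintro s ⟨v, _, _, hv, rfl⟩
        exact div_nonneg (Up_energy_nonneg A B C D v) hv.le
      · exact ⟨_, hu.add contDiff_const, h0, h, rfl⟩
    rw [hE, le_div_iff₀ h] at hs
    exact hs

theorem Up_seg_tendsto {f : ℕ → ℂ → ℝ} {g b : ℂ → ℝ} (hf : ∀ n, Continuous (f n))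
    (hb : Continuous b) (hfb : ∀ n z, |f n z| ≤ b z)
    (hlim : ∀ z, Tendsto (fun n => f n z) atTop (𝓝 (g z))) (P Q : ℂ) :
    Tendsto (fun n => segInt (f n) P Q) atTop (𝓝 (segInt g P Q)) := by
  unfold segInt
  apply Tendsto.const_mul
  apply intervalIntegral.tendsto_integral_filter_of_dominated_convergence
    (bound := fun t : ℝ => b (P + t * (Q - P)))
  · exact Eventually.of_forall fun n =>
      (continuous_line (hf n) P (Q - P)).aestronglyMeasurable
  · exact Eventually.of_forall fun n => Eventually.of_forall fun t _ => by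
      rw [Real.norm_eq_abs]; exact hfb n _
  · exact (continuous_line hb P (Q - P)).intervalIntegrable _ _
  · exact Eventually.of_forall fun t _ => hlim _

theorem Up_bd_tendsto {f : ℕ → ℂ → ℝ} {g b : ℂ → ℝ} (hf : ∀ n, Continuous (f n))
    (hb : Continuous b) (hfb : ∀ n z, |f n z| ≤ b z)
    (hlim : ∀ z, Tendsto (fun n => f n z) atTop (𝓝 (g z))) (A B C D : ℂ) :
    Tendsto (fun n => bd4 A B C D (f n)) atTop (𝓝 (bd4 A B C D g)) := by
  unfold bd4
  exact (((Up_seg_tendsto hf hb hfb hlim A B).add (Up_seg_tendsto hf hb hfb hlim B C)).add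
    (Up_seg_tendsto hf hb hfb hlim C D)).add (Up_seg_tendsto hf hb hfb hlim D A)

theorem Up_quad_compact (A B C D : ℂ) : IsCompact (quad A B C D) := by
  unfold quad tri
  exact (Set.Finite.isCompact_convexHull (𝕜 := ℝ) (Set.toFinite _)).union
    (Set.Finite.isCompact_convexHull (𝕜 := ℝ) (Set.toFinite _))

/-- Up3. Lipschitz test functions -/
theorem sigma_le_Lip {u : ℂ → ℝ} {K : ℝ≥0} (hu : LipschitzWith K u) {A B C D : ℂ}
    (hL : 0 < perim4 A B C D) :
    sigma4 A B C D * (bd4 A B C D (fun z => u z ^ 2) - (bd4 A B C D u) ^ 2 / perim4 A B C D) ≤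
      energy4 A B C D u := by
  obtain ⟨v, hv1, hv2, hv3⟩ := moll hu
  have hq := Up_quad_compact A B C D
  have hE := hv3 (quad A B C D) hq.isClosed.measurableSet hq.measure_lt_top.ne
  have huc : Continuous u := hu.continuous
  have hK : (0:ℝ) ≤ K := K.coe_nonneg
  have hKn : ∀ n : ℕ, (K:ℝ) / (n + 1) ≤ K := by
    intro n
    apply div_le_self hK
    have : (0:ℝ) ≤ n := Nat.cast_nonneg n
    linarith
  have hvb : ∀ n z, |v n z| ≤ |u z| + K := by
    intro n z
    have h1 := hv2 n z
    have h2 := hKn n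
    have h3 : |v n z| ≤ |v n z - u z| + |u z| := by
      calc |v n z| = |(v n z - u z) + u z| := by ring_nf
        _ ≤ _ := abs_add_le _ _
    linarith
  have hlim : ∀ z, Tendsto (fun n => v n z) atTop (𝓝 (u z)) := by
    intro z
    rw [tendsto_iff_dist_tendsto_zero]
    have h0 : Tendsto (fun n : ℕ => (K:ℝ) / (n + 1)) atTop (𝓝 0) := by
      have := tendsto_one_div_add_atTop_nhds_zero_nat (𝕜 := ℝ)
      have h2 := this.const_mul (K:ℝ)
      simpa [div_eq_mul_inv] using h2
    refine squeeze_zero (fun n => dist_nonneg) (fun n => ?_) h0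
    rw [Real.dist_eq]
    exact hv2 n z
  have t1 : Tendsto (fun n => bd4 A B C D (v n)) atTop (𝓝 (bd4 A B C D u)) :=
    Up_bd_tendsto (b := fun z => |u z| + K) (fun n => (hv1 n).continuous) (by fun_prop) hvb hlim
      A B C D
  have t2 : Tendsto (fun n => bd4 A B C D (fun z => v n z ^ 2)) atTop
      (𝓝 (bd4 A B C D (fun z => u z ^ 2))) := by
    refine Up_bd_tendsto (f := fun n z => v n z ^ 2) (b := fun z => (|u z| + K) ^ 2)
      (fun n => (hv1 n).continuous.pow 2) (by fun_prop) ?_ ?_ A B C D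
    · intro n z
      rw [abs_pow]
      exact pow_le_pow_left₀ (abs_nonneg _) (hvb n z) 2
    · intro z
      exact (hlim z).pow 2
  have t3 : Tendsto (fun n => sigma4 A B C D * (bd4 A B C D (fun z => v n z ^ 2) -
      (bd4 A B C D (v n)) ^ 2 / perim4 A B C D)) atTop
      (𝓝 (sigma4 A B C D * (bd4 A B C D (fun z => u z ^ 2) -
        (bd4 A B C D u) ^ 2 / perim4 A B C D))) :=
    (t2.sub ((t1.pow 2).div_const _)).const_mul _
  refine le_of_tendsto_of_tendsto' t3 hE (fun n => ?_)
  exact sigma_le_C1 (hv1 n) hL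

/-- Up4. -/
theorem sigma4_nonneg (A B C D : ℂ) : 0 ≤ sigma4 A B C D := by
  unfold sigma4
  apply Real.sInf_nonneg
  rintro s ⟨v, _, _, hv, rfl⟩
  exact div_nonneg (Up_energy_nonneg A B C D v) hv.le

theorem Up_grad_re (z : ℂ) : grad (fun z => z.re) z = 1 := by
  unfold grad
  have h : fderiv ℝ (fun z : ℂ => z.re) z = Complex.reCLM := Complex.reCLM.fderiv
  rw [h]
  apply Complex.ext <;> simp

theorem Up_grad_im (z : ℂ) : grad (fun z => z.im) z = I := by
  unfold grad
  have h : fderiv ℝ (fun z : ℂ => z.im) z = Complex.imCLM := Complex.imCLM.fderiv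
  rw [h]
  apply Complex.ext <;> simp

/-- Up5. test functions `re`, `im` -/
theorem sigma_I2 {A B C D : ℂ} (hL : 0 < perim4 A B C D) :
    sigma4 A B C D * I2 A B C D ≤ 2 * area4 A B C D := by
  have h1 := sigma_le_C1 (u := fun z => z.re) Complex.reCLM.contDiff (A := A) (B := B) (C := C)
    (D := D) hL
  have h2 := sigma_le_C1 (u := fun z => z.im) Complex.imCLM.contDiff (A := A) (B := B) (C := C)
    (D := D) hL
  have e1 : energy4 A B C D (fun z => z.re) = area4 A B C D := by
    unfold energy4 area4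
    simp only [Up_grad_re]
    simp [Measure.real]
  have e2 : energy4 A B C D (fun z => z.im) = area4 A B C D := by
    unfold energy4 area4
    simp only [Up_grad_im]
    simp [Measure.real]
  have e3 : bd4 A B C D (fun z => ‖z‖ ^ 2) =
      bd4 A B C D (fun z => z.re ^ 2) + bd4 A B C D (fun z => z.im ^ 2) := by
    rw [← Up_bd_add (by fun_prop) (by fun_prop)]
    congr 1
    funext z
    rw [Complex.sq_norm, Complex.normSq_apply]
    ring
  have e4 : I2 A B C D = (bd4 A B C D (fun z => z.re ^ 2) -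
      (bd4 A B C D (fun z => z.re)) ^ 2 / perim4 A B C D) +
      (bd4 A B C D (fun z => z.im ^ 2) -
      (bd4 A B C D (fun z => z.im)) ^ 2 / perim4 A B C D) := by
    unfold I2
    rw [e3]
    ring
  rw [e4, mul_add]
  rw [e1] at h1
  rw [e2] at h2
  linarith

end Pool.Agent.H32.Q4
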