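import Mathlib
import Pool.Agent.H32.Q4.Bt
import Pool.Agent.H32.Q4.Up
import Pool.Agent.H32.Q4.GM
import Pool.Agent.H32.Q4.SimA
import Pool.Agent.H32.Q4.N1
import Pool.Agent.H32.Q4.A7
import Pool.Agent.H32.Q4.Rt

set_option autoImplicit false

/-! Steklov problem on quadrilaterals: geometric form of the upper bounds, for the normalised
quadrilateral `P+S+γ, -P+S-γ, -P-S+γ, P-S-γ`, `P × S = 1`. -/

open Complex MeasureTheory

open scoped NNReal

namespace Pool.Agent.H32.Q4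

open Pool.Agent.H32.Stek

theorem norm_sq_dt (z : ℂ) : ‖z‖ ^ 2 = dt z z := by
  rw [← Complex.normSq_eq_norm_sq, Complex.normSq_apply]
  unfold dt
  ring

/-- NG1. -/
theorem perim4_norm (P S γ : ℂ) :
    perim4 (P + S + γ) (-P + S - γ) (-P - S + γ) (P - S - γ) =
      4 * ((‖S + γ‖ + ‖S - γ‖) / 2 + (‖P + γ‖ + ‖P - γ‖) / 2) := by
  unfold perim4
  rw [dist_eq_norm, dist_eq_norm, dist_eq_norm, dist_eq_norm]
  have e1 : P + S + γ - (-P + S - γ) = 2 * (P + γ) := by ring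
  have e2 : -P + S - γ - (-P - S + γ) = 2 * (S - γ) := by ring
  have e3 : -P - S + γ - (P - S - γ) = -(2 * (P - γ)) := by ring
  have e4 : P - S - γ - (P + S + γ) = -(2 * (S + γ)) := by ring
  rw [e1, e2, e3, e4, norm_neg, norm_neg, norm_mul, norm_mul, norm_mul, norm_mul]
  have : ‖(2:ℂ)‖ = 2 := by simp
  rw [this]
  ring

/-- NG2. -/
theorem area4_norm {P S γ : ℂ} (h : cr P S = 1) (hcut : |cr P γ - cr γ S| < 1) :
    area4 (P + S + γ) (-P + S - γ) (-P - S + γ) (P - S - γ) ≤ 4 := by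
  have h1 := area4_le (P + S + γ) (-P + S - γ) (-P - S + γ) (P - S - γ)
  have e1 : cr (-P + S - γ - (P + S + γ)) (-P - S + γ - (P + S + γ)) =
      4 * (1 - (cr P γ - cr γ S)) := by
    rw [← h]; unfold cr
    simp only [Complex.add_re, Complex.sub_re, Complex.add_im, Complex.sub_im, Complex.neg_re,
      Complex.neg_im]
    ring
  have e2 : cr (-P - S + γ - (P + S + γ)) (P - S - γ - (P + S + γ)) =
      4 * (1 + (cr P γ - cr γ S)) := by
    rw [← h]; unfold cr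
    simp only [Complex.add_re, Complex.sub_re, Complex.add_im, Complex.sub_im, Complex.neg_re,
      Complex.neg_im]
    ring
  rw [abs_lt] at hcut
  rw [e1, e2, abs_of_pos (by linarith), abs_of_pos (by linarith)] at h1
  linarith

theorem seg_sq_mid (P W : ℂ) : segInt (fun z => ‖z‖ ^ 2) (P - W) (P + W) =
    2 * ‖W‖ * dt P P + 2 / 3 * ‖W‖ ^ 3 := by
  rw [seg_sq]
  have e1 : P + W - (P - W) = 2 * W := by ring
  have e2 : (P - W + (P + W)) / 2 = P := by ring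
  rw [e1, e2, norm_mul, norm_sq_dt P]
  have : ‖(2:ℂ)‖ = 2 := by simp
  rw [this]
  ring

theorem seg_re_mid (P W : ℂ) : segInt (fun z => z.re) (P - W) (P + W) = 2 * ‖W‖ * P.re := by
  rw [seg_re]
  have e1 : P + W - (P - W) = 2 * W := by ring
  have e2 : (P - W + (P + W)) / 2 = P := by ring
  rw [e1, e2, norm_mul]
  have : ‖(2:ℂ)‖ = 2 := by simp
  rw [this]

theorem seg_im_mid (P W : ℂ) : segInt (fun z => z.im) (P - W) (P + W) = 2 * ‖W‖ * P.im := by
  rw [seg_im]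
  have e1 : P + W - (P - W) = 2 * W := by ring
  have e2 : (P - W + (P + W)) / 2 = P := by ring
  rw [e1, e2, norm_mul]
  have : ‖(2:ℂ)‖ = 2 := by simp
  rw [this]

/-- the four sides -/
theorem bd4_norm (P S γ : ℂ) (f : ℂ → ℝ) :
    bd4 (P + S + γ) (-P + S - γ) (-P - S + γ) (P - S - γ) f =
      segInt f (P - (S + γ)) (P + (S + γ)) + segInt f (-P - (S + -γ)) (-P + (S + -γ)) +
      segInt f (S - (P + γ)) (S + (P + γ)) + segInt f (-S - (P + -γ)) (-S + (P + -γ)) := by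
  unfold bd4
  have e1 : P + S + γ = P + (S + γ) := by ring
  have e2 : P - S - γ = P - (S + γ) := by ring
  have e3 : -P + S - γ = -P + (S + -γ) := by ring
  have e4 : -P - S + γ = -P - (S + -γ) := by ring
  have e5 : segInt f (P + S + γ) (-P + S - γ) = segInt f (S - (P + γ)) (S + (P + γ)) := by
    rw [segInt_symm]; congr 1 <;> ring
  have e6 : segInt f (-P - S + γ) (P - S - γ) = segInt f (-S - (P + -γ)) (-S + (P + -γ)) := by
    congr 1 <;> ring
  have e7 : segInt f (-P + S - γ) (-P - S + γ) = segInt f (-P - (S + -γ)) (-P + (S + -γ)) := by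
    rw [segInt_symm]; congr 1 <;> ring
  have e8 : segInt f (P - S - γ) (P + S + γ) = segInt f (P - (S + γ)) (P + (S + γ)) := by
    congr 1 <;> ring
  rw [e5, e6, e7, e8]
  ring

/-- NG3. with `s, p, ds, dp` as in `geo_mk` -/
theorem I2_norm {P S γ : ℂ} {s p ds dp : ℝ} (hs : s = (‖S + γ‖ + ‖S - γ‖) / 2)
    (hp : p = (‖P + γ‖ + ‖P - γ‖) / 2) (hds : ds = (‖S + γ‖ - ‖S - γ‖) / 2)
    (hdp : dp = (‖P + γ‖ - ‖P - γ‖) / 2) (hpos : 0 < s + p) :
    I2 (P + S + γ) (-P + S - γ) (-P - S + γ) (P - S - γ) =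
      4 * (s * dt P P + p * dt S S + (s ^ 3 + p ^ 3) / 3 + s * ds ^ 2 + p * dp ^ 2 -
        cenq (dt P P) (dt S S) (dt P S) ds dp / (s + p)) := by
  have h1 : ‖S + γ‖ = s + ds := by rw [hs, hds]; ring
  have h2 : ‖S + -γ‖ = s - ds := by rw [← sub_eq_add_neg, hs, hds]; ring
  have h3 : ‖P + γ‖ = p + dp := by rw [hp, hdp]; ring
  have h4 : ‖P + -γ‖ = p - dp := by rw [← sub_eq_add_neg, hp, hdp]; ring
  unfold I2
  rw [perim4_norm, ← hs, ← hp, bd4_norm, bd4_norm, bd4_norm]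
  simp only [seg_sq_mid, seg_re_mid, seg_im_mid, h1, h2, h3, h4]
  unfold cenq dt
  simp only [Complex.neg_re, Complex.neg_im]
  field_simp
  ring

/-- NG4. far region. `σ₁ I2 ≤ 2·area ≤ 8`, `L = 4(s+p)`, `Geo.far`. -/
theorem far_geom {t : ℝ} (ht : Root t) {P S γ : ℂ} (h : cr P S = 1)
    (hxy : |cr P γ| + |cr γ S| ≤ 4 / 5)
    (hu : 5 / 2 ≤ dt P P + dt S S ∨ 11 / 20 ≤ cr P γ ^ 2 + cr γ S ^ 2) :
    sigma4 (P + S + γ) (-P + S - γ) (-P - S + γ) (P - S - γ) *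
      perim4 (P + S + γ) (-P + S - γ) (-P - S + γ) (P - S - γ) < cT t := by
  have hT := (cst_of_root ht).hT
  have hG := geo_mk h γ
  have hfar := hG.far hxy hu
  obtain ⟨s, hs⟩ : ∃ s, s = (‖S + γ‖ + ‖S - γ‖) / 2 := ⟨_, rfl⟩
  obtain ⟨p, hp⟩ : ∃ p, p = (‖P + γ‖ + ‖P - γ‖) / 2 := ⟨_, rfl⟩
  obtain ⟨ds, hds⟩ : ∃ ds, ds = (‖S + γ‖ - ‖S - γ‖) / 2 := ⟨_, rfl⟩
  obtain ⟨dp, hdp⟩ : ∃ dp, dp = (‖P + γ‖ - ‖P - γ‖) / 2 := ⟨_, rfl⟩
  rw [← hs, ← hp, ← hds, ← hdp] at hfar hG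
  have hspos : 0 < s + p := add_pos hG.hs hG.hp
  have hI := I2_norm hs hp hds hdp hspos
  have hL := perim4_norm P S γ
  rw [← hs, ← hp] at hL
  have hcut : |cr P γ - cr γ S| < 1 := by
    have := abs_sub (cr P γ) (cr γ S)
    linarith
  have hA := area4_norm h hcut
  have hσ := sigma4_nonneg (P + S + γ) (-P + S - γ) (-P - S + γ) (P - S - γ)
  have hσI := sigma_I2 (A := P + S + γ) (B := -P + S - γ) (C := -P - S + γ) (D := P - S - γ)
    (by rw [hL]; linarith)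
  rw [hL]
  set σ := sigma4 (P + S + γ) (-P + S - γ) (-P - S + γ) (P - S - γ) with hσd
  have h5 : 1.453 * (s + p) * 4 ≤ I2 (P + S + γ) (-P + S - γ) (-P - S + γ) (P - S - γ) := by
    rw [hI]
    have h6 : 1.453 * (s + p) * (s + p) < (s * dt P P + p * dt S S + (s ^ 3 + p ^ 3) / 3 +
        s * ds ^ 2 + p * dp ^ 2 - cenq (dt P P) (dt S S) (dt P S) ds dp / (s + p)) * (s + p) := by
      have : (s * dt P P + p * dt S S + (s ^ 3 + p ^ 3) / 3 +
        s * ds ^ 2 + p * dp ^ 2 - cenq (dt P P) (dt S S) (dt P S) ds dp / (s + p)) * (s + p) =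
        (s + p) * (s * dt P P + p * dt S S + (s ^ 3 + p ^ 3) / 3 + s * ds ^ 2 + p * dp ^ 2) -
        cenq (dt P P) (dt S S) (dt P S) ds dp := by
        field_simp
      rw [this]
      unfold cenq
      linarith
    have := lt_of_mul_lt_mul_right h6 hspos.le
    linarith
  have h7 := mul_le_mul_of_nonneg_left h5 hσ
  nlinarith

end Pool.Agent.H32.Q4
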