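import Mathlib
import Pool.Agent.H32.Q4.D

set_option autoImplicit false

/-! Steklov problem on quadrilaterals: covering by four triangles. -/

open Complex MeasureTheory

namespace Pool.Agent.H32.Q4

open Pool.Agent.H32.Stek

theorem SimQ_convex (V W : ℂ) (r : ℝ) : Convex ℝ {z : ℂ | cr V z + cr z W ≤ r} := by
  have h : IsLinearMap ℝ fun z : ℂ => cr V z + cr z W := by
    constructor
    · intro x y
      unfold cr
      simp only [add_re, add_im]
      ring
    · intro c x
      unfold cr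
      simp only [Complex.real_smul, mul_re, mul_im, ofReal_re, ofReal_im, smul_eq_mul]
      ring
  exact convex_halfSpace_le h r

theorem SimQ_mem {V W z : ℂ} (hD : 0 < cr V W) (h1 : 0 ≤ cr V z) (h2 : 0 ≤ cr z W)
    (h3 : cr V z + cr z W ≤ cr V W) : z ∈ tri 0 V W := by
  unfold tri
  have hc := convex_convexHull ℝ ({0, V, W} : Set ℂ)
  have m0 : (0 : ℂ) ∈ convexHull ℝ ({0, V, W} : Set ℂ) := subset_convexHull ℝ _ (by simp)
  have m1 : V ∈ convexHull ℝ ({0, V, W} : Set ℂ) := subset_convexHull ℝ _ (by simp)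
  have m2 : W ∈ convexHull ℝ ({0, V, W} : Set ℂ) := subset_convexHull ℝ _ (by simp)
  have hs := hc.sum_mem (t := Finset.univ) (w := ![1 - cr z W / cr V W - cr V z / cr V W,
    cr z W / cr V W, cr V z / cr V W]) (z := ![0, V, W]) ?_ ?_ ?_
  · convert hs using 1
    simp only [Fin.sum_univ_three, Matrix.cons_val_zero, Matrix.cons_val_one, Matrix.cons_val_two,
      Matrix.head_cons, Matrix.tail_cons, Complex.real_smul]
    have hD' := hD.ne'
    apply Complex.ext
    · have f1 : z.re * cr V W = cr z W * V.re + cr V z * W.re := by unfold cr; ring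
      simp only [add_re, mul_re, ofReal_re, ofReal_im, zero_re, mul_zero, zero_mul]
      generalize cr V W = D at *
      field_simp
      linear_combination f1
    · have f1 : z.im * cr V W = cr z W * V.im + cr V z * W.im := by unfold cr; ring
      simp only [add_im, mul_im, ofReal_re, ofReal_im, mul_zero, zero_im, zero_mul]
      generalize cr V W = D at *
      field_simp
      linear_combination f1
  · intro i _
    fin_cases i
    · simp only [Fin.zero_eta, Matrix.cons_val_zero]
      have : 1 - cr z W / cr V W - cr V z / cr V W = (cr V W - cr z W - cr V z) / cr V W := by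
        field_simp
      rw [this]
      exact div_nonneg (by linarith) hD.le
    · exact div_nonneg h2 hD.le
    · exact div_nonneg h1 hD.le
  · simp only [Fin.sum_univ_three, Matrix.cons_val_zero, Matrix.cons_val_one, Matrix.cons_val_two,
      Matrix.head_cons, Matrix.tail_cons]
    ring
  · intro i _
    fin_cases i
    · exact m0
    · exact m1
    · exact m2

theorem SimQ_swap (V W : ℂ) : tri 0 V W = tri 0 W V := by
  unfold tri
  rw [Set.pair_comm V W]

theorem SimQ_anti (V W : ℂ) : cr V W = -cr W V := by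
  unfold cr; ring

/-- Sim6. the convex case: the four triangles with apex at the centroid `0` of the vertices cover
the quadrilateral. Proof: for `z` in the quadrilateral the numbers `c_j = cr V_j z` add up to `0`,
so `c_j ≥ 0 ≥ c_(j+1)` for some `j`; with `D_j = cr V_j V_(j+1) > 0`,
`z = (cr z V_(j+1)/D_j) V_j + (cr V_j z/D_j) V_(j+1)` and the sum of the coefficients is `≤ 1`
since `z` is on the inner side of `V_j V_(j+1)` (all vertices are). -/
theorem quad_subset {P S γ : ℂ} (h1 : cr P S = 1) (h2 : |cr P γ| + |cr γ S| < 1) :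
    quad (P + S + γ) (-P + S - γ) (-P - S + γ) (P - S - γ) ⊆
      tri 0 (P - (S + γ)) (P + (S + γ)) ∪ tri 0 (-P - (S - γ)) (-P + (S - γ)) ∪
      (tri 0 (S - (P + γ)) (S + (P + γ)) ∪ tri 0 (-S - (P - γ)) (-S + (P - γ))) := by
  have ha := abs_lt.1 (lt_of_le_of_lt (le_add_of_nonneg_right (abs_nonneg (cr γ S))) h2)
  have hb := abs_lt.1 (lt_of_le_of_lt (le_add_of_nonneg_left (abs_nonneg (cr P γ))) h2)
  have g1 : cr P γ + cr γ S < 1 := lt_of_le_of_lt (add_le_add (le_abs_self _) (le_abs_self _)) h2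
  have g2 : cr P γ - cr γ S < 1 := lt_of_le_of_lt (by
    rw [sub_eq_add_neg]; exact add_le_add (le_abs_self _) (neg_le_abs _)) h2
  have g3 : -cr P γ + cr γ S < 1 :=
    lt_of_le_of_lt (add_le_add (neg_le_abs _) (le_abs_self _)) h2
  have g4 : -cr P γ - cr γ S < 1 := lt_of_le_of_lt (by
    rw [sub_eq_add_neg]; exact add_le_add (neg_le_abs _) (neg_le_abs _)) h2
  generalize hV1 : P + S + γ = V1
  generalize hV2 : -P + S - γ = V2
  generalize hV3 : -P - S + γ = V3
  generalize hV4 : P - S - γ = V4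
  have k1 : P - (S + γ) = V4 := by rw [← hV4]; ring
  have k2 : P + (S + γ) = V1 := by rw [← hV1]; ring
  have k3 : -P - (S - γ) = V3 := by rw [← hV3]; ring
  have k4 : -P + (S - γ) = V2 := by rw [← hV2]; ring
  have k5 : S - (P + γ) = V2 := by rw [← hV2]; ring
  have k6 : S + (P + γ) = V1 := by rw [← hV1]; ring
  have k7 : -S - (P - γ) = V3 := by rw [← hV3]; ring
  have k8 : -S + (P - γ) = V4 := by rw [← hV4]; ring
  rw [k1, k2, k3, k4, k5, k6, k7, k8]
  -- the values of the cross products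
  have d12 : cr V1 V2 = 2 + 2 * cr γ S := by
    rw [← hV1, ← hV2]
    unfold cr at *
    simp only [add_re, add_im, sub_re, sub_im, neg_re, neg_im]
    linear_combination 2 * h1
  have d23 : cr V2 V3 = 2 - 2 * cr P γ := by
    rw [← hV2, ← hV3]
    unfold cr at *
    simp only [add_re, add_im, sub_re, sub_im, neg_re, neg_im]
    linear_combination 2 * h1
  have d34 : cr V3 V4 = 2 - 2 * cr γ S := by
    rw [← hV3, ← hV4]
    unfold cr at *
    simp only [add_re, add_im, sub_re, sub_im, neg_re, neg_im]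
    linear_combination 2 * h1
  have d41 : cr V4 V1 = 2 + 2 * cr P γ := by
    rw [← hV4, ← hV1]
    unfold cr at *
    simp only [add_re, add_im, sub_re, sub_im]
    linear_combination 2 * h1
  have d13 : cr V1 V3 = 2 * cr P γ - 2 * cr γ S := by
    rw [← hV1, ← hV3]
    unfold cr at *
    simp only [add_re, add_im, sub_re, sub_im, neg_re, neg_im]
    ring
  have d24 : cr V2 V4 = 2 * cr P γ + 2 * cr γ S := by
    rw [← hV2, ← hV4]
    unfold cr at *
    simp only [add_re, add_im, sub_re, sub_im, neg_re, neg_im]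
    ring
  have z1 : ∀ V, cr V V = 0 := fun V => by unfold cr; ring
  have a21 := SimQ_anti V2 V1
  have a32 := SimQ_anti V3 V2
  have a43 := SimQ_anti V4 V3
  have a14 := SimQ_anti V1 V4
  have a31 := SimQ_anti V3 V1
  have a42 := SimQ_anti V4 V2
  have key : ∀ V W, cr V V1 + cr V1 W ≤ cr V W → cr V V2 + cr V2 W ≤ cr V W →
      cr V V3 + cr V3 W ≤ cr V W → cr V V4 + cr V4 W ≤ cr V W →
      ∀ z ∈ quad V1 V2 V3 V4, cr V z + cr z W ≤ cr V W := by
    intro V W e1 e2 e3 e4 z hz
    have hcv := SimQ_convex V W (cr V W)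
    rcases hz with hz | hz
    · refine convexHull_min ?_ hcv hz
      rintro x (rfl | rfl | rfl)
      · exact e1
      · exact e2
      · exact e3
    · refine convexHull_min ?_ hcv hz
      rintro x (rfl | rfl | rfl)
      · exact e1
      · exact e3
      · exact e4
  intro z hz
  have q12 := key V1 V2 (by linarith [z1 V1]) (by linarith [z1 V2]) (by linarith)
    (by linarith) z hz
  have q23 := key V2 V3 (by linarith) (by linarith [z1 V2]) (by linarith [z1 V3])
    (by linarith) z hz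
  have q34 := key V3 V4 (by linarith) (by linarith) (by linarith [z1 V3])
    (by linarith [z1 V4]) z hz
  have q41 := key V4 V1 (by linarith [z1 V1]) (by linarith) (by linarith)
    (by linarith [z1 V4]) z hz
  have hsum : cr V1 z + cr V2 z + cr V3 z + cr V4 z = 0 := by
    rw [← hV1, ← hV2, ← hV3, ← hV4]
    unfold cr
    simp only [add_re, add_im, sub_re, sub_im, neg_re, neg_im]
    ring
  have s1 := SimQ_anti z V1
  have s2 := SimQ_anti z V2
  have s3 := SimQ_anti z V3
  have s4 := SimQ_anti z V4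
  have c1 : 0 ≤ cr V1 z → cr V2 z ≤ 0 → z ∈ tri 0 V1 V2 := fun u v =>
    SimQ_mem (by linarith) u (by linarith) q12
  have c2 : 0 ≤ cr V2 z → cr V3 z ≤ 0 → z ∈ tri 0 V2 V3 := fun u v =>
    SimQ_mem (by linarith) u (by linarith) q23
  have c3 : 0 ≤ cr V3 z → cr V4 z ≤ 0 → z ∈ tri 0 V3 V4 := fun u v =>
    SimQ_mem (by linarith) u (by linarith) q34
  have c4 : 0 ≤ cr V4 z → cr V1 z ≤ 0 → z ∈ tri 0 V4 V1 := fun u v =>
    SimQ_mem (by linarith) u (by linarith) q41
  have fin1 : z ∈ tri 0 V1 V2 → z ∈ tri 0 V4 V1 ∪ tri 0 V3 V2 ∪ (tri 0 V2 V1 ∪ tri 0 V3 V4) :=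
    fun h => Or.inr (Or.inl (SimQ_swap V1 V2 ▸ h))
  have fin2 : z ∈ tri 0 V2 V3 → z ∈ tri 0 V4 V1 ∪ tri 0 V3 V2 ∪ (tri 0 V2 V1 ∪ tri 0 V3 V4) :=
    fun h => Or.inl (Or.inr (SimQ_swap V2 V3 ▸ h))
  have fin3 : z ∈ tri 0 V3 V4 → z ∈ tri 0 V4 V1 ∪ tri 0 V3 V2 ∪ (tri 0 V2 V1 ∪ tri 0 V3 V4) :=
    fun h => Or.inr (Or.inr h)
  have fin4 : z ∈ tri 0 V4 V1 → z ∈ tri 0 V4 V1 ∪ tri 0 V3 V2 ∪ (tri 0 V2 V1 ∪ tri 0 V3 V4) :=
    fun h => Or.inl (Or.inl h)
  rcases le_or_gt 0 (cr V1 z) with t1 | t1
  · rcases le_or_gt (cr V2 z) 0 with t2 | t2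
    · exact fin1 (c1 t1 t2)
    · rcases le_or_gt (cr V3 z) 0 with t3 | t3
      · exact fin2 (c2 t2.le t3)
      · exact fin3 (c3 t3.le (by linarith))
  · rcases le_or_gt 0 (cr V4 z) with t4 | t4
    · exact fin4 (c4 t4 t1.le)
    · rcases le_or_gt 0 (cr V3 z) with t3 | t3
      · exact fin3 (c3 t3 t4.le)
      · exact fin2 (c2 (by linarith) t3.le)

end Pool.Agent.H32.Q4
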