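import Mathlib
import Pool.Agent.H32.Q4.NG
import Pool.Agent.H32.Q4.EnT
import Pool.Agent.H32.Q4.SimQ
import Pool.Agent.H32.Q4.N4h
import Pool.Agent.H32.Q4.DGi

set_option autoImplicit false

/-! Steklov problem on quadrilaterals: geometric form of the upper bounds, for the normalised
quadrilateral `P+S+γ, -P+S-γ, -P-S+γ, P-S-γ`, `P × S = 1`. -/

open Complex MeasureTheory

open scoped NNReal

namespace Pool.Agent.H32.Q4

open Pool.Agent.H32.Stek

theorem norm_grad_le {u : ℂ → ℝ} {K : ℝ≥0} (hu : LipschitzWith K u) (z : ℂ) :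
    ‖grad u z‖ ^ 2 ≤ 2 * (K : ℝ) ^ 2 := by
  have h1 : ‖fderiv ℝ u z‖ ≤ K := norm_fderiv_le_of_lipschitz ℝ hu
  have h2 : |fderiv ℝ u z 1| ≤ K := by
    have := (fderiv ℝ u z).le_opNorm 1
    rw [norm_one, mul_one] at this
    exact this.trans h1
  have h3 : |fderiv ℝ u z I| ≤ K := by
    have := (fderiv ℝ u z).le_opNorm I
    rw [Complex.norm_I, mul_one] at this
    exact this.trans h1
  rw [← Complex.normSq_eq_norm_sq, Complex.normSq_apply]
  unfold grad
  simp only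
  have h4 : (fderiv ℝ u z 1) ^ 2 ≤ (K:ℝ) ^ 2 := by
    rw [← sq_abs]; exact pow_le_pow_left₀ (abs_nonneg _) h2 2
  have h5 : (fderiv ℝ u z I) ^ 2 ≤ (K:ℝ) ^ 2 := by
    rw [← sq_abs]; exact pow_le_pow_left₀ (abs_nonneg _) h3 2
  nlinarith

theorem measurable_grad_sq (u : ℂ → ℝ) : Measurable (fun z => ‖grad u z‖ ^ 2) := by
  have h1 : Measurable (fun z => fderiv ℝ u z 1) := measurable_fderiv_apply_const ℝ u 1
  have h2 : Measurable (fun z => fderiv ℝ u z I) := measurable_fderiv_apply_const ℝ u I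
  have h3 : (fun z => ‖grad u z‖ ^ 2) =
      fun z => (fderiv ℝ u z 1) ^ 2 + (fderiv ℝ u z I) ^ 2 := by
    funext z
    rw [← Complex.normSq_eq_norm_sq, Complex.normSq_apply]
    unfold grad
    ring
  rw [h3]
  exact (h1.pow_const 2).add (h2.pow_const 2)

theorem isCompact_tri (A B C : ℂ) : IsCompact (tri A B C) := by
  unfold tri
  exact (Set.toFinite _).isCompact_convexHull ℝ

theorem integrableOn_grad {u : ℂ → ℝ} {K : ℝ≥0} (hu : LipschitzWith K u) {s : Set ℂ}
    (hs : IsCompact s) : IntegrableOn (fun z => ‖grad u z‖ ^ 2) s := by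
  refine Measure.integrableOn_of_bounded (M := 2 * (K:ℝ) ^ 2) hs.measure_lt_top.ne
    (measurable_grad_sq u).aestronglyMeasurable ?_
  filter_upwards with z
  rw [Real.norm_of_nonneg (by positivity)]
  exact norm_grad_le hu z

theorem energy4_le {u : ℂ → ℝ} {K : ℝ≥0} (hu : LipschitzWith K u) {P S γ : ℂ} (h : cr P S = 1)
    (h2 : |cr P γ| + |cr γ S| < 1) :
    energy4 (P + S + γ) (-P + S - γ) (-P - S + γ) (P - S - γ) u ≤
      (∫ z in tri 0 (P - (S + γ)) (P + (S + γ)), ‖grad u z‖ ^ 2) +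
      (∫ z in tri 0 (-P - (S - γ)) (-P + (S - γ)), ‖grad u z‖ ^ 2) +
      ((∫ z in tri 0 (S - (P + γ)) (S + (P + γ)), ‖grad u z‖ ^ 2) +
      (∫ z in tri 0 (-S - (P - γ)) (-S + (P - γ)), ‖grad u z‖ ^ 2)) := by
  have hsub := quad_subset h h2
  have hI : ∀ A B C : ℂ, IntegrableOn (fun z => ‖grad u z‖ ^ 2) (tri A B C) :=
    fun A B C => integrableOn_grad hu (isCompact_tri A B C)
  have hmeas : ∀ A B C : ℂ, MeasurableSet (tri A B C) :=
    fun A B C => (isCompact_tri A B C).measurableSet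
  have hun : ∀ {s t : Set ℂ}, MeasurableSet s → MeasurableSet t →
      IntegrableOn (fun z => ‖grad u z‖ ^ 2) s → IntegrableOn (fun z => ‖grad u z‖ ^ 2) t →
      ∫ z in s ∪ t, ‖grad u z‖ ^ 2 ≤ (∫ z in s, ‖grad u z‖ ^ 2) + ∫ z in t, ‖grad u z‖ ^ 2 := by
    intro s t hs ht hIs hIt
    have e : s ∪ t = s ∪ (t \ s) := by simp
    rw [e, setIntegral_union Set.disjoint_sdiff_right (ht.diff hs) hIs
      (hIt.mono_set Set.diff_subset)]
    gcongr
    · exact ae_of_all _ fun z => by positivity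
    · exact Set.diff_subset
  unfold energy4
  refine (setIntegral_mono_set (((hI _ _ _).union (hI _ _ _)).union ((hI _ _ _).union (hI _ _ _)))
    (ae_of_all _ fun z => by positivity) hsub.eventuallyLE).trans ?_
  refine (hun ((hmeas _ _ _).union (hmeas _ _ _)) ((hmeas _ _ _).union (hmeas _ _ _))
    ((hI _ _ _).union (hI _ _ _)) ((hI _ _ _).union (hI _ _ _))).trans ?_
  have a1 := hun (hmeas 0 (P - (S + γ)) (P + (S + γ))) (hmeas 0 (-P - (S - γ)) (-P + (S - γ)))
    (hI _ _ _) (hI _ _ _)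
  have a2 := hun (hmeas 0 (S - (P + γ)) (S + (P + γ))) (hmeas 0 (-S - (P - γ)) (-S + (P - γ)))
    (hI _ _ _) (hI _ _ _)
  linarith

/-- the sum over the four sides -/
theorem near_bd {t : ℝ} (ht : 0 < t) {P S γ : ℂ} (h : cr P S = 1) {s p ds dp : ℝ}
    (hs : s = (‖S + γ‖ + ‖S - γ‖) / 2)
    (hp : p = (‖P + γ‖ + ‖P - γ‖) / 2) (hds : ds = (‖S + γ‖ - ‖S - γ‖) / 2)
    (hdp : dp = (‖P + γ‖ - ‖P - γ‖) / 2) (hpos : 0 < s + p)
    (hs3 : s * ds = dt S γ) (hp3 : p * dp = dt P γ) {u₁ u₂ : ℂ → ℝ}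
    (h1 : OnTri t P S γ u₁ u₂) (h2 : OnTri t (-P) S (-γ) u₁ u₂) (h3 : OnTri t S P γ u₁ u₂)
    (h4 : OnTri t (-S) P (-γ) u₁ u₂) :
    (bd4 (P + S + γ) (-P + S - γ) (-P - S + γ) (P - S - γ) (fun z => u₁ z ^ 2) -
      (bd4 (P + S + γ) (-P + S - γ) (-P - S + γ) (P - S - γ) u₁) ^ 2 /
        perim4 (P + S + γ) (-P + S - γ) (-P - S + γ) (P - S - γ)) +
    (bd4 (P + S + γ) (-P + S - γ) (-P - S + γ) (P - S - γ) (fun z => u₂ z ^ 2) -
      (bd4 (P + S + γ) (-P + S - γ) (-P - S + γ) (P - S - γ) u₂) ^ 2 /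
        perim4 (P + S + γ) (-P + S - γ) (-P - S + γ) (P - S - γ)) =
      Dd (cal t) (cbe t) (cet t) (dt P P) (dt S S) s p ds dp (dt γ γ) -
        ck0 t ^ 2 * cenq (dt P P) (dt S S) (dt P S) ds dp / (s + p) := by
  have e1 : ‖S + γ‖ = s + ds := by rw [hs, hds]; ring
  have e2 : ‖S + -γ‖ = s - ds := by rw [← sub_eq_add_neg, hs, hds]; ring
  have e3 : ‖P + γ‖ = p + dp := by rw [hp, hdp]; ring
  have e4 : ‖P + -γ‖ = p - dp := by rw [← sub_eq_add_neg, hp, hdp]; ring
  have q1 := bd_sq ht h1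
  have q2 := bd_sq ht h2
  have q3 := bd_sq ht h3
  have q4 := bd_sq ht h4
  obtain ⟨l1, m1⟩ := bd_lin ht h1
  obtain ⟨l2, m2⟩ := bd_lin ht h2
  obtain ⟨l3, m3⟩ := bd_lin ht h3
  obtain ⟨l4, m4⟩ := bd_lin ht h4
  rw [perim4_norm, ← hs, ← hp, bd4_norm, bd4_norm, bd4_norm, bd4_norm, l1, l2, l3, l4, m1, m2,
    m3, m4]
  have q : ∀ a b c d a' b' c' d' X Y : ℝ, (a + b + c + d - X) + (a' + b' + c' + d' - Y) =
      (a + a') + (b + b') + (c + c') + (d + d') - (X + Y) := by intros; ring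
  rw [q, q1, q2, q3, q4, e1, e2, e3, e4]
  have d1 : dt (-P) (-P) = dt P P := by unfold dt; simp
  have d2 : dt (-S) (-S) = dt S S := by unfold dt; simp
  have d3 : dt (-γ) (-γ) = dt γ γ := by unfold dt; simp
  have d4 : dt S (-γ) = -dt S γ := by unfold dt; simp; ring
  have d5 : dt P (-γ) = -dt P γ := by unfold dt; simp; ring
  rw [d1, d2, d3, d4, d5, ← hs3, ← hp3]
  have hk : ((s + ds) * ck0 t * P.re + (s - ds) * ck0 t * (-P).re + (p + dp) * ck0 t * S.re +
      (p - dp) * ck0 t * (-S).re) ^ 2 / (4 * (s + p)) +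
      ((s + ds) * ck0 t * P.im + (s - ds) * ck0 t * (-P).im + (p + dp) * ck0 t * S.im +
      (p - dp) * ck0 t * (-S).im) ^ 2 / (4 * (s + p)) =
      ck0 t ^ 2 * cenq (dt P P) (dt S S) (dt P S) ds dp / (s + p) := by
    unfold cenq dt
    simp only [Complex.neg_re, Complex.neg_im]
    field_simp
    ring
  rw [hk]
  unfold Dd
  ring

/-- NG5. the transplanted trial functions -/
theorem near_geom {t : ℝ} (ht : Root t) {P S γ : ℂ} (h : cr P S = 1)
    (hxy : |cr P γ| + |cr γ S| ≤ 4 / 5) {s p ds dp : ℝ} (hs : s = (‖S + γ‖ + ‖S - γ‖) / 2)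
    (hp : p = (‖P + γ‖ + ‖P - γ‖) / 2) (hds : ds = (‖S + γ‖ - ‖S - γ‖) / 2)
    (hdp : dp = (‖P + γ‖ - ‖P - γ‖) / 2) :
    sigma4 (P + S + γ) (-P + S - γ) (-P - S + γ) (P - S - γ) *
      (Dd (cal t) (cbe t) (cet t) (dt P P) (dt S S) s p ds dp
          (gg (dt P P) (dt S S) (dt P S) (cr P γ) (cr γ S)) -
        ck0 t ^ 2 * cenq (dt P P) (dt S S) (dt P S) ds dp / (s + p)) ≤
      Es (cp t) (cq t) (cr0 t) (cs0 t) (cm t) (cn1 t) (cn2 t) (cn3 t)
        (dt P P) (dt S S) (dt P S) (cr P γ) (cr γ S) ∧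
      0 ≤ Es (cp t) (cq t) (cr0 t) (cs0 t) (cm t) (cn1 t) (cn2 t) (cn3 t)
        (dt P P) (dt S S) (dt P S) (cr P γ) (cr γ S) := by
  have ht0 : 0 < t := by have := ht.lo; linarith
  have hG := geo_mk h γ
  rw [← hs, ← hp, ← hds, ← hdp] at hG
  have hspos : 0 < s + p := add_pos hG.hs hG.hp
  have hx1 : |cr P γ| < 1 := by have := abs_nonneg (cr γ S); linarith
  have hy1 : |cr γ S| < 1 := by have := abs_nonneg (cr P γ); linarith
  have hsq : cr P γ ^ 2 + cr γ S ^ 2 < 1 := by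
    rw [← sq_abs (cr P γ), ← sq_abs (cr γ S)]
    nlinarith [abs_nonneg (cr γ S), abs_nonneg (cr P γ)]
  obtain ⟨u₁, u₂, L₁, L₂, hL1, hL2, h1, h2, h3, h4⟩ := trial_exists t h hsq
  have hL : 0 < perim4 (P + S + γ) (-P + S - γ) (-P - S + γ) (P - S - γ) := by
    rw [perim4_norm, ← hs, ← hp]; linarith
  have up1 := sigma_le_Lip hL1 hL
  have up2 := sigma_le_Lip hL2 hL
  have en1 := energy4_le hL1 h (by linarith)
  have en2 := energy4_le hL2 h (by linarith)
  have hds' : s * ds = dt S γ := by rw [hG.hs3, dtS_eq h γ]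
  have hdp' : p * dp = dt P γ := by rw [hG.hp3, dtP_eq h γ]
  have hbd := near_bd ht0 h hs hp hds hdp hspos hds' hdp' h1 h2 h3 h4
  rw [gg_eq h γ, ← hbd]
  have c1 : cr P (S + γ) = 1 + cr P γ := by
    rw [← h]; unfold cr; simp only [Complex.add_re, Complex.add_im]; ring
  have c2 : cr (-P) (S + -γ) = -(1 - cr P γ) := by
    rw [← h]; unfold cr
    simp only [Complex.add_re, Complex.add_im, Complex.neg_re, Complex.neg_im]; ring
  have c3 : cr S (P + γ) = -(1 + cr γ S) := by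
    rw [← h]; unfold cr; simp only [Complex.add_re, Complex.add_im]; ring
  have c4 : cr (-S) (P + -γ) = 1 - cr γ S := by
    rw [← h]; unfold cr
    simp only [Complex.add_re, Complex.add_im, Complex.neg_re, Complex.neg_im]; ring
  rw [abs_lt] at hx1 hy1
  have E1 := energy_tri ht (by rw [c1]; linarith) h1
  have E2 := energy_tri ht (by rw [c2]; linarith) h2
  have E3 := energy_tri ht (by rw [c3]; linarith) h3
  have E4 := energy_tri ht (by rw [c4]; linarith) h4
  rw [c1, abs_of_pos (by linarith)] at E1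
  rw [c2, abs_neg, abs_of_pos (by linarith)] at E2
  rw [c3, abs_neg, abs_of_pos (by linarith)] at E3
  rw [c4, abs_of_pos (by linarith)] at E4
  have d1 : dt (-P) (-P) = dt P P := by unfold dt; simp
  have d2 : dt (-S) (-S) = dt S S := by unfold dt; simp
  have d3 : dt (-γ) (-γ) = dt γ γ := by unfold dt; simp
  have d4 : dt S (-γ) = -dt S γ := by unfold dt; simp; ring
  have d5 : dt P (-γ) = -dt P γ := by unfold dt; simp; ring
  have d6 : dt (-P) (-γ) = dt P γ := by unfold dt; simp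
  have d7 : dt (-S) (-γ) = dt S γ := by unfold dt; simp
  have d8 : dt (-P) S = -dt P S := by unfold dt; simp; ring
  have d9 : dt (-S) P = -dt P S := by unfold dt; simp; ring
  have d10 : dt S P = dt P S := by unfold dt; ring
  rw [d1, d8, d6, d4, d3] at E2
  rw [d10] at E3
  rw [d2, d9, d7, d5, d3] at E4
  have hEs : Es (cp t) (cq t) (cr0 t) (cs0 t) (cm t) (cn1 t) (cn2 t) (cn3 t)
        (dt P P) (dt S S) (dt P S) (cr P γ) (cr γ S) =
      Et (cp t) (cq t) (cr0 t) (cs0 t) (cm t) (cn1 t) (cn2 t) (cn3 t)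
        (dt P P) (dt S S) (dt P S) (dt P γ) (dt S γ) (dt γ γ) (1 + cr P γ) +
      Et (cp t) (cq t) (cr0 t) (cs0 t) (cm t) (cn1 t) (cn2 t) (cn3 t)
        (dt P P) (dt S S) (-dt P S) (dt P γ) (-dt S γ) (dt γ γ) (1 - cr P γ) +
      Et (cp t) (cq t) (cr0 t) (cs0 t) (cm t) (cn1 t) (cn2 t) (cn3 t)
        (dt S S) (dt P P) (dt P S) (dt S γ) (dt P γ) (dt γ γ) (1 + cr γ S) +
      Et (cp t) (cq t) (cr0 t) (cs0 t) (cm t) (cn1 t) (cn2 t) (cn3 t)
        (dt S S) (dt P P) (-dt P S) (dt S γ) (-dt P γ) (dt γ γ) (1 - cr γ S) := by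
    unfold Es
    rw [gg_eq h γ, ← dtP_eq h γ, ← dtS_eq h γ]
  rw [hEs]
  simp only [← sub_eq_add_neg] at E2 E4
  have pos : ∀ (u : ℂ → ℝ) (A : Set ℂ), 0 ≤ ∫ z in A, ‖grad u z‖ ^ 2 :=
    fun u A => integral_nonneg fun z => by positivity
  refine ⟨by rw [mul_add]; linarith, ?_⟩
  rw [← E1, ← E2, ← E3, ← E4]
  have := pos u₁
  have := pos u₂
  positivity

/-- NG6. near region -/
theorem near_lt {t : ℝ} (ht : Root t) {P S γ : ℂ} (h : cr P S = 1)
    (hxy : |cr P γ| + |cr γ S| ≤ 4 / 5) (hu : dt P P + dt S S ≤ 5 / 2)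
    (hv : cr P γ ^ 2 + cr γ S ^ 2 ≤ 11 / 20)
    (hne : 2 < dt P P + dt S S ∨ 0 < cr P γ ^ 2 + cr γ S ^ 2) :
    sigma4 (P + S + γ) (-P + S - γ) (-P - S + γ) (P - S - γ) *
      perim4 (P + S + γ) (-P + S - γ) (-P - S + γ) (P - S - γ) < cT t := by
  have hG := geo_mk h γ
  obtain ⟨s, hs⟩ : ∃ s, s = (‖S + γ‖ + ‖S - γ‖) / 2 := ⟨_, rfl⟩
  obtain ⟨p, hp⟩ : ∃ p, p = (‖P + γ‖ + ‖P - γ‖) / 2 := ⟨_, rfl⟩
  obtain ⟨ds, hds⟩ : ∃ ds, ds = (‖S + γ‖ - ‖S - γ‖) / 2 := ⟨_, rfl⟩
  obtain ⟨dp, hdp⟩ : ∃ dp, dp = (‖P + γ‖ - ‖P - γ‖) / 2 := ⟨_, rfl⟩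
  rw [← hs, ← hp, ← hds, ← hdp] at hG
  have hspos : 0 < s + p := add_pos hG.hs hG.hp
  have hC := cst_of_root ht
  obtain ⟨hg, hE⟩ := near_geom ht h hxy hs hp hds hdp
  have hn := hG.near hxy hu hv hC hne
  have hL := perim4_norm P S γ
  rw [← hs, ← hp] at hL
  rw [hL]
  have hT : 0 < cT t := by have := hC.hT; linarith
  set σ := sigma4 (P + S + γ) (-P + S - γ) (-P - S + γ) (P - S - γ) with hσ
  set V := Dd (cal t) (cbe t) (cet t) (dt P P) (dt S S) s p ds dp
          (gg (dt P P) (dt S S) (dt P S) (cr P γ) (cr γ S)) -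
        ck0 t ^ 2 * cenq (dt P P) (dt S S) (dt P S) ds dp / (s + p) with hV
  have hVpos : 0 < V := by
    by_contra hcon
    push_neg at hcon
    have : cT t * V ≤ 0 := mul_nonpos_of_nonneg_of_nonpos hT.le hcon
    have h2 : 0 ≤ 4 * (s + p) * Es (cp t) (cq t) (cr0 t) (cs0 t) (cm t) (cn1 t) (cn2 t) (cn3 t)
        (dt P P) (dt S S) (dt P S) (cr P γ) (cr γ S) := by positivity
    linarith
  have h3 : σ * (4 * (s + p)) * V < cT t * V := by
    have := mul_le_mul_of_nonneg_left hg (by linarith : 0 ≤ 4 * (s + p))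
    linarith
  exact lt_of_mul_lt_mul_right h3 hVpos.le

/-- NG7. one corner triangle is large: `diag_I2` (rotate so that the corner is `V1`) with `K = 4`,
`σ₁ I2 ≤ 8`. -/
theorem diag_lt {t : ℝ} (ht : Root t) {P S γ : ℂ} (h : cr P S = 1)
    (hcut : |cr P γ - cr γ S| < 1) (hxy : 4 / 5 ≤ |cr P γ| + |cr γ S|) :
    sigma4 (P + S + γ) (-P + S - γ) (-P - S + γ) (P - S - γ) *
      perim4 (P + S + γ) (-P + S - γ) (-P - S + γ) (P - S - γ) < cT t := by
  have hT := (cst_of_root ht).hT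
  have hG := geo_mk h γ
  have hspos : 0 < (‖S + γ‖ + ‖S - γ‖) / 2 + (‖P + γ‖ + ‖P - γ‖) / 2 := add_pos hG.hs hG.hp
  have hL : 0 < perim4 (P + S + γ) (-P + S - γ) (-P - S + γ) (P - S - γ) := by
    rw [perim4_norm]; linarith
  have hA := area4_norm h hcut
  have hσ := sigma4_nonneg (P + S + γ) (-P + S - γ) (-P - S + γ) (P - S - γ)
  have hσI := sigma_I2 hL
  have hcr : ∀ z w : ℂ, cr z w = z.re * w.im - z.im * w.re := fun _ _ => rfl
  have hI : 0.36325 * 4 * perim4 (P + S + γ) (-P + S - γ) (-P - S + γ) (P - S - γ) ≤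
      I2 (P + S + γ) (-P + S - γ) (-P - S + γ) (P - S - γ) := by
    have k1 : 2 * (4:ℝ) = cr ((-P - S + γ) - (P + S + γ)) ((P - S - γ) - (-P + S - γ)) := by
      have : 2 * (4:ℝ) = 8 * cr P S := by rw [h]; norm_num
      rw [this]
      simp only [hcr, Complex.add_re, Complex.sub_re, Complex.add_im, Complex.sub_im,
        Complex.neg_re, Complex.neg_im]
      ring
    have k2 : 2 * (4:ℝ) = cr ((P - S - γ) - (-P + S - γ)) ((P + S + γ) - (-P - S + γ)) := by
      rw [k1]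
      simp only [hcr, Complex.add_re, Complex.sub_re, Complex.add_im, Complex.sub_im,
        Complex.neg_re, Complex.neg_im]
      ring
    have k3 : 2 * (4:ℝ) = cr ((P + S + γ) - (-P - S + γ)) ((-P + S - γ) - (P - S - γ)) := by
      rw [k1]
      simp only [hcr, Complex.add_re, Complex.sub_re, Complex.add_im, Complex.sub_im,
        Complex.neg_re, Complex.neg_im]
      ring
    have k4 : 2 * (4:ℝ) = cr ((-P + S - γ) - (P - S - γ)) ((-P - S + γ) - (P + S + γ)) := by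
      rw [k1]
      simp only [hcr, Complex.add_re, Complex.sub_re, Complex.add_im, Complex.sub_im,
        Complex.neg_re, Complex.neg_im]
      ring
    have j1 : cr ((P + S + γ) - (P - S - γ)) ((-P + S - γ) - (P + S + γ)) =
        4 * (1 + cr P γ + cr γ S) := by
      rw [← h]
      simp only [hcr, Complex.add_re, Complex.sub_re, Complex.add_im, Complex.sub_im,
        Complex.neg_re, Complex.neg_im]
      ring
    have j2 : cr ((-P + S - γ) - (P + S + γ)) ((-P - S + γ) - (-P + S - γ)) =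
        4 * (1 - cr P γ + cr γ S) := by
      rw [← h]
      simp only [hcr, Complex.add_re, Complex.sub_re, Complex.add_im, Complex.sub_im,
        Complex.neg_re, Complex.neg_im]
      ring
    have j3 : cr ((-P - S + γ) - (-P + S - γ)) ((P - S - γ) - (-P - S + γ)) =
        4 * (1 - cr P γ - cr γ S) := by
      rw [← h]
      simp only [hcr, Complex.add_re, Complex.sub_re, Complex.add_im, Complex.sub_im,
        Complex.neg_re, Complex.neg_im]
      ring
    have j4 : cr ((P - S - γ) - (-P - S + γ)) ((P + S + γ) - (P - S - γ)) =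
        4 * (1 + cr P γ - cr γ S) := by
      rw [← h]
      simp only [hcr, Complex.add_re, Complex.sub_re, Complex.add_im, Complex.sub_im,
        Complex.neg_re, Complex.neg_im]
      ring
    rcases le_total 0 (cr P γ) with hx | hx <;> rcases le_total 0 (cr γ S) with hy | hy
    · rw [abs_of_nonneg hx, abs_of_nonneg hy] at hxy
      exact diag_I2 (by norm_num) k1 (by rw [j1]; linarith)
    · rw [abs_of_nonneg hx, abs_of_nonpos hy] at hxy
      have := diag_I2 (by norm_num) k4 (by rw [j4]; linarith)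
      rwa [← perim4_rot (P - S - γ), ← I2_rot (P - S - γ)] at this
    · rw [abs_of_nonpos hx, abs_of_nonneg hy] at hxy
      have := diag_I2 (by norm_num) k2 (by rw [j2]; linarith)
      rwa [perim4_rot, I2_rot] at this
    · rw [abs_of_nonpos hx, abs_of_nonpos hy] at hxy
      have := diag_I2 (by norm_num) k3 (by rw [j3]; linarith)
      rwa [perim4_rot, I2_rot, perim4_rot, I2_rot] at this
  have h7 := mul_le_mul_of_nonneg_left hI hσ
  nlinarith

/-- NG8. all normalised quadrilaterals -/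
theorem norm_lt {t : ℝ} (ht : Root t) {P S γ : ℂ} (h : cr P S = 1)
    (hcut : |cr P γ - cr γ S| < 1)
    (hns : ¬ IsSq (P + S + γ) (-P + S - γ) (-P - S + γ) (P - S - γ)) :
    sigma4 (P + S + γ) (-P + S - γ) (-P - S + γ) (P - S - γ) *
      perim4 (P + S + γ) (-P + S - γ) (-P - S + γ) (P - S - γ) < cT t := by
  rcases le_total (4 / 5) (|cr P γ| + |cr γ S|) with hxy | hxy
  · exact diag_lt ht h hcut hxy
  rcases le_total (5 / 2) (dt P P + dt S S) with hu | hu
  · exact far_geom ht h hxy (Or.inl hu)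
  rcases le_total (11 / 20) (cr P γ ^ 2 + cr γ S ^ 2) with hv | hv
  · exact far_geom ht h hxy (Or.inr hv)
  refine near_lt ht h hxy hu hv ?_
  by_contra hcon
  push_neg at hcon
  obtain ⟨h1, h2⟩ := hcon
  apply hns
  have hx : cr P γ = 0 := by nlinarith [sq_nonneg (cr P γ), sq_nonneg (cr γ S)]
  have hy : cr γ S = 0 := by nlinarith [sq_nonneg (cr P γ), sq_nonneg (cr γ S)]
  have hγ : γ = 0 := by rw [gamma_eq h γ, hx, hy]; simp
  have hG := geo_mk h γ
  have hab := hG.hab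
  have ha : dt P P = 1 := by nlinarith [sq_nonneg (dt P S), sq_nonneg (dt P P - dt S S), hG.ha, hG.hb]
  have hb : dt S S = 1 := by nlinarith [sq_nonneg (dt P S), sq_nonneg (dt P P - dt S S), hG.ha, hG.hb]
  have hc : dt P S = 0 := by
    rw [ha, hb] at hab
    have : dt P S ^ 2 = 0 := by linarith
    exact pow_eq_zero_iff (two_ne_zero) |>.mp this
  have nP : ‖P‖ = 1 := by
    have : ‖P‖ ^ 2 = 1 := by rw [norm_sq_dt, ha]
    exact (pow_eq_one_iff_of_nonneg (norm_nonneg _) two_ne_zero).mp this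
  have nS : ‖S‖ = 1 := by
    have : ‖S‖ ^ 2 = 1 := by rw [norm_sq_dt, hb]
    exact (pow_eq_one_iff_of_nonneg (norm_nonneg _) two_ne_zero).mp this
  have n2 : ‖(2:ℂ)‖ = 2 := by simp
  subst hγ
  refine ⟨?_, ?_, ?_, ?_, ?_⟩
  · intro e
    have : P + S = 0 := by
      have : 2 * (P + S) = 0 := by linear_combination e
      simpa using this
    have hP : P = -S := by linear_combination this
    rw [hP] at h
    unfold cr at h
    simp only [Complex.neg_re, Complex.neg_im] at h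
    linarith
  · rw [dist_eq_norm, dist_eq_norm]
    have e1 : P + S + 0 - (-P + S - 0) = 2 * P := by ring
    have e2 : -P + S - 0 - (-P - S + 0) = 2 * S := by ring
    rw [e1, e2, norm_mul, norm_mul, nP, nS]
  · rw [dist_eq_norm, dist_eq_norm]
    have e1 : -P - S + 0 - (P - S - 0) = -(2 * P) := by ring
    have e2 : -P + S - 0 - (-P - S + 0) = 2 * S := by ring
    rw [e1, e2, norm_neg, norm_mul, norm_mul, nP, nS]
  · rw [dist_eq_norm, dist_eq_norm]
    have e1 : -P - S + 0 - (P - S - 0) = -(2 * P) := by ring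
    have e2 : P - S - 0 - (P + S + 0) = -(2 * S) := by ring
    rw [e1, e2, norm_neg, norm_neg, norm_mul, norm_mul, nP, nS]
  · rw [dist_eq_norm, dist_eq_norm]
    have e1 : P + S + 0 - (-P - S + 0) = 2 * (P + S) := by ring
    have e2 : -P + S - 0 - (P - S - 0) = 2 * (S - P) := by ring
    rw [e1, e2, norm_mul, norm_mul]
    congr 1
    have : ‖P + S‖ ^ 2 = ‖S - P‖ ^ 2 := by
      rw [norm_sq_dt, norm_sq_dt]
      have e3 : dt (P + S) (P + S) = dt P P + dt S S + 2 * dt P S := by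
        unfold dt; simp only [Complex.add_re, Complex.add_im]; ring
      have e4 : dt (S - P) (S - P) = dt P P + dt S S - 2 * dt P S := by
        unfold dt; simp only [Complex.sub_re, Complex.sub_im]; ring
      rw [e3, e4, hc]; ring
    exact (pow_left_inj₀ (norm_nonneg _) (norm_nonneg _) two_ne_zero).mp this

end Pool.Agent.H32.Q4
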