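import Mathlib
import Pool.Agent.H32.Q4.D
import Pool.Agent.H32.Stek.Cov

set_option autoImplicit false

/-! Steklov problem on quadrilaterals: similarities, exchange of labels, areas. -/

open Complex MeasureTheory
open scoped Pointwise

namespace Pool.Agent.H32.Q4

open Pool.Agent.H32.Stek

lemma Sim_quad_swap (A B C D : ℂ) : quad A D C B = quad A B C D := by
  unfold quad tri
  rw [Set.pair_comm D C, Set.pair_comm C B, Set.union_comm]

lemma Sim_seg_symm (f : ℂ → ℝ) (P Q : ℂ) : segInt f P Q = segInt f Q P := by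
  unfold segInt
  rw [norm_sub_rev Q P]
  congr 1
  have h := intervalIntegral.integral_comp_sub_left (a := 0) (b := 1)
    (fun t : ℝ => f (P + t * (Q - P))) 1
  simp only [sub_zero, sub_self] at h
  rw [← h]
  refine intervalIntegral.integral_congr fun t _ => ?_
  congr 1
  push_cast
  ring

lemma Sim_bd_swap (A B C D : ℂ) : bd4 A D C B = bd4 A B C D := by
  funext f
  unfold bd4
  rw [Sim_seg_symm f A D, Sim_seg_symm f D C, Sim_seg_symm f C B, Sim_seg_symm f B A]
  ring

lemma Sim_energy_swap (A B C D : ℂ) : energy4 A D C B = energy4 A B C D := by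
  funext u
  unfold energy4
  rw [Sim_quad_swap]

/-- Sim1. exchange of `B` and `D`: same region, same boundary -/
theorem sigma4_swap (A B C D : ℂ) : sigma4 A D C B = sigma4 A B C D := by
  unfold sigma4
  rw [Sim_bd_swap, Sim_energy_swap]

theorem perim4_swap (A B C D : ℂ) : perim4 A D C B = perim4 A B C D := by
  unfold perim4
  rw [dist_comm A D, dist_comm D C, dist_comm C B, dist_comm B A]
  ring

theorem area4_swap (A B C D : ℂ) : area4 A D C B = area4 A B C D := by
  unfold area4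
  rw [Sim_quad_swap]

lemma Sim_aff (a t z : ℂ) : a * z + t = aff a 0 t z := by
  unfold aff
  ring

lemma Sim_tri (a t P Q R : ℂ) :
    tri (aff a 0 t P) (aff a 0 t Q) (aff a 0 t R) = aff a 0 t '' tri P Q R := by
  rw [tri, tri, ← affA_coe, AffineMap.image_convexHull, affA_coe]
  congr 1
  rw [Set.image_insert_eq, Set.image_insert_eq, Set.image_singleton]

lemma Sim_quad (a t A B C D : ℂ) :
    quad (aff a 0 t A) (aff a 0 t B) (aff a 0 t C) (aff a 0 t D) = aff a 0 t '' quad A B C D := by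
  unfold quad
  rw [Sim_tri, Sim_tri, Set.image_union]

lemma Sim_meas_quad (A B C D : ℂ) : MeasurableSet (quad A B C D) := by
  have h : IsCompact (quad A B C D) := by
    rw [quad, tri, tri]
    exact ((Set.toFinite _).isCompact_convexHull ℝ).union ((Set.toFinite _).isCompact_convexHull ℝ)
  exact h.isClosed.measurableSet

lemma Sim_int {a : ℂ} (ha : a ≠ 0) (t A B C D : ℂ) (g : ℂ → ℝ) :
    ∫ z in quad (aff a 0 t A) (aff a 0 t B) (aff a 0 t C) (aff a 0 t D), g z =
      ‖a‖ ^ 2 * ∫ z in quad A B C D, g (aff a 0 t z) := by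
  have h0 : ‖(0 : ℂ)‖ < 1 := by simp
  rw [Sim_quad, integral_image_eq_integral_abs_det_fderiv_smul volume (Sim_meas_quad A B C D)
    (fun z _ => (hasFDerivAt_aff a 0 t z).hasFDerivWithinAt) (injective_aff ha h0).injOn,
    abs_det_affL h0]
  simp only [smul_eq_mul]
  rw [integral_const_mul]
  simp

lemma Sim_energy {a : ℂ} (ha : a ≠ 0) (t A B C D : ℂ) {u : ℂ → ℝ} (hu : ContDiff ℝ 1 u) :
    energy4 (aff a 0 t A) (aff a 0 t B) (aff a 0 t C) (aff a 0 t D) u =
      energy4 A B C D (fun z => u (aff a 0 t z)) := by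
  rw [energy4, Sim_int ha, energy4]
  have h : (fun z => ‖grad (fun z => u (aff a 0 t z)) z‖ ^ 2) =
      fun z => ‖a‖ ^ 2 * ‖grad u (aff a 0 t z)‖ ^ 2 := by
    funext z
    have := norm_grad_comp (a := a) (β := 0) (t := t) hu z
    simpa using this
  rw [h, integral_const_mul]

lemma Sim_seg (a t P Q : ℂ) (f : ℂ → ℝ) :
    segInt f (aff a 0 t P) (aff a 0 t Q) = ‖a‖ * segInt (fun z => f (aff a 0 t z)) P Q := by
  unfold segInt
  have h1 : aff a 0 t Q - aff a 0 t P = a * (Q - P) := by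
    unfold aff
    ring
  have h2 : (fun s : ℝ => f (aff a 0 t P + s * (aff a 0 t Q - aff a 0 t P))) =
      fun s : ℝ => f (aff a 0 t (P + s * (Q - P))) := by
    funext s; rw [aff_line]
  rw [h2, h1, norm_mul]
  ring

lemma Sim_bd (a t A B C D : ℂ) (f : ℂ → ℝ) :
    bd4 (aff a 0 t A) (aff a 0 t B) (aff a 0 t C) (aff a 0 t D) f =
      ‖a‖ * bd4 A B C D (fun z => f (aff a 0 t z)) := by
  unfold bd4
  rw [Sim_seg, Sim_seg, Sim_seg, Sim_seg]
  ring

/-- Sim2. similarities (compare `Stek/Cov.lean`) -/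
theorem sigma4_sim {a : ℂ} (ha : a ≠ 0) (t A B C D : ℂ) :
    sigma4 (a * A + t) (a * B + t) (a * C + t) (a * D + t) = sigma4 A B C D / ‖a‖ := by
  have hβ : ‖(0 : ℂ)‖ < 1 := by simp
  have hna : 0 < ‖a‖ := norm_pos_iff.mpr ha
  rw [Sim_aff, Sim_aff, Sim_aff, Sim_aff, sigma4, sigma4]
  have hset : {s | ∃ u : ℂ → ℝ, ContDiff ℝ 1 u ∧
      bd4 (aff a 0 t A) (aff a 0 t B) (aff a 0 t C) (aff a 0 t D) u = 0 ∧
      0 < bd4 (aff a 0 t A) (aff a 0 t B) (aff a 0 t C) (aff a 0 t D) (fun z => u z ^ 2) ∧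
      s = energy4 (aff a 0 t A) (aff a 0 t B) (aff a 0 t C) (aff a 0 t D) u /
        bd4 (aff a 0 t A) (aff a 0 t B) (aff a 0 t C) (aff a 0 t D) (fun z => u z ^ 2)} =
      (‖a‖⁻¹ : ℝ) • {s | ∃ u : ℂ → ℝ, ContDiff ℝ 1 u ∧ bd4 A B C D u = 0 ∧
        0 < bd4 A B C D (fun z => u z ^ 2) ∧
        s = energy4 A B C D u / bd4 A B C D (fun z => u z ^ 2)} := by
    ext s
    rw [Set.mem_smul_set]
    constructor
    · rintro ⟨u, hu, h0, hp, rfl⟩
      rw [Sim_bd] at h0 hp
      refine ⟨energy4 A B C D (fun z => u (aff a 0 t z)) /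
          bd4 A B C D (fun z => u (aff a 0 t z) ^ 2),
        ⟨fun z => u (aff a 0 t z), hu.comp (contDiff_aff a 0 t), ?_, ?_, rfl⟩, ?_⟩
      · rcases mul_eq_zero.mp h0 with h | h
        · exact absurd h hna.ne'
        · exact h
      · exact (pos_iff_pos_of_mul_pos hp).mp hna
      · rw [Sim_energy ha _ _ _ _ _ hu, Sim_bd, smul_eq_mul, inv_mul_eq_div, div_div,
          mul_comm ‖a‖]
    · rintro ⟨s', ⟨w, hw, h0, hp, rfl⟩, rfl⟩
      have hu : ContDiff ℝ 1 (fun z => w (affInv a 0 t z)) := hw.comp (contDiff_affInv a 0 t)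
      have hc : (fun z => w (affInv a 0 t (aff a 0 t z))) = w := by
        funext z; rw [affInv_aff ha hβ]
      have hc2 : (fun z => w (affInv a 0 t (aff a 0 t z)) ^ 2) = fun z => w z ^ 2 := by
        funext z; rw [affInv_aff ha hβ]
      refine ⟨fun z => w (affInv a 0 t z), hu, ?_, ?_, ?_⟩
      · rw [Sim_bd, hc, h0, mul_zero]
      · rw [Sim_bd, hc2]
        exact mul_pos hna hp
      · rw [Sim_energy ha _ _ _ _ _ hu, Sim_bd, hc, hc2, smul_eq_mul, inv_mul_eq_div, div_div,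
          mul_comm ‖a‖]
  rw [hset, Real.sInf_smul_of_nonneg (inv_nonneg.mpr hna.le), smul_eq_mul, inv_mul_eq_div]

theorem perim4_sim (a t A B C D : ℂ) :
    perim4 (a * A + t) (a * B + t) (a * C + t) (a * D + t) = ‖a‖ * perim4 A B C D := by
  have h : ∀ P Q : ℂ, dist (a * P + t) (a * Q + t) = ‖a‖ * dist P Q := by
    intro P Q
    rw [dist_add_right, dist_eq_norm, ← mul_sub, norm_mul, dist_eq_norm]
  unfold perim4
  rw [h, h, h, h]
  ring

theorem area4_sim {a : ℂ} (ha : a ≠ 0) (t A B C D : ℂ) :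
    area4 (a * A + t) (a * B + t) (a * C + t) (a * D + t) = ‖a‖ ^ 2 * area4 A B C D := by
  rw [Sim_aff, Sim_aff, Sim_aff, Sim_aff]
  have h := Sim_int ha t A B C D (fun _ => (1 : ℝ))
  simp only [integral_const, MeasurableSet.univ, measureReal_restrict_apply, Set.univ_inter,
    smul_eq_mul, mul_one] at h
  exact h

end Pool.Agent.H32.Q4
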