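import Mathlib
import Pool.Agent.H32.Q4.K
import Pool.Agent.H32.Stek.Barta

set_option autoImplicit false

/-! Steklov problem on quadrilaterals: lower bound for the square `[-1,1]²`. -/

open Complex MeasureTheory

namespace Pool.Agent.H32.Q4

open Pool.Agent.H32.Stek

/-- Sq1. Barta inequality for functions vanishing at `0`
(compare `Stek.cot_ineq`): `∫₀¹ (φ'² - t²φ²) ≥ t cot t φ(1)²`. -/
theorem cot1 {t : ℝ} (ht : 0 < t) (ht2 : t < 1) {φ φ' : ℝ → ℝ}
    (hφ : ∀ x, HasDerivAt φ (φ' x) x) (hc : Continuous φ') (h0 : φ 0 = 0) :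
    t * (Real.cos t / Real.sin t) * φ 1 ^ 2 ≤
      ∫ x in (0:ℝ)..1, (φ' x ^ 2 - t ^ 2 * φ x ^ 2) := by
  have h := cot_ineq (η := t) (b := 1) ht one_pos (by linarith [Real.pi_gt_three]) hφ hc h0
  simpa using h

/-- Sq2. `∫_{-1}^1 (φ'² + t²φ²) ≥ t tanh t (φ(1)² + φ(-1)²)`: subtract
`d/dx (t tanh(tx) φ²)`; the difference is `(φ' - t tanh(tx) φ)²`. -/
theorem tanh1 {t : ℝ} {φ φ' : ℝ → ℝ}
    (hφ : ∀ x, HasDerivAt φ (φ' x) x) (hc : Continuous φ') :
    t * Real.tanh t * (φ 1 ^ 2 + φ (-1) ^ 2) ≤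
      ∫ x in (-1:ℝ)..1, (φ' x ^ 2 + t ^ 2 * φ x ^ 2) := by
  have hd : Continuous φ := continuous_iff_continuousAt.2 fun y => (hφ y).continuousAt
  have hC : ∀ x : ℝ, Real.cosh x ≠ 0 := fun x => (Real.cosh_pos x).ne'
  set T : ℝ → ℝ := fun x => Real.sinh (t * x) / Real.cosh (t * x) with hT
  have hTc : Continuous T := by
    apply Continuous.div
    · exact Real.continuous_sinh.comp (continuous_const.mul continuous_id)
    · exact Real.continuous_cosh.comp (continuous_const.mul continuous_id)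
    · intro x; exact hC _
  have hTd : ∀ x, HasDerivAt T (t * (1 - T x ^ 2)) x := by
    intro x
    have h1 : HasDerivAt (fun y => t * y) t x := by
      simpa using (hasDerivAt_id x).const_mul t
    have h2 := (h1.sinh).div (h1.cosh) (hC (t * x))
    refine HasDerivAt.congr_deriv h2 ?_
    simp only [hT]
    have h3 := hC (t * x)
    have h4 : Real.cosh (t * x) ^ 2 = Real.sinh (t * x) ^ 2 + 1 := Real.cosh_sq _
    field_simp
  have hG : ∀ x, HasDerivAt (fun y => t * T y * φ y ^ 2)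
      (t * (t * (1 - T x ^ 2)) * φ x ^ 2 + t * T x * (2 * φ x * φ' x)) x := by
    intro x
    have h := ((hTd x).const_mul t).mul ((hφ x).pow 2)
    refine HasDerivAt.congr_deriv h ?_
    simp only [Pi.pow_apply, Nat.cast_ofNat, Nat.add_one_sub_one, pow_one]
  have hint := intervalIntegral.integral_eq_sub_of_hasDerivAt (a := (-1:ℝ)) (b := 1)
    (fun x _ => hG x) (Continuous.intervalIntegrable (by fun_prop) _ _)
  have hT1 : T 1 = Real.tanh t := by
    simp only [hT, mul_one, Real.tanh_eq_sinh_div_cosh]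
  have hT2 : T (-1) = -Real.tanh t := by
    simp only [hT, mul_neg, mul_one, Real.sinh_neg, Real.cosh_neg, Real.tanh_eq_sinh_div_cosh,
      neg_div]
  rw [hT1, hT2] at hint
  have e : t * Real.tanh t * (φ 1 ^ 2 + φ (-1) ^ 2) =
      t * Real.tanh t * φ 1 ^ 2 - t * -Real.tanh t * φ (-1) ^ 2 := by ring
  rw [e, ← hint]
  apply intervalIntegral.integral_mono_on (by norm_num)
  · exact Continuous.intervalIntegrable (by fun_prop) _ _
  · exact Continuous.intervalIntegrable (by fun_prop) _ _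
  · intro x _
    nlinarith [sq_nonneg (φ' x - t * T x * φ x)]

/-- boundary integral and energy on the standard square in coordinates -/
noncomputable def Bq (f : ℝ → ℝ → ℝ) : ℝ :=
  (∫ y in (-1:ℝ)..1, (f 1 y + f (-1) y)) + ∫ x in (-1:ℝ)..1, (f x 1 + f x (-1))

noncomputable def Eq4 (fx fy : ℝ → ℝ → ℝ) : ℝ :=
  ∫ x in (-1:ℝ)..1, ∫ y in (-1:ℝ)..1, (fx x y ^ 2 + fy x y ^ 2)

/-- a `C¹` function of two variables with its partial derivatives -/
structure C1f (f fx fy : ℝ → ℝ → ℝ) : Prop where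
  hx : ∀ x y, HasDerivAt (fun s => f s y) (fx x y) x
  hy : ∀ x y, HasDerivAt (fun s => f x s) (fy x y) y
  cf : Continuous (fun z : ℝ × ℝ => f z.1 z.2)
  cx : Continuous (fun z : ℝ × ℝ => fx z.1 z.2)
  cy : Continuous (fun z : ℝ × ℝ => fy z.1 z.2)

end Pool.Agent.H32.Q4
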