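import Mathlib
import Pool.Agent.H32.Q4.Sq

set_option autoImplicit false

/-! Steklov problem on quadrilaterals: lower bound for the square `[-1,1]²`. -/

open Complex MeasureTheory

namespace Pool.Agent.H32.Q4

open Pool.Agent.H32.Stek

lemma SqE_int {g : ℝ → ℝ} (hg : Continuous g) (a b : ℝ) : IntervalIntegrable g volume a b :=
  hg.intervalIntegrable a b

/-- continuity of a partial integral in the second variable -/
lemma SqE_cx {G : ℝ → ℝ → ℝ} (h : Continuous fun z : ℝ × ℝ => G z.1 z.2) (a b : ℝ) :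
    Continuous fun y => ∫ x in a..b, G x y := by
  apply intervalIntegral.continuous_parametric_intervalIntegral_of_continuous'
  exact h.comp (continuous_snd.prodMk continuous_fst)

/-- continuity of a partial integral in the first variable -/
lemma SqE_cy {G : ℝ → ℝ → ℝ} (h : Continuous fun z : ℝ × ℝ => G z.1 z.2) (a b : ℝ) :
    Continuous fun x => ∫ y in a..b, G x y := by
  apply intervalIntegral.continuous_parametric_intervalIntegral_of_continuous'
  exact h

/-- order of integration -/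
lemma SqE_swap {G : ℝ → ℝ → ℝ} (h : Continuous fun z : ℝ × ℝ => G z.1 z.2) (a b c d : ℝ) :
    ∫ x in a..b, ∫ y in c..d, G x y = ∫ y in c..d, ∫ x in a..b, G x y := by
  apply intervalIntegral_intervalIntegral_swap
  have : Continuous G.uncurry := h
  have h2 : IntegrableOn G.uncurry (Set.uIcc a b ×ˢ Set.uIcc c d) :=
    this.continuousOn.integrableOn_compact (isCompact_uIcc.prod isCompact_uIcc)
  exact h2.mono_set (Set.prod_mono Set.uIoc_subset_uIcc Set.uIoc_subset_uIcc)

/-- even functions -/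
lemma SqE_even {g : ℝ → ℝ} (hg : Continuous g) (he : ∀ x, g (-x) = g x) :
    ∫ x in (-1:ℝ)..1, g x = 2 * ∫ x in (0:ℝ)..1, g x := by
  have h1 : ∫ x in (-1:ℝ)..0, g x = ∫ x in (0:ℝ)..1, g x := by
    have := intervalIntegral.integral_comp_neg (f := g) (a := 0) (b := 1)
    rw [neg_zero] at this
    rw [← this]
    exact intervalIntegral.integral_congr fun x _ => he x
  rw [← intervalIntegral.integral_add_adjacent_intervals (SqE_int hg (-1) 0) (SqE_int hg 0 1), h1]
  ring

/-- Cauchy-Schwarz -/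
lemma SqE_cs {g : ℝ → ℝ} (hg : Continuous g) {a b : ℝ} (hab : a ≤ b) :
    (∫ x in a..b, g x) ^ 2 ≤ (b - a) * ∫ x in a..b, g x ^ 2 := by
  rcases eq_or_lt_of_le hab with h | h
  · subst h; simp
  · set I := ∫ x in a..b, g x with hI
    have h1 : 0 ≤ ∫ x in a..b, (g x - I / (b - a)) ^ 2 :=
      intervalIntegral.integral_nonneg hab fun x _ => sq_nonneg _
    have h2 : ∫ x in a..b, (g x - I / (b - a)) ^ 2 =
        (∫ x in a..b, g x ^ 2) - 2 * (I / (b - a)) * I + (I / (b - a)) ^ 2 * (b - a) := by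
      have e : ∀ x, (g x - I / (b - a)) ^ 2 =
          g x ^ 2 - 2 * (I / (b - a)) * g x + (I / (b - a)) ^ 2 := fun x => by ring
      rw [intervalIntegral.integral_congr (fun x _ => e x),
        intervalIntegral.integral_add (SqE_int (by fun_prop) _ _) (SqE_int (by fun_prop) _ _),
        intervalIntegral.integral_sub (SqE_int (by fun_prop) _ _) (SqE_int (by fun_prop) _ _),
        intervalIntegral.integral_const_mul, intervalIntegral.integral_const, smul_eq_mul, ← hI]
      ring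
    rw [h2] at h1
    have hpos : 0 < b - a := by linarith
    have h3 : 2 * (I / (b - a)) * I - (I / (b - a)) ^ 2 * (b - a) = I ^ 2 / (b - a) := by
      field_simp
      ring
    have h4 : I ^ 2 / (b - a) ≤ ∫ x in a..b, g x ^ 2 := by linarith
    rw [div_le_iff₀ hpos] at h4
    linarith

/-- difference of values and energy on `[0,1]` -/
lemma SqE_one {φ φ' : ℝ → ℝ} (hφ : ∀ x, HasDerivAt φ (φ' x) x) (hc : Continuous φ') {x : ℝ}
    (h0 : 0 ≤ x) (h1 : x ≤ 1) : (φ 1 - φ x) ^ 2 ≤ (1 - x) * ∫ s in (0:ℝ)..1, φ' s ^ 2 := by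
  have e : φ 1 - φ x = ∫ s in x..1, φ' s :=
    (intervalIntegral.integral_eq_sub_of_hasDerivAt (fun s _ => hφ s) (SqE_int hc _ _)).symm
  rw [e]
  refine (SqE_cs hc h1).trans ?_
  apply mul_le_mul_of_nonneg_left _ (by linarith)
  have h2 : 0 ≤ ∫ s in (0:ℝ)..x, φ' s ^ 2 :=
    intervalIntegral.integral_nonneg h0 fun s _ => sq_nonneg _
  rw [← intervalIntegral.integral_add_adjacent_intervals (a := 0) (b := x) (c := 1)
    (SqE_int (by fun_prop) _ _) (SqE_int (by fun_prop) _ _)]
  linarith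

/-- the inequality on the quarter `[0,1]²` -/
lemma SqE_quarter {f fx fy : ℝ → ℝ → ℝ} (h : C1f f fx fy)
    (hm : (∫ y in (0:ℝ)..1, f 1 y) + ∫ x in (0:ℝ)..1, f x 1 = 0) :
    (∫ y in (0:ℝ)..1, f 1 y ^ 2) + ∫ x in (0:ℝ)..1, f x 1 ^ 2 ≤
      (∫ y in (0:ℝ)..1, ∫ x in (0:ℝ)..1, fx x y ^ 2) +
        ∫ x in (0:ℝ)..1, ∫ y in (0:ℝ)..1, fy x y ^ 2 := by
  obtain ⟨hx, hy, cf, cx, cy⟩ := h
  have c1 : Continuous fun y => f 1 y := cf.comp (continuous_const.prodMk continuous_id)
  have c2 : Continuous fun x => f x 1 := cf.comp (continuous_id.prodMk continuous_const)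
  have cfx : ∀ y, Continuous fun s => fx s y := fun y =>
    cx.comp (continuous_id.prodMk continuous_const)
  have cfy : ∀ x, Continuous fun s => fy x s := fun x =>
    cy.comp (continuous_const.prodMk continuous_id)
  set X : ℝ → ℝ := fun y => ∫ s in (0:ℝ)..1, fx s y ^ 2 with hX
  set Y : ℝ → ℝ := fun x => ∫ s in (0:ℝ)..1, fy x s ^ 2 with hY
  have cX : Continuous X := SqE_cx (G := fun s y => fx s y ^ 2) (cx.pow 2) 0 1
  have cY : Continuous Y := SqE_cy (G := fun x s => fy x s ^ 2) (cy.pow 2) 0 1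
  set A1 := ∫ y in (0:ℝ)..1, f 1 y with hA1
  set B1 := ∫ x in (0:ℝ)..1, f x 1 with hB1
  set A2 := ∫ y in (0:ℝ)..1, f 1 y ^ 2 with hA2
  set B2 := ∫ x in (0:ℝ)..1, f x 1 ^ 2 with hB2
  have hpt : ∀ x y, 0 ≤ x → x ≤ 1 → 0 ≤ y → y ≤ 1 →
      (f 1 y - f x 1) ^ 2 ≤ 2 * (1 - x) * X y + 2 * (1 - y) * Y x := by
    intro x y hx0 hx1 hy0 hy1
    have e1 := SqE_one (fun s => hx s y) (cfx y) hx0 hx1
    have e2 := SqE_one (fun s => hy x s) (cfy x) hy0 hy1
    have e3 : (f 1 y - f x 1) ^ 2 ≤ 2 * (f 1 y - f x y) ^ 2 + 2 * (f x 1 - f x y) ^ 2 := by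
      nlinarith [sq_nonneg ((f 1 y - f x y) + (f x 1 - f x y))]
    have e1' : (f 1 y - f x y) ^ 2 ≤ (1 - x) * X y := e1
    have e2' : (f x 1 - f x y) ^ 2 ≤ (1 - y) * Y x := e2
    nlinarith
  set EY := ∫ x in (0:ℝ)..1, Y x with hEY
  have hlin : ∫ x in (0:ℝ)..1, (1 - x) = 1 / 2 := by
    rw [intervalIntegral.integral_sub (by simp) (by simp)]
    simp
    norm_num
  have hint1 : ∀ y, 0 ≤ y → y ≤ 1 → f 1 y ^ 2 - 2 * f 1 y * B1 + B2 ≤ X y + 2 * (1 - y) * EY := by
    intro y hy0 hy1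
    have e1 : ∫ x in (0:ℝ)..1, (f 1 y - f x 1) ^ 2 = f 1 y ^ 2 - 2 * f 1 y * B1 + B2 := by
      have e : ∀ x, (f 1 y - f x 1) ^ 2 = f 1 y ^ 2 - 2 * f 1 y * f x 1 + f x 1 ^ 2 :=
        fun x => by ring
      rw [intervalIntegral.integral_congr (fun x _ => e x),
        intervalIntegral.integral_add (SqE_int (by fun_prop) _ _) (SqE_int (by fun_prop) _ _),
        intervalIntegral.integral_sub (SqE_int (by fun_prop) _ _) (SqE_int (by fun_prop) _ _),
        intervalIntegral.integral_const_mul, intervalIntegral.integral_const, smul_eq_mul]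
      ring
    have e2 : ∫ x in (0:ℝ)..1, (2 * (1 - x) * X y + 2 * (1 - y) * Y x) =
        X y + 2 * (1 - y) * EY := by
      rw [intervalIntegral.integral_add (SqE_int (by fun_prop) _ _) (SqE_int (by fun_prop) _ _),
        intervalIntegral.integral_mul_const, intervalIntegral.integral_const_mul,
        intervalIntegral.integral_const_mul, hlin]
      ring
    rw [← e1, ← e2]
    apply intervalIntegral.integral_mono_on (by norm_num) (SqE_int (by fun_prop) _ _)
      (SqE_int (by fun_prop) _ _)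
    intro x hx
    exact hpt x y hx.1 hx.2 hy0 hy1
  have hint2 : ∫ y in (0:ℝ)..1, (f 1 y ^ 2 - 2 * f 1 y * B1 + B2) ≤
      ∫ y in (0:ℝ)..1, (X y + 2 * (1 - y) * EY) := by
    apply intervalIntegral.integral_mono_on (by norm_num) (SqE_int (by fun_prop) _ _)
      (SqE_int (by fun_prop) _ _)
    intro y hy
    exact hint1 y hy.1 hy.2
  have e3 : ∫ y in (0:ℝ)..1, (f 1 y ^ 2 - 2 * f 1 y * B1 + B2) = A2 - 2 * A1 * B1 + B2 := by
    rw [intervalIntegral.integral_add (SqE_int (by fun_prop) _ _) (SqE_int (by fun_prop) _ _),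
      intervalIntegral.integral_sub (SqE_int (by fun_prop) _ _) (SqE_int (by fun_prop) _ _),
      intervalIntegral.integral_mul_const, intervalIntegral.integral_const_mul,
      intervalIntegral.integral_const, smul_eq_mul]
    ring
  have e4 : ∫ y in (0:ℝ)..1, (X y + 2 * (1 - y) * EY) = (∫ y in (0:ℝ)..1, X y) + EY := by
    rw [intervalIntegral.integral_add (SqE_int (by fun_prop) _ _) (SqE_int (by fun_prop) _ _),
      intervalIntegral.integral_mul_const, intervalIntegral.integral_const_mul, hlin]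
    ring
  rw [e3, e4] at hint2
  have hB : B1 = -A1 := by linarith
  rw [hB] at hint2
  nlinarith [sq_nonneg A1]

/-- Sq5. functions even in both variables with boundary integral `0`. On `[0,1]²` with mean `c`
of `f`: `‖f(1,·) - c‖ ≤ √(Ex/3) + √(Ey/6)`, `‖f(·,1) - c‖ ≤ √(Ey/3) + √(Ex/6)`
(`f(1,y) - ∫f(x,y)dx = ∫ x fx dx`; for `g = ∫ f(x,·) dx`, `∫(g-c)² ≤ (1/6)∫g'²` from
`|g(y)-g(y')|² ≤ |y-y'| ∫g'²`). Sum of squares `≤ (1/2 + 2/√18)(Ex+Ey) ≤ .9715 E`, and
`t tanh t < .69`. -/
theorem sq_even {t : ℝ} (ht : Root t) {f fx fy : ℝ → ℝ → ℝ} (h : C1f f fx fy)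
    (hx : ∀ x y, f (-x) y = f x y) (hy : ∀ x y, f x (-y) = f x y) (hm : Bq f = 0) :
    t * Real.tanh t * Bq (fun x y => f x y ^ 2) ≤ Eq4 fx fy := by
  have hfxx : ∀ x y, fx (-x) y = -fx x y := by
    intro x y
    have h1 : HasDerivAt (fun s => f (-s) y) (fx (-x) y * (-1)) x := by
      have h2 := (h.hx (-x) y)
      exact h2.comp x (hasDerivAt_neg x)
    have h3 : HasDerivAt (fun s => f (-s) y) (fx x y) x := by
      have e : (fun s => f (-s) y) = fun s => f s y := by funext s; exact hx s y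
      rw [e]; exact h.hx x y
    have := h1.unique h3
    linarith
  have hfyy : ∀ x y, fy x (-y) = -fy x y := by
    intro x y
    have h1 : HasDerivAt (fun s => f x (-s)) (fy x (-y) * (-1)) y := by
      have h2 := (h.hy x (-y))
      exact h2.comp y (hasDerivAt_neg y)
    have h3 : HasDerivAt (fun s => f x (-s)) (fy x y) y := by
      have e : (fun s => f x (-s)) = fun s => f x s := by funext s; exact hy x s
      rw [e]; exact h.hy x y
    have := h1.unique h3
    linarith
  have hfxy : ∀ x y, fx x (-y) = fx x y := by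
    intro x y
    have h1 := h.hx x (-y)
    have e : (fun s => f s (-y)) = fun s => f s y := by funext s; exact hy s y
    rw [e] at h1
    exact h1.unique (h.hx x y)
  have hfyx : ∀ x y, fy (-x) y = fy x y := by
    intro x y
    have h1 := h.hy (-x) y
    have e : (fun s => f (-x) s) = fun s => f x s := by funext s; exact hx x s
    rw [e] at h1
    exact h1.unique (h.hy x y)
  have c1 : Continuous fun y => f 1 y := h.cf.comp (continuous_const.prodMk continuous_id)
  have c2 : Continuous fun x => f x 1 := h.cf.comp (continuous_id.prodMk continuous_const)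
  -- the boundary
  have hB1 : Bq f = 4 * ((∫ y in (0:ℝ)..1, f 1 y) + ∫ x in (0:ℝ)..1, f x 1) := by
    unfold Bq
    have e1 : ∫ y in (-1:ℝ)..1, (f 1 y + f (-1) y) = 4 * ∫ y in (0:ℝ)..1, f 1 y := by
      rw [intervalIntegral.integral_congr (g := fun y => 2 * f 1 y)
        (fun y _ => by simp only [hx]; ring), intervalIntegral.integral_const_mul,
        SqE_even c1 (fun y => hy 1 y)]
      ring
    have e2 : ∫ x in (-1:ℝ)..1, (f x 1 + f x (-1)) = 4 * ∫ x in (0:ℝ)..1, f x 1 := by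
      rw [intervalIntegral.integral_congr (g := fun x => 2 * f x 1)
        (fun x _ => by simp only [hy]; ring), intervalIntegral.integral_const_mul,
        SqE_even c2 (fun x => hx x 1)]
      ring
    rw [e1, e2]; ring
  have hB2 : Bq (fun x y => f x y ^ 2) =
      4 * ((∫ y in (0:ℝ)..1, f 1 y ^ 2) + ∫ x in (0:ℝ)..1, f x 1 ^ 2) := by
    unfold Bq
    have e1 : ∫ y in (-1:ℝ)..1, (f 1 y ^ 2 + f (-1) y ^ 2) = 4 * ∫ y in (0:ℝ)..1, f 1 y ^ 2 := by
      rw [intervalIntegral.integral_congr (g := fun y => 2 * f 1 y ^ 2)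
        (fun y _ => by simp only [hx]; ring), intervalIntegral.integral_const_mul,
        SqE_even (g := fun y => f 1 y ^ 2) (c1.pow 2) (fun y => by simp only [hy])]
      ring
    have e2 : ∫ x in (-1:ℝ)..1, (f x 1 ^ 2 + f x (-1) ^ 2) = 4 * ∫ x in (0:ℝ)..1, f x 1 ^ 2 := by
      rw [intervalIntegral.integral_congr (g := fun x => 2 * f x 1 ^ 2)
        (fun x _ => by simp only [hy]; ring), intervalIntegral.integral_const_mul,
        SqE_even (g := fun x => f x 1 ^ 2) (c2.pow 2) (fun x => by simp only [hx])]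
      ring
    rw [e1, e2]; ring
  -- the energy
  have cG : Continuous fun z : ℝ × ℝ => fx z.1 z.2 ^ 2 + fy z.1 z.2 ^ 2 :=
    (h.cx.pow 2).add (h.cy.pow 2)
  have hE : Eq4 fx fy = 4 * ((∫ y in (0:ℝ)..1, ∫ x in (0:ℝ)..1, fx x y ^ 2) +
        ∫ x in (0:ℝ)..1, ∫ y in (0:ℝ)..1, fy x y ^ 2) := by
    unfold Eq4
    have e1 : ∀ x, ∫ y in (-1:ℝ)..1, (fx x y ^ 2 + fy x y ^ 2) =
        2 * ∫ y in (0:ℝ)..1, (fx x y ^ 2 + fy x y ^ 2) := by
      intro x
      apply SqE_even (g := fun y => fx x y ^ 2 + fy x y ^ 2)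
      · exact cG.comp (continuous_const.prodMk continuous_id)
      · intro y
        simp only [hfyy, hfxy]; ring
    rw [intervalIntegral.integral_congr (fun x _ => e1 x), intervalIntegral.integral_const_mul,
      SqE_even (g := fun x => ∫ y in (0:ℝ)..1, (fx x y ^ 2 + fy x y ^ 2))
        (SqE_cy (G := fun x y => fx x y ^ 2 + fy x y ^ 2) cG 0 1) (fun x => by
          apply intervalIntegral.integral_congr
          intro y _
          simp only [hfxx, hfyx]; ring)]
    have e2 : ∀ x, ∫ y in (0:ℝ)..1, (fx x y ^ 2 + fy x y ^ 2) =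
        (∫ y in (0:ℝ)..1, fx x y ^ 2) + ∫ y in (0:ℝ)..1, fy x y ^ 2 := by
      intro x
      apply intervalIntegral.integral_add
      · exact SqE_int ((h.cx.pow 2).comp (continuous_const.prodMk continuous_id)) _ _
      · exact SqE_int ((h.cy.pow 2).comp (continuous_const.prodMk continuous_id)) _ _
    rw [intervalIntegral.integral_congr (fun x _ => e2 x), intervalIntegral.integral_add
      (SqE_int (SqE_cy (G := fun x y => fx x y ^ 2) (h.cx.pow 2) 0 1) _ _)
      (SqE_int (SqE_cy (G := fun x y => fy x y ^ 2) (h.cy.pow 2) 0 1) _ _),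
      SqE_swap (G := fun x y => fx x y ^ 2) (h.cx.pow 2)]
    ring
  have hq := SqE_quarter h (by rw [hB1] at hm; linarith)
  have hBn : 0 ≤ (∫ y in (0:ℝ)..1, f 1 y ^ 2) + ∫ x in (0:ℝ)..1, f x 1 ^ 2 :=
    add_nonneg (intervalIntegral.integral_nonneg (by norm_num) fun y _ => sq_nonneg _)
      (intervalIntegral.integral_nonneg (by norm_num) fun y _ => sq_nonneg _)
  have ht0 : 0 ≤ t := by have := ht.lo; linarith
  have hth : Real.tanh t ≤ 1 := (Real.tanh_lt_one t).le
  have hth0 : 0 ≤ Real.tanh t := by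
    rw [Real.tanh_eq_sinh_div_cosh]
    exact div_nonneg (Real.sinh_nonneg_iff.2 ht0) (Real.cosh_pos t).le
  have htt : t * Real.tanh t ≤ 1 := by
    have := ht.hi
    nlinarith
  rw [hB2, hE]
  nlinarith

end Pool.Agent.H32.Q4
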