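import Mathlib
import Pool.Agent.H32.Q4.Sq

set_option autoImplicit false

/-! Steklov problem on quadrilaterals: lower bound for the square `[-1,1]²`. -/

open Complex MeasureTheory

namespace Pool.Agent.H32.Q4

open Pool.Agent.H32.Stek

theorem SqO_cx {f fx fy : ℝ → ℝ → ℝ} (h : C1f f fx fy) (y : ℝ) : Continuous (fun x => f x y) :=
  h.cf.comp (by fun_prop : Continuous fun x : ℝ => (x, y))

theorem SqO_cy {f fx fy : ℝ → ℝ → ℝ} (h : C1f f fx fy) (x : ℝ) : Continuous (fun y => f x y) :=
  h.cf.comp (by fun_prop : Continuous fun y : ℝ => (x, y))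

theorem SqO_swap {F : ℝ → ℝ → ℝ} (h : Continuous (fun z : ℝ × ℝ => F z.1 z.2)) (a b c d : ℝ) :
    ∫ x in a..b, ∫ y in c..d, F x y = ∫ y in c..d, ∫ x in a..b, F x y := by
  apply intervalIntegral_intervalIntegral_swap
  exact (h.continuousOn.integrableOn_compact (isCompact_uIcc.prod isCompact_uIcc)).mono_set
    (Set.prod_mono Set.uIoc_subset_uIcc Set.uIoc_subset_uIcc)

/-- one-dimensional inequality for odd functions on `[-1,1]` -/
theorem SqO_cot2 {t : ℝ} (ht : 0 < t) (ht2 : t < 1) {φ φ' : ℝ → ℝ}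
    (hφ : ∀ x, HasDerivAt φ (φ' x) x) (hc : Continuous φ') (h0 : φ 0 = 0) :
    t * (Real.cos t / Real.sin t) * (φ 1 ^ 2 + φ (-1) ^ 2) ≤
      ∫ x in (-1:ℝ)..1, (φ' x ^ 2 - t ^ 2 * φ x ^ 2) := by
  have hd : Continuous φ := continuous_iff_continuousAt.2 fun y => (hφ y).continuousAt
  have hF : Continuous (fun x => φ' x ^ 2 - t ^ 2 * φ x ^ 2) := by fun_prop
  rw [fold_symm hF 1]
  have h1 := cot1 ht ht2 hφ hc h0
  have hψ : ∀ x, HasDerivAt (fun x => φ (-x)) (-(φ' (-x))) x := by
    intro x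
    have := HasDerivAt.comp x (hφ (-x)) (hasDerivAt_neg x)
    refine HasDerivAt.congr_deriv this ?_
    ring
  have h2 := cot1 ht ht2 hψ (by fun_prop) (by simpa using h0)
  have e : (∫ x in (0:ℝ)..1, (φ' x ^ 2 - t ^ 2 * φ x ^ 2 + (φ' (-x) ^ 2 - t ^ 2 * φ (-x) ^ 2))) =
      (∫ x in (0:ℝ)..1, (φ' x ^ 2 - t ^ 2 * φ x ^ 2)) +
      ∫ x in (0:ℝ)..1, ((-(φ' (-x))) ^ 2 - t ^ 2 * φ (-x) ^ 2) := by
    rw [← intervalIntegral.integral_add]
    · apply intervalIntegral.integral_congr
      intro x _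
      simp only [neg_sq]
    · exact Continuous.intervalIntegrable (by fun_prop) _ _
    · exact Continuous.intervalIntegrable (by fun_prop) _ _
  rw [e]
  linarith

/-- Sq3. functions odd in `x`: `cot1` (on both halves) in `x`, `tanh1` in `y`, and
`cot t = tanh t`. -/
theorem sq_odd {t : ℝ} (ht : Root t) {f fx fy : ℝ → ℝ → ℝ} (h : C1f f fx fy)
    (hodd : ∀ x y, f (-x) y = -f x y) :
    t * Real.tanh t * Bq (fun x y => f x y ^ 2) ≤ Eq4 fx fy := by
  have ht0 : 0 < t := by linarith [ht.lo]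
  have ht1 : t < 1 := by linarith [ht.hi]
  have hf := h.cf
  have hx := h.cx
  have hy := h.cy
  have hsin : 0 < Real.sin t :=
    Real.sin_pos_of_pos_of_lt_pi ht0 (by linarith [Real.pi_gt_three])
  have hct : Real.cos t / Real.sin t = Real.tanh t := by
    rw [Real.tanh_eq_sinh_div_cosh, div_eq_div_iff hsin.ne' (Real.cosh_pos t).ne']
    linarith [ht.eq]
  have hzero : ∀ y, f 0 y = 0 := by
    intro y
    have := hodd 0 y
    rw [neg_zero] at this
    linarith
  -- horizontal slices
  have A : ∀ y, t * Real.tanh t * (f 1 y ^ 2 + f (-1) y ^ 2) ≤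
      ∫ x in (-1:ℝ)..1, (fx x y ^ 2 - t ^ 2 * f x y ^ 2) := by
    intro y
    rw [← hct]
    exact SqO_cot2 ht0 ht1 (φ := fun x => f x y) (φ' := fun x => fx x y) (fun x => h.hx x y)
      (hx.comp (by fun_prop : Continuous fun x : ℝ => (x, y))) (hzero y)
  have B : ∀ x, t * Real.tanh t * (f x 1 ^ 2 + f x (-1) ^ 2) ≤
      ∫ y in (-1:ℝ)..1, (fy x y ^ 2 + t ^ 2 * f x y ^ 2) := by
    intro x
    exact tanh1 (φ := fun y => f x y) (φ' := fun y => fy x y) (fun y => h.hy x y)
      (hy.comp (by fun_prop : Continuous fun y : ℝ => (x, y)))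
  -- integrate
  have cA : Continuous (fun z : ℝ × ℝ => fx z.1 z.2 ^ 2 - t ^ 2 * f z.1 z.2 ^ 2) := by
    fun_prop
  have cA' : Continuous (fun z : ℝ × ℝ => fx z.2 z.1 ^ 2 - t ^ 2 * f z.2 z.1 ^ 2) :=
    cA.comp continuous_swap
  have cB : Continuous (fun z : ℝ × ℝ => fy z.1 z.2 ^ 2 + t ^ 2 * f z.1 z.2 ^ 2) := by
    fun_prop
  have A2 : t * Real.tanh t * (∫ y in (-1:ℝ)..1, (f 1 y ^ 2 + f (-1) y ^ 2)) ≤
      ∫ y in (-1:ℝ)..1, ∫ x in (-1:ℝ)..1, (fx x y ^ 2 - t ^ 2 * f x y ^ 2) := by
    rw [← intervalIntegral.integral_const_mul]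
    apply intervalIntegral.integral_mono_on (by norm_num)
    · have c1 := SqO_cy h 1
      have c2 := SqO_cy h (-1)
      exact Continuous.intervalIntegrable (by fun_prop) _ _
    · apply Continuous.intervalIntegrable
      exact intervalIntegral.continuous_parametric_intervalIntegral_of_continuous' cA' _ _
    · intro y _
      exact A y
  have B2 : t * Real.tanh t * (∫ x in (-1:ℝ)..1, (f x 1 ^ 2 + f x (-1) ^ 2)) ≤
      ∫ x in (-1:ℝ)..1, ∫ y in (-1:ℝ)..1, (fy x y ^ 2 + t ^ 2 * f x y ^ 2) := by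
    rw [← intervalIntegral.integral_const_mul]
    apply intervalIntegral.integral_mono_on (by norm_num)
    · have c1 := SqO_cx h 1
      have c2 := SqO_cx h (-1)
      exact Continuous.intervalIntegrable (by fun_prop) _ _
    · apply Continuous.intervalIntegrable
      exact intervalIntegral.continuous_parametric_intervalIntegral_of_continuous' cB _ _
    · intro x _
      exact B x
  have sw : (∫ y in (-1:ℝ)..1, ∫ x in (-1:ℝ)..1, (fx x y ^ 2 - t ^ 2 * f x y ^ 2)) =
      ∫ x in (-1:ℝ)..1, ∫ y in (-1:ℝ)..1, (fx x y ^ 2 - t ^ 2 * f x y ^ 2) := by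
    exact SqO_swap (F := fun y x => fx x y ^ 2 - t ^ 2 * f x y ^ 2) cA' _ _ _ _
  have sum : (∫ x in (-1:ℝ)..1, ∫ y in (-1:ℝ)..1, (fx x y ^ 2 - t ^ 2 * f x y ^ 2)) +
      (∫ x in (-1:ℝ)..1, ∫ y in (-1:ℝ)..1, (fy x y ^ 2 + t ^ 2 * f x y ^ 2)) = Eq4 fx fy := by
    unfold Eq4
    rw [← intervalIntegral.integral_add]
    · apply intervalIntegral.integral_congr
      intro x _
      simp only
      rw [← intervalIntegral.integral_add]
      · apply intervalIntegral.integral_congr
        intro y _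
        simp only
        ring
      · apply Continuous.intervalIntegrable
        exact cA.comp (by fun_prop : Continuous fun y : ℝ => (x, y))
      · apply Continuous.intervalIntegrable
        exact cB.comp (by fun_prop : Continuous fun y : ℝ => (x, y))
    · apply Continuous.intervalIntegrable
      exact intervalIntegral.continuous_parametric_intervalIntegral_of_continuous' cA _ _
    · apply Continuous.intervalIntegrable
      exact intervalIntegral.continuous_parametric_intervalIntegral_of_continuous' cB _ _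
  unfold Bq
  rw [mul_add, ← sum, ← sw]
  exact add_le_add A2 B2

/-- Sq4. the same for functions odd in `y` -/
theorem sq_odd' {t : ℝ} (ht : Root t) {f fx fy : ℝ → ℝ → ℝ} (h : C1f f fx fy)
    (hodd : ∀ x y, f x (-y) = -f x y) :
    t * Real.tanh t * Bq (fun x y => f x y ^ 2) ≤ Eq4 fx fy := by
  have h' : C1f (fun x y => f y x) (fun x y => fy y x) (fun x y => fx y x) :=
    { hx := fun x y => h.hy y x
      hy := fun x y => h.hx y x
      cf := h.cf.comp continuous_swap
      cx := h.cy.comp continuous_swap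
      cy := h.cx.comp continuous_swap }
  have key := sq_odd ht h' (fun x y => hodd y x)
  have e1 : Bq (fun x y => f y x ^ 2) = Bq (fun x y => f x y ^ 2) := by
    unfold Bq
    rw [add_comm]
  have e2 : Eq4 (fun x y => fy y x) (fun x y => fx y x) = Eq4 fx fy := by
    have hf := h.cf
    have hx := h.cx
    have hy := h.cy
    unfold Eq4
    rw [SqO_swap (F := fun x y => fy y x ^ 2 + fx y x ^ 2) (by
      have : Continuous (fun z : ℝ × ℝ => fy z.1 z.2 ^ 2 + fx z.1 z.2 ^ 2) := by fun_prop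
      exact this.comp continuous_swap)]
    apply intervalIntegral.integral_congr
    intro x _
    simp only
    apply intervalIntegral.integral_congr
    intro y _
    simp only
    ring
  rw [e1, e2] at key
  exact key

end Pool.Agent.H32.Q4
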