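import Mathlib
import Pool.Agent.H32.Q4.SqO
import Pool.Agent.H32.Q4.SqE
import Pool.Agent.H32.Q4.SimA

set_option autoImplicit false

/-! Steklov problem on quadrilaterals: lower bound for the square `[-1,1]²`. -/

open Complex MeasureTheory

namespace Pool.Agent.H32.Q4

open Pool.Agent.H32.Stek

/-! ### reflections -/

lemma SqF_neg {g : ℝ → ℝ} : ∫ x in (-1:ℝ)..1, g (-x) = ∫ x in (-1:ℝ)..1, g x := by
  have := intervalIntegral.integral_comp_neg (f := g) (a := -1) (b := 1)
  rw [neg_neg] at this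
  exact this

lemma SqF_bq_neg (f : ℝ → ℝ → ℝ) : Bq (fun x y => f (-x) y) = Bq f := by
  unfold Bq
  have e1 : ∫ x in (-1:ℝ)..1, (f (-x) 1 + f (-x) (-1)) = ∫ x in (-1:ℝ)..1, (f x 1 + f x (-1)) :=
    SqF_neg (g := fun x => f x 1 + f x (-1))
  have e2 : ∫ y in (-1:ℝ)..1, (f (-1) y + f (- -1) y) = ∫ y in (-1:ℝ)..1, (f 1 y + f (-1) y) := by
    apply intervalIntegral.integral_congr
    intro y _
    simp only [neg_neg]
    ring
  rw [e1, e2]

lemma SqF_bq_neg' (f : ℝ → ℝ → ℝ) : Bq (fun x y => f x (-y)) = Bq f := by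
  unfold Bq
  have e1 : ∫ y in (-1:ℝ)..1, (f 1 (-y) + f (-1) (-y)) = ∫ y in (-1:ℝ)..1, (f 1 y + f (-1) y) :=
    SqF_neg (g := fun y => f 1 y + f (-1) y)
  have e2 : ∫ x in (-1:ℝ)..1, (f x (-1) + f x (- -1)) = ∫ x in (-1:ℝ)..1, (f x 1 + f x (-1)) := by
    apply intervalIntegral.integral_congr
    intro y _
    simp only [neg_neg]
    ring
  rw [e1, e2]

/-- linearity of the boundary integral -/
lemma SqF_bq_lin {f g : ℝ → ℝ → ℝ} (hf : Continuous fun z : ℝ × ℝ => f z.1 z.2)
    (hg : Continuous fun z : ℝ × ℝ => g z.1 z.2) (a : ℝ) :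
    Bq (fun x y => (f x y + g x y) * a) = (Bq f + Bq g) * a := by
  have hf1 : ∀ c, Continuous fun y => f c y := fun c => hf.comp (continuous_const.prodMk continuous_id)
  have hf2 : ∀ c, Continuous fun x => f x c := fun c => hf.comp (continuous_id.prodMk continuous_const)
  have hg1 : ∀ c, Continuous fun y => g c y := fun c => hg.comp (continuous_const.prodMk continuous_id)
  have hg2 : ∀ c, Continuous fun x => g x c := fun c => hg.comp (continuous_id.prodMk continuous_const)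
  unfold Bq
  have e1 : ∫ y in (-1:ℝ)..1, ((f 1 y + g 1 y) * a + (f (-1) y + g (-1) y) * a) =
      ((∫ y in (-1:ℝ)..1, (f 1 y + f (-1) y)) + ∫ y in (-1:ℝ)..1, (g 1 y + g (-1) y)) * a := by
    have i1 : IntervalIntegrable (fun y => f 1 y + f (-1) y) volume (-1) 1 :=
      SqE_int ((hf1 1).add (hf1 (-1))) _ _
    have i2 : IntervalIntegrable (fun y => g 1 y + g (-1) y) volume (-1) 1 :=
      SqE_int ((hg1 1).add (hg1 (-1))) _ _
    rw [← intervalIntegral.integral_add i1 i2, ← intervalIntegral.integral_mul_const]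
    apply intervalIntegral.integral_congr
    intro y _
    simp only
    ring
  have e2 : ∫ x in (-1:ℝ)..1, ((f x 1 + g x 1) * a + (f x (-1) + g x (-1)) * a) =
      ((∫ x in (-1:ℝ)..1, (f x 1 + f x (-1))) + ∫ x in (-1:ℝ)..1, (g x 1 + g x (-1))) * a := by
    have i1 : IntervalIntegrable (fun x => f x 1 + f x (-1)) volume (-1) 1 :=
      SqE_int ((hf2 1).add (hf2 (-1))) _ _
    have i2 : IntervalIntegrable (fun x => g x 1 + g x (-1)) volume (-1) 1 :=
      SqE_int ((hg2 1).add (hg2 (-1))) _ _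
    rw [← intervalIntegral.integral_add i1 i2, ← intervalIntegral.integral_mul_const]
    apply intervalIntegral.integral_congr
    intro y _
    simp only
    ring
  rw [e1, e2]
  ring

/-- the double integral -/
noncomputable def SqF_D (G : ℝ → ℝ → ℝ) : ℝ := ∫ x in (-1:ℝ)..1, ∫ y in (-1:ℝ)..1, G x y

lemma SqF_D_neg (G : ℝ → ℝ → ℝ) : SqF_D (fun x y => G (-x) y) = SqF_D G :=
  SqF_neg (g := fun x => ∫ y in (-1:ℝ)..1, G x y)

lemma SqF_D_neg' (G : ℝ → ℝ → ℝ) : SqF_D (fun x y => G x (-y)) = SqF_D G := by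
  unfold SqF_D
  apply intervalIntegral.integral_congr
  intro x _
  exact SqF_neg (g := fun y => G x y)

lemma SqF_D_lin {f g : ℝ → ℝ → ℝ} (hf : Continuous fun z : ℝ × ℝ => f z.1 z.2)
    (hg : Continuous fun z : ℝ × ℝ => g z.1 z.2) (a : ℝ) :
    SqF_D (fun x y => (f x y + g x y) * a) = (SqF_D f + SqF_D g) * a := by
  unfold SqF_D
  have e : ∀ x, ∫ y in (-1:ℝ)..1, (f x y + g x y) * a =
      ((∫ y in (-1:ℝ)..1, f x y) + ∫ y in (-1:ℝ)..1, g x y) * a := by
    intro x
    have i1 : IntervalIntegrable (fun y => f x y) volume (-1) 1 :=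
      SqE_int (hf.comp (continuous_const.prodMk continuous_id)) _ _
    have i2 : IntervalIntegrable (fun y => g x y) volume (-1) 1 :=
      SqE_int (hg.comp (continuous_const.prodMk continuous_id)) _ _
    rw [intervalIntegral.integral_mul_const, intervalIntegral.integral_add i1 i2]
  rw [intervalIntegral.integral_congr (fun x _ => e x), intervalIntegral.integral_mul_const,
    intervalIntegral.integral_add (SqE_int (SqE_cy hf _ _) _ _) (SqE_int (SqE_cy hg _ _) _ _)]

/-- Sq6. decomposition into parts odd/even in `x`, then `y`. -/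
theorem sq_all {t : ℝ} (ht : Root t) {f fx fy : ℝ → ℝ → ℝ} (h : C1f f fx fy) (hm : Bq f = 0) :
    t * Real.tanh t * Bq (fun x y => f x y ^ 2) ≤ Eq4 fx fy := by
  have cn : Continuous fun z : ℝ × ℝ => ((-z.1, z.2) : ℝ × ℝ) := by fun_prop
  have cn' : Continuous fun z : ℝ × ℝ => ((z.1, -z.2) : ℝ × ℝ) := by fun_prop
  -- reflected functions
  have R1 : ∀ {f fx fy : ℝ → ℝ → ℝ}, C1f f fx fy →
      C1f (fun x y => f (-x) y) (fun x y => -fx (-x) y) (fun x y => fy (-x) y) := by
    intro f fx fy h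
    refine ⟨fun x y => ?_, fun x y => h.hy (-x) y, h.cf.comp cn, (h.cx.comp cn).neg, h.cy.comp cn⟩
    have h1 := (h.hx (-x) y).comp x (hasDerivAt_neg x)
    have e : fx (-x) y * -1 = -fx (-x) y := by ring
    rw [e] at h1
    exact h1
  have R2 : ∀ {f fx fy : ℝ → ℝ → ℝ}, C1f f fx fy →
      C1f (fun x y => f x (-y)) (fun x y => fx x (-y)) (fun x y => -fy x (-y)) := by
    intro f fx fy h
    refine ⟨fun x y => h.hx x (-y), fun x y => ?_, h.cf.comp cn', h.cx.comp cn',
      (h.cy.comp cn').neg⟩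
    have h1 := (h.hy x (-y)).comp y (hasDerivAt_neg y)
    have e : fy x (-y) * -1 = -fy x (-y) := by ring
    rw [e] at h1
    exact h1
  have A : ∀ {f fx fy g gx gy : ℝ → ℝ → ℝ}, C1f f fx fy → C1f g gx gy →
      C1f (fun x y => (f x y + g x y) * (1 / 2)) (fun x y => (fx x y + gx x y) * (1 / 2))
        (fun x y => (fy x y + gy x y) * (1 / 2)) := by
    intro f fx fy g gx gy h k
    exact ⟨fun x y => ((h.hx x y).add (k.hx x y)).mul_const _,
      fun x y => ((h.hy x y).add (k.hy x y)).mul_const _,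
      (h.cf.add k.cf).mul_const _, (h.cx.add k.cx).mul_const _, (h.cy.add k.cy).mul_const _⟩
  have N : ∀ {g gx gy : ℝ → ℝ → ℝ}, C1f g gx gy →
      C1f (fun x y => -g x y) (fun x y => -gx x y) (fun x y => -gy x y) := by
    intro g gx gy k
    exact ⟨fun x y => (k.hx x y).neg, fun x y => (k.hy x y).neg, k.cf.neg, k.cx.neg, k.cy.neg⟩
  -- one step of the decomposition
  have h1 := R1 h
  have hE1 := A h h1
  have hO1 := A h (N h1)
  set fe : ℝ → ℝ → ℝ := fun x y => (f x y + f (-x) y) * (1 / 2) with hfe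
  set fex : ℝ → ℝ → ℝ := fun x y => (fx x y + -fx (-x) y) * (1 / 2) with hfex
  set fey : ℝ → ℝ → ℝ := fun x y => (fy x y + fy (-x) y) * (1 / 2) with hfey
  have h2 := R2 hE1
  have hE2 := A hE1 h2
  have hO2 := A hE1 (N h2)
  have p1 := sq_odd ht hO1 (fun x y => by simp only [neg_neg]; ring)
  have p2 := sq_odd' ht hO2 (fun x y => by simp only [neg_neg]; ring)
  have hm1 : Bq fe = 0 := by
    rw [hfe, SqF_bq_lin (f := f) (g := fun x y => f (-x) y) h.cf h1.cf, SqF_bq_neg f, hm]; ring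
  have p3 := sq_even ht hE2 (fun x y => by simp only [hfe, neg_neg]; ring)
    (fun x y => by simp only [neg_neg]; ring) (by
      rw [SqF_bq_lin (f := fe) (g := fun x y => fe x (-y)) hE1.cf h2.cf, SqF_bq_neg' fe, hm1]
      ring)
  -- boundary terms
  have sqc : ∀ {f : ℝ → ℝ → ℝ}, Continuous (fun z : ℝ × ℝ => f z.1 z.2) →
      Continuous (fun z : ℝ × ℝ => (fun x y => f x y ^ 2) z.1 z.2) := fun h => h.pow 2
  have bsum : ∀ {f g : ℝ → ℝ → ℝ}, Continuous (fun z : ℝ × ℝ => f z.1 z.2) →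
      Continuous (fun z : ℝ × ℝ => g z.1 z.2) →
      Bq (fun x y => ((f x y + g x y) * (1 / 2)) ^ 2) +
        Bq (fun x y => ((f x y + -g x y) * (1 / 2)) ^ 2) =
      (Bq (fun x y => f x y ^ 2) + Bq (fun x y => g x y ^ 2)) * (1 / 2) := by
    intro f g hf hg
    have c1 : Continuous (fun z : ℝ × ℝ => (fun x y => ((f x y + g x y) * (1 / 2)) ^ 2) z.1 z.2) :=
      ((hf.add hg).mul_const _).pow 2
    have c2 : Continuous (fun z : ℝ × ℝ => (fun x y => ((f x y + -g x y) * (1 / 2)) ^ 2) z.1 z.2) :=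
      ((hf.add hg.neg).mul_const _).pow 2
    have e1 := SqF_bq_lin (f := fun x y => ((f x y + g x y) * (1 / 2)) ^ 2)
      (g := fun x y => ((f x y + -g x y) * (1 / 2)) ^ 2) c1 c2 1
    rw [mul_one] at e1
    rw [← e1, ← SqF_bq_lin (f := fun x y => f x y ^ 2) (g := fun x y => g x y ^ 2)
      (sqc hf) (sqc hg)]
    congr 1
    funext x y
    ring
  have esum : ∀ {fx fy gx gy : ℝ → ℝ → ℝ}, Continuous (fun z : ℝ × ℝ => fx z.1 z.2) →
      Continuous (fun z : ℝ × ℝ => fy z.1 z.2) → Continuous (fun z : ℝ × ℝ => gx z.1 z.2) →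
      Continuous (fun z : ℝ × ℝ => gy z.1 z.2) →
      Eq4 (fun x y => (fx x y + gx x y) * (1 / 2)) (fun x y => (fy x y + gy x y) * (1 / 2)) +
        Eq4 (fun x y => (fx x y + -gx x y) * (1 / 2)) (fun x y => (fy x y + -gy x y) * (1 / 2)) =
      (Eq4 fx fy + Eq4 gx gy) * (1 / 2) := by
    intro fx fy gx gy h1 h2 h3 h4
    have c1 : Continuous (fun z : ℝ × ℝ => (fun x y => ((fx x y + gx x y) * (1 / 2)) ^ 2 +
        ((fy x y + gy x y) * (1 / 2)) ^ 2) z.1 z.2) :=
      (((h1.add h3).mul_const _).pow 2).add (((h2.add h4).mul_const _).pow 2)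
    have c2 : Continuous (fun z : ℝ × ℝ => (fun x y => ((fx x y + -gx x y) * (1 / 2)) ^ 2 +
        ((fy x y + -gy x y) * (1 / 2)) ^ 2) z.1 z.2) :=
      (((h1.add h3.neg).mul_const _).pow 2).add (((h2.add h4.neg).mul_const _).pow 2)
    have c3 : Continuous (fun z : ℝ × ℝ => (fun x y => fx x y ^ 2 + fy x y ^ 2) z.1 z.2) :=
      (h1.pow 2).add (h2.pow 2)
    have c4 : Continuous (fun z : ℝ × ℝ => (fun x y => gx x y ^ 2 + gy x y ^ 2) z.1 z.2) :=
      (h3.pow 2).add (h4.pow 2)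
    have e1 := SqF_D_lin (f := fun x y => ((fx x y + gx x y) * (1 / 2)) ^ 2 +
        ((fy x y + gy x y) * (1 / 2)) ^ 2) (g := fun x y => ((fx x y + -gx x y) * (1 / 2)) ^ 2 +
        ((fy x y + -gy x y) * (1 / 2)) ^ 2) c1 c2 1
    have e2 := SqF_D_lin (f := fun x y => fx x y ^ 2 + fy x y ^ 2)
      (g := fun x y => gx x y ^ 2 + gy x y ^ 2) c3 c4 (1 / 2)
    rw [mul_one] at e1
    show SqF_D _ + SqF_D _ = (SqF_D _ + SqF_D _) * (1 / 2)
    rw [← e1, ← e2]
    congr 1
    funext x y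
    ring
  have b1 := bsum (f := f) (g := fun x y => f (-x) y) h.cf h1.cf
  have b2 := bsum (f := fe) (g := fun x y => fe x (-y)) hE1.cf h2.cf
  have b3 : Bq (fun x y => f (-x) y ^ 2) = Bq (fun x y => f x y ^ 2) :=
    SqF_bq_neg (fun x y => f x y ^ 2)
  have b4 : Bq (fun x y => fe x (-y) ^ 2) = Bq (fun x y => fe x y ^ 2) :=
    SqF_bq_neg' (fun x y => fe x y ^ 2)
  have n1 := esum (fx := fx) (fy := fy) (gx := fun x y => -fx (-x) y)
    (gy := fun x y => fy (-x) y) h.cx h.cy h1.cx h1.cy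
  have n2 := esum (fx := fex) (fy := fey) (gx := fun x y => fex x (-y))
    (gy := fun x y => -fey x (-y)) hE1.cx hE1.cy h2.cx h2.cy
  have n3 : Eq4 (fun x y => -fx (-x) y) (fun x y => fy (-x) y) = Eq4 fx fy := by
    have := SqF_D_neg (fun x y => (fx x y) ^ 2 + fy x y ^ 2)
    have e : Eq4 (fun x y => -fx (-x) y) (fun x y => fy (-x) y) =
        SqF_D (fun x y => (fx (-x) y) ^ 2 + fy (-x) y ^ 2) := by
      unfold Eq4 SqF_D
      simp only [neg_sq]
    rw [e, this]
    rfl
  have n4 : Eq4 (fun x y => fex x (-y)) (fun x y => -fey x (-y)) = Eq4 fex fey := by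
    have := SqF_D_neg' (fun x y => (fex x y) ^ 2 + fey x y ^ 2)
    have e : Eq4 (fun x y => fex x (-y)) (fun x y => -fey x (-y)) =
        SqF_D (fun x y => (fex x (-y)) ^ 2 + fey x (-y) ^ 2) := by
      unfold Eq4 SqF_D
      simp only [neg_sq]
    rw [e, this]
    rfl
  rw [b3] at b1
  rw [b4] at b2
  rw [n3] at n1
  rw [n4] at n2
  set c := t * Real.tanh t with hc
  have q1 : c * Bq (fun x y => f x y ^ 2) = c * Bq (fun x y => fe x y ^ 2) +
      c * Bq (fun x y => ((f x y + -f (-x) y) * (1 / 2)) ^ 2) := by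
    rw [← mul_add, show Bq (fun x y => fe x y ^ 2) +
      Bq (fun x y => ((f x y + -f (-x) y) * (1 / 2)) ^ 2) = Bq (fun x y => f x y ^ 2) by
        rw [hfe]; linarith [b1]]
  have q2 : c * Bq (fun x y => fe x y ^ 2) = c * Bq (fun x y => ((fe x y + fe x (-y)) * (1 / 2)) ^ 2) +
      c * Bq (fun x y => ((fe x y + -fe x (-y)) * (1 / 2)) ^ 2) := by
    rw [← mul_add]
    congr 1
    linarith [b2]
  linarith [p1, p2, p3, n1, n2, q1, q2]

lemma SqF_sub1 (g : ℝ → ℝ) : 2 * ∫ t in (0:ℝ)..1, g (1 - 2 * t) = ∫ x in (-1:ℝ)..1, g x := by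
  have := intervalIntegral.integral_comp_sub_mul (f := g) (a := 0) (b := 1) (c := 2)
    (by norm_num) 1
  rw [this, smul_eq_mul]
  norm_num
  ring

lemma SqF_sub2 (g : ℝ → ℝ) : 2 * ∫ t in (0:ℝ)..1, g (-1 + 2 * t) = ∫ x in (-1:ℝ)..1, g x := by
  have := intervalIntegral.integral_comp_add_mul (f := g) (a := 0) (b := 1) (c := 2)
    (by norm_num) (-1)
  rw [this, smul_eq_mul]
  norm_num
  ring

/-- Sq7. -/
theorem bd4_std (f : ℂ → ℝ) (hf : Continuous f) : bd4 (1 + I) (-1 + I) (-1 - I) (1 - I) f =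
    Bq (fun x y => f (x + y * I)) := by
  have e1 : segInt f (1 + I) (-1 + I) = ∫ x in (-1:ℝ)..1, f (x + (1:ℝ) * I) := by
    unfold segInt
    have hn : ‖(-1 + I) - (1 + I)‖ = 2 := by
      have : (-1 + I) - (1 + I) = ((-2 : ℝ) : ℂ) := by push_cast; ring
      rw [this, Complex.norm_real]; norm_num
    rw [hn, ← SqF_sub1 (fun x => f (x + (1:ℝ) * I))]
    congr 1
    apply intervalIntegral.integral_congr
    intro t _
    simp only
    congr 1
    push_cast
    ring
  have e2 : segInt f (-1 + I) (-1 - I) = ∫ y in (-1:ℝ)..1, f ((-1:ℝ) + y * I) := by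
    unfold segInt
    have hn : ‖(-1 - I) - (-1 + I)‖ = 2 := by
      have : (-1 - I) - (-1 + I) = ((-2 : ℝ) : ℂ) * I := by push_cast; ring
      rw [this, norm_mul, Complex.norm_real, Complex.norm_I]; norm_num
    rw [hn, ← SqF_sub1 (fun y => f ((-1:ℝ) + y * I))]
    congr 1
    apply intervalIntegral.integral_congr
    intro t _
    simp only
    congr 1
    push_cast
    ring
  have e3 : segInt f (-1 - I) (1 - I) = ∫ x in (-1:ℝ)..1, f (x + (-1:ℝ) * I) := by
    unfold segInt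
    have hn : ‖(1 - I) - (-1 - I)‖ = 2 := by
      have : (1 - I) - (-1 - I) = ((2 : ℝ) : ℂ) := by push_cast; ring
      rw [this, Complex.norm_real]; norm_num
    rw [hn, ← SqF_sub2 (fun x => f (x + (-1:ℝ) * I))]
    congr 1
    apply intervalIntegral.integral_congr
    intro t _
    simp only
    congr 1
    push_cast
    ring
  have e4 : segInt f (1 - I) (1 + I) = ∫ y in (-1:ℝ)..1, f ((1:ℝ) + y * I) := by
    unfold segInt
    have hn : ‖(1 + I) - (1 - I)‖ = 2 := by
      have : (1 + I) - (1 - I) = ((2 : ℝ) : ℂ) * I := by push_cast; ring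
      rw [this, norm_mul, Complex.norm_real, Complex.norm_I]; norm_num
    rw [hn, ← SqF_sub2 (fun y => f ((1:ℝ) + y * I))]
    congr 1
    apply intervalIntegral.integral_congr
    intro t _
    simp only
    congr 1
    push_cast
    ring
  unfold bd4 Bq
  rw [e1, e2, e3, e4, intervalIntegral.integral_add (SqE_int (by fun_prop) _ _)
    (SqE_int (by fun_prop) _ _), intervalIntegral.integral_add (SqE_int (by fun_prop) _ _)
    (SqE_int (by fun_prop) _ _)]
  ring

lemma SqF_grad {u : ℂ → ℝ} (hu : ContDiff ℝ 1 u) : Continuous (grad u) := by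
  have h1 : Continuous (fderiv ℝ u) := hu.continuous_fderiv (by norm_num)
  have e : grad u = fun z => ((fderiv ℝ u z 1 : ℝ) : ℂ) + ((fderiv ℝ u z I : ℝ) : ℂ) * I := by
    funext z
    apply Complex.ext <;> simp [grad]
  rw [e]
  have h2 : Continuous fun z => fderiv ℝ u z 1 := h1.clm_apply continuous_const
  have h3 : Continuous fun z => fderiv ℝ u z I := h1.clm_apply continuous_const
  fun_prop

theorem energy4_std {u : ℂ → ℝ} (hu : ContDiff ℝ 1 u) :
    energy4 (1 + I) (-1 + I) (-1 - I) (1 - I) u =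
      Eq4 (fun x y => (grad u (x + y * I)).re) (fun x y => (grad u (x + y * I)).im) := by
  have hg := SqF_grad hu
  unfold energy4 Eq4
  rw [quad_std]
  have hset : {z : ℂ | |z.re| ≤ 1 ∧ |z.im| ≤ 1} =
      measurableEquivRealProd ⁻¹' (Set.Icc (-1:ℝ) 1 ×ˢ Set.Icc (-1:ℝ) 1) := by
    ext z
    simp only [Set.mem_ofPred_eq, Set.mem_preimage, Set.mem_prod, Set.mem_Icc, abs_le,
      measurableEquivRealProd_apply]
  have hcong : ∀ z : ℂ, ‖grad u z‖ ^ 2 =
      (fun p : ℝ × ℝ => (grad u (p.1 + p.2 * I)).re ^ 2 + (grad u (p.1 + p.2 * I)).im ^ 2)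
        (measurableEquivRealProd z) := by
    intro z
    simp only [measurableEquivRealProd_apply, Complex.re_add_im]
    rw [Complex.sq_norm, Complex.normSq_apply]
    ring
  have hc : Continuous fun p : ℝ × ℝ =>
      (grad u (p.1 + p.2 * I)).re ^ 2 + (grad u (p.1 + p.2 * I)).im ^ 2 := by
    have h1 : Continuous fun p : ℝ × ℝ => grad u (p.1 + p.2 * I) := hg.comp (by fun_prop)
    exact ((Complex.continuous_re.comp h1).pow 2).add ((Complex.continuous_im.comp h1).pow 2)
  rw [hset]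
  rw [integral_congr_ae (Filter.Eventually.of_forall hcong)]
  have hpre := volume_preserving_equiv_real_prod.setIntegral_preimage_emb
    measurableEquivRealProd.measurableEmbedding
    (fun p : ℝ × ℝ => (grad u (p.1 + p.2 * I)).re ^ 2 + (grad u (p.1 + p.2 * I)).im ^ 2)
    (Set.Icc (-1:ℝ) 1 ×ˢ Set.Icc (-1:ℝ) 1)
  rw [hpre, Measure.volume_eq_prod, setIntegral_prod _ (by
      rw [← Measure.volume_eq_prod]
      exact hc.continuousOn.integrableOn_compact (isCompact_Icc.prod isCompact_Icc))]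
  rw [intervalIntegral.integral_of_le (by norm_num), ← integral_Icc_eq_integral_Ioc]
  congr 1
  funext x
  rw [intervalIntegral.integral_of_le (by norm_num), ← integral_Icc_eq_integral_Ioc]

lemma SqF_c1 {u : ℂ → ℝ} (hu : ContDiff ℝ 1 u) : C1f (fun x y => u (x + y * I))
    (fun x y => (grad u (x + y * I)).re) (fun x y => (grad u (x + y * I)).im) := by
  have hg := SqF_grad hu
  have hd : ∀ z, HasFDerivAt u (fderiv ℝ u z) z := fun z =>
    (hu.differentiable (by norm_num) z).hasFDerivAt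
  have h1 : Continuous fun p : ℝ × ℝ => grad u (p.1 + p.2 * I) := hg.comp (by fun_prop)
  refine ⟨fun x y => ?_, fun x y => ?_, ?_, Complex.continuous_re.comp h1,
    Complex.continuous_im.comp h1⟩
  · have h2 : HasDerivAt (fun s : ℝ => (s : ℂ) + y * I) 1 x :=
      (Complex.ofRealCLM.hasDerivAt (x := x)).add_const _
    exact (hd (x + y * I)).comp_hasDerivAt x h2
  · have h2 : HasDerivAt (fun s : ℝ => (x : ℂ) + s * I) (1 * I) y :=
      ((Complex.ofRealCLM.hasDerivAt (x := y)).mul_const I).const_add _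
    rw [one_mul] at h2
    exact (hd (x + y * I)).comp_hasDerivAt y h2
  · exact hu.continuous.comp (by fun_prop)

/-- Sq8. the infimum is over a nonempty set -/
theorem sq_lower {t : ℝ} (ht : Root t) :
    t * Real.tanh t ≤ sigma4 (1 + I) (-1 + I) (-1 - I) (1 - I) := by
  unfold sigma4
  apply le_csInf
  · refine ⟨_, fun z => z.re, Complex.reCLM.contDiff, ?_, ?_, rfl⟩
    · rw [bd4_std _ Complex.continuous_re]
      unfold Bq
      simp
    · rw [bd4_std (fun z => z.re ^ 2) (Complex.continuous_re.pow 2)]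
      unfold Bq
      have e1 : ∫ y in (-1:ℝ)..1, ((((1:ℝ):ℂ) + y * I).re ^ 2 + (((-1:ℝ):ℂ) + y * I).re ^ 2) = 4 := by
        simp
        norm_num
      have e2 : 0 ≤ ∫ x in (-1:ℝ)..1, (((x:ℂ) + (1:ℝ) * I).re ^ 2 + ((x:ℂ) + (-1:ℝ) * I).re ^ 2) :=
        intervalIntegral.integral_nonneg (by norm_num) fun x _ => by positivity
      rw [e1]
      linarith
  · rintro s ⟨u, hu, hb, hp, rfl⟩
    rw [le_div_iff₀ hp]
    rw [bd4_std _ hu.continuous] at hb
    rw [energy4_std hu, bd4_std (fun z => u z ^ 2) (hu.continuous.pow 2)]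
    exact sq_all ht (SqF_c1 hu) hb

end Pool.Agent.H32.Q4
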