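import Mathlib
import Pool.Agent.H32.Q4.NGn
import Pool.Agent.H32.Q4.SqF
import Pool.Agent.H32.Q4.Sim

set_option autoImplicit false

/-! Steklov problem on quadrilaterals: main theorems. -/

open Complex MeasureTheory

namespace Pool.Agent.H32.Q4

open Pool.Agent.H32.Stek

theorem isSq_swap {A B C D : ℂ} : IsSq A D C B ↔ IsSq A B C D := by
  unfold IsSq
  rw [dist_comm A D, dist_comm D C, dist_comm C B, dist_comm B A, dist_comm D B]
  constructor
  · rintro ⟨h0, h1, h2, h3, h4⟩; exact ⟨h0, h3.symm, h2.symm, h1.symm, h4⟩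
  · rintro ⟨h0, h1, h2, h3, h4⟩; exact ⟨h0, h3.symm, h2.symm, h1.symm, h4⟩

theorem isSq_sim {r : ℝ} (hr : 0 < r) {t A B C D : ℂ}
    (h : IsSq (r * A + t) (r * B + t) (r * C + t) (r * D + t)) : IsSq A B C D := by
  have hd : ∀ X Y : ℂ, dist ((r : ℂ) * X + t) (r * Y + t) = r * dist X Y := by
    intro X Y
    rw [dist_eq_norm, dist_eq_norm]
    have : (r : ℂ) * X + t - (r * Y + t) = r * (X - Y) := by ring
    rw [this, norm_mul, Complex.norm_real, Real.norm_of_nonneg hr.le]
  obtain ⟨h0, h1, h2, h3, h4⟩ := h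
  simp only [hd, mul_right_inj' hr.ne'] at h1 h2 h3 h4
  exact ⟨fun e => h0 (by rw [e]), h1, h2, h3, h4⟩

/-- positively oriented quadrilaterals -/
theorem pos_lt {t : ℝ} (ht : Root t) {A B C D : ℂ} (h1 : 0 < cr (B - A) (C - A))
    (h2 : 0 < cr (C - A) (D - A)) (hns : ¬ IsSq A B C D) :
    sigma4 A B C D * perim4 A B C D < cT t ∧
      area4 A B C D ≤ perim4 A B C D ^ 2 / 16 := by
  -- K, scaling, translation
  set K : ℝ := (cr (B - A) (C - A) + cr (C - A) (D - A)) / 2 with hK
  have hKpos : 0 < K := by rw [hK]; linarith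
  set r : ℝ := 2 / √K with hr
  have hsK : 0 < √K := Real.sqrt_pos.mpr hKpos
  have hrpos : 0 < r := by positivity
  have hr2 : r ^ 2 * K = 4 := by
    rw [hr, div_pow, Real.sq_sqrt hKpos.le]
    field_simp
    norm_num
  set P : ℂ := r * ((A + D - B - C) / 4) with hP
  set S : ℂ := r * ((A + B - C - D) / 4) with hS
  set γ : ℂ := r * ((A - B + C - D) / 4) with hγ
  set τ : ℂ := -(r * ((A + B + C + D) / 4)) with hτ
  have e1 : (r : ℂ) * A + τ = P + S + γ := by rw [hP, hS, hγ, hτ]; ring
  have e2 : (r : ℂ) * B + τ = -P + S - γ := by rw [hP, hS, hγ, hτ]; ring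
  have e3 : (r : ℂ) * C + τ = -P - S + γ := by rw [hP, hS, hγ, hτ]; ring
  have e4 : (r : ℂ) * D + τ = P - S - γ := by rw [hP, hS, hγ, hτ]; ring
  have hcr : ∀ z w : ℂ, cr (r * (z / 4)) (r * (w / 4)) = r ^ 2 / 16 * cr z w := by
    intro z w
    unfold cr
    have h4 : ∀ z : ℂ, ((r : ℂ) * (z / 4)).re = r * z.re / 4 ∧
        ((r : ℂ) * (z / 4)).im = r * z.im / 4 := by
      intro z
      have : (r : ℂ) * (z / 4) = ((r / 4 : ℝ) : ℂ) * z := by push_cast; ring
      rw [this, Complex.re_ofReal_mul, Complex.im_ofReal_mul]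
      constructor <;> ring
    rw [(h4 z).1, (h4 z).2, (h4 w).1, (h4 w).2]
    ring
  have hPS : cr P S = 1 := by
    rw [hP, hS, hcr]
    have : cr (A + D - B - C) (A + B - C - D) = 4 * K := by
      rw [hK]; unfold cr
      simp only [Complex.add_re, Complex.sub_re, Complex.add_im, Complex.sub_im]
      ring
    rw [this]; linarith
  have hcut : |cr P γ - cr γ S| < 1 := by
    rw [hP, hS, hγ, hcr, hcr, ← mul_sub, abs_mul, abs_of_pos (by positivity)]
    have : cr (A + D - B - C) (A - B + C - D) - cr (A - B + C - D) (A + B - C - D) =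
        2 * (cr (C - A) (D - A) - cr (B - A) (C - A)) := by
      unfold cr
      simp only [Complex.add_re, Complex.sub_re, Complex.add_im, Complex.sub_im]
      ring
    rw [this]
    have h3 : |2 * (cr (C - A) (D - A) - cr (B - A) (C - A))| < 4 * K := by
      rw [abs_lt, hK]; constructor <;> linarith
    have h4 : r ^ 2 / 16 * |2 * (cr (C - A) (D - A) - cr (B - A) (C - A))| <
        r ^ 2 / 16 * (4 * K) := mul_lt_mul_of_pos_left h3 (by positivity)
    linarith
  have hr0 : (r : ℂ) ≠ 0 := by exact_mod_cast hrpos.ne'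
  have hns' : ¬ IsSq (P + S + γ) (-P + S - γ) (-P - S + γ) (P - S - γ) := by
    rw [← e1, ← e2, ← e3, ← e4]
    exact fun h => hns (isSq_sim hrpos h)
  have hmain := norm_lt ht hPS hcut hns'
  rw [← e1, ← e2, ← e3, ← e4, sigma4_sim hr0, perim4_sim] at hmain
  have hnr : ‖(r : ℂ)‖ = r := by rw [Complex.norm_real, Real.norm_of_nonneg hrpos.le]
  rw [hnr] at hmain
  refine ⟨?_, ?_⟩
  · have : sigma4 A B C D / r * (r * perim4 A B C D) = sigma4 A B C D * perim4 A B C D := by
      field_simp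
    rwa [this] at hmain
  · have hiso := iso (V1 := A) (V2 := B) (V3 := C) (V4 := D) hKpos (by
      rw [hK]; unfold cr
      simp only [Complex.sub_re, Complex.sub_im]
      ring)
    have ha := area4_le A B C D
    rw [abs_of_pos h1, abs_of_pos h2, ← hK] at ha
    linarith

/-- all quadrilaterals that are not squares -/
theorem cut_lt {t : ℝ} (ht : Root t) {A B C D : ℂ} (h : Cut A B C D) (hns : ¬ IsSq A B C D) :
    sigma4 A B C D * perim4 A B C D < cT t ∧
      area4 A B C D ≤ perim4 A B C D ^ 2 / 16 := by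
  have key : cr (B - A) (C - A) = -cr (C - A) (B - A) := by unfold cr; ring
  have key2 : cr (D - A) (C - A) = -cr (C - A) (D - A) := by unfold cr; ring
  unfold Cut at h
  rcases mul_neg_iff.mp h with ⟨h1, h2⟩ | ⟨h1, h2⟩
  · have := pos_lt ht (A := A) (B := D) (C := C) (D := B) (by rw [key2]; linarith) h1
      (fun h => hns (isSq_swap.mp h))
    rwa [sigma4_swap, perim4_swap, area4_swap] at this
  · exact pos_lt ht (by rw [key]; linarith) h2 hns

theorem perim4_pos {A B C D : ℂ} (h : Cut A B C D) : 0 < perim4 A B C D := by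
  unfold perim4
  have hAB : A ≠ B := by
    rintro rfl
    unfold Cut cr at h
    simp at h
  have := dist_pos.mpr hAB
  have := dist_nonneg (x := B) (y := C)
  have := dist_nonneg (x := C) (y := D)
  have := dist_nonneg (x := D) (y := A)
  linarith

/-- squares -/
theorem sq_value {t : ℝ} (ht : Root t) {A B C D : ℂ} (h : IsSq A B C D) :
    sigma4 A B C D * perim4 A B C D =
        sigma4 (1 + I) (-1 + I) (-1 - I) (1 - I) * 8 ∧
      cT t ≤ sigma4 A B C D * perim4 A B C D ∧
      √(area4 A B C D) = perim4 A B C D / 4 := by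
  have hp8 : perim4 (1 + I) (-1 + I) (-1 - I) (1 - I) = 8 := by
    unfold perim4
    rw [Complex.dist_eq, Complex.dist_eq, Complex.dist_eq, Complex.dist_eq]
    have e1 : (1 + I : ℂ) - (-1 + I) = 2 := by ring
    have e2 : (-1 + I : ℂ) - (-1 - I) = 2 * I := by ring
    have e3 : (-1 - I : ℂ) - (1 - I) = -2 := by ring
    have e4 : (1 - I : ℂ) - (1 + I) = -(2 * I) := by ring
    rw [e1, e2, e3, e4]
    simp
    norm_num
  have main : ∀ {A B C D : ℂ} (a τ : ℂ), a ≠ 0 → A = a * (1 + I) + τ → B = a * (-1 + I) + τ →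
      C = a * (-1 - I) + τ → D = a * (1 - I) + τ →
      sigma4 A B C D * perim4 A B C D = sigma4 (1 + I) (-1 + I) (-1 - I) (1 - I) * 8 ∧
      cT t ≤ sigma4 A B C D * perim4 A B C D ∧
      √(area4 A B C D) = perim4 A B C D / 4 := by
    intro A B C D a τ ha hA hB hC hD
    have ha' : 0 < ‖a‖ := norm_pos_iff.mpr ha
    have h1 : sigma4 A B C D * perim4 A B C D =
        sigma4 (1 + I) (-1 + I) (-1 - I) (1 - I) * 8 := by
      rw [hA, hB, hC, hD, sigma4_sim ha, perim4_sim, hp8]
      field_simp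
    refine ⟨h1, ?_, ?_⟩
    · rw [h1]
      have := sq_lower ht
      unfold cT
      linarith
    · rw [hA, hB, hC, hD, area4_sim ha, perim4_sim, hp8, area4_std]
      have : ‖a‖ ^ 2 * 4 = (‖a‖ * 2) ^ 2 := by ring
      rw [this, Real.sqrt_sq (by positivity)]
      ring
  obtain ⟨a, τ, ha, hA, hC, hBD⟩ := sq_normal h
  rcases hBD with ⟨hB, hD⟩ | ⟨hD, hB⟩
  · exact main a τ ha hA hB hC hD
  · have := main a τ ha hA hD hC hB
    rwa [sigma4_swap, perim4_swap, area4_swap] at this

theorem perimeter4_main {A B C D P Q R S : ℂ} (h : Cut A B C D) (hS : IsSq P Q R S) :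
    sigma4 A B C D * perim4 A B C D ≤ sigma4 P Q R S * perim4 P Q R S ∧
      (sigma4 A B C D * perim4 A B C D = sigma4 P Q R S * perim4 P Q R S → IsSq A B C D) := by
  obtain ⟨t, ht⟩ := exists_root
  by_cases hs : IsSq A B C D
  · exact ⟨by rw [(sq_value ht hs).1, (sq_value ht hS).1], fun _ => hs⟩
  · have h1 := (cut_lt ht h hs).1
    have h2 := (sq_value ht hS).2.1
    exact ⟨(h1.trans_le h2).le, fun e => absurd e (h1.trans_le h2).ne⟩

theorem area4_main {A B C D P Q R S : ℂ} (h : Cut A B C D) (hS : IsSq P Q R S) :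
    sigma4 A B C D * √(area4 A B C D) ≤ sigma4 P Q R S * √(area4 P Q R S) ∧
      (sigma4 A B C D * √(area4 A B C D) = sigma4 P Q R S * √(area4 P Q R S) →
        IsSq A B C D) := by
  obtain ⟨t, ht⟩ := exists_root
  by_cases hs : IsSq A B C D
  · refine ⟨?_, fun _ => hs⟩
    rw [(sq_value ht hs).2.2, (sq_value ht hS).2.2]
    have h1 := (sq_value ht hs).1
    have h2 := (sq_value ht hS).1
    linarith
  · obtain ⟨h1, h3⟩ := cut_lt ht h hs
    have h2 := (sq_value ht hS).2.1
    have h4 := (sq_value ht hS).2.2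
    have hσ := sigma4_nonneg A B C D
    have hL := perim4_pos h
    have h5 : √(area4 A B C D) ≤ perim4 A B C D / 4 := by
      rw [Real.sqrt_le_left (by positivity)]
      linarith
    have h6 : sigma4 A B C D * √(area4 A B C D) < sigma4 P Q R S * √(area4 P Q R S) := by
      rw [h4]
      have := mul_le_mul_of_nonneg_left h5 hσ
      linarith
    exact ⟨h6.le, fun e => absurd e h6.ne⟩

end Pool.Agent.H32.Q4
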